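import Pool.Agent.Helper524.Mono.Defs

set_option autoImplicit false

open MeasureTheory Set Metric
open scoped InnerProductSpace

namespace Pool.Agent.Helper524.Mono

lemma bddAbove_inner {K : Set E3} (hK : IsCompact K) (u : E3) :
    BddAbove ((fun x => ⟪u, x⟫_ℝ) '' K) :=
  (hK.image (by fun_prop)).bddAbove

lemma inner_le_supp {K : Set E3} (hK : IsCompact K) {x : E3} (hx : x ∈ K) (u : E3) :
    ⟪u, x⟫_ℝ ≤ supp K u :=
  le_csSup (bddAbove_inner hK u) ⟨x, hx, rfl⟩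

lemma exists_supp {K : Set E3} (hK : IsCompact K) (hne : K.Nonempty) (u : E3) :
    ∃ x ∈ K, ⟪u, x⟫_ℝ = supp K u := by
  obtain ⟨x, hx, hmax⟩ := hK.exists_isMaxOn hne
    (f := fun x => ⟪u, x⟫_ℝ) (by fun_prop)
  refine ⟨x, hx, le_antisymm (inner_le_supp hK hx u) ?_⟩
  refine csSup_le (hne.image _) ?_
  rintro _ ⟨y, hy, rfl⟩
  exact hmax hy

lemma supp_le {K : Set E3} (hne : K.Nonempty) {u : E3} {c : ℝ}
    (h : ∀ x ∈ K, ⟪u, x⟫_ℝ ≤ c) : supp K u ≤ c := by
  refine csSup_le (hne.image _) ?_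
  rintro _ ⟨y, hy, rfl⟩
  exact h y hy

lemma supp_sub_le {K : Set E3} (hK : IsCompact K) (hne : K.Nonempty) {R : ℝ}
    (hR : K ⊆ closedBall 0 R) (u v : E3) : supp K u ≤ supp K v + R * ‖u - v‖ := by
  refine supp_le hne fun x hx => ?_
  have h1 : ⟪u, x⟫_ℝ = ⟪v, x⟫_ℝ + ⟪u - v, x⟫_ℝ := by rw [inner_sub_left]; ring
  have h2 : ⟪u - v, x⟫_ℝ ≤ ‖u - v‖ * ‖x‖ := real_inner_le_norm _ _
  have h3 : ‖x‖ ≤ R := mem_closedBall_zero_iff.1 (hR hx)
  have h4 := inner_le_supp hK hx v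
  nlinarith [norm_nonneg (u - v)]

lemma continuous_supp {K : Set E3} (hK : IsCompact K) (hne : K.Nonempty) :
    Continuous (supp K) := by
  obtain ⟨R, hR⟩ := hK.isBounded.subset_closedBall (0 : E3)
  have hR' : K ⊆ closedBall 0 (max R 0) := hR.trans (closedBall_subset_closedBall (le_max_left _ _))
  refine LipschitzWith.continuous (K := ⟨max R 0, le_max_right _ _⟩) ?_
  refine LipschitzWith.of_dist_le_mul fun u v => ?_
  rw [Real.dist_eq, dist_eq_norm, abs_le]
  have h1 := supp_sub_le hK hne hR' u v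
  have h2 := supp_sub_le hK hne hR' v u
  rw [norm_sub_rev v u] at h2
  constructor
  · show -(max R 0 * ‖u - v‖) ≤ _
    linarith
  · show _ ≤ (max R 0 * ‖u - v‖)
    linarith

lemma supp_smul_right {K : Set E3} (hK : IsCompact K) (hne : K.Nonempty) {c : ℝ} (hc : 0 ≤ c)
    (u : E3) : supp K (c • u) = c * supp K u := by
  obtain ⟨x, hx, hxe⟩ := exists_supp hK hne u
  refine le_antisymm (supp_le hne fun y hy => ?_) ?_
  · rw [real_inner_smul_left]
    exact mul_le_mul_of_nonneg_left (inner_le_supp hK hy u) hc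
  · rw [← hxe, ← real_inner_smul_left]
    exact inner_le_supp hK hx _

lemma supp_add_le {K : Set E3} (hK : IsCompact K) (hne : K.Nonempty) (u v : E3) :
    supp K (u + v) ≤ supp K u + supp K v := by
  refine supp_le hne fun x hx => ?_
  rw [inner_add_left]
  exact add_le_add (inner_le_supp hK hx u) (inner_le_supp hK hx v)

/-- A point outside a compact convex set is strictly separated from it by a unit vector. -/
lemma exists_sep {K : Set E3} (hK : IsCompact K) (hc : Convex ℝ K) (hne : K.Nonempty) {x : E3}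
    (hx : x ∉ K) : ∃ u : E3, ‖u‖ = 1 ∧ supp K u < ⟪u, x⟫_ℝ := by
  obtain ⟨f, c, hf1, hf2⟩ := geometric_hahn_banach_closed_point hc hK.isClosed hx
  set w : E3 := (InnerProductSpace.toDual ℝ E3).symm f with hw
  have hfw : ∀ y, f y = ⟪w, y⟫_ℝ := fun y => by
    rw [hw, InnerProductSpace.toDual_symm_apply]
  have hw0 : w ≠ 0 := by
    intro h0
    obtain ⟨y, hy⟩ := hne
    have h1 := hf1 y hy
    rw [hfw, h0, inner_zero_left] at h1
    rw [hfw, h0, inner_zero_left] at hf2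
    linarith
  have hwn : 0 < ‖w‖ := norm_pos_iff.2 hw0
  refine ⟨‖w‖⁻¹ • w, by rw [norm_smul, norm_inv, norm_norm, inv_mul_cancel₀ hwn.ne'], ?_⟩
  have h1 : supp K w ≤ c := supp_le hne fun y hy => by rw [← hfw]; exact (hf1 y hy).le
  rw [supp_smul_right hK hne (inv_nonneg.2 hwn.le), real_inner_smul_left]
  refine mul_lt_mul_of_pos_left ?_ (inv_pos.2 hwn)
  rw [← hfw]
  linarith

lemma mem_of_inner_le_supp {K : Set E3} (hK : IsCompact K) (hc : Convex ℝ K) (hne : K.Nonempty)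
    {x : E3} (h : ∀ u : E3, ‖u‖ = 1 → ⟪u, x⟫_ℝ ≤ supp K u) : x ∈ K := by
  by_contra hx
  obtain ⟨u, hu, hlt⟩ := exists_sep hK hc hne hx
  exact absurd (h u hu) (not_le.2 hlt)

lemma le_supp_of_ball {K : Set E3} (hK : IsCompact K) {m : ℝ} (hm : 0 ≤ m)
    (hball : closedBall (0 : E3) m ⊆ K) {u : E3} (hu : ‖u‖ = 1) : m ≤ supp K u := by
  have h1 : m • u ∈ K := hball (by
    rw [mem_closedBall_zero_iff, norm_smul, hu, mul_one, Real.norm_eq_abs, abs_of_nonneg hm])
  have h2 := inner_le_supp hK h1 u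
  rw [real_inner_smul_right, real_inner_self_eq_norm_sq, hu] at h2
  linarith

lemma supp_le_of_subset_ball {K : Set E3} (hne : K.Nonempty) {R : ℝ}
    (hR : K ⊆ closedBall 0 R) {u : E3} (hu : ‖u‖ = 1) : supp K u ≤ R := by
  refine supp_le hne fun x hx => ?_
  have h2 : ⟪u, x⟫_ℝ ≤ ‖u‖ * ‖x‖ := real_inner_le_norm _ _
  have h3 : ‖x‖ ≤ R := mem_closedBall_zero_iff.1 (hR hx)
  rw [hu, one_mul] at h2
  linarith

end Pool.Agent.Helper524.Mono
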