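import Mathlib

set_option autoImplicit false

open MeasureTheory Set Metric
open scoped InnerProductSpace

namespace Pool.Agent.Helper524.Mono

/-- Three-dimensional Euclidean space. -/
abbrev E3 : Type := EuclideanSpace ℝ (Fin 3)

/-- A convex body: a compact convex set with nonempty interior. -/
def IsBody (K : Set E3) : Prop := IsCompact K ∧ Convex ℝ K ∧ (interior K).Nonempty

/-- The centre of mass (uniform density). -/
noncomputable def com (K : Set E3) : E3 := (volume.real K)⁻¹ • ∫ x in K, x

/-- The support function. -/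
noncomputable def supp (K : Set E3) (u : E3) : ℝ := sSup ((fun x => ⟪u, x⟫_ℝ) '' K)

/-- The height of the centre of mass above the supporting plane with outer unit normal `u`
(the potential energy of `K` lying on a horizontal table that touches `K` along this plane). -/
noncomputable def height (K : Set E3) (u : E3) : ℝ := supp K u - ⟪u, com K⟫_ℝ

/-- The solution set of a finite system of linear inequalities. -/
def poly (T : Finset (E3 × ℝ)) : Set E3 := {x | ∀ p ∈ T, ⟪p.1, x⟫_ℝ ≤ p.2}

/-- A convex polyhedron: a compact set with nonempty interior that is the intersection of finitely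
many closed half-spaces. -/
def IsPolyhedron (P : Set E3) : Prop :=
  IsCompact P ∧ (interior P).Nonempty ∧ ∃ T : Finset (E3 × ℝ), P = poly T

/-- The set of all points of `P` that are extreme in direction `u`. -/
def face (P : Set E3) (u : E3) : Set E3 := {x | x ∈ P ∧ ∀ y ∈ P, ⟪u, y⟫_ℝ ≤ ⟪u, x⟫_ℝ}

/-- `F` is a 2-dimensional face of `P`. -/
def IsFace2 (P F : Set E3) : Prop :=
  ∃ u : E3, u ≠ 0 ∧ F = face P u ∧ Module.finrank ℝ (vectorSpan ℝ F) = 2

/-- The face `F` of `P` is stable: the orthogonal projection `p` of the centre of mass of `P` to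
the plane of `F` lies in the relative interior of `F`. -/
def IsStable (P F : Set E3) : Prop :=
  IsFace2 P F ∧ ∃ p ∈ intrinsicInterior ℝ F, ∀ x ∈ F, ⟪com P - p, x - p⟫_ℝ = 0

/-- A monostable polyhedron. -/
def IsMonostable (P : Set E3) : Prop := IsPolyhedron P ∧ ∃! F : Set E3, IsStable P F

/-- `K` is a limit, in the Hausdorff metric, of monostable polyhedra. -/
def Approximable (K : Set E3) : Prop :=
  ∀ ε : ℝ, 0 < ε → ∃ P : Set E3, IsMonostable P ∧ hausdorffDist K P < ε

/-- The energy landscape of `K` has a single basin: all its sublevel sets are connected. -/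
def SingleBasin (K : Set E3) : Prop :=
  ∀ r : ℝ, IsPreconnected {u : E3 | ‖u‖ = 1 ∧ height K u < r}

/-- `u` is the only outer unit normal of `K` at its boundary point `x`. -/
def UniqueNormal (K : Set E3) (x u : E3) : Prop :=
  x ∈ K ∧ ‖u‖ = 1 ∧ ∀ v : E3, ‖v‖ = 1 → ((∀ y ∈ K, ⟪v, y⟫_ℝ ≤ ⟪v, x⟫_ℝ) ↔ v = u)

/-- Some tangent plane of `K` (at a boundary point with only one supporting plane) is such that
the foot of the perpendicular from the centre of mass to this plane is not a point of `K`. -/
def Tilted (K : Set E3) : Prop :=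
  ∃ x u : E3, UniqueNormal K x u ∧ com K + height K u • u ∉ K

/-- `p` rolls over to `q`: the foot of the perpendicular from the origin to the plane
`⟪p.1, x⟫ = p.2` is not strictly inside the half-space `⟪q.1, x⟫ ≤ q.2`. -/
def Step (p q : E3 × ℝ) : Prop := q.2 * ‖p.1‖ ^ 2 ≤ p.2 * ⟪p.1, q.1⟫_ℝ

/-- Every inequality of the system rolls in finitely many steps to `τ`. -/
def Rolls (T : Finset (E3 × ℝ)) (τ : E3 × ℝ) : Prop :=
  τ ∈ T ∧ ∀ p ∈ T, Relation.ReflTransGen (fun a b => b ∈ T ∧ Step a b) p τ

end Pool.Agent.Helper524.Mono
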