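import Pool.Agent.Helper524.Mono.Basic

set_option autoImplicit false

open MeasureTheory Set Metric
open scoped InnerProductSpace

namespace Pool.Agent.Helper524.Mono

/-- All sublevel sets of `g` on the unit sphere are connected. -/
def SB (g : E3 → ℝ) : Prop := ∀ r : ℝ, IsPreconnected {u : E3 | ‖u‖ = 1 ∧ g u < r}

/-- A convex body with the centre of mass at the origin. -/
def CB (K : Set E3) : Prop :=
  IsCompact K ∧ Convex ℝ K ∧ (0 : E3) ∈ interior K ∧ ∫ x in K, x = 0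

/-- Tilting the normal of a half-space by `χ • b`. -/
noncomputable def tilt (χ : E3 → ℝ) (b : E3) (p : E3 × ℝ) : E3 × ℝ := (p.1 - χ p.1 • b, p.2)

open Classical in
/-- Tilting all half-spaces of a finite system. -/
noncomputable def tiltSys (χ : E3 → ℝ) (b : E3) (T : Finset (E3 × ℝ)) : Finset (E3 × ℝ) :=
  T.image (tilt χ b)

/-- The body cut out by all tilted half-spaces. -/
def Wulff (g χ : E3 → ℝ) (b : E3) : Set E3 :=
  {x | ∀ v : E3, ‖v‖ = 1 → ⟪v - χ v • b, x⟫_ℝ ≤ g v}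

/-- `p` rolls over to `q` for all small tilts. -/
def StepB (χ : E3 → ℝ) (τ0 : ℝ) (p q : E3 × ℝ) : Prop :=
  ∀ b : E3, ‖b‖ ≤ τ0 → Step (tilt χ b p) (tilt χ b q)

/-- Every inequality of the system rolls in finitely many steps to `τ`, for all small tilts. -/
def RollsB (χ : E3 → ℝ) (τ0 : ℝ) (T : Finset (E3 × ℝ)) (τ : E3 × ℝ) : Prop :=
  τ ∈ T ∧ ∀ p ∈ T, Relation.ReflTransGen (fun a c => c ∈ T ∧ StepB χ τ0 a c) p τ

/-- Points of `K` having an outer unit normal `n` such that the foot of the perpendicular from the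
origin to the corresponding supporting plane is not in `K`. -/
def XJ (K : Set E3) : Set E3 :=
  {x | x ∈ K ∧ ∃ n : E3, ‖n‖ = 1 ∧ ⟪n, x⟫_ℝ = supp K n ∧ supp K n • n ∉ K}

/-- `Tilted`, for a body with the centre of mass at the origin. -/
def Tilted0 (K : Set E3) : Prop :=
  ∃ x u : E3, UniqueNormal K x u ∧ supp K u • u ∉ K

/-- Directions without a jump of margin more than `δ`. -/
def Aset (K : Set E3) (δ : ℝ) : Set E3 :=
  {v | ‖v‖ = 1 ∧ ∀ w : E3, ‖w‖ = 1 → supp K v * ⟪v, w⟫_ℝ ≤ supp K w + δ}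

/-- Cut-off function supported in the jump region. -/
noncomputable def chi (K : Set E3) (δ : ℝ) (v : E3) : ℝ := min 1 (infDist v (Aset K δ))

/-- The convex hull of `K` and the ball of radius `c`. -/
def Raise (K : Set E3) (c : ℝ) : Set E3 :=
  {x | ∀ v : E3, ‖v‖ = 1 → ⟪v, x⟫_ℝ ≤ max (supp K v) c}

/-- The convex hull of `K` and the two points `± c • b`. -/
def Bump (K : Set E3) (b : E3) (c : ℝ) : Set E3 :=
  {x | ∀ v : E3, ‖v‖ = 1 → ⟪v, x⟫_ℝ ≤ max (supp K v) (c * |⟪b, v⟫_ℝ|)}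

lemma mem_tiltSys {χ : E3 → ℝ} {b : E3} {T : Finset (E3 × ℝ)} {p : E3 × ℝ} :
    p ∈ tiltSys χ b T ↔ ∃ q ∈ T, tilt χ b q = p := by
  classical
  unfold tiltSys
  simp only [Finset.mem_image]

lemma rolls_tiltSys {χ : E3 → ℝ} {τ0 : ℝ} {T : Finset (E3 × ℝ)} {τ : E3 × ℝ}
    (h : RollsB χ τ0 T τ) {b : E3} (hb : ‖b‖ ≤ τ0) :
    Rolls (tiltSys χ b T) (tilt χ b τ) := by
  refine ⟨mem_tiltSys.2 ⟨τ, h.1, rfl⟩, ?_⟩
  intro p hp
  obtain ⟨q, hq, rfl⟩ := mem_tiltSys.1 hp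
  exact (h.2 q hq).lift (tilt χ b) fun a c hac => ⟨mem_tiltSys.2 ⟨c, hac.1, rfl⟩, hac.2 b hb⟩

lemma mem_poly_tiltSys {χ : E3 → ℝ} {b : E3} {T : Finset (E3 × ℝ)} {x : E3} :
    x ∈ poly (tiltSys χ b T) ↔ ∀ q ∈ T, ⟪q.1 - χ q.1 • b, x⟫_ℝ ≤ q.2 := by
  constructor
  · intro h q hq
    exact h _ (mem_tiltSys.2 ⟨q, hq, rfl⟩)
  · intro h p hp
    obtain ⟨q, hq, rfl⟩ := mem_tiltSys.1 hp
    exact h q hq

end Pool.Agent.Helper524.Mono
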