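import Pool.Agent.Helper524.Mono.Gen

set_option autoImplicit false

open MeasureTheory Set Metric
open scoped InnerProductSpace

namespace Pool.Agent.Helper524.Mono

namespace N_approx_closed


/-- TARGET -/
theorem approx_closed (K : Set E3) (hK : IsBody K)
    (h : ∀ ε : ℝ, 0 < ε → ∃ K' : Set E3, IsBody K' ∧ Approximable K' ∧ hausdorffDist K K' < ε) :
    Approximable K := by
  intro ε hε
  obtain ⟨K', hK', hap, hd⟩ := h (ε / 2) (by linarith)
  obtain ⟨P, hP, hd'⟩ := hap (ε / 2) (by linarith)
  refine ⟨P, hP, ?_⟩
  have hfin : hausdorffEDist K K' ≠ ⊤ :=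
    hausdorffEDist_ne_top_of_nonempty_of_bounded
      (hK.2.2.mono interior_subset) (hK'.2.2.mono interior_subset) hK.1.isBounded hK'.1.isBounded
  have h1 := hausdorffDist_triangle (u := P) hfin
  linarith


end N_approx_closed

alias approx_closed := N_approx_closed.approx_closed

end Pool.Agent.Helper524.Mono
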