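import Pool.Agent.Helper524.Mono.Gen

set_option autoImplicit false

open MeasureTheory Set Metric
open scoped InnerProductSpace

namespace Pool.Agent.Helper524.Mono

namespace N_chi_props


private lemma aset_closed {K : Set E3} (hK : IsCompact K) (hne : K.Nonempty) (δ : ℝ) :
    IsClosed (Aset K δ) := by
  have hs := continuous_supp hK hne
  have e : Aset K δ = {v : E3 | ‖v‖ = 1} ∩ ⋂ (w : E3) (_ : ‖w‖ = 1),
      {v : E3 | supp K v * ⟪v, w⟫_ℝ ≤ supp K w + δ} := by
    ext v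
    simp [Aset]
  rw [e]
  refine (isClosed_eq continuous_norm continuous_const).inter ?_
  refine isClosed_iInter fun w => isClosed_iInter fun _ => ?_
  exact isClosed_le (hs.mul (by fun_prop)) continuous_const

private lemma aset_nonempty {K : Set E3} (hK : IsCompact K) (h0 : (0 : E3) ∈ K) {δ : ℝ}
    (hδ : 0 < δ) : (Aset K δ).Nonempty := by
  have hne : K.Nonempty := ⟨0, h0⟩
  have hs := continuous_supp hK hne
  have hsn : (sphere (0 : E3) 1).Nonempty := NormedSpace.sphere_nonempty.2 zero_le_one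
  obtain ⟨v0, hv0, hmin⟩ := (isCompact_sphere (0 : E3) 1).exists_isMinOn hsn hs.continuousOn
  have hv0' : ‖v0‖ = 1 := by simpa using hv0
  refine ⟨v0, hv0', fun w hw => ?_⟩
  have h1 : supp K v0 ≤ supp K w := hmin (show w ∈ sphere (0 : E3) 1 by simpa using hw)
  have h2 : 0 ≤ supp K v0 := by
    have := inner_le_supp hK h0 v0
    rwa [inner_zero_right] at this
  have h3 : ⟪v0, w⟫_ℝ ≤ 1 := by
    have := real_inner_le_norm v0 w
    rwa [hv0', hw, one_mul] at this
  nlinarith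

/-- TARGET -/
theorem chi_props (K : Set E3) (hK : IsCompact K) (hc : Convex ℝ K)
    (h0 : (0 : E3) ∈ interior K) :
    (∀ δ : ℝ, Continuous (chi K δ) ∧ ∀ v, 0 ≤ chi K δ v ∧ chi K δ v ≤ 1) ∧
    (∀ δ : ℝ, ∀ v : E3, ‖v‖ = 1 → chi K δ v ≠ 0 → ∃ w : E3, ‖w‖ = 1 ∧
      supp K w + δ ≤ supp K v * ⟪v, w⟫_ℝ) ∧
    (∀ n : E3, ‖n‖ = 1 → supp K n • n ∉ K → ∃ δ0 : ℝ, 0 < δ0 ∧ ∃ r : ℝ, 0 < r ∧
      ∀ δ : ℝ, 0 < δ → δ ≤ δ0 → ∀ v : E3, ‖v‖ = 1 → ‖v - n‖ < r → 0 < chi K δ v) := by
  have h0K : (0 : E3) ∈ K := interior_subset h0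
  have hne : K.Nonempty := ⟨0, h0K⟩
  have hs := continuous_supp hK hne
  refine ⟨fun δ => ⟨?_, fun v => ⟨?_, ?_⟩⟩, fun δ v hv hchi => ?_, fun n hn hnK => ?_⟩
  · unfold chi
    exact continuous_const.min (continuous_infDist_pt _)
  · exact le_min zero_le_one infDist_nonneg
  · exact min_le_left _ _
  · by_contra hcon
    push Not at hcon
    apply hchi
    have hmem : v ∈ Aset K δ := ⟨hv, fun w hw => (hcon w hw).le⟩
    unfold chi
    rw [infDist_zero_of_mem hmem]
    simp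
  · obtain ⟨u, hu, hlt⟩ := exists_sep hK hc hne hnK
    rw [real_inner_smul_right, real_inner_comm] at hlt
    set φ : E3 → ℝ := fun v => supp K v * ⟪v, u⟫_ℝ with hφ
    have hφc : Continuous φ := hs.mul (by fun_prop)
    set δ0 : ℝ := (φ n - supp K u) / 2 with hδ0
    have hlt' : supp K u < φ n := hlt
    have hδ0pos : 0 < δ0 := by rw [hδ0]; linarith
    have hev : ∀ᶠ v in nhds n, supp K u + δ0 < φ v := by
      refine hφc.continuousAt.eventually_const_lt ?_
      rw [hδ0]; linarith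
    obtain ⟨r, hr, hball⟩ := Metric.eventually_nhds_iff.1 hev
    refine ⟨δ0, hδ0pos, r, hr, fun δ hδ hδle v hv hvn => ?_⟩
    have h1 : supp K u + δ0 < φ v := hball (by rwa [dist_eq_norm])
    have h2 : v ∉ Aset K δ := fun hmem => by
      have := hmem.2 u hu
      have h3 : φ v = supp K v * ⟪v, u⟫_ℝ := rfl
      linarith
    have h3 := ((aset_closed hK hne δ).notMem_iff_infDist_pos (aset_nonempty hK h0K hδ)).1 h2
    exact lt_min zero_lt_one h3


end N_chi_props

alias chi_props := N_chi_props.chi_props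

end Pool.Agent.Helper524.Mono
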