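import Pool.Agent.Helper524.Mono.Gen

set_option autoImplicit false

open MeasureTheory Set Metric
open scoped InnerProductSpace

namespace Pool.Agent.Helper524.Mono

namespace N_hausdorff_of_sandwich


/-- TARGET -/
theorem hausdorff_of_sandwich (A B : Set E3) (R t : ℝ) (hR : 0 ≤ R) (ht0 : 0 < t) (ht : t < 1)
    (hA : A ⊆ closedBall 0 R) (hB : B ⊆ closedBall 0 R) (hAB : ∀ x ∈ A, t • x ∈ B)
    (hBA : ∀ x ∈ B, t • x ∈ A) : hausdorffDist A B ≤ (1 - t) * R := by
  have key : ∀ x : E3, x ∈ closedBall (0 : E3) R → dist x (t • x) ≤ (1 - t) * R := by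
    intro x hx
    have h1 : x - t • x = (1 - t) • x := by module
    rw [dist_eq_norm, h1, norm_smul, Real.norm_eq_abs, abs_of_pos (by linarith)]
    exact mul_le_mul_of_nonneg_left (mem_closedBall_zero_iff.1 hx) (by linarith)
  refine hausdorffDist_le_of_mem_dist (mul_nonneg (by linarith) hR) ?_ ?_
  · intro x hx
    exact ⟨t • x, hAB x hx, key x (hA hx)⟩
  · intro x hx
    exact ⟨t • x, hBA x hx, key x (hB hx)⟩


end N_hausdorff_of_sandwich

alias hausdorff_of_sandwich := N_hausdorff_of_sandwich.hausdorff_of_sandwich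

end Pool.Agent.Helper524.Mono
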