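import Pool.Agent.Helper524.Mono.Gen

set_option autoImplicit false

open MeasureTheory Set Metric
open scoped InnerProductSpace

namespace Pool.Agent.Helper524.Mono

namespace N_wulff_basic


/-- TARGET -/
theorem wulff_basic (g χ : E3 → ℝ) (m R : ℝ) (hm : 0 < m)
    (hgm : ∀ v : E3, ‖v‖ = 1 → m ≤ g v ∧ g v ≤ R) (hχ : ∀ v, 0 ≤ χ v ∧ χ v ≤ 1)
    (b : E3) (hb : ‖b‖ ≤ 1 / 2) :
    IsCompact (Wulff g χ b) ∧ Convex ℝ (Wulff g χ b) ∧ closedBall 0 (m / 2) ⊆ Wulff g χ b ∧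
      Wulff g χ b ⊆ closedBall 0 (2 * R) := by
  have hW : Wulff g χ b = ⋂ v : E3, ⋂ _ : ‖v‖ = 1, {x | ⟪v - χ v • b, x⟫_ℝ ≤ g v} := by
    ext x
    simp [Wulff]
  have hRpos : 0 ≤ R := by
    have h1 : ‖(EuclideanSpace.single 0 1 : E3)‖ = 1 := by simp
    obtain ⟨h2, h3⟩ := hgm _ h1
    linarith
  have hsub : Wulff g χ b ⊆ closedBall 0 (2 * R) := by
    intro x hx
    rw [mem_closedBall_zero_iff]
    by_cases hx0 : x = 0
    · rw [hx0, norm_zero]; linarith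
    have hxn : 0 < ‖x‖ := norm_pos_iff.mpr hx0
    set v : E3 := ‖x‖⁻¹ • x with hv
    have hv1 : ‖v‖ = 1 := by
      rw [hv, norm_smul, norm_inv, norm_norm, inv_mul_cancel₀ hxn.ne']
    have h1 := hx v hv1
    rw [inner_sub_left, real_inner_smul_left b x (χ v)] at h1
    have h2 : ⟪v, x⟫_ℝ = ‖x‖ := by
      rw [hv, real_inner_smul_left, real_inner_self_eq_norm_sq]
      field_simp
    have h3 : ⟪b, x⟫_ℝ ≤ ‖b‖ * ‖x‖ := real_inner_le_norm _ _
    have h4 : ‖b‖ * ‖x‖ ≤ 1 / 2 * ‖x‖ := mul_le_mul_of_nonneg_right hb hxn.le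
    have h5 : χ v * ⟪b, x⟫_ℝ ≤ χ v * (1 / 2 * ‖x‖) :=
      mul_le_mul_of_nonneg_left (h3.trans h4) (hχ v).1
    have h6 : χ v * (1 / 2 * ‖x‖) ≤ 1 * (1 / 2 * ‖x‖) :=
      mul_le_mul_of_nonneg_right (hχ v).2 (by positivity)
    have h7 := (hgm v hv1).2
    rw [h2] at h1
    linarith
  have hclosed : IsClosed (Wulff g χ b) := by
    rw [hW]
    refine isClosed_iInter fun v => isClosed_iInter fun _ => ?_
    exact isClosed_le (by fun_prop) continuous_const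
  refine ⟨Metric.isCompact_of_isClosed_isBounded hclosed (isBounded_closedBall.subset hsub), ?_, ?_,
    hsub⟩
  · rw [hW]
    refine convex_iInter fun v => convex_iInter fun _ => ?_
    exact convex_halfSpace_le (LinearMap.isLinear (innerₗ E3 (v - χ v • b))) _
  · intro x hx v hv
    rw [mem_closedBall_zero_iff] at hx
    have h1 : ⟪v - χ v • b, x⟫_ℝ ≤ ‖v - χ v • b‖ * ‖x‖ := real_inner_le_norm _ _
    have h2 : ‖v - χ v • b‖ ≤ 3 / 2 := by
      refine (norm_sub_le _ _).trans ?_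
      rw [hv, norm_smul, Real.norm_eq_abs, abs_of_nonneg (hχ v).1]
      have : χ v * ‖b‖ ≤ 1 * (1 / 2) :=
        mul_le_mul (hχ v).2 hb (norm_nonneg _) zero_le_one
      linarith
    have h3 : ‖v - χ v • b‖ * ‖x‖ ≤ 3 / 2 * (m / 2) :=
      mul_le_mul h2 hx (norm_nonneg _) (by norm_num)
    have h4 := (hgm v hv).1
    linarith


end N_wulff_basic

alias wulff_basic := N_wulff_basic.wulff_basic

end Pool.Agent.Helper524.Mono
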