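import Pool.Agent.Helper524.Mono.Gen

set_option autoImplicit false

open MeasureTheory Set Metric
open scoped InnerProductSpace

namespace Pool.Agent.Helper524.Mono

namespace N_moment_close


lemma moment_close_aux {R t : ℝ} {I S O : Set E3} (hI : IsCompact I) (hS : IsCompact S)
    (hO : IsCompact O) (hIS : I ⊆ S) (hSO : S ⊆ O) (hC : ∀ x ∈ O, ‖x‖ ≤ R * t⁻¹) (hR : 0 ≤ R * t⁻¹) :
    ‖(∫ x in S, x) - ∫ x in I, x‖ ≤ (R * t⁻¹) * (volume.real O - volume.real I) := by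
  have hint : IntegrableOn (fun x : E3 => x) S volume :=
    ContinuousOn.integrableOn_compact hS continuousOn_id
  have h1 : ∫ x in S \ I, x = (∫ x in S, x) - ∫ x in I, x :=
    setIntegral_sdiff hI.measurableSet hint hIS
  rw [← h1]
  have h2 : ‖∫ x in S \ I, x‖ ≤ (R * t⁻¹) * volume.real (S \ I) := by
    refine norm_setIntegral_le_of_norm_le_const ?_ ?_
    · exact lt_of_le_of_lt (measure_mono Set.sdiff_subset) hS.measure_lt_top
    · intro x hx
      exact hC x (hSO hx.1)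
  refine h2.trans (mul_le_mul_of_nonneg_left ?_ hR)
  rw [measureReal_sdiff hIS hI.measurableSet hS.measure_lt_top.ne]
  have := measureReal_mono (μ := volume) hSO hO.measure_lt_top.ne
  linarith

open scoped Pointwise in
lemma moment_close_vol {t : ℝ} (ht : 0 < t) (A : Set E3) :
    volume.real (t • A) = t ^ 3 * volume.real A := by
  rw [measureReal_def, Measure.addHaar_smul, ENNReal.toReal_mul, measureReal_def]
  have h3 : Module.finrank ℝ E3 = 3 := by simp
  rw [h3, abs_of_pos (by positivity), ENNReal.toReal_ofReal (by positivity)]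

open scoped Pointwise in
/-- TARGET -/
theorem moment_close (R ε : ℝ) (hR : 0 < R) (hε : 0 < ε) :
    ∃ t0 : ℝ, 0 < t0 ∧ t0 < 1 ∧ ∀ t : ℝ, t0 ≤ t → t < 1 → ∀ A B : Set E3,
      IsCompact A → Convex ℝ A → IsCompact B → (0 : E3) ∈ A → (0 : E3) ∈ B →
      A ⊆ closedBall 0 R → (∀ x ∈ A, t • x ∈ B) → (∀ x ∈ B, t • x ∈ A) →
      ‖(∫ x in A, x) - ∫ x in B, x‖ < ε ∧ |volume.real A - volume.real B| < ε := by
  obtain ⟨V, hVdef⟩ : ∃ V, V = volume.real (closedBall (0:E3) R) := ⟨_, rfl⟩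
  have hV : 0 ≤ V := by rw [hVdef]; exact measureReal_nonneg
  have hinv : ContinuousAt (fun t : ℝ => t⁻¹) 1 := continuousAt_inv₀ one_ne_zero
  have hcont : ContinuousAt (fun t : ℝ => (2 * (R * t⁻¹) + 1) * ((t⁻¹) ^ 3 - t ^ 3) * V) 1 := by
    exact (((continuousAt_const.mul (continuousAt_const.mul hinv)).add continuousAt_const).mul
      ((hinv.pow 3).sub (continuousAt_id.pow 3))).mul continuousAt_const
  obtain ⟨δ, hδ, hδ2⟩ := Metric.continuousAt_iff.1 hcont ε hε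
  refine ⟨max (1/2) (1 - δ/2), lt_of_lt_of_le (by norm_num) (le_max_left _ _), ?_, ?_⟩
  · rw [max_lt_iff]
    constructor
    · norm_num
    · linarith
  intro t ht ht1 A B hA hAc hB h0A h0B hAR hAB hBA
  have htp : 0 < t := lt_of_lt_of_le (by norm_num) ((le_max_left _ _).trans ht)
  have hphi := hδ2 (x := t) (by
    rw [Real.dist_eq, abs_lt]
    have := (le_max_right (1/2:ℝ) (1-δ/2)).trans ht
    constructor <;> linarith)
  rw [Real.dist_eq] at hphi
  have hphi2 : (2 * (R * t⁻¹) + 1) * ((t⁻¹) ^ 3 - t ^ 3) * V < ε := by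
    have h := lt_of_le_of_lt (le_abs_self _) hphi
    have e : (2 * (R * (1:ℝ)⁻¹) + 1) * (((1:ℝ)⁻¹) ^ 3 - 1 ^ 3) * V = 0 := by
      rw [inv_one]; ring
    rw [e, sub_zero] at h
    exact h
  have hIA : t • A ⊆ A := by
    rintro _ ⟨x, hx, rfl⟩
    exact hAc.smul_mem_of_zero_mem h0A hx ⟨htp.le, ht1.le⟩
  have hIB : t • A ⊆ B := by
    rintro _ ⟨x, hx, rfl⟩
    exact hAB x hx
  have hAO : A ⊆ t⁻¹ • A := by
    intro x hx
    refine ⟨t • x, hIA ⟨x, hx, rfl⟩, ?_⟩
    show t⁻¹ • t • x = x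
    rw [smul_smul, inv_mul_cancel₀ htp.ne', one_smul]
  have hBO : B ⊆ t⁻¹ • A := by
    intro x hx
    refine ⟨t • x, hBA x hx, ?_⟩
    show t⁻¹ • t • x = x
    rw [smul_smul, inv_mul_cancel₀ htp.ne', one_smul]
  have hIc : IsCompact (t • A) := hA.smul t
  have hOc : IsCompact (t⁻¹ • A) := hA.smul t⁻¹
  have vI := moment_close_vol htp A
  have vO := moment_close_vol (inv_pos.2 htp) A
  have hVA : volume.real A ≤ V := by
    rw [hVdef]
    exact measureReal_mono hAR (isCompact_closedBall (0:E3) R).measure_lt_top.ne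
  have hC : ∀ x ∈ t⁻¹ • A, ‖x‖ ≤ R * t⁻¹ := by
    rintro _ ⟨x, hx, rfl⟩
    show ‖t⁻¹ • x‖ ≤ _
    rw [norm_smul, Real.norm_eq_abs, abs_of_pos (inv_pos.2 htp), mul_comm]
    exact mul_le_mul_of_nonneg_right (mem_closedBall_zero_iff.1 (hAR hx)) (inv_pos.2 htp).le
  have hRt : 0 ≤ R * t⁻¹ := by positivity
  have k1 := moment_close_aux hIc hA hOc hIA hAO hC hRt
  have k2 := moment_close_aux hIc hB hOc hIB hBO hC hRt
  have hvA := @measureReal_nonneg _ _ (volume : Measure E3) A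
  have hc : 0 ≤ (t⁻¹) ^ 3 - t ^ 3 := by
    have h1 : 1 ≤ t⁻¹ := (one_le_inv₀ htp).2 ht1.le
    have h2 : 1 ≤ (t⁻¹) ^ 3 := one_le_pow₀ h1
    have h3 : t ^ 3 ≤ 1 := pow_le_one₀ htp.le ht1.le
    linarith
  have hgap : volume.real (t⁻¹ • A) - volume.real (t • A) ≤ ((t⁻¹) ^ 3 - t ^ 3) * V := by
    rw [vI, vO]
    nlinarith
  have hgap2 : (R * t⁻¹) * (volume.real (t⁻¹ • A) - volume.real (t • A)) ≤
      (R * t⁻¹) * (((t⁻¹) ^ 3 - t ^ 3) * V) := mul_le_mul_of_nonneg_left hgap hRt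
  have hn1 : 0 ≤ ((t⁻¹) ^ 3 - t ^ 3) * V := mul_nonneg hc hV
  have hn2 : 0 ≤ (R * t⁻¹) * (((t⁻¹) ^ 3 - t ^ 3) * V) := mul_nonneg hRt hn1
  constructor
  · have h3 : (∫ x in A, x) - ∫ x in B, x = ((∫ x in A, x) - ∫ x in t • A, x) -
        ((∫ x in B, x) - ∫ x in t • A, x) := by abel
    rw [h3]
    refine lt_of_le_of_lt (norm_sub_le _ _) ?_
    nlinarith
  · have m1 := measureReal_mono (μ := volume) hIA hA.measure_lt_top.ne
    have m2 := measureReal_mono (μ := volume) hIB hB.measure_lt_top.ne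
    have m3 := measureReal_mono (μ := volume) hAO hOc.measure_lt_top.ne
    have m4 := measureReal_mono (μ := volume) hBO hOc.measure_lt_top.ne
    rw [abs_lt]
    constructor <;> nlinarith


end N_moment_close

alias moment_close := N_moment_close.moment_close

end Pool.Agent.Helper524.Mono
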