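import Pool.Agent.Helper524.Mono.Gen
import Pool.Agent.Helper524.Mono.S_moment_close

set_option autoImplicit false

open MeasureTheory Set Metric
open scoped InnerProductSpace

namespace Pool.Agent.Helper524.Mono

namespace N_moment_continuous




/-- TARGET -/
theorem moment_continuous {X : Type} [PseudoMetricSpace X] (Φ : X → Set E3) (S : Set X) (R : ℝ)
    (hR : 0 < R)
    (hΦ : ∀ b ∈ S, IsCompact (Φ b) ∧ Convex ℝ (Φ b) ∧ (0 : E3) ∈ Φ b ∧ Φ b ⊆ closedBall 0 R)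
    (hcont : ∀ b ∈ S, ∀ t : ℝ, 0 < t → t < 1 → ∃ ε : ℝ, 0 < ε ∧ ∀ b' ∈ S, dist b' b < ε →
      (∀ x ∈ Φ b, t • x ∈ Φ b') ∧ (∀ x ∈ Φ b', t • x ∈ Φ b)) :
    ContinuousOn (fun b => ∫ x in Φ b, x) S := by
  rw [Metric.continuousOn_iff]
  intro b hb ε hε
  obtain ⟨t0, h0, h1, h2⟩ := moment_close R ε hR hε
  obtain ⟨δ, hδ, h3⟩ := hcont b hb t0 h0 h1
  refine ⟨δ, hδ, fun b' hb' hd => ?_⟩
  obtain ⟨h4, h5⟩ := h3 b' hb' hd
  obtain ⟨c1, c2, c3, c4⟩ := hΦ b hb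
  obtain ⟨d1, d2, d3, d4⟩ := hΦ b' hb'
  have h6 := (h2 t0 le_rfl h1 (Φ b) (Φ b') c1 c2 d1 c3 d3 c4 h4 h5).1
  rw [dist_eq_norm, norm_sub_rev]
  exact h6


end N_moment_continuous

alias moment_continuous := N_moment_continuous.moment_continuous

end Pool.Agent.Helper524.Mono
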