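import Pool.Agent.Helper524.Mono.Gen
import Pool.Agent.Helper524.Mono.S_wulff_basic

set_option autoImplicit false

open MeasureTheory Set Metric
open scoped InnerProductSpace

namespace Pool.Agent.Helper524.Mono

namespace N_wulff_sandwich




/-- TARGET -/
theorem wulff_sandwich (g g' χ : E3 → ℝ) (m R ε t : ℝ) (hm : 0 < m)
    (hgm : ∀ v : E3, ‖v‖ = 1 → m ≤ g v ∧ g v ≤ R)
    (hgm' : ∀ v : E3, ‖v‖ = 1 → m ≤ g' v ∧ g' v ≤ R) (hχ : ∀ v, 0 ≤ χ v ∧ χ v ≤ 1)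
    (b b' : E3) (hb : ‖b‖ ≤ 1 / 2) (hgg : ∀ v : E3, ‖v‖ = 1 → |g v - g' v| ≤ ε)
    (hbb : ‖b - b'‖ ≤ ε) (ht0 : 0 < t) (ht : t < 1) (hε : ε * (1 + 2 * R) ≤ (1 - t) * m) :
    ∀ x ∈ Wulff g χ b, t • x ∈ Wulff g' χ b' := by
  intro x hx v hv
  obtain ⟨-, -, -, hball⟩ := wulff_basic g χ m R hm hgm hχ b hb
  have hxn : ‖x‖ ≤ 2 * R := mem_closedBall_zero_iff.1 (hball hx)
  have hε0 : 0 ≤ ε := (norm_nonneg _).trans hbb
  have h1 : ⟪v - χ v • b, x⟫_ℝ ≤ g v := hx v hv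
  have h2 : ⟪b - b', x⟫_ℝ ≤ ε * (2 * R) := by
    refine (real_inner_le_norm _ _).trans ?_
    exact mul_le_mul hbb hxn (norm_nonneg _) hε0
  have hR : 0 ≤ 2 * R := (norm_nonneg _).trans hxn
  have hgv := hgm' v hv
  have hg := abs_le.1 (hgg v hv)
  have hc := hχ v
  have e1 : ⟪v - χ v • b', t • x⟫_ℝ = t * ⟪v - χ v • b, x⟫_ℝ + t * (χ v * ⟪b - b', x⟫_ℝ) := by
    rw [real_inner_smul_right, inner_sub_left, inner_sub_left, inner_sub_left,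
      real_inner_smul_left, real_inner_smul_left]
    ring
  rw [e1]
  have h3 : χ v * ⟪b - b', x⟫_ℝ ≤ ε * (2 * R) := by
    have h4 : χ v * ⟪b - b', x⟫_ℝ ≤ χ v * (ε * (2 * R)) := mul_le_mul_of_nonneg_left h2 hc.1
    have h5 : χ v * (ε * (2 * R)) ≤ 1 * (ε * (2 * R)) :=
      mul_le_mul_of_nonneg_right hc.2 (mul_nonneg hε0 hR)
    linarith
  have h6 : t * ⟪v - χ v • b, x⟫_ℝ ≤ t * (g' v + ε) :=
    mul_le_mul_of_nonneg_left (by linarith [hg.2]) ht0.le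
  have h7 : t * (χ v * ⟪b - b', x⟫_ℝ) ≤ t * (ε * (2 * R)) := mul_le_mul_of_nonneg_left h3 ht0.le
  have h8 : t * (ε * (1 + 2 * R)) ≤ 1 * (ε * (1 + 2 * R)) :=
    mul_le_mul_of_nonneg_right ht.le (mul_nonneg hε0 (by linarith))
  have h9 : (1 - t) * m ≤ (1 - t) * g' v := mul_le_mul_of_nonneg_left hgv.1 (by linarith)
  nlinarith [h6, h7, h8, h9, hε]


end N_wulff_sandwich

alias wulff_sandwich := N_wulff_sandwich.wulff_sandwich

end Pool.Agent.Helper524.Mono
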