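import Pool.Agent.Helper524.Mono.Gen
import Pool.Agent.Helper524.Mono.S_wulff_basic
import Pool.Agent.Helper524.Mono.S_wulff_sandwich
import Pool.Agent.Helper524.Mono.S_moment_continuous

set_option autoImplicit false

open MeasureTheory Set Metric
open scoped InnerProductSpace

namespace Pool.Agent.Helper524.Mono

namespace N_wulff_continuous








/-- TARGET -/
theorem wulff_continuous (g χ : E3 → ℝ) (m R : ℝ) (hm : 0 < m)
    (hgm : ∀ v : E3, ‖v‖ = 1 → m ≤ g v ∧ g v ≤ R) (hχ : ∀ v, 0 ≤ χ v ∧ χ v ≤ 1) :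
    ContinuousOn (fun b => ∫ x in Wulff g χ b, x) (closedBall (0 : E3) (1 / 2)) := by
  have hmR : m ≤ R := by
    have h1 : ‖(EuclideanSpace.single (0 : Fin 3) (1 : ℝ) : E3)‖ = 1 := by simp
    exact (hgm _ h1).1.trans (hgm _ h1).2
  have hR : 0 < R := lt_of_lt_of_le hm hmR
  refine moment_continuous (fun b => Wulff g χ b) (closedBall (0 : E3) (1 / 2)) (2 * R)
    (by linarith) ?_ ?_
  · intro b hb
    obtain ⟨h1, h2, h3, h4⟩ := wulff_basic g χ m R hm hgm hχ b (mem_closedBall_zero_iff.1 hb)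
    exact ⟨h1, h2, h3 (mem_closedBall_self (by linarith)), h4⟩
  · intro b hb t ht0 ht1
    have hden : 0 < 1 + 2 * R := by linarith
    refine ⟨(1 - t) * m / (1 + 2 * R), div_pos (mul_pos (by linarith) hm) hden, ?_⟩
    intro b' hb' hdist
    have hε : (1 - t) * m / (1 + 2 * R) * (1 + 2 * R) ≤ (1 - t) * m := by
      rw [div_mul_cancel₀ _ hden.ne']
    have hgg : ∀ v : E3, ‖v‖ = 1 → |g v - g v| ≤ (1 - t) * m / (1 + 2 * R) := by
      intro v _
      rw [sub_self, abs_zero]
      exact (div_pos (mul_pos (by linarith) hm) hden).le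
    rw [dist_eq_norm] at hdist
    constructor
    · exact wulff_sandwich g g χ m R _ t hm hgm hgm hχ b b' (mem_closedBall_zero_iff.1 hb) hgg
        (by rw [norm_sub_rev]; exact hdist.le) ht0 ht1 hε
    · exact wulff_sandwich g g χ m R _ t hm hgm hgm hχ b' b (mem_closedBall_zero_iff.1 hb') hgg
        hdist.le ht0 ht1 hε


end N_wulff_continuous

alias wulff_continuous := N_wulff_continuous.wulff_continuous

end Pool.Agent.Helper524.Mono
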