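import Pool.Agent.Helper524.Mono.Gen

set_option autoImplicit false

open MeasureTheory Set Metric
open scoped InnerProductSpace

namespace Pool.Agent.Helper524.Mono

namespace N_moment_lt


lemma vol_diff_pos {P Q : Set E3} (hPc : Convex ℝ P) (hQ : IsClosed Q)
    (hP0 : (0 : E3) ∈ interior P) {x : E3} (hx : x ∈ P) (hxQ : x ∉ Q) :
    0 < volume (P \ Q) := by
  have hopen : IsOpen (interior P ∩ Qᶜ) := isOpen_interior.inter hQ.isOpen_compl
  have hc : Filter.Tendsto (fun t : ℝ => t • x) (nhds 1) (nhds x) := by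
    have h1 : Continuous (fun t : ℝ => t • x) := by fun_prop
    have h2 := h1.tendsto 1
    rwa [one_smul] at h2
  have h1 : ∀ᶠ t : ℝ in nhds 1, t • x ∈ Qᶜ := hc.eventually (hQ.isOpen_compl.mem_nhds hxQ)
  have h2 : ∃ᶠ t : ℝ in nhdsWithin 1 (Iio 1), t • x ∈ Qᶜ ∧ 0 < t :=
    ((h1.filter_mono nhdsWithin_le_nhds).and
      ((eventually_gt_nhds (zero_lt_one' ℝ)).filter_mono nhdsWithin_le_nhds)).frequently
  obtain ⟨t, ⟨ht1, ht2⟩, ht3⟩ := (h2.and_eventually self_mem_nhdsWithin).exists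
  have ht3' : t < 1 := ht3
  have hmem : t • x ∈ interior P := by
    have := hPc.combo_interior_self_mem_interior hP0 hx (a := 1 - t) (b := t) (by linarith)
      ht2.le (by ring)
    rwa [smul_zero, zero_add] at this
  have hne : (interior P ∩ Qᶜ).Nonempty := ⟨t • x, hmem, ht1⟩
  refine lt_of_lt_of_le (hopen.measure_pos volume hne) (measure_mono ?_)
  rintro y ⟨hy1, hy2⟩
  exact ⟨interior_subset hy1, hy2⟩

lemma int_pos {S : Set E3} (hS : MeasurableSet S) {g : E3 → ℝ} (hg : IntegrableOn g S)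
    (hpos : ∀ x ∈ S, 0 < g x) (hv : 0 < volume S) : 0 < ∫ x in S, g x := by
  rw [setIntegral_pos_iff_support_of_nonneg_ae]
  · have : Function.support g ∩ S = S := by
      ext x
      constructor
      · exact fun h => h.2
      · exact fun h => ⟨(hpos x h).ne', h⟩
    rwa [this]
  · filter_upwards [ae_restrict_mem hS] with x hx
    exact (hpos x hx).le
  · exact hg

/-- TARGET -/
theorem moment_lt (P Q : Set E3) (hP : IsCompact P) (hQ : IsCompact Q) (hPc : Convex ℝ P)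
    (hQc : Convex ℝ Q) (hP0 : (0 : E3) ∈ interior P) (hQ0 : (0 : E3) ∈ interior Q) (b : E3)
    (hPQ : ∀ x ∈ P, x ∉ Q → ⟪b, x⟫_ℝ < 0) (hQP : ∀ x ∈ Q, x ∉ P → 0 < ⟪b, x⟫_ℝ) :
    ⟪b, ∫ x in P, x⟫_ℝ ≤ ⟪b, ∫ x in Q, x⟫_ℝ ∧
      (P ≠ Q → ⟪b, ∫ x in P, x⟫_ℝ < ⟪b, ∫ x in Q, x⟫_ℝ) := by
  have hPm := hP.measurableSet
  have hQm := hQ.measurableSet
  have hiP : IntegrableOn (fun x : E3 => x) P := continuous_id.continuousOn.integrableOn_compact hP
  have hiQ : IntegrableOn (fun x : E3 => x) Q := continuous_id.continuousOn.integrableOn_compact hQ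
  have hfP : IntegrableOn (fun x : E3 => ⟪b, x⟫_ℝ) P :=
    (by fun_prop : Continuous (fun x : E3 => ⟪b, x⟫_ℝ)).continuousOn.integrableOn_compact hP
  have hfQ : IntegrableOn (fun x : E3 => ⟪b, x⟫_ℝ) Q :=
    (by fun_prop : Continuous (fun x : E3 => ⟪b, x⟫_ℝ)).continuousOn.integrableOn_compact hQ
  have eP : ⟪b, ∫ x in P, x⟫_ℝ = ∫ x in P, ⟪b, x⟫_ℝ := (integral_inner hiP b).symm
  have eQ : ⟪b, ∫ x in Q, x⟫_ℝ = ∫ x in Q, ⟪b, x⟫_ℝ := (integral_inner hiQ b).symm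
  rw [eP, eQ, ← integral_inter_add_sdiff hQm hfP, ← integral_inter_add_sdiff hPm hfQ,
    inter_comm Q P]
  have h1 : 0 ≤ ∫ x in Q \ P, ⟪b, x⟫_ℝ :=
    setIntegral_nonneg (hQm.diff hPm) fun x hx => (hQP x hx.1 hx.2).le
  have h2 : 0 ≤ ∫ x in P \ Q, -⟪b, x⟫_ℝ :=
    setIntegral_nonneg (hPm.diff hQm) fun x hx => (neg_pos.mpr (hPQ x hx.1 hx.2)).le
  rw [integral_neg] at h2
  refine ⟨by linarith, fun hne => ?_⟩
  by_cases hc : ∃ x ∈ P, x ∉ Q
  · obtain ⟨x, hx, hxQ⟩ := hc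
    have h3 := int_pos (hPm.diff hQm) (g := fun x => -⟪b, x⟫_ℝ)
      ((hfP.mono_set sdiff_subset).neg) (fun x hx => neg_pos.mpr (hPQ x hx.1 hx.2))
      (vol_diff_pos hPc hQ.isClosed hP0 hx hxQ)
    rw [integral_neg] at h3
    linarith
  · push Not at hc
    have hc2 : ∃ x ∈ Q, x ∉ P := by
      by_contra h
      push Not at h
      exact hne (Subset.antisymm hc h)
    obtain ⟨x, hx, hxP⟩ := hc2
    have h3 := int_pos (hQm.diff hPm) (g := fun x => ⟪b, x⟫_ℝ)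
      (hfQ.mono_set sdiff_subset) (fun x hx => hQP x hx.1 hx.2)
      (vol_diff_pos hQc hP.isClosed hQ0 hx hxP)
    linarith


end N_moment_lt

alias moment_lt := N_moment_lt.moment_lt

end Pool.Agent.Helper524.Mono
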