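import Pool.Agent.Helper524.Mono.Gen
import Pool.Agent.Helper524.Mono.S_wulff_basic
import Pool.Agent.Helper524.Mono.S_moment_lt

set_option autoImplicit false

open MeasureTheory Set Metric
open scoped InnerProductSpace

namespace Pool.Agent.Helper524.Mono

namespace N_wulff_gain






/-- TARGET -/
theorem wulff_gain (g χ : E3 → ℝ) (m R : ℝ) (hm : 0 < m)
    (hgm : ∀ v : E3, ‖v‖ = 1 → m ≤ g v ∧ g v ≤ R) (hχ : ∀ v, 0 ≤ χ v ∧ χ v ≤ 1)
    (b : E3) (hb : ‖b‖ ≤ 1 / 2) :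
    ⟪b, ∫ x in Wulff g χ 0, x⟫_ℝ ≤ ⟪b, ∫ x in Wulff g χ b, x⟫_ℝ ∧
      (Wulff g χ 0 ≠ Wulff g χ b →
        ⟪b, ∫ x in Wulff g χ 0, x⟫_ℝ < ⟪b, ∫ x in Wulff g χ b, x⟫_ℝ) := by
  obtain ⟨p1, p2, p3, -⟩ := wulff_basic g χ m R hm hgm hχ 0 (by rw [norm_zero]; norm_num)
  obtain ⟨q1, q2, q3, -⟩ := wulff_basic g χ m R hm hgm hχ b hb
  have hint : ∀ S : Set E3, closedBall 0 (m / 2) ⊆ S → (0 : E3) ∈ interior S := by
    intro S hS
    refine interior_mono hS ?_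
    exact mem_interior.2 ⟨ball 0 (m / 2), ball_subset_closedBall, isOpen_ball,
      mem_ball_self (by linarith)⟩
  refine moment_lt _ _ p1 q1 p2 q2 (hint _ p3) (hint _ q3) b ?_ ?_
  · intro x hx hxn
    have h1 : ∃ v : E3, ‖v‖ = 1 ∧ g v < ⟪v - χ v • b, x⟫_ℝ := by
      by_contra hcon
      apply hxn
      intro v hv
      by_contra hlt
      exact hcon ⟨v, hv, not_le.1 hlt⟩
    obtain ⟨v, hv, hlt⟩ := h1
    have h2 : ⟪v - χ v • (0 : E3), x⟫_ℝ ≤ g v := hx v hv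
    rw [smul_zero, sub_zero] at h2
    rw [inner_sub_left, real_inner_smul_left] at hlt
    have h3 : χ v * ⟪b, x⟫_ℝ < 0 := by linarith
    by_contra h4
    exact absurd h3 (not_lt.2 (mul_nonneg (hχ v).1 (not_lt.1 h4)))
  · intro x hx hxn
    have h1 : ∃ v : E3, ‖v‖ = 1 ∧ g v < ⟪v - χ v • (0 : E3), x⟫_ℝ := by
      by_contra hcon
      apply hxn
      intro v hv
      by_contra hlt
      exact hcon ⟨v, hv, not_le.1 hlt⟩
    obtain ⟨v, hv, hlt⟩ := h1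
    have h2 : ⟪v - χ v • b, x⟫_ℝ ≤ g v := hx v hv
    rw [smul_zero, sub_zero] at hlt
    rw [inner_sub_left, real_inner_smul_left] at h2
    have h3 : 0 < χ v * ⟪b, x⟫_ℝ := by linarith
    by_contra h4
    exact absurd h3 (not_lt.2 (mul_nonpos_of_nonneg_of_nonpos (hχ v).1 (not_lt.1 h4)))


end N_wulff_gain

alias wulff_gain := N_wulff_gain.wulff_gain

end Pool.Agent.Helper524.Mono
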