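import Pool.Agent.Helper524.Mono.S_stable_of_active

set_option autoImplicit false

open MeasureTheory Set Metric
open scoped InnerProductSpace

namespace Pool.Agent.Helper524.Mono

namespace N_exists_stable




/-- TARGET -/
theorem exists_stable (T : Finset (E3 × ℝ)) (hT : ∀ p ∈ T, p.1 ≠ 0 ∧ 0 < p.2)
    (hne : T.Nonempty) (hcom : com (poly T) = 0) : ∃ F, IsStable (poly T) F := by
  obtain ⟨p, hpT, hmin⟩ := T.exists_min_image (fun p => p.2 / ‖p.1‖) hne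
  have hp1 : 0 < ‖p.1‖ := norm_pos_iff.2 (hT p hpT).1
  have hp2 : 0 < p.2 := (hT p hpT).2
  set z : E3 := (p.2 / ‖p.1‖ ^ 2) • p.1 with hz
  have hzn : ‖z‖ = p.2 / ‖p.1‖ := by
    rw [hz, norm_smul, Real.norm_of_nonneg (by positivity)]
    field_simp
  have hzpos : 0 < ‖z‖ := by rw [hzn]; positivity
  have hq : ∀ q ∈ T, ‖q.1‖ * ‖z‖ ≤ q.2 := by
    intro q hqT
    have hq1 : 0 < ‖q.1‖ := norm_pos_iff.2 (hT q hqT).1
    have h1 : p.2 / ‖p.1‖ ≤ q.2 / ‖q.1‖ := hmin q hqT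
    rw [hzn]
    calc ‖q.1‖ * (p.2 / ‖p.1‖) ≤ ‖q.1‖ * (q.2 / ‖q.1‖) := mul_le_mul_of_nonneg_left h1 hq1.le
      _ = q.2 := by field_simp
  have hzmem : z ∈ poly T := fun q hqT => (real_inner_le_norm _ _).trans (hq q hqT)
  refine ⟨_, stable_of_active T (fun q hqT => (hT q hqT).1) z hzmem ?_ ⟨p, hpT, ?_⟩ ?_⟩
  · rw [hcom]
    exact norm_pos_iff.1 hzpos
  · rw [hz, real_inner_smul_right, real_inner_self_eq_norm_sq]
    field_simp
  · intro q hqT hact
    have hq1 : 0 < ‖q.1‖ := norm_pos_iff.2 (hT q hqT).1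
    have h1 : ⟪q.1, z⟫_ℝ = ‖q.1‖ * ‖z‖ :=
      le_antisymm (real_inner_le_norm _ _) (by rw [hact]; exact hq q hqT)
    rw [inner_eq_norm_mul_iff_real] at h1
    refine ⟨‖q.1‖ / ‖z‖, by positivity, ?_⟩
    rw [hcom, sub_zero, div_eq_inv_mul, mul_smul, ← h1, smul_smul, inv_mul_cancel₀ hzpos.ne',
      one_smul]


end N_exists_stable

alias exists_stable := N_exists_stable.exists_stable

end Pool.Agent.Helper524.Mono
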