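import Pool.Agent.Helper524.Mono.Gen

set_option autoImplicit false

open MeasureTheory Set Metric
open scoped InnerProductSpace

namespace Pool.Agent.Helper524.Mono

namespace N_chains


/-- the chain property -/
def GoodP (g χ : E3 → ℝ) (τ0 η : ℝ) (v0 : E3) (p : E3 × ℝ) : Prop :=
  ∃ T : Finset (E3 × ℝ), p ∈ T ∧ RollsB χ τ0 T (v0, g v0 - η) ∧
    ∀ q ∈ T, ‖q.1‖ = 1 ∧ g q.1 - η ≤ q.2

theorem good_tau (g χ : E3 → ℝ) (τ0 η : ℝ) (v0 : E3) (hv0 : ‖v0‖ = 1) :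
    GoodP g χ τ0 η v0 (v0, g v0 - η) := by
  refine ⟨{(v0, g v0 - η)}, Finset.mem_singleton_self _, ⟨Finset.mem_singleton_self _, ?_⟩, ?_⟩
  · intro p hp
    rw [Finset.mem_singleton] at hp
    rw [hp]
  · intro q hq
    rw [Finset.mem_singleton] at hq
    rw [hq]
    exact ⟨hv0, le_rfl⟩

theorem good_cons {g χ : E3 → ℝ} {τ0 η : ℝ} {v0 : E3} {p q : E3 × ℝ}
    (hq : GoodP g χ τ0 η v0 q) (h1 : ‖p.1‖ = 1) (h2 : g p.1 - η ≤ p.2)
    (h3 : StepB χ τ0 p q) : GoodP g χ τ0 η v0 p := by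
  classical
  obtain ⟨T, hqT, ⟨hτ, hR⟩, hT⟩ := hq
  have hmono : ∀ r ∈ T, Relation.ReflTransGen (fun a c => c ∈ insert p T ∧ StepB χ τ0 a c) r
      (v0, g v0 - η) := by
    intro r hr
    exact Relation.ReflTransGen.mono
      (fun a c hac => ⟨Finset.mem_insert_of_mem hac.1, hac.2⟩) _ _ (hR r hr)
  refine ⟨insert p T, Finset.mem_insert_self _ _, ⟨Finset.mem_insert_of_mem hτ, ?_⟩, ?_⟩
  · intro r hr
    rcases Finset.mem_insert.1 hr with rfl | hr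
    · exact Relation.ReflTransGen.head ⟨Finset.mem_insert_of_mem hqT, h3⟩ (hmono q hqT)
    · exact hmono r hr
  · intro r hr
    rcases Finset.mem_insert.1 hr with rfl | hr
    · exact ⟨h1, h2⟩
    · exact hT r hr

theorem stepB_zero {χ : E3 → ℝ} {τ0 : ℝ} {p q : E3 × ℝ} (h1 : χ p.1 = 0) (h2 : χ q.1 = 0)
    (h3 : ‖p.1‖ = 1) (h4 : q.2 ≤ p.2 * ⟪p.1, q.1⟫_ℝ) : StepB χ τ0 p q := by
  intro b _
  unfold Step tilt
  rw [h1, h2, zero_smul, sub_zero, sub_zero]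
  show q.2 * ‖p.1‖ ^ 2 ≤ p.2 * ⟪p.1, q.1⟫_ℝ
  rw [h3, one_pow, mul_one]
  exact h4

theorem stepB_margin {χ : E3 → ℝ} {τ0 δ R : ℝ} {p q : E3 × ℝ}
    (hχ : ∀ v, 0 ≤ χ v ∧ χ v ≤ 1) (hτ1 : τ0 ≤ 1) (hτδ : τ0 * (24 * (R + 1)) ≤ δ)
    (h1 : ‖p.1‖ = 1) (h2 : ‖q.1‖ = 1) (hq0 : 0 ≤ q.2) (hqR : q.2 ≤ R) (hp0 : 0 ≤ p.2)
    (hpR : p.2 ≤ R + 1) (h4 : q.2 + δ / 4 ≤ p.2 * ⟪p.1, q.1⟫_ℝ) : StepB χ τ0 p q := by
  intro b hb
  unfold Step tilt
  show q.2 * ‖p.1 - χ p.1 • b‖ ^ 2 ≤ p.2 * ⟪p.1 - χ p.1 • b, q.1 - χ q.1 • b⟫_ℝ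
  have hb0 := norm_nonneg b
  have hb1 : ‖b‖ ≤ 1 := hb.trans hτ1
  obtain ⟨hx0, hx1⟩ := hχ p.1
  obtain ⟨hy0, hy1⟩ := hχ q.1
  have i1 : |⟪p.1, b⟫_ℝ| ≤ ‖b‖ := by
    have := abs_real_inner_le_norm p.1 b
    rwa [h1, one_mul] at this
  have i2 : |⟪b, q.1⟫_ℝ| ≤ ‖b‖ := by
    have := abs_real_inner_le_norm b q.1
    rwa [h2, mul_one] at this
  obtain ⟨i1a, i1b⟩ := abs_le.1 i1
  obtain ⟨i2a, i2b⟩ := abs_le.1 i2
  have e1 : ‖p.1 - χ p.1 • b‖ ^ 2 = 1 - 2 * (χ p.1 * ⟪p.1, b⟫_ℝ) + χ p.1 ^ 2 * ‖b‖ ^ 2 := by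
    rw [norm_sub_sq_real, h1, real_inner_smul_right, norm_smul, Real.norm_eq_abs, mul_pow, sq_abs]
    ring
  have e2 : ⟪p.1 - χ p.1 • b, q.1 - χ q.1 • b⟫_ℝ = ⟪p.1, q.1⟫_ℝ - χ q.1 * ⟪p.1, b⟫_ℝ -
      χ p.1 * ⟪b, q.1⟫_ℝ + χ p.1 * χ q.1 * ‖b‖ ^ 2 := by
    rw [inner_sub_left, inner_sub_right, inner_sub_right, real_inner_smul_right,
      real_inner_smul_left, real_inner_smul_left, real_inner_smul_right,
      real_inner_self_eq_norm_sq]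
    ring
  have b1 : ‖p.1 - χ p.1 • b‖ ^ 2 ≤ 1 + 3 * ‖b‖ := by
    rw [e1]
    have t1 : -(χ p.1 * ⟪p.1, b⟫_ℝ) ≤ ‖b‖ := by nlinarith
    have t2 : χ p.1 ^ 2 * ‖b‖ ^ 2 ≤ ‖b‖ := by
      have t3 : χ p.1 ^ 2 ≤ 1 := by nlinarith
      have t4 : ‖b‖ ^ 2 ≤ ‖b‖ := by nlinarith
      nlinarith [sq_nonneg ‖b‖]
    linarith
  have b2 : ⟪p.1, q.1⟫_ℝ - 3 * ‖b‖ ≤ ⟪p.1 - χ p.1 • b, q.1 - χ q.1 • b⟫_ℝ := by
    rw [e2]
    have t1 : χ q.1 * ⟪p.1, b⟫_ℝ ≤ ‖b‖ := by nlinarith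
    have t2 : χ p.1 * ⟪b, q.1⟫_ℝ ≤ ‖b‖ := by nlinarith
    have t3 : 0 ≤ χ p.1 * χ q.1 * ‖b‖ ^ 2 := by positivity
    linarith
  have hR0 : 0 ≤ R := hq0.trans hqR
  calc q.2 * ‖p.1 - χ p.1 • b‖ ^ 2 ≤ q.2 * (1 + 3 * ‖b‖) := mul_le_mul_of_nonneg_left b1 hq0
    _ ≤ p.2 * (⟪p.1, q.1⟫_ℝ - 3 * ‖b‖) := by
      have t1 : q.2 * ‖b‖ ≤ R * τ0 := mul_le_mul hqR hb hb0 hR0
      have t2 : p.2 * ‖b‖ ≤ (R + 1) * τ0 := mul_le_mul hpR hb hb0 (by linarith)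
      have hτ0 : 0 ≤ τ0 := hb0.trans hb
      nlinarith
    _ ≤ _ := mul_le_mul_of_nonneg_left b2 hp0

theorem arc_norm (v v' : E3) (hv : ‖v‖ = 1) (hv' : ‖v'‖ = 1) (hd : ‖v' - v‖ ≤ 1) (t : ℝ)
    (ht0 : 0 ≤ t) (ht1 : t ≤ 1) : 3 / 4 ≤ ‖v + t • (v' - v)‖ := by
  have e1 : ‖v + t • (v' - v)‖ ^ 2 = 1 - t * (1 - t) * ‖v' - v‖ ^ 2 := by
    have e2 : ‖v'‖ ^ 2 = ‖v‖ ^ 2 + 2 * ⟪v, v' - v⟫_ℝ + ‖v' - v‖ ^ 2 := by
      rw [← norm_add_sq_real, add_sub_cancel]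
    rw [norm_add_sq_real, real_inner_smul_right, norm_smul, Real.norm_eq_abs, mul_pow, sq_abs, hv]
    rw [hv, hv'] at e2
    linear_combination (-t) * e2
  have h1 : ‖v' - v‖ ^ 2 ≤ 1 := by
    have := norm_nonneg (v' - v)
    nlinarith
  have h2 : t * (1 - t) ≤ 1 / 4 := by nlinarith [sq_nonneg (t - 1 / 2)]
  have h3 : 0 ≤ t * (1 - t) := mul_nonneg ht0 (by linarith)
  have h4 : 3 / 4 ≤ ‖v + t • (v' - v)‖ ^ 2 := by
    rw [e1]
    nlinarith [sq_nonneg ‖v' - v‖]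
  by_contra hcon
  push Not at hcon
  have := norm_nonneg (v + t • (v' - v))
  nlinarith

/-- points on the arc -/
noncomputable def arcN (v v' : E3) (t : ℝ) : E3 := ‖v + t • (v' - v)‖⁻¹ • (v + t • (v' - v))

theorem arcN_norm (v v' : E3) (hv : ‖v‖ = 1) (hv' : ‖v'‖ = 1) (hd : ‖v' - v‖ ≤ 1) (t : ℝ)
    (ht0 : 0 ≤ t) (ht1 : t ≤ 1) : ‖arcN v v' t‖ = 1 := by
  have h1 := arc_norm v v' hv hv' hd t ht0 ht1
  unfold arcN
  rw [norm_smul, norm_inv, norm_norm, inv_mul_cancel₀]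
  linarith

theorem arcN_near (v v' : E3) (hv : ‖v‖ = 1) (hv' : ‖v'‖ = 1) (hd : ‖v' - v‖ ≤ 1) (t : ℝ)
    (ht0 : 0 ≤ t) (ht1 : t ≤ 1) : ‖arcN v v' t - v‖ ≤ 2 * ‖v' - v‖ := by
  have h1 := arc_norm v v' hv hv' hd t ht0 ht1
  have h2 : ‖v + t • (v' - v)‖ ≠ 0 := by linarith
  have e1 : ‖(v + t • (v' - v)) - v‖ = t * ‖v' - v‖ := by
    rw [add_sub_cancel_left, norm_smul, Real.norm_eq_abs, abs_of_nonneg ht0]
  have e2 : ‖arcN v v' t - (v + t • (v' - v))‖ = |1 - ‖v + t • (v' - v)‖| := by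
    have e3 : arcN v v' t - (v + t • (v' - v)) =
        (‖v + t • (v' - v)‖⁻¹ - 1) • (v + t • (v' - v)) := by
      unfold arcN
      rw [sub_smul, one_smul]
    rw [e3, norm_smul, Real.norm_eq_abs]
    conv_lhs => rw [← abs_of_nonneg (norm_nonneg (v + t • (v' - v)))]
    rw [abs_norm, ← abs_of_nonneg (norm_nonneg (v + t • (v' - v))), ← abs_mul]
    congr 1
    rw [abs_norm, sub_mul, inv_mul_cancel₀ h2, one_mul]
  have h3 : |1 - ‖v + t • (v' - v)‖| ≤ t * ‖v' - v‖ := by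
    rw [← e1, ← hv, abs_sub_comm]
    conv_rhs => rw [← norm_neg, neg_sub]
    rw [abs_sub_comm]
    exact abs_norm_sub_norm_le _ _
  calc ‖arcN v v' t - v‖ = ‖(arcN v v' t - (v + t • (v' - v))) + ((v + t • (v' - v)) - v)‖ := by
        congr 1; abel
    _ ≤ ‖arcN v v' t - (v + t • (v' - v))‖ + ‖(v + t • (v' - v)) - v‖ := norm_add_le _ _
    _ ≤ t * ‖v' - v‖ + t * ‖v' - v‖ := by rw [e1, e2]; linarith
    _ ≤ 2 * ‖v' - v‖ := by nlinarith [norm_nonneg (v' - v)]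

theorem arcN_inner (v v' : E3) (hv : ‖v‖ = 1) (hv' : ‖v'‖ = 1) (hd : ‖v' - v‖ ≤ 1) (s t : ℝ)
    (hs0 : 0 ≤ s) (hs1 : s ≤ 1) (ht0 : 0 ≤ t) (ht1 : t ≤ 1) :
    1 - (s - t) ^ 2 ≤ ⟪arcN v v' s, arcN v v' t⟫_ℝ := by
  have hA := arc_norm v v' hv hv' hd s hs0 hs1
  have hB := arc_norm v v' hv hv' hd t ht0 ht1
  unfold arcN
  rw [real_inner_smul_left, real_inner_smul_right]
  have e1 : ‖(v + s • (v' - v)) - (v + t • (v' - v))‖ ^ 2 = (s - t) ^ 2 * ‖v' - v‖ ^ 2 := by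
    have : (v + s • (v' - v)) - (v + t • (v' - v)) = (s - t) • (v' - v) := by
      rw [sub_smul]; abel
    rw [this, norm_smul, Real.norm_eq_abs, mul_pow, sq_abs]
  rw [norm_sub_sq_real] at e1
  set A := ‖v + s • (v' - v)‖ with hAd
  set B := ‖v + t • (v' - v)‖ with hBd
  have hw : ‖v' - v‖ ^ 2 ≤ 1 := by
    have := norm_nonneg (v' - v)
    nlinarith
  have hAB : 1 / 2 ≤ A * B := by nlinarith
  have hA0 : 0 < A := by linarith
  have hB0 : 0 < B := by linarith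
  have e2 : A⁻¹ * (B⁻¹ * ⟪v + s • (v' - v), v + t • (v' - v)⟫_ℝ) =
      ⟪v + s • (v' - v), v + t • (v' - v)⟫_ℝ / (A * B) := by
    field_simp
  rw [e2, le_div_iff₀ (mul_pos hA0 hB0)]
  have h5 : (s - t) ^ 2 * ‖v' - v‖ ^ 2 ≤ (s - t) ^ 2 * (2 * (A * B)) :=
    mul_le_mul_of_nonneg_left (by linarith) (sq_nonneg _)
  nlinarith [sq_nonneg (A - B)]

theorem good_arc {g χ : E3 → ℝ} {τ0 η : ℝ} {v0 : E3} (v v' : E3) (hv : ‖v‖ = 1)
    (hv' : ‖v'‖ = 1) (hd : ‖v' - v‖ ≤ 1) (c c' : ℝ) (hc' : 0 ≤ c') (hcc : c' < c)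
    (hgood : GoodP g χ τ0 η v0 (v', c'))
    (hx : ∀ x : E3, ‖x‖ = 1 → ‖x - v‖ ≤ 2 * ‖v' - v‖ → χ x = 0 ∧ g x - η ≤ c') :
    GoodP g χ τ0 η v0 (v, c) := by
  obtain ⟨n0, hn0⟩ := exists_nat_gt (c / (c - c'))
  obtain ⟨n, hn⟩ : ∃ n : ℕ, n = n0 + 1 := ⟨_, rfl⟩
  have hnpos : (0 : ℝ) < n := by rw [hn]; positivity
  have hcn : c / (c - c') ≤ n := by
    rw [hn]; push_cast; linarith
  have hcp : 0 < c - c' := by linarith
  have hcn2 : c ≤ n * (c - c') := by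
    rwa [div_le_iff₀ hcp] at hcn
  have key : ∀ j : ℕ, j ≤ n → GoodP g χ τ0 η v0
      (arcN v v' (1 - j / n), c' + j * ((c - c') / n)) := by
    intro j
    induction j with
    | zero =>
      intro _
      have e1 : arcN v v' (1 - ((0 : ℕ) : ℝ) / n) = v' := by
        unfold arcN
        rw [Nat.cast_zero, zero_div, sub_zero, one_smul, add_sub_cancel, hv', inv_one, one_smul]
      rw [e1, Nat.cast_zero, zero_mul, add_zero]
      exact hgood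
    | succ j ih =>
      intro hj
      have hjn : ((j : ℝ) + 1) ≤ n := by exact_mod_cast hj
      have hj0 : (0 : ℝ) ≤ j := Nat.cast_nonneg j
      have s0 : 0 ≤ 1 - (j : ℝ) / n := by
        rw [sub_nonneg, div_le_one hnpos]; linarith
      have s1 : 1 - (j : ℝ) / n ≤ 1 := by
        have : 0 ≤ (j : ℝ) / n := by positivity
        linarith
      have t0 : 0 ≤ 1 - ((j : ℝ) + 1) / n := by
        rw [sub_nonneg, div_le_one hnpos]; linarith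
      have t1 : 1 - ((j : ℝ) + 1) / n ≤ 1 := by
        have : 0 ≤ ((j : ℝ) + 1) / n := by positivity
        linarith
      have hn1 := arcN_norm v v' hv hv' hd _ t0 t1
      have hn2 := arcN_norm v v' hv hv' hd _ s0 s1
      have hx1 := hx _ hn1 (arcN_near v v' hv hv' hd _ t0 t1)
      have hx2 := hx _ hn2 (arcN_near v v' hv hv' hd _ s0 s1)
      have hin := arcN_inner v v' hv hv' hd _ _ t0 t1 s0 s1
      push_cast
      have hstep : 0 ≤ (c - c') / n := by positivity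
      refine good_cons (ih (by omega)) hn1 ?_ (stepB_zero hx1.1 hx2.1 hn1 ?_)
      · show g (arcN v v' (1 - (↑j + 1) / ↑n)) - η ≤ c' + (↑j + 1) * ((c - c') / ↑n)
        have := hx1.2
        have h9 : 0 ≤ ((j : ℝ) + 1) * ((c - c') / n) := by positivity
        linarith
      · show c' + ↑j * ((c - c') / ↑n) ≤ (c' + (↑j + 1) * ((c - c') / ↑n)) *
          ⟪arcN v v' (1 - (↑j + 1) / ↑n), arcN v v' (1 - ↑j / ↑n)⟫_ℝ
        have e3 : ((1 - ((j : ℝ) + 1) / n) - (1 - (j : ℝ) / n)) ^ 2 = 1 / (n : ℝ) ^ 2 := by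
          field_simp
          ring
        rw [e3] at hin
        have hq0 : 0 ≤ c' + ((j : ℝ) + 1) * ((c - c') / n) := by positivity
        have hqc : c' + ((j : ℝ) + 1) * ((c - c') / n) ≤ c := by
          have : ((j : ℝ) + 1) * ((c - c') / n) ≤ n * ((c - c') / n) :=
            mul_le_mul_of_nonneg_right hjn hstep
          have h8 : (n : ℝ) * ((c - c') / n) = c - c' := by field_simp
          linarith
        have h10 : c * (1 / (n : ℝ) ^ 2) ≤ (c - c') / n := by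
          rw [mul_one_div, div_le_div_iff₀ (by positivity) hnpos]
          nlinarith
        calc c' + (j : ℝ) * ((c - c') / n)
            = (c' + ((j : ℝ) + 1) * ((c - c') / n)) - (c - c') / n := by ring
          _ ≤ (c' + ((j : ℝ) + 1) * ((c - c') / n)) -
              (c' + ((j : ℝ) + 1) * ((c - c') / n)) * (1 / (n : ℝ) ^ 2) := by
              have h11 : (c' + ((j : ℝ) + 1) * ((c - c') / n)) * (1 / (n : ℝ) ^ 2) ≤
                  c * (1 / (n : ℝ) ^ 2) := mul_le_mul_of_nonneg_right hqc (by positivity)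
              linarith
          _ = (c' + ((j : ℝ) + 1) * ((c - c') / n)) * (1 - 1 / (n : ℝ) ^ 2) := by ring
          _ ≤ _ := mul_le_mul_of_nonneg_left hin hq0
  have hfin := key n le_rfl
  have e1 : arcN v v' (1 - (n : ℝ) / n) = v := by
    unfold arcN
    rw [div_self hnpos.ne', sub_self, zero_smul, add_zero, hv, inv_one, one_smul]
  have e2 : c' + (n : ℝ) * ((c - c') / n) = c := by field_simp; ring
  rw [e1, e2] at hfin
  exact hfin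

theorem closed_D (g : E3 → ℝ) (hg : Continuous g) (δ : ℝ) :
    IsClosed {v : E3 | ‖v‖ = 1 ∧ ∃ w : E3, ‖w‖ = 1 ∧ g w + δ ≤ g v * ⟪v, w⟫_ℝ} := by
  have h1 : IsCompact ((sphere (0 : E3) 1 ×ˢ sphere (0 : E3) 1) ∩
      {p : E3 × E3 | g p.2 + δ ≤ g p.1 * ⟪p.1, p.2⟫_ℝ}) := by
    apply ((isCompact_sphere _ _).prod (isCompact_sphere _ _)).inter_right
    apply isClosed_le
    · fun_prop
    · fun_prop
  have h2 := (h1.image continuous_fst).isClosed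
  convert h2 using 1
  ext v
  constructor
  · rintro ⟨hv, w, hw, h⟩
    exact ⟨(v, w), ⟨⟨mem_sphere_zero_iff_norm.2 hv, mem_sphere_zero_iff_norm.2 hw⟩, h⟩, rfl⟩
  · rintro ⟨⟨v', w⟩, ⟨⟨hv, hw⟩, h⟩, rfl⟩
    exact ⟨mem_sphere_zero_iff_norm.1 hv, w, mem_sphere_zero_iff_norm.1 hw, h⟩

/-- TARGET -/
theorem chains (g χ : E3 → ℝ) (hg : Continuous g) (m R δ τ0 η : ℝ) (hm : 0 < m)
    (hgm : ∀ v : E3, ‖v‖ = 1 → m ≤ g v ∧ g v ≤ R) (hSB : SB g) (hδ : 0 < δ)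
    (hD : ∀ v : E3, ‖v‖ = 1 → χ v ≠ 0 → ∃ w : E3, ‖w‖ = 1 ∧ g w + δ ≤ g v * ⟪v, w⟫_ℝ)
    (hχ : ∀ v, 0 ≤ χ v ∧ χ v ≤ 1)
    (hη : 0 < η) (hηm : η < m) (hηδ : η ≤ δ / 8) (hτ0 : 0 < τ0) (hτ1 : τ0 ≤ 1)
    (hτδ : τ0 * (24 * (R + 1)) ≤ δ)
    (v0 : E3) (hv0 : ‖v0‖ = 1) (hmin : ∀ v : E3, ‖v‖ = 1 → g v0 ≤ g v)
    (v : E3) (hv : ‖v‖ = 1) :
    ∃ T : Finset (E3 × ℝ), (v, g v) ∈ T ∧ RollsB χ τ0 T (v0, g v0 - η) ∧
      ∀ q ∈ T, ‖q.1‖ = 1 ∧ g q.1 - η ≤ q.2 := by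
  have hinle : ∀ x y : E3, ‖x‖ = 1 → ‖y‖ = 1 → ⟪x, y⟫_ℝ ≤ 1 := by
    intro x y hx hy
    have := real_inner_le_norm x y
    rwa [hx, hy, one_mul] at this
  have hDlow : ∀ x w : E3, ‖x‖ = 1 → ‖w‖ = 1 → g w + δ ≤ g x * ⟪x, w⟫_ℝ → g w + δ ≤ g x := by
    intro x w hx hw h
    have h1 := hinle x w hx hw
    have h2 := (hgm x hx).1
    nlinarith
  have hχ0 : ∀ x : E3, ‖x‖ = 1 →
      x ∉ {v : E3 | ‖v‖ = 1 ∧ ∃ w : E3, ‖w‖ = 1 ∧ g w + δ ≤ g v * ⟪v, w⟫_ℝ} → χ x = 0 := by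
    intro x hx hxD
    by_contra hne
    exact hxD ⟨hx, hD x hx hne⟩
  have hv0D : v0 ∉ {v : E3 | ‖v‖ = 1 ∧ ∃ w : E3, ‖w‖ = 1 ∧ g w + δ ≤ g v * ⟪v, w⟫_ℝ} := by
    rintro ⟨_, w, hw, h⟩
    have h1 := hDlow v0 w hv0 hw h
    have h2 := hmin w hw
    linarith
  have hχv0 := hχ0 v0 hv0 hv0D
  have hDc := closed_D g hg δ
  have main : ∀ L : ℝ, (∀ x : E3, ‖x‖ = 1 → g x ≤ L → GoodP g χ τ0 η v0 (x, g x)) →
      ∀ x : E3, ‖x‖ = 1 → g x ≤ L + δ / 8 → GoodP g χ τ0 η v0 (x, g x) := by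
    intro L hL x hx hxL
    obtain ⟨r, hr⟩ : ∃ r : ℝ, r = g x + η / 2 := ⟨_, rfl⟩
    have hrη : 0 < r - η := by
      have := (hgm x hx).1
      rw [hr]; linarith
    have hZloc : ∀ u ∈ {u : E3 | ‖u‖ = 1 ∧ g u < r}, ∀ᶠ u' in nhdsWithin u {u : E3 | ‖u‖ = 1 ∧ g u < r},
        ((∀ c, r - η < c → c ≤ R + 1 → GoodP g χ τ0 η v0 (u, c)) ↔
          (∀ c, r - η < c → c ≤ R + 1 → GoodP g χ τ0 η v0 (u', c))) := by
      rintro u ⟨hu, hur⟩
      by_cases huD : u ∈ {v : E3 | ‖v‖ = 1 ∧ ∃ w : E3, ‖w‖ = 1 ∧ g w + δ ≤ g v * ⟪v, w⟫_ℝ}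
      · obtain ⟨_, w, hw, hwu⟩ := huD
        have hwL : g w ≤ L := by
          have := hDlow u w hu hw hwu
          rw [hr] at hur
          linarith
        have hgw := hL w hw hwL
        have htrue : ∀ u' : E3, ‖u'‖ = 1 → g u' < r → g w + δ / 2 < g u' * ⟪u', w⟫_ℝ →
            ∀ c, r - η < c → c ≤ R + 1 → GoodP g χ τ0 η v0 (u', c) := by
          intro u' hu' hu'r h1 c hc1 hc2
          have h2 := hinle u' w hu' hw
          have hgw1 := (hgm w hw).1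
          have hgu1 := (hgm u' hu').1
          have h3 : 0 < ⟪u', w⟫_ℝ := by
            by_contra hcon
            push Not at hcon
            nlinarith
          refine good_cons hgw hu' ?_ (stepB_margin hχ hτ1 hτδ hu' hw ?_ ?_ ?_ hc2 ?_)
          · show g u' - η ≤ c
            linarith
          · show 0 ≤ g w
            linarith
          · exact (hgm w hw).2
          · show 0 ≤ c
            linarith
          · show g w + δ / 4 ≤ c * ⟪u', w⟫_ℝ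
            have h4 : (g u' - η) * ⟪u', w⟫_ℝ ≤ c * ⟪u', w⟫_ℝ :=
              mul_le_mul_of_nonneg_right (by linarith) h3.le
            nlinarith
        have hev : ∀ᶠ u' in nhds u, g w + δ / 2 < g u' * ⟪u', w⟫_ℝ := by
          have hcont : Continuous fun u' : E3 => g u' * ⟪u', w⟫_ℝ := by fun_prop
          exact hcont.continuousAt.eventually_const_lt (by linarith)
        have hself := htrue u hu hur (by linarith)
        filter_upwards [mem_nhdsWithin_of_mem_nhds hev, self_mem_nhdsWithin] with u' h1 h2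
        exact ⟨fun _ => htrue u' h2.1 h2.2 h1, fun _ => hself⟩
      · have hop : {v : E3 | ‖v‖ = 1 ∧ ∃ w : E3, ‖w‖ = 1 ∧ g w + δ ≤ g v * ⟪v, w⟫_ℝ}ᶜ ∩
            {y | g y < r} ∈ nhds u :=
          Filter.inter_mem (hDc.isOpen_compl.mem_nhds huD)
            ((isOpen_lt hg continuous_const).mem_nhds hur)
        obtain ⟨ρ, hρ, hball⟩ := Metric.mem_nhds_iff.1 hop
        have hgoodball : ∀ y : E3, ‖y‖ = 1 → ‖y - u‖ < ρ → χ y = 0 ∧ g y < r := by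
          intro y hy hyu
          have h1 := hball (mem_ball_iff_norm.2 hyu)
          exact ⟨hχ0 y hy h1.1, h1.2⟩
        have hev : ∀ᶠ u' in nhds u, ‖u' - u‖ < min (ρ / 4) 1 := by
          have := Metric.ball_mem_nhds u (lt_min (by positivity : 0 < ρ / 4) one_pos)
          filter_upwards [this] with y hy
          exact mem_ball_iff_norm.1 hy
        have htr : ∀ p q : E3, ‖p‖ = 1 → ‖q‖ = 1 → ‖q - p‖ ≤ 1 →
            (∀ y : E3, ‖y‖ = 1 → ‖y - p‖ ≤ 2 * ‖q - p‖ → χ y = 0 ∧ g y < r) →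
            (∀ c, r - η < c → c ≤ R + 1 → GoodP g χ τ0 η v0 (q, c)) →
            (∀ c, r - η < c → c ≤ R + 1 → GoodP g χ τ0 η v0 (p, c)) := by
          intro p q hp hq hpq hy hZ c hc1 hc2
          refine good_arc p q hp hq hpq c ((c + (r - η)) / 2) (by linarith) (by linarith)
            (hZ _ (by linarith) (by linarith)) ?_
          intro y hy1 hy2
          obtain ⟨h1, h2⟩ := hy y hy1 hy2
          exact ⟨h1, by linarith⟩
        filter_upwards [mem_nhdsWithin_of_mem_nhds hev, self_mem_nhdsWithin] with u' h1 h2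
        have h3 : ‖u' - u‖ < ρ / 4 := lt_of_lt_of_le h1 (min_le_left _ _)
        have h4 : ‖u' - u‖ ≤ 1 := (lt_of_lt_of_le h1 (min_le_right _ _)).le
        have h5 : ‖u - u'‖ = ‖u' - u‖ := norm_sub_rev _ _
        constructor
        · intro hZ
          refine htr u' u h2.1 hu (by rw [h5]; exact h4) ?_ hZ
          intro y hy1 hy2
          apply hgoodball y hy1
          calc ‖y - u‖ = ‖(y - u') + (u' - u)‖ := by congr 1; abel
            _ ≤ ‖y - u'‖ + ‖u' - u‖ := norm_add_le _ _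
            _ < ρ := by rw [h5] at hy2; linarith
        · intro hZ
          refine htr u u' hu h2.1 h4 ?_ hZ
          intro y hy1 hy2
          apply hgoodball y hy1
          linarith
    have hiff := (hSB r).induction₂ (fun u u' =>
        ((∀ c, r - η < c → c ≤ R + 1 → GoodP g χ τ0 η v0 (u, c)) ↔
          (∀ c, r - η < c → c ≤ R + 1 → GoodP g χ τ0 η v0 (u', c)))) hZloc
        (fun a b c _ _ _ h1 h2 => h1.trans h2) (fun a b _ _ h => h.symm)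
        (x := v0) (y := x) ⟨hv0, by have := hmin x hx; rw [hr]; linarith⟩
        ⟨hx, by rw [hr]; linarith⟩
    have hZ0 : ∀ c, r - η < c → c ≤ R + 1 → GoodP g χ τ0 η v0 (v0, c) := by
      intro c hc1 _
      have h1 := hmin x hx
      refine good_cons (good_tau g χ τ0 η v0 hv0) hv0 ?_ (stepB_zero hχv0 hχv0 hv0 ?_)
      · show g v0 - η ≤ c
        rw [hr] at hc1; linarith
      · show g v0 - η ≤ c * ⟪v0, v0⟫_ℝ
        rw [real_inner_self_eq_norm_sq, hv0, one_pow, mul_one]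
        rw [hr] at hc1; linarith
    exact hiff.1 hZ0 (g x) (by rw [hr]; linarith) (by have := (hgm x hx).2; linarith)
  have hall : ∀ n : ℕ, ∀ x : E3, ‖x‖ = 1 → g x ≤ 0 + n * (δ / 8) → GoodP g χ τ0 η v0 (x, g x) := by
    intro n
    induction n with
    | zero =>
      intro x hx hx2
      have := (hgm x hx).1
      rw [Nat.cast_zero, zero_mul, add_zero] at hx2
      linarith
    | succ n ih =>
      intro x hx hx2
      refine main _ ih x hx ?_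
      push_cast at hx2
      linarith
  obtain ⟨n, hn⟩ := exists_nat_gt (g v / (δ / 8))
  rw [div_lt_iff₀ (by positivity)] at hn
  exact hall n v hv (by linarith)


end N_chains

alias chains := N_chains.chains

end Pool.Agent.Helper524.Mono
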