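import Pool.Agent.Helper524.Mono.Gen
import Pool.Agent.Helper524.Mono.S_chains

set_option autoImplicit false

open MeasureTheory Set Metric
open scoped InnerProductSpace

namespace Pool.Agent.Helper524.Mono

namespace N_exists_system




/-- TARGET -/
theorem exists_system (g χ : E3 → ℝ) (hg : Continuous g) (hχc : Continuous χ) (m R δ τ0 : ℝ)
    (hm : 0 < m) (hgm : ∀ v : E3, ‖v‖ = 1 → m ≤ g v ∧ g v ≤ R) (hSB : SB g) (hδ : 0 < δ)
    (hD : ∀ v : E3, ‖v‖ = 1 → χ v ≠ 0 → ∃ w : E3, ‖w‖ = 1 ∧ g w + δ ≤ g v * ⟪v, w⟫_ℝ)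
    (hχ : ∀ v, 0 ≤ χ v ∧ χ v ≤ 1) (hτ0 : 0 < τ0) (hτ1 : τ0 ≤ 1 / 2)
    (hτδ : τ0 * (24 * (R + 1)) ≤ δ) (t : ℝ) (ht0 : 0 < t) (ht : t < 1) :
    ∃ (T : Finset (E3 × ℝ)) (τ : E3 × ℝ), RollsB χ τ0 T τ ∧ (∀ q ∈ T, ‖q.1‖ = 1 ∧ 0 < q.2) ∧
      ∀ b : E3, ‖b‖ ≤ τ0 → (∀ x ∈ Wulff g χ b, t • x ∈ poly (tiltSys χ b T)) ∧
        (∀ x ∈ poly (tiltSys χ b T), t • x ∈ Wulff g χ b) := by
  classical
  have hsc : IsCompact (sphere (0 : E3) 1) := isCompact_sphere 0 1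
  have hsph : ∀ v : E3, v ∈ sphere (0 : E3) 1 ↔ ‖v‖ = 1 := fun v => mem_sphere_zero_iff_norm
  have hsne : (sphere (0 : E3) 1).Nonempty := by
    refine ⟨EuclideanSpace.single 0 1, ?_⟩
    rw [hsph, EuclideanSpace.norm_single, norm_one]
  obtain ⟨v0, hv0, hmin0⟩ := hsc.exists_isMinOn hsne hg.continuousOn
  have hv0' := (hsph v0).1 hv0
  have hmin : ∀ v : E3, ‖v‖ = 1 → g v0 ≤ g v := fun v hv => hmin0 ((hsph v).2 hv)
  have hmR : m ≤ R := (hgm v0 hv0').1.trans (hgm v0 hv0').2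
  have ht1 : 0 < 1 - t := by linarith
  have ht1m : 0 < (1 - t) * m := mul_pos ht1 hm
  obtain ⟨η, hη, hηm, hηδ, hηt⟩ : ∃ η : ℝ, 0 < η ∧ η < m ∧ η ≤ δ / 8 ∧ η ≤ (1 - t) * m := by
    refine ⟨min (min (m / 2) (δ / 8)) ((1 - t) * m), ?_, ?_, ?_, ?_⟩
    · exact lt_min (lt_min (by linarith) (by linarith)) ht1m
    · exact lt_of_le_of_lt ((min_le_left _ _).trans (min_le_left _ _)) (by linarith)
    · exact (min_le_left _ _).trans (min_le_right _ _)
    · exact min_le_right _ _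
  have hden : 0 < 1 + 8 * (R + 1) := by linarith
  obtain ⟨μ, hμ, hμ8, hμt⟩ : ∃ μ : ℝ, 0 < μ ∧ μ ≤ 1 / 8 ∧ μ * (1 + 8 * (R + 1)) ≤ (1 - t) * m := by
    refine ⟨min (1 / 8) ((1 - t) * m / (1 + 8 * (R + 1))), ?_, min_le_left _ _, ?_⟩
    · exact lt_min (by norm_num) (div_pos ht1m hden)
    · have := mul_le_mul_of_nonneg_right
        (min_le_right (1 / 8 : ℝ) ((1 - t) * m / (1 + 8 * (R + 1)))) hden.le
      rwa [div_mul_cancel₀ _ hden.ne'] at this
  obtain ⟨r1, hr1, hr1'⟩ := Metric.uniformContinuousOn_iff.1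
    (hsc.uniformContinuousOn_of_continuous hg.continuousOn) μ hμ
  obtain ⟨r2, hr2, hr2'⟩ := Metric.uniformContinuousOn_iff.1
    (hsc.uniformContinuousOn_of_continuous hχc.continuousOn) μ hμ
  obtain ⟨V, hVs, hVf, hVc⟩ := hsc.finite_cover_balls
    (show 0 < min μ (min r1 r2) from lt_min hμ (lt_min hr1 hr2))
  have hTex : ∀ v : E3, ∃ T : Finset (E3 × ℝ), ‖v‖ = 1 → ((v, g v) ∈ T ∧
      RollsB χ τ0 T (v0, g v0 - η) ∧ ∀ q ∈ T, ‖q.1‖ = 1 ∧ g q.1 - η ≤ q.2) := by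
    intro v
    by_cases hv : ‖v‖ = 1
    · obtain ⟨T, hT⟩ := chains g χ hg m R δ τ0 η hm hgm hSB hδ hD hχ hη hηm hηδ hτ0
        (by linarith) hτδ v0 hv0' hmin v hv
      exact ⟨T, fun _ => hT⟩
    · exact ⟨∅, fun h => absurd h hv⟩
  choose T hT using hTex
  have hTV : ∀ v ∈ V, ((v, g v) ∈ T v ∧
      RollsB χ τ0 (T v) (v0, g v0 - η) ∧ ∀ q ∈ T v, ‖q.1‖ = 1 ∧ g q.1 - η ≤ q.2) := by
    intro v hv
    exact hT v ((hsph v).1 (hVs hv))
  have hcov : ∀ u : E3, ‖u‖ = 1 → ∃ v ∈ V, dist u v < min μ (min r1 r2) := by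
    intro u hu
    have := hVc ((hsph u).2 hu)
    simp only [mem_iUnion, mem_ball] at this
    obtain ⟨v, hv, h⟩ := this
    exact ⟨v, hv, h⟩
  have hmemT : ∀ q : E3 × ℝ, q ∈ hVf.toFinset.biUnion T ↔ ∃ v ∈ V, q ∈ T v := by
    intro q
    rw [Finset.mem_biUnion]
    constructor
    · rintro ⟨v, hv, h⟩
      exact ⟨v, hVf.mem_toFinset.1 hv, h⟩
    · rintro ⟨v, hv, h⟩
      exact ⟨v, hVf.mem_toFinset.2 hv, h⟩
  have hTq : ∀ q ∈ hVf.toFinset.biUnion T, ‖q.1‖ = 1 ∧ g q.1 - η ≤ q.2 := by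
    intro q hq
    obtain ⟨v, hv, h⟩ := (hmemT q).1 hq
    exact (hTV v hv).2.2 q h
  refine ⟨hVf.toFinset.biUnion T, (v0, g v0 - η), ⟨?_, ?_⟩, ?_, ?_⟩
  · obtain ⟨v, hv, _⟩ := hcov v0 hv0'
    exact (hmemT _).2 ⟨v, hv, (hTV v hv).2.1.1⟩
  · intro p hp
    obtain ⟨v, hv, h⟩ := (hmemT p).1 hp
    exact ((hTV v hv).2.1.2 p h).lift id fun a c hac =>
      ⟨(hmemT _).2 ⟨v, hv, hac.1⟩, hac.2⟩
  · intro q hq
    obtain ⟨h1, h2⟩ := hTq q hq
    have h3 := (hgm q.1 h1).1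
    exact ⟨h1, by linarith⟩
  · intro b hb
    have hb2 : ‖b‖ ≤ 1 / 2 := hb.trans hτ1
    constructor
    · intro x hx
      rw [mem_poly_tiltSys]
      intro q hq
      obtain ⟨h1, h2⟩ := hTq q hq
      have h3 := (hgm q.1 h1).1
      have h4 : ⟪q.1 - χ q.1 • b, x⟫_ℝ ≤ g q.1 := hx q.1 h1
      rw [real_inner_smul_right]
      have h5 := mul_le_mul_of_nonneg_left h4 ht0.le
      have h6 := mul_le_mul_of_nonneg_left h3 ht1.le
      nlinarith
    · intro x hx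
      rw [mem_poly_tiltSys] at hx
      have key : ∀ u : E3, ‖u‖ = 1 → ⟪u - χ u • b, x⟫_ℝ ≤ g u + μ + 2 * μ * ‖x‖ := by
        intro u hu
        obtain ⟨v, hv, huv⟩ := hcov u hu
        have hv1 : ‖v‖ = 1 := (hsph v).1 (hVs hv)
        have h1 : ⟪v - χ v • b, x⟫_ℝ ≤ g v :=
          hx (v, g v) ((hmemT _).2 ⟨v, hv, (hTV v hv).1⟩)
        have h2 : ⟪u - χ u • b, x⟫_ℝ = ⟪v - χ v • b, x⟫_ℝ + ⟪(u - v) - (χ u - χ v) • b, x⟫_ℝ := by
          rw [← inner_add_left]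
          congr 1
          rw [sub_smul]
          abel
        have h3 : ⟪(u - v) - (χ u - χ v) • b, x⟫_ℝ ≤ ‖(u - v) - (χ u - χ v) • b‖ * ‖x‖ :=
          real_inner_le_norm _ _
        have h4 : ‖(u - v) - (χ u - χ v) • b‖ ≤ μ + μ * (1 / 2) := by
          refine (norm_sub_le _ _).trans ?_
          rw [norm_smul, Real.norm_eq_abs]
          have h5 : ‖u - v‖ ≤ μ := by
            rw [← dist_eq_norm]
            exact (huv.le).trans (min_le_left _ _)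
          have h6 : |χ u - χ v| ≤ μ := by
            have := hr2' u ((hsph u).2 hu) v ((hsph v).2 hv1)
              (lt_of_lt_of_le huv ((min_le_right _ _).trans (min_le_right _ _)))
            rw [Real.dist_eq] at this
            exact this.le
          have h7 : |χ u - χ v| * ‖b‖ ≤ μ * (1 / 2) :=
            mul_le_mul h6 hb2 (norm_nonneg _) hμ.le
          linarith
        have h8 : g v ≤ g u + μ := by
          have := hr1' u ((hsph u).2 hu) v ((hsph v).2 hv1)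
            (lt_of_lt_of_le huv ((min_le_right _ _).trans (min_le_left _ _)))
          rw [Real.dist_eq] at this
          have := abs_lt.1 this
          linarith
        have h9 := mul_le_mul_of_nonneg_right h4 (norm_nonneg x)
        have h10 : 0 ≤ μ * ‖x‖ := by positivity
        rw [h2]
        nlinarith
      have hxn : ‖x‖ ≤ 4 * (R + 1) := by
        rcases eq_or_ne x 0 with h0 | h0
        · rw [h0, norm_zero]
          linarith
        · have hxp : 0 < ‖x‖ := norm_pos_iff.2 h0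
          have hu : ‖(‖x‖⁻¹ • x : E3)‖ = 1 := by
            rw [norm_smul, norm_inv, norm_norm, inv_mul_cancel₀ hxp.ne']
          have h1 := key _ hu
          have h2 := (hgm _ hu).2
          have h3 := hχ (‖x‖⁻¹ • x : E3)
          rw [inner_sub_left, real_inner_smul_left, real_inner_smul_left,
            real_inner_self_eq_norm_sq] at h1
          have h4 : ‖x‖⁻¹ * ‖x‖ ^ 2 = ‖x‖ := by
            rw [sq, ← mul_assoc, inv_mul_cancel₀ hxp.ne', one_mul]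
          rw [h4] at h1
          have h5 : ⟪b, x⟫_ℝ ≤ 1 / 2 * ‖x‖ :=
            (real_inner_le_norm _ _).trans (mul_le_mul_of_nonneg_right hb2 hxp.le)
          have h6 : χ (‖x‖⁻¹ • x) * ⟪b, x⟫_ℝ ≤ 1 / 2 * ‖x‖ := by
            have h7 := mul_le_mul_of_nonneg_left h5 h3.1
            have h8 : χ (‖x‖⁻¹ • x) * (1 / 2 * ‖x‖) ≤ 1 * (1 / 2 * ‖x‖) :=
              mul_le_mul_of_nonneg_right h3.2 (by positivity)
            linarith
          have h9 : μ * ‖x‖ ≤ 1 / 8 * ‖x‖ := mul_le_mul_of_nonneg_right hμ8 hxp.le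
          linarith
      intro u hu
      rw [real_inner_smul_right]
      have h1 := key u hu
      have h2 := (hgm u hu).1
      have h3 : t * ⟪u - χ u • b, x⟫_ℝ ≤ t * (g u + μ + 2 * μ * ‖x‖) :=
        mul_le_mul_of_nonneg_left h1 ht0.le
      have h4 : t * (μ + 2 * μ * ‖x‖) ≤ 1 * (μ + 2 * μ * ‖x‖) :=
        mul_le_mul_of_nonneg_right ht.le (by positivity)
      have h5 : 2 * μ * ‖x‖ ≤ 2 * μ * (4 * (R + 1)) :=
        mul_le_mul_of_nonneg_left hxn (by positivity)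
      have h6 := mul_le_mul_of_nonneg_left h2 ht1.le
      nlinarith


end N_exists_system

alias exists_system := N_exists_system.exists_system

end Pool.Agent.Helper524.Mono
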