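import Pool.Agent.Helper524.Mono.Gen

set_option autoImplicit false

open MeasureTheory Set Metric
open scoped InnerProductSpace

namespace Pool.Agent.Helper524.Mono

namespace N_stable_unique


lemma stable_unique_back {F : Set E3} {z x : E3} (hz : z ∈ intrinsicInterior ℝ F) (hx : x ∈ F) :
    ∃ s : ℝ, 0 < s ∧ z - s • (x - z) ∈ F := by
  obtain ⟨y, hy, rfl⟩ := mem_intrinsicInterior.1 hz
  let g : ℝ → affineSpan ℝ F := fun s => ⟨AffineMap.lineMap (y : E3) x (-s),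
    AffineMap.lineMap_mem _ y.2 (subset_affineSpan ℝ F hx)⟩
  have hval : ∀ s : ℝ, ((g s : affineSpan ℝ F) : E3) = (y : E3) - s • (x - y) := by
    intro s
    show AffineMap.lineMap (y : E3) x (-s) = _
    rw [AffineMap.lineMap_apply, vsub_eq_sub, vadd_eq_add, neg_smul]
    abel
  have hg : Continuous g := by
    apply Continuous.subtype_mk
    have : (fun s : ℝ => AffineMap.lineMap (y : E3) x (-s)) = fun s : ℝ => (y : E3) - s • (x - y) := by
      funext s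
      exact hval s
    rw [this]
    fun_prop
  have hg0 : g 0 = y := by
    apply Subtype.ext
    rw [hval, zero_smul, sub_zero]
  have h1 : ∀ᶠ s in nhds (0:ℝ), g s ∈ interior ((↑) ⁻¹' F : Set (affineSpan ℝ F)) := by
    apply hg.continuousAt.eventually
    rw [hg0]
    exact isOpen_interior.mem_nhds hy
  have h2 : ∀ᶠ s in nhdsWithin (0:ℝ) (Ioi 0), 0 < s ∧
      g s ∈ interior ((↑) ⁻¹' F : Set (affineSpan ℝ F)) :=
    (eventually_mem_nhdsWithin (a := (0:ℝ)) (s := Ioi 0)).and (h1.filter_mono nhdsWithin_le_nhds)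
  obtain ⟨s, hs, hgs⟩ := h2.exists
  refine ⟨s, hs, ?_⟩
  have h3 : g s ∈ ((↑) ⁻¹' F : Set (affineSpan ℝ F)) := interior_subset hgs
  rw [← hval]
  exact h3

lemma stable_unique_line {F : Set E3} (hF : Module.finrank ℝ (vectorSpan ℝ F) = 2) {z : E3}
    (hz : z ∈ F) {v w : E3} (hv : v ≠ 0) (hv1 : ∀ x ∈ F, ⟪v, x - z⟫_ℝ = 0)
    (hw1 : ∀ x ∈ F, ⟪w, x - z⟫_ℝ = 0) : ∃ c : ℝ, c • v = w := by
  have hmem : ∀ q : E3, (∀ x ∈ F, ⟪q, x - z⟫_ℝ = 0) → q ∈ (vectorSpan ℝ F)ᗮ := by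
    intro q hq
    rw [vectorSpan_eq_span_vsub_set_right ℝ hz, Submodule.mem_orthogonal]
    intro y hy
    refine Submodule.span_induction (p := fun y _ => ⟪y, q⟫_ℝ = 0) ?_ ?_ ?_ ?_ hy
    · rintro _ ⟨x, hx, rfl⟩
      show ⟪x - z, q⟫_ℝ = 0
      rw [real_inner_comm]
      exact hq x hx
    · exact inner_zero_left _
    · intro a b _ _ ha hb
      rw [inner_add_left, ha, hb, add_zero]
    · intro c a _ ha
      rw [real_inner_smul_left, ha, mul_zero]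
  have hdim : Module.finrank ℝ ((vectorSpan ℝ F)ᗮ : Submodule ℝ E3) = 1 := by
    have h1 := Submodule.finrank_add_finrank_orthogonal (vectorSpan ℝ F)
    rw [hF, finrank_euclideanSpace_fin] at h1
    omega
  have h2 := (finrank_eq_one_iff_of_nonzero' (⟨v, hmem v hv1⟩ : ((vectorSpan ℝ F)ᗮ : Submodule ℝ E3))
    (by intro h; exact hv (congrArg Subtype.val h))).1 hdim ⟨w, hmem w hw1⟩
  obtain ⟨c, hc⟩ := h2
  exact ⟨c, congrArg Subtype.val hc⟩

/-- TARGET -/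
theorem stable_unique (T : Finset (E3 × ℝ)) (τ : E3 × ℝ) (hT : ∀ p ∈ T, p.1 ≠ 0 ∧ 0 < p.2)
    (hR : Rolls T τ) (hcom : com (poly T) = 0) (F : Set E3) (hF : IsStable (poly T) F) :
    F = face (poly T) τ.1 := by
  obtain ⟨⟨u, hu0, hFu, hdim⟩, z, hz, hzort⟩ := hF
  have hzF : z ∈ F := intrinsicInterior_subset hz
  have hFP : ∀ x ∈ F, x ∈ poly T := by
    intro x hx
    rw [hFu] at hx
    exact hx.1
  have hzP : z ∈ poly T := hFP z hzF
  have hzmax : ∀ y ∈ poly T, ⟪u, y⟫_ℝ ≤ ⟪u, z⟫_ℝ := by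
    have h := hzF
    rw [hFu] at h
    exact h.2
  have hz1 : ∀ x ∈ F, ⟪z, x - z⟫_ℝ = 0 := by
    intro x hx
    have h := hzort x hx
    rw [hcom, zero_sub, inner_neg_left, neg_eq_zero] at h
    exact h
  have hu1 : ∀ x ∈ F, ⟪u, x - z⟫_ℝ = 0 := by
    intro x hx
    have h1 := hzmax x (hFP x hx)
    have h2 : ⟪u, z⟫_ℝ ≤ ⟪u, x⟫_ℝ := by
      have h := hx
      rw [hFu] at h
      exact h.2 z hzP
    rw [inner_sub_right]
    linarith
  -- (a)
  have hact : ∀ q ∈ T, ⟪q.1, z⟫_ℝ = q.2 → ∀ x ∈ F, ⟪q.1, x - z⟫_ℝ = 0 := by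
    intro q hq hqz x hx
    obtain ⟨s, hs, hsF⟩ := stable_unique_back hz hx
    have h1 := hFP x hx q hq
    have h2 := hFP _ hsF q hq
    rw [inner_sub_right, real_inner_smul_right, hqz] at h2
    have h3 : ⟪q.1, x - z⟫_ℝ ≤ 0 := by
      rw [inner_sub_right]; linarith
    have h4 : 0 ≤ s * ⟪q.1, x - z⟫_ℝ := by linarith
    have h5 : 0 ≤ ⟪q.1, x - z⟫_ℝ := nonneg_of_mul_nonneg_right h4 hs
    linarith
  -- (b)
  have hex : ∃ p ∈ T, ⟪p.1, z⟫_ℝ = p.2 := by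
    by_contra hno
    push Not at hno
    have hlt : ∀ p ∈ T, ⟪p.1, z⟫_ℝ < p.2 := fun p hp => lt_of_le_of_ne (hzP p hp) (hno p hp)
    have h1 : ∀ᶠ ε in nhds (0:ℝ), ∀ p ∈ T, ⟪p.1, z + ε • u⟫_ℝ < p.2 := by
      rw [Filter.eventually_all_finset]
      intro p hp
      have hc : Continuous fun ε : ℝ => ⟪p.1, z + ε • u⟫_ℝ := by fun_prop
      have h2 : ⟪p.1, z + (0:ℝ) • u⟫_ℝ < p.2 := by
        rw [zero_smul, add_zero]; exact hlt p hp
      exact hc.continuousAt.eventually (Iio_mem_nhds h2)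
    have h3 : ∀ᶠ ε in nhdsWithin (0:ℝ) (Ioi 0), 0 < ε ∧ ∀ p ∈ T, ⟪p.1, z + ε • u⟫_ℝ < p.2 :=
      (eventually_mem_nhdsWithin (a := (0:ℝ)) (s := Ioi 0)).and
        (h1.filter_mono nhdsWithin_le_nhds)
    obtain ⟨ε, hε, hεT⟩ := h3.exists
    have h4 := hzmax (z + ε • u) (fun p hp => (hεT p hp).le)
    rw [inner_add_right, real_inner_smul_right, real_inner_self_eq_norm_sq] at h4
    have h5 : 0 < ‖u‖ := norm_pos_iff.2 hu0
    have h6 : 0 < ε * ‖u‖ ^ 2 := by positivity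
    linarith
  -- (c)
  have hstep : ∀ q ∈ T, ⟪q.1, z⟫_ℝ = q.2 → ∀ q' ∈ T, Step q q' → ⟪q'.1, z⟫_ℝ = q'.2 := by
    intro q hq hqz q' hq' hst
    obtain ⟨c, hc⟩ := stable_unique_line hdim hzF (hT q hq).1 (hact q hq hqz) hz1
    have hn : 0 < ‖q.1‖ := norm_pos_iff.2 (hT q hq).1
    have h1 : c * ‖q.1‖ ^ 2 = q.2 := by
      rw [← hqz, ← hc, real_inner_smul_right, real_inner_self_eq_norm_sq]
    have h2 : ⟪q'.1, z⟫_ℝ = c * ⟪q.1, q'.1⟫_ℝ := by
      rw [← hc, real_inner_smul_right, real_inner_comm]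
    have h3 := hzP q' hq'
    have h4 : q'.2 * ‖q.1‖ ^ 2 ≤ ⟪q'.1, z⟫_ℝ * ‖q.1‖ ^ 2 := by
      rw [h2]
      have h5 : q'.2 * ‖q.1‖ ^ 2 ≤ q.2 * ⟪q.1, q'.1⟫_ℝ := hst
      rw [← h1] at h5
      linarith
    have h5 : q'.2 ≤ ⟪q'.1, z⟫_ℝ := le_of_mul_le_mul_right h4 (by positivity)
    linarith
  obtain ⟨p0, hp0, hp0z⟩ := hex
  have hτ : τ ∈ T ∧ ⟪τ.1, z⟫_ℝ = τ.2 := by
    have h := hR.2 p0 hp0
    clear hR
    induction h with
    | refl => exact ⟨hp0, hp0z⟩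
    | tail _ hbc ih =>
      exact ⟨hbc.1, hstep _ ih.1 ih.2 _ hbc.1 hbc.2⟩
  -- (d)
  obtain ⟨c, hc⟩ := stable_unique_line hdim hzF (hT τ hτ.1).1 (hact τ hτ.1 hτ.2) hu1
  have hc0 : c ≠ 0 := by
    rintro rfl
    rw [zero_smul] at hc
    exact hu0 hc.symm
  have h0P : (0 : E3) ∈ poly T := by
    intro p hp
    rw [inner_zero_right]
    exact (hT p hp).2.le
  have hcpos : 0 < c := by
    rcases lt_or_gt_of_ne hc0 with h | h
    · exfalso
      have h1 := hzmax 0 h0P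
      rw [inner_zero_right, ← hc, real_inner_smul_left, hτ.2] at h1
      have h2 := (hT τ hτ.1).2
      have h3 := mul_neg_of_neg_of_pos h h2
      linarith
    · exact h
  rw [hFu, ← hc]
  ext x
  constructor
  · rintro ⟨h1, h2⟩
    refine ⟨h1, fun y hy => ?_⟩
    have h3 := h2 y hy
    rw [real_inner_smul_left, real_inner_smul_left] at h3
    exact le_of_mul_le_mul_left h3 hcpos
  · rintro ⟨h1, h2⟩
    refine ⟨h1, fun y hy => ?_⟩
    rw [real_inner_smul_left, real_inner_smul_left]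
    exact mul_le_mul_of_nonneg_left (h2 y hy) hcpos.le


end N_stable_unique

alias stable_unique := N_stable_unique.stable_unique

end Pool.Agent.Helper524.Mono
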