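import Pool.Agent.Helper524.Mono.Gen
import Pool.Agent.Helper524.Mono.Brouwer

set_option autoImplicit false

open MeasureTheory Set Metric
open scoped InnerProductSpace

namespace Pool.Agent.Helper524.Mono

namespace N_zero_of_outward




/-- TARGET -/
theorem zero_of_outward (F : E3 → E3) (r : ℝ) (hr : 0 < r)
    (hF : ContinuousOn F (closedBall 0 r))
    (hout : ∀ b : E3, ‖b‖ = r → 0 < ⟪b, F b⟫_ℝ) : ∃ b ∈ closedBall (0 : E3) r, F b = 0 := by
  obtain ⟨pr, hpr⟩ : ∃ pr : E3 → E3, pr = fun y => (r / max r ‖y‖) • y := ⟨_, rfl⟩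
  have hmax : ∀ y : E3, 0 < max r ‖y‖ := fun y => lt_max_of_lt_left hr
  have hprc : Continuous pr := by
    rw [hpr]
    have h1 : Continuous (fun y : E3 => r / max r ‖y‖) :=
      continuous_const.div (continuous_const.max continuous_norm) (fun y => (hmax y).ne')
    exact h1.smul continuous_id
  have hprn : ∀ y, ‖pr y‖ ≤ r := by
    intro y
    rw [hpr]
    simp only
    rw [norm_smul, Real.norm_eq_abs, abs_of_pos (div_pos hr (hmax y)), div_mul_eq_mul_div,
      div_le_iff₀ (hmax y)]
    exact mul_le_mul_of_nonneg_left (le_max_right _ _) hr.le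
  have hprid : ∀ y, ‖y‖ ≤ r → pr y = y := by
    intro y hy
    rw [hpr]
    simp only
    rw [max_eq_left hy, div_self hr.ne', one_smul]
  have hprm : ∀ y, pr y ∈ closedBall (0 : E3) r := fun y => mem_closedBall_zero_iff.2 (hprn y)
  have hg : Continuous (fun x => pr (pr x - F (pr x))) :=
    hprc.comp (hprc.sub (hF.comp_continuous hprc hprm))
  obtain ⟨x, hx⟩ := Brouwer.brouwer_euclidean 3 (fun x => pr (pr x - F (pr x))) hg r (fun x => hprn _)
  have hxn : ‖x‖ ≤ r := by rw [← hx]; exact hprn _
  rw [hprid x hxn] at hx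
  by_cases hc : ‖x - F x‖ ≤ r
  · rw [hprid _ hc] at hx
    refine ⟨x, mem_closedBall_zero_iff.2 hxn, ?_⟩
    exact sub_eq_self.1 hx
  · exfalso
    push Not at hc
    have hx' : (r / ‖x - F x‖) • (x - F x) = x := by
      have h1 : pr (x - F x) = (r / max r ‖x - F x‖) • (x - F x) := by rw [hpr]
      rw [h1, max_eq_right hc.le] at hx
      exact hx
    set N := ‖x - F x‖ with hN
    have hN0 : 0 < N := hr.trans hc
    have hxr : ‖x‖ = r := by
      have h1 : ‖(r / N) • (x - F x)‖ = r := by
        rw [norm_smul, Real.norm_eq_abs, abs_of_pos (div_pos hr hN0), ← hN]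
        field_simp
      rw [hx'] at h1
      exact h1
    have h2 := hout x hxr
    have h3 : x - F x = (N / r) • x := by
      conv_rhs => rw [← hx']
      rw [smul_smul]
      have : N / r * (r / N) = 1 := by field_simp
      rw [this, one_smul]
    have h4 : F x = (1 - N / r) • x := by
      rw [sub_smul, one_smul, ← h3]
      abel
    rw [h4, real_inner_smul_right, real_inner_self_eq_norm_sq] at h2
    have h5 : 1 < N / r := by rw [lt_div_iff₀ hr]; linarith
    nlinarith [sq_nonneg ‖x‖]


end N_zero_of_outward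

alias zero_of_outward := N_zero_of_outward.zero_of_outward

end Pool.Agent.Helper524.Mono
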