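import Pool.Agent.Helper524.Mono.Gen
import Pool.Agent.Helper524.Mono.S_moment_close
import Pool.Agent.Helper524.Mono.S_moment_continuous
import Pool.Agent.Helper524.Mono.S_wulff_basic
import Pool.Agent.Helper524.Mono.S_wulff_continuous
import Pool.Agent.Helper524.Mono.S_zero_of_outward
import Pool.Agent.Helper524.Mono.S_exists_stable
import Pool.Agent.Helper524.Mono.S_stable_unique
import Pool.Agent.Helper524.Mono.S_exists_system

set_option autoImplicit false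

open MeasureTheory Set Metric
open scoped InnerProductSpace

namespace Pool.Agent.Helper524.Mono

namespace N_wulff_main


















/-- TARGET -/
theorem wulff_main (g χ : E3 → ℝ) (hg : Continuous g) (hχc : Continuous χ) (m R δ τ0 : ℝ)
    (hm : 0 < m) (hgm : ∀ v : E3, ‖v‖ = 1 → m ≤ g v ∧ g v ≤ R) (hSB : SB g) (hδ : 0 < δ)
    (hD : ∀ v : E3, ‖v‖ = 1 → χ v ≠ 0 → ∃ w : E3, ‖w‖ = 1 ∧ g w + δ ≤ g v * ⟪v, w⟫_ℝ)
    (hχ : ∀ v, 0 ≤ χ v ∧ χ v ≤ 1) (hτ0 : 0 < τ0) (hτ1 : τ0 ≤ 1 / 2)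
    (hτδ : τ0 * (24 * (R + 1)) ≤ δ)
    (hout : ∀ b : E3, ‖b‖ = τ0 → 0 < ⟪b, ∫ x in Wulff g χ b, x⟫_ℝ)
    (t : ℝ) (ht0 : 0 < t) (ht : t < 1) :
    ∃ (b : E3) (P : Set E3), ‖b‖ ≤ τ0 ∧ IsMonostable P ∧ (∀ x ∈ Wulff g χ b, t • x ∈ P) ∧
      (∀ x ∈ P, t • x ∈ Wulff g χ b) := by
  classical
  -- basic constants
  have hunit : ∃ e : E3, ‖e‖ = 1 := ⟨EuclideanSpace.single 0 1, by simp⟩
  obtain ⟨e0, he0⟩ := hunit
  have hmR : m ≤ R := (hgm e0 he0).1.trans (hgm e0 he0).2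
  have hR0 : 0 < R := hm.trans_le hmR
  have hR2 : 0 < 2 * R := by linarith
  -- positive minimum on the sphere
  have hMcont : ContinuousOn (fun b => ∫ x in Wulff g χ b, x) (sphere (0 : E3) τ0) :=
    (wulff_continuous g χ m R hm hgm hχ).mono (sphere_subset_closedBall.trans
      (closedBall_subset_closedBall hτ1))
  have hsne : (sphere (0 : E3) τ0).Nonempty := ⟨τ0 • e0, by
    rw [mem_sphere_zero_iff_norm, norm_smul, he0, mul_one, Real.norm_eq_abs, abs_of_pos hτ0]⟩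
  obtain ⟨b1, hb1, hmin⟩ := (isCompact_sphere (0 : E3) τ0).exists_isMinOn hsne
    (continuousOn_id.inner (𝕜 := ℝ) hMcont)
  set κ : ℝ := ⟪b1, ∫ x in Wulff g χ b1, x⟫_ℝ with hκ
  have hκ0 : 0 < κ := hout b1 (mem_sphere_zero_iff_norm.1 hb1)
  have hκmin : ∀ b : E3, ‖b‖ = τ0 → κ ≤ ⟪b, ∫ x in Wulff g χ b, x⟫_ℝ := fun b hb =>
    hmin (mem_sphere_zero_iff_norm.2 hb)
  obtain ⟨t1, ht10, ht11, hclose⟩ := moment_close (2 * R) (κ / (2 * τ0)) hR2 (by positivity)
  set s : ℝ := max t t1 with hs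
  have hs0 : 0 < s := lt_max_of_lt_left ht0
  have hs1 : s < 1 := max_lt ht ht11
  have hts : t ≤ s := le_max_left _ _
  have ht1s : t1 ≤ s := le_max_right _ _
  obtain ⟨T, τ, hrolls, hTq, hTW⟩ := exists_system g χ hg hχc m R δ τ0 hm hgm hSB hδ hD hχ hτ0 hτ1
    hτδ s hs0 hs1
  -- basic facts on W and P
  have hW : ∀ b : E3, ‖b‖ ≤ τ0 → IsCompact (Wulff g χ b) ∧ Convex ℝ (Wulff g χ b) ∧
      closedBall 0 (m / 2) ⊆ Wulff g χ b ∧ Wulff g χ b ⊆ closedBall 0 (2 * R) := fun b hb =>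
    wulff_basic g χ m R hm hgm hχ b (hb.trans hτ1)
  have hW0 : ∀ b : E3, ‖b‖ ≤ τ0 → (0 : E3) ∈ Wulff g χ b := fun b hb =>
    (hW b hb).2.2.1 (mem_closedBall_self (by positivity))
  have hPclosed : ∀ b : E3, IsClosed (poly (tiltSys χ b T)) := by
    intro b
    have : poly (tiltSys χ b T) = ⋂ p ∈ tiltSys χ b T, {x : E3 | ⟪p.1, x⟫_ℝ ≤ p.2} := by
      ext x
      simp only [poly, Set.mem_ofPred_eq, Set.mem_iInter]
    rw [this]
    refine isClosed_biInter fun p _ => ?_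
    exact isClosed_le (by fun_prop) continuous_const
  have hPconv : ∀ b : E3, Convex ℝ (poly (tiltSys χ b T)) := by
    intro b x hx y hy α β hα hβ hαβ p hp
    have h1 := hx p hp
    have h2 := hy p hp
    rw [inner_add_right, real_inner_smul_right, real_inner_smul_right]
    calc α * ⟪p.1, x⟫_ℝ + β * ⟪p.1, y⟫_ℝ ≤ α * p.2 + β * p.2 :=
          add_le_add (mul_le_mul_of_nonneg_left h1 hα) (mul_le_mul_of_nonneg_left h2 hβ)
      _ = p.2 := by rw [← add_mul, hαβ, one_mul]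
  have hPball : ∀ b : E3, ‖b‖ ≤ τ0 → poly (tiltSys χ b T) ⊆ closedBall 0 (2 * R / s) := by
    intro b hb x hx
    have h1 := (hW b hb).2.2.2 ((hTW b hb).2 x hx)
    rw [mem_closedBall_zero_iff, norm_smul, Real.norm_eq_abs, abs_of_pos hs0] at h1
    rw [mem_closedBall_zero_iff, le_div_iff₀ hs0]
    linarith
  have hPcomp : ∀ b : E3, ‖b‖ ≤ τ0 → IsCompact (poly (tiltSys χ b T)) := fun b hb =>
    (isCompact_closedBall (0 : E3) (2 * R / s)).of_isClosed_subset (hPclosed b) (hPball b hb)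
  have hPin : ∀ b : E3, ‖b‖ ≤ τ0 → closedBall 0 (s * (m / 2)) ⊆ poly (tiltSys χ b T) := by
    intro b hb y hy
    rw [mem_closedBall_zero_iff] at hy
    have h1 : s⁻¹ • y ∈ Wulff g χ b := (hW b hb).2.2.1 (by
      rw [mem_closedBall_zero_iff, norm_smul, norm_inv, Real.norm_eq_abs, abs_of_pos hs0,
        inv_mul_le_iff₀ hs0]
      exact hy)
    have h2 := (hTW b hb).1 _ h1
    rwa [smul_smul, mul_inv_cancel₀ hs0.ne', one_smul] at h2
  have hP0 : ∀ b : E3, ‖b‖ ≤ τ0 → (0 : E3) ∈ poly (tiltSys χ b T) := fun b hb =>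
    hPin b hb (mem_closedBall_self (by positivity))
  -- minimum of the right hand sides
  obtain ⟨q0, hq0, hq0min⟩ := T.exists_min_image (fun q => q.2) ⟨τ, hrolls.1⟩
  have hμ : 0 < q0.2 := (hTq q0 hq0).2
  -- continuity of the moment of P
  have hPcont : ContinuousOn (fun b => ∫ x in poly (tiltSys χ b T), x) (closedBall (0 : E3) τ0) := by
    refine moment_continuous (fun b => poly (tiltSys χ b T)) (closedBall (0 : E3) τ0) (2 * R / s)
      (by positivity) ?_ ?_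
    · intro b hb
      rw [mem_closedBall_zero_iff] at hb
      exact ⟨hPcomp b hb, hPconv b, hP0 b hb, hPball b hb⟩
    · intro b hb t' ht'0 ht'1
      rw [mem_closedBall_zero_iff] at hb
      refine ⟨(1 - t') * q0.2 / (2 * R / s), div_pos (mul_pos (by linarith) hμ) (by positivity), ?_⟩
      intro b' hb' hdist
      rw [mem_closedBall_zero_iff] at hb'
      rw [dist_eq_norm, lt_div_iff₀ (by positivity)] at hdist
      have key : ∀ a a' : E3, ‖a‖ ≤ τ0 → ‖a - a'‖ * (2 * R / s) ≤ (1 - t') * q0.2 →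
          ∀ x ∈ poly (tiltSys χ a T), t' • x ∈ poly (tiltSys χ a' T) := by
        intro a a' ha haa x hx
        rw [mem_poly_tiltSys]
        intro q hq
        have h1 := (mem_poly_tiltSys.1 hx) q hq
        have h2 : ⟪q.1 - χ q.1 • a', t' • x⟫_ℝ =
            t' * ⟪q.1 - χ q.1 • a, x⟫_ℝ + t' * (χ q.1 * ⟪a - a', x⟫_ℝ) := by
          simp only [inner_sub_left, real_inner_smul_left, real_inner_smul_right]
          ring
        have h3 : ⟪a - a', x⟫_ℝ ≤ (1 - t') * q0.2 := by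
          have h31 : ⟪a - a', x⟫_ℝ ≤ ‖a - a'‖ * ‖x‖ := real_inner_le_norm _ _
          have h32 : ‖x‖ ≤ 2 * R / s := mem_closedBall_zero_iff.1 (hPball a ha hx)
          have h33 := mul_le_mul_of_nonneg_left h32 (norm_nonneg (a - a'))
          linarith
        have hpos : 0 ≤ (1 - t') * q0.2 := mul_nonneg (by linarith) hμ.le
        have h4 : t' * (χ q.1 * ⟪a - a', x⟫_ℝ) ≤ (1 - t') * q0.2 := by
          have h41 : χ q.1 * ⟪a - a', x⟫_ℝ ≤ (1 - t') * q0.2 := by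
            rcases le_total 0 ⟪a - a', x⟫_ℝ with h0 | h0
            · calc χ q.1 * ⟪a - a', x⟫_ℝ ≤ 1 * ⟪a - a', x⟫_ℝ :=
                    mul_le_mul_of_nonneg_right (hχ q.1).2 h0
                _ ≤ (1 - t') * q0.2 := by rw [one_mul]; exact h3
            · exact (mul_nonpos_of_nonneg_of_nonpos (hχ q.1).1 h0).trans hpos
          rcases le_total 0 (χ q.1 * ⟪a - a', x⟫_ℝ) with h0 | h0
          · calc t' * (χ q.1 * ⟪a - a', x⟫_ℝ) ≤ 1 * (χ q.1 * ⟪a - a', x⟫_ℝ) :=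
                  mul_le_mul_of_nonneg_right ht'1.le h0
              _ ≤ (1 - t') * q0.2 := by rw [one_mul]; exact h41
          · exact (mul_nonpos_of_nonneg_of_nonpos ht'0.le h0).trans hpos
        have h5 : q0.2 ≤ q.2 := hq0min q hq
        have h6 : t' * ⟪q.1 - χ q.1 • a, x⟫_ℝ ≤ t' * q.2 := mul_le_mul_of_nonneg_left h1 ht'0.le
        have h7 : (1 - t') * q0.2 ≤ (1 - t') * q.2 :=
          mul_le_mul_of_nonneg_left h5 (by linarith)
        rw [h2]
        linarith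
      refine ⟨key b b' hb ?_, key b' b hb' hdist.le⟩
      rw [norm_sub_rev]
      exact hdist.le
  -- outward on the sphere
  have hout' : ∀ b : E3, ‖b‖ = τ0 → 0 < ⟪b, ∫ x in poly (tiltSys χ b T), x⟫_ℝ := by
    intro b hb
    have hbl : ‖b‖ ≤ τ0 := hb.le
    have h1 := (hclose s ht1s hs1 (Wulff g χ b) (poly (tiltSys χ b T)) (hW b hbl).1 (hW b hbl).2.1
      (hPcomp b hbl) (hW0 b hbl) (hP0 b hbl) (hW b hbl).2.2.2 (hTW b hbl).1 (hTW b hbl).2).1
    have h2 := hκmin b hb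
    have h3 : ⟪b, (∫ x in Wulff g χ b, x) - ∫ x in poly (tiltSys χ b T), x⟫_ℝ ≤
        ‖b‖ * ‖(∫ x in Wulff g χ b, x) - ∫ x in poly (tiltSys χ b T), x‖ := real_inner_le_norm _ _
    rw [hb, inner_sub_right] at h3
    have h4 : τ0 * ‖(∫ x in Wulff g χ b, x) - ∫ x in poly (tiltSys χ b T), x‖ <
        τ0 * (κ / (2 * τ0)) := mul_lt_mul_of_pos_left h1 hτ0
    have h5 : τ0 * (κ / (2 * τ0)) = κ / 2 := by
      field_simp
    rw [h5] at h4
    linarith
  obtain ⟨b, hb, hbz⟩ := zero_of_outward (fun b => ∫ x in poly (tiltSys χ b T), x) τ0 hτ0 hPcont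
    hout'
  rw [mem_closedBall_zero_iff] at hb
  have hcom : com (poly (tiltSys χ b T)) = 0 := by
    unfold com
    rw [show ∫ x in poly (tiltSys χ b T), x = 0 from hbz, smul_zero]
  have hT' : ∀ p ∈ tiltSys χ b T, p.1 ≠ 0 ∧ 0 < p.2 := by
    intro p hp
    obtain ⟨q, hq, rfl⟩ := mem_tiltSys.1 hp
    refine ⟨?_, (hTq q hq).2⟩
    intro h0
    have h1 : q.1 = χ q.1 • b := sub_eq_zero.1 h0
    have h2 : ‖χ q.1 • b‖ ≤ 1 / 2 := by
      rw [norm_smul, Real.norm_eq_abs, abs_of_nonneg (hχ q.1).1]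
      calc χ q.1 * ‖b‖ ≤ 1 * ‖b‖ := mul_le_mul_of_nonneg_right (hχ q.1).2 (norm_nonneg _)
        _ ≤ 1 / 2 := by rw [one_mul]; exact hb.trans hτ1
    rw [← h1, (hTq q hq).1] at h2
    norm_num at h2
  have hRolls := rolls_tiltSys hrolls hb
  obtain ⟨F, hF⟩ := exists_stable (tiltSys χ b T) hT' ⟨_, hRolls.1⟩ hcom
  have huniq : ∀ F', IsStable (poly (tiltSys χ b T)) F' → F' = face (poly (tiltSys χ b T))
      (tilt χ b τ).1 := fun F' hF' => stable_unique _ _ hT' hRolls hcom F' hF'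
  have hpol : IsPolyhedron (poly (tiltSys χ b T)) := by
    refine ⟨hPcomp b hb, ⟨0, ?_⟩, _, rfl⟩
    rw [mem_interior]
    refine ⟨ball 0 (s * (m / 2)), ball_subset_closedBall.trans (hPin b hb), isOpen_ball,
      mem_ball_self (by positivity)⟩
  have hscale : ∀ A : Set E3, Convex ℝ A → (0 : E3) ∈ A → ∀ x : E3, s • x ∈ A → t • x ∈ A := by
    intro A hA h0 x hx
    have h1 : t • x = (t / s) • (s • x) := by
      rw [smul_smul, div_mul_cancel₀ _ hs0.ne']
    rw [h1]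
    exact hA.smul_mem_of_zero_mem h0 hx ⟨by positivity, (div_le_one hs0).2 hts⟩
  refine ⟨b, poly (tiltSys χ b T), hb, ⟨hpol, F, hF, fun F' hF' => ?_⟩, ?_, ?_⟩
  · rw [huniq F' hF', huniq F hF]
  · intro x hx
    exact hscale _ (hPconv b) (hP0 b hb) x ((hTW b hb).1 x hx)
  · intro x hx
    exact hscale _ (hW b hb).2.1 (hW0 b hb) x ((hTW b hb).2 x hx)


end N_wulff_main

alias wulff_main := N_wulff_main.wulff_main

end Pool.Agent.Helper524.Mono
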