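import Pool.Agent.Helper524.Mono.Gen
import Pool.Agent.Helper524.Mono.S_wulff_basic
import Pool.Agent.Helper524.Mono.S_wulff_sandwich
import Pool.Agent.Helper524.Mono.S_wulff_continuous
import Pool.Agent.Helper524.Mono.S_wulff_gain
import Pool.Agent.Helper524.Mono.S_wulff_main
import Pool.Agent.Helper524.Mono.S_hausdorff_of_sandwich

set_option autoImplicit false

open MeasureTheory Set Metric
open scoped InnerProductSpace

namespace Pool.Agent.Helper524.Mono

namespace N_core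














/-- TARGET -/
theorem core (K : Set E3) (hK : CB K) (hSB : SB (supp K)) (χ : E3 → ℝ) (hχc : Continuous χ)
    (hχ : ∀ v, 0 ≤ χ v ∧ χ v ≤ 1) (δ : ℝ) (hδ : 0 < δ)
    (hD : ∀ v : E3, ‖v‖ = 1 → χ v ≠ 0 → ∃ w : E3, ‖w‖ = 1 ∧
      supp K w + δ ≤ supp K v * ⟪v, w⟫_ℝ)
    (hne : ∀ b : E3, b ≠ 0 → ‖b‖ ≤ 1 / 2 → Wulff (supp K) χ b ≠ K) : Approximable K := by
  
  obtain ⟨hKc, hKconv, hK0, hKint⟩ := hK
  have hKne : K.Nonempty := ⟨0, interior_subset hK0⟩
  obtain ⟨m, hm, hmK⟩ := Metric.nhds_basis_closedBall.mem_iff.1 (mem_interior_iff_mem_nhds.1 hK0)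
  obtain ⟨R0, hR0⟩ := hKc.isBounded.subset_closedBall (0 : E3)
  set R : ℝ := max R0 1 with hR
  have hR1 : 1 ≤ R := le_max_right _ _
  have hKR : K ⊆ closedBall 0 R := hR0.trans (closedBall_subset_closedBall (le_max_left _ _))
  have hgm : ∀ v : E3, ‖v‖ = 1 → m ≤ supp K v ∧ supp K v ≤ R := fun v hv =>
    ⟨le_supp_of_ball hKc hm.le hmK hv, supp_le_of_subset_ball hKne hKR hv⟩
  have hW0 : Wulff (supp K) χ 0 = K := by
    ext x
    constructor
    · intro h
      apply mem_of_inner_le_supp hKc hKconv hKne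
      intro u hu
      have := h u hu
      rwa [smul_zero, sub_zero] at this
    · intro hx v hv
      rw [smul_zero, sub_zero]
      exact inner_le_supp hKc hx v
  intro ε hε
  obtain ⟨t, ht12, ht1, htε⟩ : ∃ t : ℝ, 1 / 2 ≤ t ∧ t < 1 ∧ 8 * R * (1 - t) < ε := by
    refine ⟨max (1/2) (1 - ε / (16 * R)), le_max_left _ _, ?_, ?_⟩
    · apply max_lt (by norm_num)
      have : 0 < ε / (16 * R) := by positivity
      linarith
    · have h1 : 1 - max (1/2) (1 - ε / (16 * R)) ≤ ε / (16 * R) := by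
        have := le_max_right (1/2) (1 - ε / (16 * R))
        linarith
      have h2 : 8 * R * (ε / (16 * R)) = ε / 2 := by field_simp; norm_num
      have h3 := mul_le_mul_of_nonneg_left h1 (show 0 ≤ 8 * R by positivity)
      linarith
  have ht0 : 0 < t := by linarith
  set τ0 : ℝ := min (1/2) (min (δ / (24 * (R + 1))) ((1 - t) * m / (1 + 2 * R))) with hτ
  have h1t : 0 < 1 - t := by linarith
  have hτ0 : 0 < τ0 := by
    rw [hτ]
    apply lt_min (by norm_num)
    apply lt_min <;> positivity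
  have hτ1 : τ0 ≤ 1 / 2 := min_le_left _ _
  have hτ2 : τ0 * (24 * (R + 1)) ≤ δ := by
    have : τ0 ≤ δ / (24 * (R + 1)) := (min_le_right _ _).trans (min_le_left _ _)
    rwa [le_div_iff₀ (by positivity)] at this
  have hτ3 : τ0 * (1 + 2 * R) ≤ (1 - t) * m := by
    have : τ0 ≤ (1 - t) * m / (1 + 2 * R) := (min_le_right _ _).trans (min_le_right _ _)
    rwa [le_div_iff₀ (by positivity)] at this
  have hout : ∀ b : E3, ‖b‖ = τ0 → 0 < ⟪b, ∫ x in Wulff (supp K) χ b, x⟫_ℝ := by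
    intro b hb
    have hb0 : b ≠ 0 := by
      intro h; rw [h, norm_zero] at hb; linarith
    have h := (wulff_gain (supp K) χ m R hm hgm hχ b (hb.le.trans hτ1)).2 (by
      rw [hW0]; exact (hne b hb0 (hb.le.trans hτ1)).symm)
    rwa [hW0, hKint, inner_zero_right] at h
  obtain ⟨b, P, hb, hP, hWP, hPW⟩ := wulff_main (supp K) χ (continuous_supp hKc hKne) hχc m R δ τ0 hm hgm
    hSB hδ hD hχ hτ0 hτ1 hτ2 hout t ht0 ht1
  have s1 := wulff_sandwich (supp K) (supp K) χ m R τ0 t hm hgm hgm hχ b 0 (hb.trans hτ1)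
    (fun v _ => by rw [sub_self, abs_zero]; exact hτ0.le) (by rw [sub_zero]; exact hb) ht0 ht1 hτ3
  have s2 := wulff_sandwich (supp K) (supp K) χ m R τ0 t hm hgm hgm hχ 0 b (by rw [norm_zero]; norm_num)
    (fun v _ => by rw [sub_self, abs_zero]; exact hτ0.le) (by rw [zero_sub, norm_neg]; exact hb) ht0 ht1 hτ3
  rw [hW0] at s1 s2
  have hWb := (wulff_basic (supp K) χ m R hm hgm hχ b (hb.trans hτ1)).2.2.2
  refine ⟨P, hP, ?_⟩
  have hRt : R ≤ 2 * R / t := by
    rw [le_div_iff₀ ht0]; nlinarith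
  have hPR : P ⊆ closedBall 0 (2 * R / t) := by
    intro x hx
    have := hWb (hPW x hx)
    rw [mem_closedBall_zero_iff, norm_smul, Real.norm_of_nonneg ht0.le] at this
    rw [mem_closedBall_zero_iff, le_div_iff₀ ht0]
    linarith
  have hfin := hausdorff_of_sandwich K P (2 * R / t) (t ^ 2) (by positivity) (by positivity)
    (by nlinarith) (hKR.trans (closedBall_subset_closedBall hRt)) hPR
    (fun x hx => by rw [pow_two, mul_smul]; exact hWP _ (s2 x hx))
    (fun x hx => by rw [pow_two, mul_smul]; exact s1 _ (hPW x hx))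
  refine lt_of_le_of_lt hfin (lt_of_le_of_lt ?_ htε)
  have h5 : 2 * R / t ≤ 4 * R := by
    rw [div_le_iff₀ ht0]; nlinarith
  have h6 : 1 - t ^ 2 ≤ 2 * (1 - t) := by nlinarith [sq_nonneg (1 - t)]
  have h7 : 0 ≤ 1 - t ^ 2 := by nlinarith
  calc (1 - t ^ 2) * (2 * R / t) ≤ (2 * (1 - t)) * (4 * R) := by gcongr
    _ = 8 * R * (1 - t) := by ring



end N_core

alias core := N_core.core

end Pool.Agent.Helper524.Mono
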