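import Pool.Agent.Helper524.Mono.Gen
import Pool.Agent.Helper524.Mono.S_core
import Pool.Agent.Helper524.Mono.S_chi_props

set_option autoImplicit false

open MeasureTheory Set Metric
open scoped InnerProductSpace

namespace Pool.Agent.Helper524.Mono

namespace N_approx_of_spanning






/-- TARGET -/
theorem approx_of_spanning (K : Set E3) (hK : CB K) (hSB : SB (supp K))
    (h : ∀ b : E3, b ≠ 0 → ∃ x ∈ XJ K, ⟪b, x⟫_ℝ < 0) : Approximable K := by
  obtain ⟨hKc, hKconv, hK0, -⟩ := id hK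
  obtain ⟨hc1, hc2, hc3⟩ := chi_props K hKc hKconv hK0
  have hδ : ∀ k : ℕ, (0 : ℝ) < 1 / ((k : ℝ) + 1) := fun k => by positivity
  by_cases hk : ∃ k : ℕ, ∀ b : E3, b ≠ 0 → ‖b‖ ≤ 1 / 2 →
      Wulff (supp K) (chi K (1 / ((k : ℝ) + 1))) b ≠ K
  · obtain ⟨k, hk⟩ := hk
    exact core K hK hSB (chi K (1 / ((k : ℝ) + 1))) (hc1 _).1 (hc1 _).2 (1 / ((k : ℝ) + 1)) (hδ k)
      (hc2 _) hk
  · exfalso
    push Not at hk
    choose b hb0 hb1 hb2 using hk
    have hβ : ∀ k, ‖b k‖⁻¹ • b k ∈ sphere (0 : E3) 1 := by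
      intro k
      rw [mem_sphere_zero_iff_norm, norm_smul, norm_inv, norm_norm]
      exact inv_mul_cancel₀ (norm_ne_zero_iff.2 (hb0 k))
    obtain ⟨β, hβ1, φ, hφ, hlim⟩ := (isCompact_sphere (0 : E3) 1).tendsto_subseq hβ
    have hβ0 : β ≠ 0 := by
      rintro rfl
      simp at hβ1
    obtain ⟨x, ⟨hxK, n, hn, hnx, hnK⟩, hlt⟩ := h β hβ0
    obtain ⟨δ0, hδ0, r, hr, hpos⟩ := hc3 n hn hnK
    have hev : ∀ᶠ k : ℕ in Filter.atTop, 1 / ((k : ℝ) + 1) ≤ δ0 :=
      (tendsto_one_div_add_atTop_nhds_zero_nat (𝕜 := ℝ)).eventually (ge_mem_nhds hδ0)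
    have hbx : ∀ k : ℕ, 1 / ((k : ℝ) + 1) ≤ δ0 → 0 ≤ ⟪‖b k‖⁻¹ • b k, x⟫_ℝ := by
      intro k hk
      have h1 := hpos _ (hδ k) hk n hn (by simpa using hr)
      have h2 : x ∈ Wulff (supp K) (chi K (1 / ((k : ℝ) + 1))) (b k) := by
        rw [hb2 k]
        exact hxK
      have h3 := h2 n hn
      rw [inner_sub_left, real_inner_smul_left, hnx] at h3
      rw [real_inner_smul_left]
      apply mul_nonneg (by positivity)
      by_contra hc
      push Not at hc
      have := mul_neg_of_pos_of_neg h1 hc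
      linarith
    have hlim2 : Filter.Tendsto (fun k => ⟪‖b (φ k)‖⁻¹ • b (φ k), x⟫_ℝ) Filter.atTop
        (nhds ⟪β, x⟫_ℝ) := by
      have hcont : Continuous (fun y : E3 => ⟪y, x⟫_ℝ) := by fun_prop
      exact (hcont.tendsto β).comp hlim
    have h4 : 0 ≤ ⟪β, x⟫_ℝ := by
      apply ge_of_tendsto hlim2
      filter_upwards [hφ.tendsto_atTop.eventually hev] with k hk
      exact hbx (φ k) hk
    linarith


end N_approx_of_spanning

alias approx_of_spanning := N_approx_of_spanning.approx_of_spanning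

end Pool.Agent.Helper524.Mono
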