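import Pool.Agent.Helper524.Mono.Gen

set_option autoImplicit false

open MeasureTheory Set Metric
open scoped InnerProductSpace

namespace Pool.Agent.Helper524.Mono

namespace N_path_const


/-- TARGET -/

lemma grid_mono_aux (g : ℝ → ℝ) (C : ℝ) (hC : 0 ≤ C)
    (hpos : ∀ s ∈ Icc (0 : ℝ) 1, 0 < g s)
    (hq : ∀ s ∈ Icc (0 : ℝ) 1, ∀ t ∈ Icc (0 : ℝ) 1, g s * (1 - C ^ 2 * (s - t) ^ 2 / 2) ≤ g t) :
    g 0 ≤ g 1 := by
  have key : ∀ N : ℕ, 0 < N → C ^ 2 ≤ 2 * (N : ℝ) → g 0 * (1 - C ^ 2 / 2 / N) ≤ g 1 := by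
    intro N hN hCN
    have hN' : (0 : ℝ) < N := by exact_mod_cast hN
    have hN1 : (1 : ℝ) ≤ N := by exact_mod_cast hN
    have hfac : 0 ≤ 1 - C ^ 2 / (2 * (N : ℝ) ^ 2) := by
      have : C ^ 2 / (2 * (N : ℝ) ^ 2) ≤ 1 := by
        rw [div_le_one (by positivity)]
        nlinarith
      linarith
    have ind : ∀ k : ℕ, k ≤ N → g 0 * (1 - C ^ 2 / (2 * (N : ℝ) ^ 2)) ^ k ≤ g ((k : ℝ) / N) := by
      intro k
      induction k with
      | zero => intro _; simp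
      | succ k ih =>
        intro hk
        have ih' := ih (by omega)
        have hkN : (k : ℝ) + 1 ≤ N := by exact_mod_cast hk
        have hs : (k : ℝ) / N ∈ Icc (0 : ℝ) 1 := by
          refine ⟨by positivity, ?_⟩
          rw [div_le_one hN']
          linarith
        have ht : ((k + 1 : ℕ) : ℝ) / N ∈ Icc (0 : ℝ) 1 := by
          refine ⟨by positivity, ?_⟩
          rw [div_le_one hN']
          push_cast
          linarith
        have h1 := hq _ hs _ ht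
        have h2 : 1 - C ^ 2 * ((k : ℝ) / N - ((k + 1 : ℕ) : ℝ) / N) ^ 2 / 2
            = 1 - C ^ 2 / (2 * (N : ℝ) ^ 2) := by
          push_cast
          field_simp
          ring
        rw [h2] at h1
        calc g 0 * (1 - C ^ 2 / (2 * (N : ℝ) ^ 2)) ^ (k + 1)
            = (g 0 * (1 - C ^ 2 / (2 * (N : ℝ) ^ 2)) ^ k) * (1 - C ^ 2 / (2 * (N : ℝ) ^ 2)) := by
              ring
          _ ≤ g ((k : ℝ) / N) * (1 - C ^ 2 / (2 * (N : ℝ) ^ 2)) :=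
              mul_le_mul_of_nonneg_right ih' hfac
          _ ≤ _ := h1
    have h3 := ind N le_rfl
    rw [div_self hN'.ne'] at h3
    have h4 : 1 + (N : ℝ) * (-(C ^ 2 / (2 * (N : ℝ) ^ 2))) ≤ (1 + -(C ^ 2 / (2 * (N : ℝ) ^ 2))) ^ N := by
      apply one_add_mul_le_pow
      linarith
    have h5 : 1 + (N : ℝ) * (-(C ^ 2 / (2 * (N : ℝ) ^ 2))) = 1 - C ^ 2 / 2 / N := by
      field_simp
      ring
    rw [h5] at h4
    have hg0 : 0 < g 0 := hpos 0 ⟨le_rfl, zero_le_one⟩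
    calc g 0 * (1 - C ^ 2 / 2 / N) ≤ g 0 * (1 + -(C ^ 2 / (2 * (N : ℝ) ^ 2))) ^ N :=
          mul_le_mul_of_nonneg_left h4 hg0.le
      _ = g 0 * (1 - C ^ 2 / (2 * (N : ℝ) ^ 2)) ^ N := by rw [sub_eq_add_neg]
      _ ≤ g 1 := h3
  have hlim : Filter.Tendsto (fun N : ℕ => g 0 * (1 - C ^ 2 / 2 / (N : ℝ))) Filter.atTop
      (nhds (g 0 * (1 - 0))) := by
    apply Filter.Tendsto.const_mul
    apply Filter.Tendsto.const_sub
    exact tendsto_const_div_atTop_nhds_zero_nat (C ^ 2 / 2)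
  have hev : ∀ᶠ N : ℕ in Filter.atTop, g 0 * (1 - C ^ 2 / 2 / (N : ℝ)) ≤ g 1 := by
    obtain ⟨M, hM⟩ := exists_nat_ge (C ^ 2)
    filter_upwards [Filter.eventually_ge_atTop (M + 1)] with N hN
    apply key N (by omega)
    have : (M : ℝ) + 1 ≤ N := by exact_mod_cast hN
    have hM0 : (0 : ℝ) ≤ M := Nat.cast_nonneg M
    linarith
  have := le_of_tendsto hlim hev
  simpa using this

theorem path_const (h : E3 → ℝ) (n : ℝ → E3) (C : ℝ) (hn : ∀ s ∈ Icc (0 : ℝ) 1, ‖n s‖ = 1)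
    (hL : ∀ s ∈ Icc (0 : ℝ) 1, ∀ t ∈ Icc (0 : ℝ) 1, ‖n s - n t‖ ≤ C * |s - t|)
    (hpos : ∀ s ∈ Icc (0 : ℝ) 1, 0 < h (n s))
    (hq : ∀ s ∈ Icc (0 : ℝ) 1, ∀ t ∈ Icc (0 : ℝ) 1, h (n s) * ⟪n s, n t⟫_ℝ ≤ h (n t)) :
    h (n 0) = h (n 1) := by
  have hC : 0 ≤ C := by
    have := hL 0 ⟨le_rfl, zero_le_one⟩ 1 ⟨zero_le_one, le_rfl⟩
    have h0 : (0 : ℝ) ≤ ‖n 0 - n 1‖ := norm_nonneg _
    have h1 : |(0 : ℝ) - 1| = 1 := by norm_num
    rw [h1] at this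
    linarith
  have hin : ∀ s ∈ Icc (0 : ℝ) 1, ∀ t ∈ Icc (0 : ℝ) 1,
      1 - C ^ 2 * (s - t) ^ 2 / 2 ≤ ⟪n s, n t⟫_ℝ := by
    intro s hs t ht
    have h1 := hL s hs t ht
    have h2 : ‖n s - n t‖ ^ 2 = ‖n s‖ ^ 2 - 2 * ⟪n s, n t⟫_ℝ + ‖n t‖ ^ 2 :=
      norm_sub_sq_real _ _
    rw [hn s hs, hn t ht] at h2
    have h3 : ‖n s - n t‖ ^ 2 ≤ (C * |s - t|) ^ 2 :=
      pow_le_pow_left₀ (norm_nonneg _) h1 2
    rw [mul_pow, sq_abs] at h3
    linarith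
  have hmain : ∀ s ∈ Icc (0 : ℝ) 1, ∀ t ∈ Icc (0 : ℝ) 1,
      h (n s) * (1 - C ^ 2 * (s - t) ^ 2 / 2) ≤ h (n t) := by
    intro s hs t ht
    exact (mul_le_mul_of_nonneg_left (hin s hs t ht) (hpos s hs).le).trans (hq s hs t ht)
  apply le_antisymm
  · exact grid_mono_aux (fun s => h (n s)) C hC hpos hmain
  · have hsym : ∀ s ∈ Icc (0 : ℝ) 1, 1 - s ∈ Icc (0 : ℝ) 1 := by
      intro s hs
      exact ⟨by linarith [hs.2], by linarith [hs.1]⟩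
    have := grid_mono_aux (fun s => h (n (1 - s))) C hC (fun s hs => hpos _ (hsym s hs)) (by
      intro s hs t ht
      have h1 := hmain _ (hsym s hs) _ (hsym t ht)
      have h2 : (1 - s - (1 - t)) ^ 2 = (s - t) ^ 2 := by ring
      rw [h2] at h1
      exact h1)
    simpa using this


end N_path_const

alias path_const := N_path_const.path_const

end Pool.Agent.Helper524.Mono
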