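import Pool.Agent.Helper524.Mono.Gen
import Pool.Agent.Helper524.Mono.S_path_const

set_option autoImplicit false

open MeasureTheory Set Metric
open scoped InnerProductSpace

namespace Pool.Agent.Helper524.Mono

namespace N_arc_const




/-- TARGET -/
theorem arc_const (h : E3 → ℝ) (u u' : E3) (hu : ‖u‖ = 1) (hu' : ‖u'‖ = 1) (hne : u' ≠ -u)
    (hpos : ∀ v : E3, ‖v‖ = 1 → 0 < h v)
    (harc : ∀ s ∈ Icc (0 : ℝ) 1, ∀ v : E3, ‖v‖ = 1 →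
      h (‖(1 - s) • u + s • u'‖⁻¹ • ((1 - s) • u + s • u')) *
        ⟪‖(1 - s) • u + s • u'‖⁻¹ • ((1 - s) • u + s • u'), v⟫_ℝ ≤ h v) : h u = h u' := by
  have hsum : u + u' ≠ 0 := fun h0 => hne (by
    rw [eq_neg_iff_add_eq_zero, add_comm]; exact h0)
  have hc : 0 < ‖u + u'‖ / 2 := by
    have := norm_pos_iff.2 hsum
    linarith
  have hk : ⟪u, u'⟫_ℝ ≤ 1 := by
    have := real_inner_le_norm u u'
    rw [hu, hu'] at this
    linarith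
  have hlow : ∀ s ∈ Icc (0 : ℝ) 1, ‖u + u'‖ / 2 ≤ ‖(1 - s) • u + s • u'‖ := by
    intro s hs
    have h1 : ‖(1 - s) • u + s • u'‖ ^ 2 = (1 - s) ^ 2 + 2 * ((1 - s) * s * ⟪u, u'⟫_ℝ) + s ^ 2 := by
      rw [norm_add_sq_real, norm_smul, norm_smul, hu, hu', real_inner_smul_left,
        real_inner_smul_right, Real.norm_eq_abs, Real.norm_eq_abs, mul_one, mul_one, sq_abs,
        sq_abs]
      ring
    have h2 : ‖u + u'‖ ^ 2 = 2 + 2 * ⟪u, u'⟫_ℝ := by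
      rw [norm_add_sq_real, hu, hu']
      ring
    refine abs_le_of_sq_le_sq' ?_ (norm_nonneg _) |>.2
    rw [div_pow, h1, h2]
    nlinarith [mul_nonneg (sq_nonneg (1 - 2 * s)) (sub_nonneg.2 hk)]
  have hposn : ∀ s ∈ Icc (0 : ℝ) 1, 0 < ‖(1 - s) • u + s • u'‖ := fun s hs =>
    lt_of_lt_of_le hc (hlow s hs)
  have key := path_const h (fun s => ‖(1 - s) • u + s • u'‖⁻¹ • ((1 - s) • u + s • u'))
    (2 * (‖u + u'‖ / 2)⁻¹ * ‖u' - u‖) ?_ ?_ ?_ ?_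
  · simpa [hu, hu'] using key
  · intro s hs
    have h1 := hposn s hs
    show ‖‖(1 - s) • u + s • u'‖⁻¹ • ((1 - s) • u + s • u')‖ = 1
    rw [norm_smul, norm_inv, norm_norm, inv_mul_cancel₀ h1.ne']
  · intro s hs t ht
    show ‖‖(1 - s) • u + s • u'‖⁻¹ • ((1 - s) • u + s • u') -
      ‖(1 - t) • u + t • u'‖⁻¹ • ((1 - t) • u + t • u')‖ ≤ _
    have hd : ((1 - s) • u + s • u') - ((1 - t) • u + t • u') = (s - t) • (u' - u) := by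
      module
    have hdn : ‖((1 - s) • u + s • u') - ((1 - t) • u + t • u')‖ = |s - t| * ‖u' - u‖ := by
      rw [hd, norm_smul, Real.norm_eq_abs]
    have hx := hposn s hs
    have hy := hposn t ht
    have hxl := hlow s hs
    generalize (1 - s) • u + s • u' = x at *
    generalize (1 - t) • u + t • u' = y at *
    have h1 : ‖x‖⁻¹ • x - ‖y‖⁻¹ • y = ‖x‖⁻¹ • (x - y) + (‖x‖⁻¹ - ‖y‖⁻¹) • y := by module
    have h2 : ‖(‖x‖⁻¹ - ‖y‖⁻¹) • y‖ ≤ ‖x‖⁻¹ * ‖x - y‖ := by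
      rw [norm_smul, Real.norm_eq_abs]
      have h3 : |‖x‖⁻¹ - ‖y‖⁻¹| * ‖y‖ = ‖x‖⁻¹ * |‖y‖ - ‖x‖| := by
        have h4 : ‖x‖⁻¹ - ‖y‖⁻¹ = ‖x‖⁻¹ * ‖y‖⁻¹ * (‖y‖ - ‖x‖) := by field_simp
        rw [h4, abs_mul, abs_of_pos (by positivity : 0 < ‖x‖⁻¹ * ‖y‖⁻¹)]
        field_simp
      rw [h3]
      apply mul_le_mul_of_nonneg_left _ (by positivity)
      rw [norm_sub_rev]
      exact abs_norm_sub_norm_le y x
    have h5 : ‖x‖⁻¹ ≤ (‖u + u'‖ / 2)⁻¹ := inv_anti₀ hc hxl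
    calc ‖‖x‖⁻¹ • x - ‖y‖⁻¹ • y‖ ≤ ‖‖x‖⁻¹ • (x - y)‖ + ‖(‖x‖⁻¹ - ‖y‖⁻¹) • y‖ := by
          rw [h1]; exact norm_add_le _ _
      _ ≤ ‖x‖⁻¹ * ‖x - y‖ + ‖x‖⁻¹ * ‖x - y‖ := by
          refine add_le_add (le_of_eq ?_) h2
          rw [norm_smul, norm_inv, norm_norm]
      _ = 2 * ‖x‖⁻¹ * ‖x - y‖ := by ring
      _ ≤ 2 * (‖u + u'‖ / 2)⁻¹ * ‖x - y‖ := by
          apply mul_le_mul_of_nonneg_right _ (norm_nonneg _)
          linarith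
      _ = 2 * (‖u + u'‖ / 2)⁻¹ * ‖u' - u‖ * |s - t| := by rw [hdn]; ring
  · intro s hs
    apply hpos
    have h1 := hposn s hs
    rw [norm_smul, norm_inv, norm_norm, inv_mul_cancel₀ h1.ne']
  · intro s hs t ht
    apply harc s hs
    have h1 := hposn t ht
    rw [norm_smul, norm_inv, norm_norm, inv_mul_cancel₀ h1.ne']



end N_arc_const

alias arc_const := N_arc_const.arc_const

end Pool.Agent.Helper524.Mono
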