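import Pool.Agent.Helper524.Mono.Gen
import Pool.Agent.Helper524.Mono.S_arc_const

set_option autoImplicit false

open MeasureTheory Set Metric
open scoped InnerProductSpace

namespace Pool.Agent.Helper524.Mono

namespace N_unique_normal




/-- `v` is a unit normal of `K` at `x` -/
def unNor (K : Set E3) (x v : E3) : Prop := ‖v‖ = 1 ∧ ∀ y ∈ K, ⟪v, y⟫_ℝ ≤ ⟪v, x⟫_ℝ

theorem unNor_supp {K : Set E3} (hK : IsCompact K) {x v : E3} (hx : x ∈ K) (h : unNor K x v) :
    ⟪v, x⟫_ℝ = supp K v :=
  le_antisymm (inner_le_supp hK hx v) (supp_le ⟨x, hx⟩ h.2)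

/-- TARGET -/
theorem unique_normal (K : Set E3) (hK : IsCompact K) (hc : Convex ℝ K)
    (h0 : (0 : E3) ∈ interior K) (x : E3) (hx : x ∈ K) (hxf : x ∉ interior K)
    (hJ : x ∉ XJ K) : ∃ u : E3, UniqueNormal K x u ∧ ⟪u, x⟫_ℝ = supp K u ∧ supp K u • u ∈ K := by
  have hne : K.Nonempty := ⟨x, hx⟩
  -- positivity of the support function
  obtain ⟨m, hm, hball⟩ : ∃ m : ℝ, 0 < m ∧ closedBall (0 : E3) m ⊆ K := by
    obtain ⟨ε, hε, hb⟩ := Metric.isOpen_iff.mp isOpen_interior 0 h0
    exact ⟨ε / 2, by linarith, (closedBall_subset_ball (by linarith)).trans (hb.trans interior_subset)⟩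
  have hpos : ∀ v : E3, ‖v‖ = 1 → 0 < supp K v := fun v hv =>
    lt_of_lt_of_le hm (le_supp_of_ball hK hm.le hball hv)
  have h0K : (0 : E3) ∈ K := interior_subset h0
  -- property (*)
  have hstar : ∀ n, unNor K x n → supp K n • n ∈ K := by
    intro n hn
    by_contra hcon
    exact hJ ⟨hx, n, hn.1, unNor_supp hK hx hn, hcon⟩
  -- two normals are never opposite
  have hopp : ∀ v v', unNor K x v → unNor K x v' → v' ≠ -v := by
    intro v v' hv hv' he
    have h1 := hv'.2 0 h0K
    rw [he, inner_zero_right, inner_neg_left, unNor_supp hK hx hv] at h1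
    have := hpos v hv.1
    linarith
  -- normals form a cone
  have hcone : ∀ v v', unNor K x v → unNor K x v' → ∀ a b : ℝ, 0 ≤ a → 0 ≤ b →
      a • v + b • v' ≠ 0 → unNor K x (‖a • v + b • v'‖⁻¹ • (a • v + b • v')) := by
    intro v v' hv hv' a b ha hb hw
    have hwn : 0 < ‖a • v + b • v'‖ := norm_pos_iff.2 hw
    refine ⟨by rw [norm_smul, norm_inv, norm_norm, inv_mul_cancel₀ hwn.ne'], ?_⟩
    intro y hy
    rw [real_inner_smul_left, real_inner_smul_left]
    apply mul_le_mul_of_nonneg_left _ (inv_nonneg.2 hwn.le)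
    rw [inner_add_left, inner_add_left, real_inner_smul_left, real_inner_smul_left,
      real_inner_smul_left, real_inner_smul_left]
    exact add_le_add (mul_le_mul_of_nonneg_left (hv.2 y hy) ha)
      (mul_le_mul_of_nonneg_left (hv'.2 y hy) hb)
  -- the support function is constant on the normals
  have hconst : ∀ v v', unNor K x v → unNor K x v' → supp K v = supp K v' := by
    intro v v' hv hv'
    apply arc_const (supp K) v v' hv.1 hv'.1 (hopp v v' hv hv') hpos
    intro s hs t ht
    by_cases hw : (1 - s) • v + s • v' = 0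
    · rw [hw, smul_zero, inner_zero_left, mul_zero]
      exact (hpos t ht).le
    · have h1 := hstar _ (hcone v v' hv hv' (1 - s) s (by linarith [hs.2]) hs.1 hw)
      have h2 := inner_le_supp hK h1 t
      rw [real_inner_smul_right, real_inner_comm] at h2
      exact h2
  -- uniqueness
  have huniq : ∀ v v', unNor K x v → unNor K x v' → v' = v := by
    intro v v' hv hv'
    have hw : (1 : ℝ) • v + (1 : ℝ) • v' ≠ 0 := by
      rw [one_smul, one_smul]
      intro h1
      exact hopp v v' hv hv' (eq_neg_of_add_eq_zero_right h1)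
    have hN := hcone v v' hv hv' 1 1 zero_le_one zero_le_one hw
    have e1 := hconst v _ hv hN
    have e2 := hconst v v' hv hv'
    have e3 := unNor_supp hK hx hN
    have hwn : 0 < ‖(1 : ℝ) • v + (1 : ℝ) • v'‖ := norm_pos_iff.2 hw
    rw [real_inner_smul_left, ← e1, inner_add_left, real_inner_smul_left, real_inner_smul_left,
      one_mul, one_mul, unNor_supp hK hx hv, unNor_supp hK hx hv', ← e2] at e3
    have hp := hpos v hv.1
    have h4 : ‖(1 : ℝ) • v + (1 : ℝ) • v'‖ = 2 := by
      have h5 : supp K v + supp K v = supp K v * ‖(1 : ℝ) • v + (1 : ℝ) • v'‖ := by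
        calc supp K v + supp K v =
            (‖(1 : ℝ) • v + (1 : ℝ) • v'‖⁻¹ * (supp K v + supp K v)) * ‖(1 : ℝ) • v + (1 : ℝ) • v'‖ := by
              field_simp
          _ = supp K v * ‖(1 : ℝ) • v + (1 : ℝ) • v'‖ := by rw [e3]
      have h6 : supp K v * ‖(1 : ℝ) • v + (1 : ℝ) • v'‖ = supp K v * 2 := by rw [← h5]; ring
      exact mul_left_cancel₀ hp.ne' h6
    rw [one_smul, one_smul] at h4
    have h7 := parallelogram_law_with_norm ℝ v v'
    rw [h4, hv.1, hv'.1] at h7
    have h8 : ‖v - v'‖ * ‖v - v'‖ = 0 := by linarith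
    have h9 : ‖v - v'‖ = 0 := by
      rcases mul_eq_zero.mp h8 with h | h <;> exact h
    exact (sub_eq_zero.mp (norm_eq_zero.mp h9)).symm
  -- existence
  obtain ⟨f, hf⟩ := geometric_hahn_banach_open_point hc.interior isOpen_interior hxf
  have hcl : K ⊆ closure (interior K) := by
    rw [hc.closure_interior_eq_closure_of_nonempty_interior ⟨0, h0⟩]
    exact subset_closure
  have hfle : ∀ y ∈ K, f y ≤ f x := by
    intro y hy
    have h1 : closure (interior K) ⊆ {y | f y ≤ f x} :=
      closure_minimal (fun z hz => (hf z hz).le) (isClosed_le f.continuous continuous_const)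
    exact h1 (hcl hy)
  set w : E3 := (InnerProductSpace.toDual ℝ E3).symm f with hw
  have hfw : ∀ y, f y = ⟪w, y⟫_ℝ := fun y => by
    rw [hw, InnerProductSpace.toDual_symm_apply]
  have hw0 : w ≠ 0 := by
    intro h1
    have h2 := hf 0 h0
    rw [hfw, hfw, h1, inner_zero_left, inner_zero_left] at h2
    exact lt_irrefl _ h2
  have hwn : 0 < ‖w‖ := norm_pos_iff.2 hw0
  have hu : unNor K x (‖w‖⁻¹ • w) := by
    refine ⟨by rw [norm_smul, norm_inv, norm_norm, inv_mul_cancel₀ hwn.ne'], ?_⟩
    intro y hy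
    rw [real_inner_smul_left, real_inner_smul_left, ← hfw, ← hfw]
    exact mul_le_mul_of_nonneg_left (hfle y hy) (inv_nonneg.2 hwn.le)
  refine ⟨‖w‖⁻¹ • w, ⟨hx, hu.1, ?_⟩, unNor_supp hK hx hu, hstar _ hu⟩
  intro v hv
  constructor
  · intro h1
    exact huniq _ v hu ⟨hv, h1⟩
  · rintro rfl
    exact hu.2


end N_unique_normal

alias unique_normal := N_unique_normal.unique_normal

end Pool.Agent.Helper524.Mono
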