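import Pool.Agent.Helper524.Mono.Gen
import Pool.Agent.Helper524.Mono.S_path_const
import Pool.Agent.Helper524.Mono.S_unique_normal

set_option autoImplicit false

open MeasureTheory Set Metric
open scoped InnerProductSpace

namespace Pool.Agent.Helper524.Mono

namespace N_level_const






/-- nearest point map -/
lemma lc_exists_proj {K : Set E3} (hK : IsCompact K) (hc : Convex ℝ K) (hne : K.Nonempty) :
    ∃ π : E3 → E3, (∀ y, π y ∈ K) ∧ (∀ y, ∀ z ∈ K, ⟪y - π y, z - π y⟫_ℝ ≤ 0) ∧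
      ∀ y z, ‖π y - π z‖ ≤ ‖y - z‖ := by
  have h1 : ∀ y : E3, ∃ p ∈ K, ∀ z ∈ K, ⟪y - p, z - p⟫_ℝ ≤ 0 := by
    intro y
    obtain ⟨p, hp, he⟩ := exists_norm_eq_iInf_of_complete_convex hne hK.isComplete hc y
    exact ⟨p, hp, (norm_eq_iInf_iff_real_inner_le_zero hc hp).1 he⟩
  choose π hπ hv using h1
  refine ⟨π, hπ, hv, fun y z => ?_⟩
  have a1 := hv y (π z) (hπ z)
  have a2 := hv z (π y) (hπ y)
  have a3 : ‖π y - π z‖ * ‖π y - π z‖ ≤ ⟪y - z, π y - π z⟫_ℝ := by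
    rw [← real_inner_self_eq_norm_mul_norm]
    have e1 : π z - π y = -(π y - π z) := by abel
    rw [e1, inner_neg_right] at a1
    have e2 : ⟪π y - π z, π y - π z⟫_ℝ =
        ⟪y - z, π y - π z⟫_ℝ - ⟪y - π y, π y - π z⟫_ℝ + ⟪z - π z, π y - π z⟫_ℝ := by
      rw [← inner_sub_left, ← inner_add_left]
      congr 1
      abel
    linarith
  have a4 : ⟪y - z, π y - π z⟫_ℝ ≤ ‖y - z‖ * ‖π y - π z‖ := real_inner_le_norm _ _
  rcases (norm_nonneg (π y - π z)).eq_or_lt with h | h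
  · rw [← h]; positivity
  · exact le_of_mul_le_mul_right (a3.trans a4) h

lemma lc_normalize {w w' : E3} {d : ℝ} (hd : 0 < d) (h1 : d ≤ ‖w‖) (h2 : d ≤ ‖w'‖) :
    ‖‖w‖⁻¹ • w - ‖w'‖⁻¹ • w'‖ ≤ 2 / d * ‖w - w'‖ := by
  have hw : 0 < ‖w‖ := by linarith
  have hw' : 0 < ‖w'‖ := by linarith
  have e : ‖w‖⁻¹ • w - ‖w'‖⁻¹ • w' = ‖w‖⁻¹ • (w - w') + (‖w‖⁻¹ - ‖w'‖⁻¹) • w' := by
    rw [smul_sub, sub_smul]; abel
  have h3 : ‖(‖w‖⁻¹ - ‖w'‖⁻¹) • w'‖ ≤ ‖w‖⁻¹ * ‖w - w'‖ := by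
    rw [norm_smul, Real.norm_eq_abs]
    have h4 : ‖w‖⁻¹ - ‖w'‖⁻¹ = (‖w'‖ - ‖w‖) * (‖w‖⁻¹ * ‖w'‖⁻¹) := by field_simp
    have h6 : |‖w‖⁻¹ * ‖w'‖⁻¹| = ‖w‖⁻¹ * ‖w'‖⁻¹ := abs_of_pos (by positivity)
    have h5 : |‖w'‖ - ‖w‖| ≤ ‖w - w'‖ := by rw [norm_sub_rev]; exact abs_norm_sub_norm_le _ _
    rw [h4, abs_mul, h6]
    calc |‖w'‖ - ‖w‖| * (‖w‖⁻¹ * ‖w'‖⁻¹) * ‖w'‖ = |‖w'‖ - ‖w‖| * ‖w‖⁻¹ := by field_simp
      _ ≤ ‖w - w'‖ * ‖w‖⁻¹ := mul_le_mul_of_nonneg_right h5 (by positivity)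
      _ = _ := by ring
  have h7 : ‖w‖⁻¹ ≤ d⁻¹ := inv_anti₀ hd h1
  calc ‖‖w‖⁻¹ • w - ‖w'‖⁻¹ • w'‖ = ‖‖w‖⁻¹ • (w - w') + (‖w‖⁻¹ - ‖w'‖⁻¹) • w'‖ := by rw [e]
    _ ≤ ‖‖w‖⁻¹ • (w - w')‖ + ‖(‖w‖⁻¹ - ‖w'‖⁻¹) • w'‖ := norm_add_le _ _
    _ ≤ ‖w‖⁻¹ * ‖w - w'‖ + ‖w‖⁻¹ * ‖w - w'‖ := by
        refine add_le_add ?_ h3
        rw [norm_smul, norm_inv, norm_norm]
    _ = 2 * ‖w‖⁻¹ * ‖w - w'‖ := by ring
    _ ≤ 2 * d⁻¹ * ‖w - w'‖ := by
        refine mul_le_mul_of_nonneg_right ?_ (norm_nonneg _)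
        linarith
    _ = 2 / d * ‖w - w'‖ := by rw [div_eq_mul_inv]

lemma lc_path {K : Set E3} (hK : IsCompact K) {b : E3} (hne : K.Nonempty)
    (hB : ∀ x ∈ XJ K, 0 ≤ ⟪b, x⟫_ℝ) {r : ℝ} (hr : 0 < r) (hball : closedBall (0 : E3) r ⊆ K)
    {π : E3 → E3} (hπ : ∀ y, π y ∈ K) (hv : ∀ y, ∀ z ∈ K, ⟪y - π y, z - π y⟫_ℝ ≤ 0)
    (hl : ∀ y z, ‖π y - π z‖ ≤ ‖y - z‖) (y : ℝ → E3) (L d : ℝ) (hd : 0 < d)
    (hy : ∀ s ∈ Icc (0 : ℝ) 1, ∀ t ∈ Icc (0 : ℝ) 1, ‖y s - y t‖ ≤ L * |s - t|)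
    (hyd : ∀ s ∈ Icc (0 : ℝ) 1, d ≤ ‖y s - π (y s)‖)
    (hyb : ∀ s ∈ Icc (0 : ℝ) 1, ⟪b, π (y s)⟫_ℝ < 0) :
    supp K (‖y 0 - π (y 0)‖⁻¹ • (y 0 - π (y 0))) =
      supp K (‖y 1 - π (y 1)‖⁻¹ • (y 1 - π (y 1))) := by
  have hn1 : ∀ s ∈ Icc (0 : ℝ) 1, ‖‖y s - π (y s)‖⁻¹ • (y s - π (y s))‖ = 1 := by
    intro s hs
    have h1 : 0 < ‖y s - π (y s)‖ := lt_of_lt_of_le hd (hyd s hs)
    rw [norm_smul, norm_inv, norm_norm, inv_mul_cancel₀ h1.ne']
  have hnorm : ∀ s ∈ Icc (0 : ℝ) 1, ⟪‖y s - π (y s)‖⁻¹ • (y s - π (y s)), π (y s)⟫_ℝ =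
      supp K (‖y s - π (y s)‖⁻¹ • (y s - π (y s))) := by
    intro s hs
    have h1 : 0 < ‖y s - π (y s)‖ := lt_of_lt_of_le hd (hyd s hs)
    refine le_antisymm (inner_le_supp hK (hπ _) _) (supp_le hne fun z hz => ?_)
    rw [real_inner_smul_left, real_inner_smul_left]
    refine mul_le_mul_of_nonneg_left ?_ (inv_nonneg.2 h1.le)
    have h2 := hv (y s) z hz
    rw [inner_sub_right] at h2
    linarith
  have hmem : ∀ s ∈ Icc (0 : ℝ) 1, supp K (‖y s - π (y s)‖⁻¹ • (y s - π (y s))) •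
      (‖y s - π (y s)‖⁻¹ • (y s - π (y s))) ∈ K := by
    intro s hs
    by_contra hcon
    have h1 : π (y s) ∈ XJ K := ⟨hπ _, _, hn1 s hs, hnorm s hs, hcon⟩
    have h2 := hB _ h1
    have h3 := hyb s hs
    linarith
  refine path_const (supp K) (fun s => ‖y s - π (y s)‖⁻¹ • (y s - π (y s))) (2 / d * (2 * L))
    hn1 ?_ ?_ ?_
  · intro s hs t ht
    refine (lc_normalize hd (hyd s hs) (hyd t ht)).trans ?_
    have h1 : ‖y s - π (y s) - (y t - π (y t))‖ ≤ 2 * L * |s - t| := by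
      have e : y s - π (y s) - (y t - π (y t)) = (y s - y t) - (π (y s) - π (y t)) := by abel
      rw [e]
      refine (norm_sub_le _ _).trans ?_
      have h2 := hl (y s) (y t)
      have h3 := hy s hs t ht
      linarith
    calc 2 / d * ‖y s - π (y s) - (y t - π (y t))‖ ≤ 2 / d * (2 * L * |s - t|) :=
          mul_le_mul_of_nonneg_left h1 (by positivity)
      _ = _ := by ring
  · intro s hs
    exact lt_of_lt_of_le hr (le_supp_of_ball hK hr.le hball (hn1 s hs))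
  · intro s hs t ht
    have h1 := inner_le_supp hK (hmem s hs) (‖y t - π (y t)‖⁻¹ • (y t - π (y t)))
    rw [real_inner_smul_right, real_inner_comm] at h1
    exact h1

lemma lc_dist {K : Set E3} (hK : IsCompact K) {π : E3 → E3} (hπ : ∀ y, π y ∈ K) {u y : E3}
    {d : ℝ} (hu : ‖u‖ = 1) (h : supp K u + d ≤ ⟪u, y⟫_ℝ) : d ≤ ‖y - π y‖ := by
  have h1 : ⟪u, y - π y⟫_ℝ ≤ ‖u‖ * ‖y - π y‖ := real_inner_le_norm _ _
  rw [hu, one_mul, inner_sub_right] at h1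
  have h2 := inner_le_supp hK (hπ y) u
  linarith

lemma lc_fix {K : Set E3} {π : E3 → E3} (hv : ∀ y, ∀ z ∈ K, ⟪y - π y, z - π y⟫_ℝ ≤ 0) {x : E3}
    (hx : x ∈ K) : π x = x := by
  have h1 := hv x x hx
  rw [real_inner_self_eq_norm_sq] at h1
  have h2 : ‖x - π x‖ = 0 := by nlinarith [norm_nonneg (x - π x)]
  exact (sub_eq_zero.1 (norm_eq_zero.1 h2)).symm

lemma lc_inner_lt {b p x y : E3} (hb : ‖b‖ = 1) {c e : ℝ} (h1 : ⟪b, x⟫_ℝ ≤ -c)
    (h2 : ‖p - x‖ ≤ ‖y - x‖) (h3 : ‖y - x‖ ≤ e) (h4 : e < c) : ⟪b, p⟫_ℝ < 0 := by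
  have h5 : ⟪b, p - x⟫_ℝ ≤ ‖b‖ * ‖p - x‖ := real_inner_le_norm _ _
  rw [hb, one_mul, inner_sub_right] at h5
  linarith

/-- local step -/
lemma lc_local {K : Set E3} (hK : IsCompact K) {b : E3} (hb : ‖b‖ = 1) (hne : K.Nonempty)
    (hB : ∀ x ∈ XJ K, 0 ≤ ⟪b, x⟫_ℝ) {r : ℝ} (hr : 0 < r) (hball : closedBall (0 : E3) r ⊆ K)
    {R : ℝ} (hR : 0 < R) (hKR : K ⊆ closedBall (0 : E3) R)
    {π : E3 → E3} (hπ : ∀ y, π y ∈ K) (hv : ∀ y, ∀ z ∈ K, ⟪y - π y, z - π y⟫_ℝ ≤ 0)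
    (hl : ∀ y z, ‖π y - π z‖ ≤ ‖y - z‖) {x u : E3} (hx : x ∈ K) (hu : ‖u‖ = 1)
    (hux : ⟪u, x⟫_ℝ = supp K u) {c μ ε : ℝ} (hμ : 0 < μ) (hε : 0 < ε)
    (hc : ε + μ * R < c) (hxc : ⟪b, x⟫_ℝ ≤ -c) :
    supp K u = supp K (‖(1 + μ) • x - π ((1 + μ) • x)‖⁻¹ • ((1 + μ) • x - π ((1 + μ) • x))) := by
  have hxR : ‖x‖ ≤ R := mem_closedBall_zero_iff.1 (hKR hx)
  have hsr : r ≤ supp K u := le_supp_of_ball hK hr.le hball hu
  have huu : ⟪u, u⟫_ℝ = 1 := by rw [real_inner_self_eq_norm_sq, hu]; norm_num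
  have key := lc_path hK (b := b) hne hB hr hball hπ hv hl
    (fun s => x + ((1 - s) * ε) • u + (s * μ) • x) (ε + μ * R) (min ε (μ * r))
    (lt_min hε (mul_pos hμ hr)) ?_ ?_ ?_
  · have e0 : x + ((1 - 0) * ε) • u + (0 * μ) • x = x + ε • u := by
      rw [sub_zero, one_mul, zero_mul, zero_smul, add_zero]
    have e1 : x + (((1:ℝ) - 1) * ε) • u + (1 * μ) • x = (1 + μ) • x := by
      rw [sub_self, zero_mul, zero_smul, add_zero, one_mul, add_smul, one_smul]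
    simp only [e0, e1] at key
    rw [← key]
    have hp : π (x + ε • u) = x := by
      have h1 := hv (x + ε • u) x hx
      have h2 := inner_le_supp hK (hπ (x + ε • u)) u
      set p := π (x + ε • u) with hpdef
      have e2 : x + ε • u - p = (x - p) + ε • u := by abel
      rw [e2, inner_add_left, real_inner_self_eq_norm_sq, real_inner_smul_left, inner_sub_right,
        hux] at h1
      have h3 : 0 ≤ ε * (supp K u - ⟪u, p⟫_ℝ) := mul_nonneg hε.le (by linarith)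
      have h4 : ‖x - p‖ = 0 := by nlinarith [norm_nonneg (x - p)]
      exact (sub_eq_zero.1 (norm_eq_zero.1 h4)).symm
    rw [hp]
    have e3 : x + ε • u - x = ε • u := by abel
    rw [e3, norm_smul, hu, mul_one, Real.norm_eq_abs, abs_of_pos hε, smul_smul,
      inv_mul_cancel₀ hε.ne', one_smul]
  · intro s hs t ht
    have e : x + ((1 - s) * ε) • u + (s * μ) • x - (x + ((1 - t) * ε) • u + (t * μ) • x) =
        ((t - s) * ε) • u + ((s - t) * μ) • x := by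
      module
    simp only [e]
    refine (norm_add_le _ _).trans ?_
    rw [norm_smul, norm_smul, hu, mul_one, Real.norm_eq_abs, Real.norm_eq_abs, abs_mul, abs_mul,
      abs_of_pos hε, abs_of_pos hμ, abs_sub_comm t s]
    have h1 : |s - t| * μ * ‖x‖ ≤ |s - t| * μ * R :=
      mul_le_mul_of_nonneg_left hxR (by positivity)
    linarith
  · intro s hs
    refine lc_dist hK hπ hu ?_
    simp only [inner_add_right, real_inner_smul_right, huu, hux]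
    have h1 : 0 ≤ 1 - s := by linarith [hs.2]
    have h2 := hs.1
    have h3 : μ * r ≤ μ * supp K u := mul_le_mul_of_nonneg_left hsr hμ.le
    have h4 := min_le_left ε (μ * r)
    have h5 := min_le_right ε (μ * r)
    have h6 : (1 - s) * min ε (μ * r) ≤ (1 - s) * ε := mul_le_mul_of_nonneg_left h4 h1
    have h7 : s * min ε (μ * r) ≤ s * (μ * supp K u) :=
      mul_le_mul_of_nonneg_left (h5.trans h3) h2
    nlinarith
  · intro s hs
    have h0 : ‖x + ((1 - s) * ε) • u + (s * μ) • x - x‖ ≤ ε + μ * R := by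
      have e : x + ((1 - s) * ε) • u + (s * μ) • x - x = ((1 - s) * ε) • u + (s * μ) • x := by
        abel
      rw [e]
      refine (norm_add_le _ _).trans ?_
      have h1 : 0 ≤ 1 - s := by linarith [hs.2]
      have h2 := hs.1
      rw [norm_smul, norm_smul, hu, mul_one, Real.norm_eq_abs, Real.norm_eq_abs,
        abs_of_nonneg (mul_nonneg h1 hε.le), abs_of_nonneg (mul_nonneg h2 hμ.le)]
      have h3 : (1 - s) * ε ≤ ε := by nlinarith
      have h4 : s * μ * ‖x‖ ≤ μ * R := by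
        have h5 : s * μ ≤ μ := by nlinarith [hs.2]
        exact mul_le_mul h5 hxR (norm_nonneg _) hμ.le
      linarith
    refine lc_inner_lt hb hxc (y := x + ((1 - s) * ε) • u + (s * μ) • x) ?_ h0 hc
    have h6 := hl (x + ((1 - s) * ε) • u + (s * μ) • x) x
    rwa [lc_fix hv hx] at h6

/-- global step -/
lemma lc_global {K : Set E3} (hK : IsCompact K) (hcv : Convex ℝ K)
    (h0 : (0 : E3) ∈ interior K) {b : E3} (hb : ‖b‖ = 1) (hne : K.Nonempty)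
    (hB : ∀ x ∈ XJ K, 0 ≤ ⟪b, x⟫_ℝ) {r : ℝ} (hr : 0 < r) (hball : closedBall (0 : E3) r ⊆ K)
    {R : ℝ} (hR : 0 < R) (hKR : K ⊆ closedBall (0 : E3) R)
    {π : E3 → E3} (hπ : ∀ y, π y ∈ K) (hv : ∀ y, ∀ z ∈ K, ⟪y - π y, z - π y⟫_ℝ ≤ 0)
    (hl : ∀ y z, ‖π y - π z‖ ≤ ‖y - z‖) {x₁ x₂ : E3} (hx₁ : x₁ ∈ K) (hx₁i : x₁ ∉ interior K)
    (hx₂ : x₂ ∈ K) (hx₂i : x₂ ∉ interior K)
    {c μ : ℝ} (hμ : 0 < μ) (hc : μ * R < c) (hxc₁ : ⟪b, x₁⟫_ℝ ≤ -c) (hxc₂ : ⟪b, x₂⟫_ℝ ≤ -c) :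
    supp K (‖(1 + μ) • x₁ - π ((1 + μ) • x₁)‖⁻¹ • ((1 + μ) • x₁ - π ((1 + μ) • x₁))) =
    supp K (‖(1 + μ) • x₂ - π ((1 + μ) • x₂)‖⁻¹ • ((1 + μ) • x₂ - π ((1 + μ) • x₂))) := by
  have hcpos : 0 < c := lt_trans (mul_pos hμ hR) hc
  have hnh : K ∈ nhds (0 : E3) := mem_interior_iff_mem_nhds.1 h0
  have habs : Absorbent ℝ K := absorbent_nhds_zero hnh
  -- the segment
  set v : ℝ → E3 := fun s => (1 - s) • x₁ + s • x₂ with hvdef
  have hvK : ∀ s ∈ Icc (0 : ℝ) 1, v s ∈ K := fun s hs =>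
    hcv hx₁ hx₂ (by linarith [hs.2]) hs.1 (by ring)
  have hvb : ∀ s ∈ Icc (0 : ℝ) 1, ⟪b, v s⟫_ℝ ≤ -c := by
    intro s hs
    simp only [hvdef, inner_add_right, real_inner_smul_right]
    have h1 : 0 ≤ 1 - s := by linarith [hs.2]
    have h2 := hs.1
    nlinarith [mul_le_mul_of_nonneg_left hxc₁ h1, mul_le_mul_of_nonneg_left hxc₂ h2]
  have hvn : ∀ s ∈ Icc (0 : ℝ) 1, ‖v s‖ ≤ R := fun s hs =>
    mem_closedBall_zero_iff.1 (hKR (hvK s hs))
  have hvc : ∀ s ∈ Icc (0 : ℝ) 1, c ≤ ‖v s‖ := by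
    intro s hs
    have h1 : |⟪b, v s⟫_ℝ| ≤ ‖b‖ * ‖v s‖ := abs_real_inner_le_norm _ _
    rw [hb, one_mul] at h1
    have h2 := hvb s hs
    have h3 := neg_abs_le ⟪b, v s⟫_ℝ
    linarith
  have hvl : ∀ s t : ℝ, ‖v s - v t‖ ≤ 2 * R * |s - t| := by
    intro s t
    have e : v s - v t = (s - t) • (x₂ - x₁) := by
      simp only [hvdef]; module
    rw [e, norm_smul, Real.norm_eq_abs]
    have h1 : ‖x₂ - x₁‖ ≤ 2 * R := by
      refine (norm_sub_le _ _).trans ?_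
      have h2 := mem_closedBall_zero_iff.1 (hKR hx₁)
      have h3 := mem_closedBall_zero_iff.1 (hKR hx₂)
      linarith
    calc |s - t| * ‖x₂ - x₁‖ ≤ |s - t| * (2 * R) := mul_le_mul_of_nonneg_left h1 (abs_nonneg _)
      _ = _ := by ring
  -- the gauge
  have hg1 : ∀ s ∈ Icc (0 : ℝ) 1, gauge K (v s) ≤ 1 := fun s hs => gauge_le_one_of_mem (hvK s hs)
  have hg2 : ∀ s ∈ Icc (0 : ℝ) 1, c / R ≤ gauge K (v s) := by
    intro s hs
    refine le_trans ?_ (le_gauge_of_subset_closedBall habs hR.le hKR)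
    exact div_le_div_of_nonneg_right (hvc s hs) hR.le
  have hcR : 0 < c / R := div_pos hcpos hR
  obtain ⟨G, hG⟩ := hcv.lipschitz_gauge hnh
  have hgl : ∀ s t : ℝ, |gauge K (v s) - gauge K (v t)| ≤ G * (2 * R * |s - t|) := by
    intro s t
    have h1 := hG.dist_le_mul (v s) (v t)
    rw [Real.dist_eq, dist_eq_norm] at h1
    exact h1.trans (mul_le_mul_of_nonneg_left (hvl s t) G.coe_nonneg)
  set X : ℝ → E3 := fun s => (gauge K (v s))⁻¹ • v s with hXdef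
  have hXg : ∀ s ∈ Icc (0 : ℝ) 1, gauge K (X s) = 1 := by
    intro s hs
    have h1 : 0 < gauge K (v s) := lt_of_lt_of_le hcR (hg2 s hs)
    simp only [hXdef]
    rw [gauge_smul_of_nonneg (inv_nonneg.2 h1.le), smul_eq_mul, inv_mul_cancel₀ h1.ne']
  have hXK : ∀ s ∈ Icc (0 : ℝ) 1, X s ∈ K := by
    intro s hs
    have h1 := (gauge_le_one_iff_mem_closure hcv hnh).1 (hXg s hs).le
    rwa [hK.isClosed.closure_eq] at h1
  have hXi : ∀ s ∈ Icc (0 : ℝ) 1, X s ∉ interior K := by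
    intro s hs h1
    have h2 := (gauge_lt_one_iff_mem_interior hcv hnh).2 h1
    rw [hXg s hs] at h2
    exact lt_irrefl _ h2
  have hginv1 : ∀ s ∈ Icc (0 : ℝ) 1, 1 ≤ (gauge K (v s))⁻¹ := by
    intro s hs
    have h1 : 0 < gauge K (v s) := lt_of_lt_of_le hcR (hg2 s hs)
    exact (one_le_inv₀ h1).2 (hg1 s hs)
  have hginv2 : ∀ s ∈ Icc (0 : ℝ) 1, (gauge K (v s))⁻¹ ≤ R / c := by
    intro s hs
    have h1 := inv_anti₀ hcR (hg2 s hs)
    rwa [inv_div] at h1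
  have hXb : ∀ s ∈ Icc (0 : ℝ) 1, ⟪b, X s⟫_ℝ ≤ -c := by
    intro s hs
    simp only [hXdef, real_inner_smul_right]
    have h1 := hginv1 s hs
    have h2 := hvb s hs
    nlinarith
  have hRc : 0 < R / c := div_pos hR hcpos
  have hXl : ∀ s ∈ Icc (0 : ℝ) 1, ∀ t ∈ Icc (0 : ℝ) 1, ‖X s - X t‖ ≤
      (R / c * (2 * R) + (R / c) * (R / c) * (G * (2 * R)) * R) * |s - t| := by
    intro s hs t ht
    have hs0 : 0 < gauge K (v s) := lt_of_lt_of_le hcR (hg2 s hs)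
    have ht0 : 0 < gauge K (v t) := lt_of_lt_of_le hcR (hg2 t ht)
    have e : X s - X t = (gauge K (v s))⁻¹ • (v s - v t) +
        ((gauge K (v s))⁻¹ - (gauge K (v t))⁻¹) • v t := by
      simp only [hXdef]
      rw [smul_sub, sub_smul]; abel
    rw [e]
    refine (norm_add_le _ _).trans ?_
    rw [norm_smul, norm_smul, Real.norm_eq_abs, Real.norm_eq_abs, abs_of_pos (inv_pos.2 hs0)]
    have h1 : (gauge K (v s))⁻¹ * ‖v s - v t‖ ≤ R / c * (2 * R * |s - t|) :=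
      mul_le_mul (hginv2 s hs) (hvl s t) (norm_nonneg _) hRc.le
    have h2 : |(gauge K (v s))⁻¹ - (gauge K (v t))⁻¹| ≤
        (R / c) * (R / c) * (G * (2 * R * |s - t|)) := by
      have e2 : (gauge K (v s))⁻¹ - (gauge K (v t))⁻¹ =
          ((gauge K (v s))⁻¹ * (gauge K (v t))⁻¹) * (gauge K (v t) - gauge K (v s)) := by
        field_simp
      rw [e2, abs_mul, abs_of_pos (mul_pos (inv_pos.2 hs0) (inv_pos.2 ht0)), abs_sub_comm]
      refine mul_le_mul ?_ (hgl s t) (abs_nonneg _) (mul_nonneg hRc.le hRc.le)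
      exact mul_le_mul (hginv2 s hs) (hginv2 t ht) (inv_nonneg.2 ht0.le) hRc.le
    have h3 : |(gauge K (v s))⁻¹ - (gauge K (v t))⁻¹| * ‖v t‖ ≤
        (R / c) * (R / c) * (G * (2 * R * |s - t|)) * R := by
      refine mul_le_mul h2 (hvn t ht) (norm_nonneg _) ?_
      exact (abs_nonneg _).trans h2
    calc _ ≤ R / c * (2 * R * |s - t|) + (R / c) * (R / c) * (G * (2 * R * |s - t|)) * R :=
          add_le_add h1 h3
      _ = _ := by ring
  have hX0 : X 0 = x₁ := by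
    have e : v 0 = x₁ := by simp [hvdef]
    have h1 : gauge K x₁ = 1 := by
      refine le_antisymm (gauge_le_one_of_mem hx₁) (not_lt.1 fun h => hx₁i ?_)
      exact (gauge_lt_one_iff_mem_interior hcv hnh).1 h
    simp only [hXdef]
    rw [e, h1, inv_one, one_smul]
  have hX1 : X 1 = x₂ := by
    have e : v 1 = x₂ := by simp [hvdef]
    have h1 : gauge K x₂ = 1 := by
      refine le_antisymm (gauge_le_one_of_mem hx₂) (not_lt.1 fun h => hx₂i ?_)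
      exact (gauge_lt_one_iff_mem_interior hcv hnh).1 h
    simp only [hXdef]
    rw [e, h1, inv_one, one_smul]
  have key := lc_path hK (b := b) hne hB hr hball hπ hv hl (fun s => (1 + μ) • X s)
    ((1 + μ) * (R / c * (2 * R) + (R / c) * (R / c) * (G * (2 * R)) * R)) (μ * r)
    (mul_pos hμ hr) ?_ ?_ ?_
  · simp only [hX0, hX1] at key
    exact key
  · intro s hs t ht
    have e : (1 + μ) • X s - (1 + μ) • X t = (1 + μ) • (X s - X t) := (smul_sub _ _ _).symm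
    simp only [e]
    rw [norm_smul, Real.norm_eq_abs, abs_of_pos (by linarith), mul_assoc]
    exact mul_le_mul_of_nonneg_left (hXl s hs t ht) (by linarith)
  · intro s hs
    have hJ : X s ∉ XJ K := fun h => by
      have h1 := hB _ h
      have h2 := hXb s hs
      linarith
    obtain ⟨u, hu, hus, -⟩ := unique_normal K hK hcv h0 (X s) (hXK s hs) (hXi s hs) hJ
    refine lc_dist hK hπ hu.2.1 ?_
    rw [real_inner_smul_right, hus]
    have h1 := le_supp_of_ball hK hr.le hball hu.2.1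
    nlinarith
  · intro s hs
    have h3 : ‖(1 + μ) • X s - X s‖ ≤ μ * R := by
      have e : (1 + μ) • X s - X s = μ • X s := by module
      rw [e, norm_smul, Real.norm_eq_abs, abs_of_pos hμ]
      exact mul_le_mul_of_nonneg_left (mem_closedBall_zero_iff.1 (hKR (hXK s hs))) hμ.le
    refine lc_inner_lt hb (hXb s hs) (y := (1 + μ) • X s) ?_ h3 hc
    have h6 := hl ((1 + μ) • X s) (X s)
    rwa [lc_fix hv (hXK s hs)] at h6

/-- a point with a unit normal is not interior -/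
lemma lc_not_interior {K : Set E3} (hK : IsCompact K) {x u : E3} (hu : ‖u‖ = 1)
    (hux : ⟪u, x⟫_ℝ = supp K u) : x ∉ interior K := by
  intro hx
  obtain ⟨ε, hε, hball⟩ := Metric.isOpen_iff.1 isOpen_interior x hx
  have h1 : x + (ε / 2) • u ∈ K := interior_subset (hball (by
    rw [mem_ball, dist_eq_norm]
    have e : x + (ε / 2) • u - x = (ε / 2) • u := by abel
    rw [e, norm_smul, hu, mul_one, Real.norm_eq_abs, abs_of_pos (by linarith)]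
    linarith))
  have h2 := inner_le_supp hK h1 u
  rw [inner_add_right, real_inner_smul_right, real_inner_self_eq_norm_sq, hu, hux] at h2
  linarith

/-- TARGET -/
theorem level_const (K : Set E3) (hK : IsCompact K) (hc : Convex ℝ K)
    (h0 : (0 : E3) ∈ interior K) (b : E3) (hb : ‖b‖ = 1)
    (hB : ∀ x ∈ XJ K, 0 ≤ ⟪b, x⟫_ℝ) :
    ∀ x ∈ K, ⟪b, x⟫_ℝ < 0 → ∀ u : E3, ‖u‖ = 1 → ⟪u, x⟫_ℝ = supp K u → supp K u = supp K (-b) := by
  intro x hx hbx u hu hux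
  have hne : K.Nonempty := ⟨x, hx⟩
  obtain ⟨r, hr, hball⟩ : ∃ r : ℝ, 0 < r ∧ closedBall (0 : E3) r ⊆ K := by
    obtain ⟨ε, hε, hb⟩ := Metric.isOpen_iff.1 isOpen_interior (0 : E3) h0
    exact ⟨ε / 2, by linarith,
      (closedBall_subset_ball (by linarith)).trans (hb.trans interior_subset)⟩
  obtain ⟨R, hR, hKR⟩ : ∃ R : ℝ, 0 < R ∧ K ⊆ closedBall (0 : E3) R := by
    obtain ⟨R, hR⟩ := hK.isBounded.subset_closedBall (0 : E3)
    exact ⟨max R 1, lt_max_of_lt_right one_pos,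
      hR.trans (closedBall_subset_closedBall (le_max_left _ _))⟩
  obtain ⟨π, hπ, hv, hl⟩ := lc_exists_proj hK hc hne
  obtain ⟨z, hz, hze⟩ := exists_supp hK hne (-b)
  have hnb : ‖(-b : E3)‖ = 1 := by rw [norm_neg, hb]
  have hzb : ⟪b, z⟫_ℝ < 0 := by
    have h1 := le_supp_of_ball hK hr.le hball hnb
    rw [← hze, inner_neg_left] at h1
    linarith
  set c : ℝ := min (-⟪b, x⟫_ℝ) (-⟪b, z⟫_ℝ) with hcdef
  have hcpos : 0 < c := lt_min (by linarith) (by linarith)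
  have hxc : ⟪b, x⟫_ℝ ≤ -c := by
    have := min_le_left (-⟪b, x⟫_ℝ) (-⟪b, z⟫_ℝ)
    linarith
  have hzc : ⟪b, z⟫_ℝ ≤ -c := by
    have := min_le_right (-⟪b, x⟫_ℝ) (-⟪b, z⟫_ℝ)
    linarith
  have hμ : 0 < c / (4 * R) := by positivity
  have hμR : c / (4 * R) * R = c / 4 := by field_simp
  have hε : 0 < c / 4 := by positivity
  have hlt : c / 4 + c / (4 * R) * R < c := by rw [hμR]; linarith
  have hlt' : c / (4 * R) * R < c := by rw [hμR]; linarith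
  have s1 := lc_local hK hb hne hB hr hball hR hKR hπ hv hl hx hu hux hμ hε hlt hxc
  have s2 := lc_local hK hb hne hB hr hball hR hKR hπ hv hl hz hnb hze hμ hε hlt hzc
  have s3 := lc_global hK hc h0 hb hne hB hr hball hR hKR hπ hv hl hx
    (lc_not_interior hK hu hux) hz (lc_not_interior hK hnb hze) hμ hlt' hxc hzc
  rw [s1, s3, ← s2]


end N_level_const

alias level_const := N_level_const.level_const

end Pool.Agent.Helper524.Mono
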