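import Pool.Agent.Helper524.Mono.Gen
import Pool.Agent.Helper524.Mono.S_unique_normal
import Pool.Agent.Helper524.Mono.S_level_const

set_option autoImplicit false

open MeasureTheory Set Metric
open scoped InnerProductSpace

namespace Pool.Agent.Helper524.Mono

namespace N_lower_half






theorem lower_half_third (K : Set E3) (hK : IsCompact K) (hc : Convex ℝ K)
    (h0 : (0 : E3) ∈ interior K) (b : E3) (hb : ‖b‖ = 1)
    (hB : ∀ x ∈ XJ K, 0 ≤ ⟪b, x⟫_ℝ) :
    ∀ x ∈ K, ⟪b, x⟫_ℝ < 0 → x ∉ interior K →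
      ∃ u : E3, ‖u‖ = 1 ∧ ⟪u, x⟫_ℝ = supp K u ∧ supp K u = supp K (-b) := by
  intro x hx hbx hxi
  have hJ : x ∉ XJ K := fun h => absurd (hB x h) (not_le.2 hbx)
  obtain ⟨u, hu1, hu2, _⟩ := unique_normal K hK hc h0 x hx hxi hJ
  exact ⟨u, hu1.2.1, hu2, level_const K hK hc h0 b hb hB x hx hbx u hu1.2.1 hu2⟩

theorem lower_half_first (K : Set E3) (hK : IsCompact K) (hc : Convex ℝ K)
    (h0 : (0 : E3) ∈ interior K) (b : E3) (hb : ‖b‖ = 1)
    (hB : ∀ x ∈ XJ K, 0 ≤ ⟪b, x⟫_ℝ) (m : ℝ) (hm : 0 < m) (hball : closedBall (0 : E3) m ⊆ K)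
    (v : E3) (hv : ‖v‖ = 1) (hbv : ⟪b, v⟫_ℝ < 0) : supp K (-b) • v ∈ K := by
  by_contra hcon
  have hρ : m ≤ supp K (-b) := le_supp_of_ball hK hm.le hball (by rw [norm_neg, hb])
  set ρ := supp K (-b) with hρd
  have hρ0 : 0 < ρ := lt_of_lt_of_le hm hρ
  -- the set of t in [0,ρ] with t v in K
  set S : Set ℝ := Icc (0:ℝ) ρ ∩ (fun t : ℝ => t • v) ⁻¹' K with hS
  have hcS : IsCompact S := by
    refine isCompact_Icc.inter_right (hK.isClosed.preimage (by fun_prop))
  have hmS : m ∈ S := by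
    refine ⟨⟨hm.le, hρ⟩, hball ?_⟩
    rw [mem_closedBall_zero_iff, norm_smul, hv, mul_one, Real.norm_eq_abs, abs_of_pos hm]
  obtain ⟨t, htS, htmax⟩ := hcS.exists_isMaxOn ⟨m, hmS⟩ (f := fun t : ℝ => t) (by fun_prop)
  have hmt : m ≤ t := htmax hmS
  have ht0 : 0 < t := lt_of_lt_of_le hm hmt
  have htρ : t < ρ := by
    refine lt_of_le_of_ne htS.1.2 ?_
    rintro rfl
    exact hcon htS.2
  have hxi : t • v ∉ interior K := by
    intro hin
    have hcont : Filter.Tendsto (fun s : ℝ => s • v) (nhds t) (nhds (t • v)) :=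
      Continuous.tendsto (by fun_prop) t
    have hev := hcont.eventually (isOpen_interior.mem_nhds hin)
    have hev2 : ∀ᶠ s in nhdsWithin t (Ioi t), s • v ∈ interior K := hev.filter_mono nhdsWithin_le_nhds
    have hev3 : ∀ᶠ s in nhdsWithin t (Ioi t), s ∈ Ioo t ρ := Ioo_mem_nhdsGT htρ
    obtain ⟨s, hs1, hs2⟩ := (hev2.and hev3).exists
    have hsK : s • v ∈ K := interior_subset hs1
    have hsS : s ∈ S := ⟨⟨(ht0.trans hs2.1).le, hs2.2.le⟩, hsK⟩
    have : s ≤ t := htmax hsS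
    linarith [hs2.1]
  have hbx : ⟪b, t • v⟫_ℝ < 0 := by
    rw [real_inner_smul_right]
    exact mul_neg_of_pos_of_neg ht0 hbv
  obtain ⟨u, hu1, hu2, hu3⟩ := lower_half_third K hK hc h0 b hb hB (t • v) htS.2 hbx hxi
  have h4 : ⟪u, t • v⟫_ℝ ≤ t := by
    have := real_inner_le_norm u (t • v)
    rw [hu1, one_mul, norm_smul, hv, mul_one, Real.norm_eq_abs, abs_of_pos ht0] at this
    exact this
  rw [hu2, hu3] at h4
  linarith

/-- TARGET -/
theorem lower_half (K : Set E3) (hK : IsCompact K) (hc : Convex ℝ K)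
    (h0 : (0 : E3) ∈ interior K) (b : E3) (hb : ‖b‖ = 1)
    (hB : ∀ x ∈ XJ K, 0 ≤ ⟪b, x⟫_ℝ) :
    (∀ v : E3, ‖v‖ = 1 → ⟪b, v⟫_ℝ ≤ 0 → supp K (-b) • v ∈ K) ∧
    (∃ θ : ℝ, 0 < θ ∧ ∀ v : E3, ‖v‖ = 1 → ‖v + b‖ < θ → supp K v = supp K (-b)) ∧
    (∀ x ∈ K, ⟪b, x⟫_ℝ < 0 → x ∉ interior K →
      ∃ u : E3, ‖u‖ = 1 ∧ ⟪u, x⟫_ℝ = supp K u ∧ supp K u = supp K (-b)) := by
  obtain ⟨m, hm, hball⟩ := Metric.nhds_basis_closedBall.mem_iff.1 (mem_interior_iff_mem_nhds.1 h0)
  have hne : K.Nonempty := ⟨0, interior_subset h0⟩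
  refine ⟨?_, ?_, lower_half_third K hK hc h0 b hb hB⟩
  · intro v hv hbv
    rcases lt_or_eq_of_le hbv with h1 | h1
    · exact lower_half_first K hK hc h0 b hb hB m hm hball v hv h1
    · -- approximate
      have hcont : Filter.Tendsto (fun s : ℝ => supp K (-b) • (‖v - s • b‖⁻¹ • (v - s • b)))
          (nhdsWithin 0 (Ioi 0)) (nhds (supp K (-b) • v)) := by
        have h2 : ContinuousAt (fun s : ℝ => supp K (-b) • (‖v - s • b‖⁻¹ • (v - s • b))) 0 := by
          have h3 : ContinuousAt (fun s : ℝ => ‖v - s • b‖⁻¹) 0 := by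
            refine ContinuousAt.inv₀ (by fun_prop) ?_
            simp [hv]
          have h33 : ContinuousAt (fun s : ℝ => v - s • b) 0 := by fun_prop
          have h34 : ContinuousAt (fun s : ℝ => ‖v - s • b‖⁻¹ • (v - s • b)) 0 := h3.smul h33
          exact h34.const_smul (supp K (-b))
        have h4 := h2.tendsto
        simp only [zero_smul, sub_zero, hv, inv_one, one_smul] at h4
        exact h4.mono_left nhdsWithin_le_nhds
      refine hK.isClosed.mem_of_tendsto hcont ?_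
      filter_upwards [self_mem_nhdsWithin] with s hs
      have hs0 : (0:ℝ) < s := hs
      have hbin : ⟪b, v - s • b⟫_ℝ = -s := by
        rw [inner_sub_right, real_inner_smul_right, real_inner_self_eq_norm_sq, hb, h1]
        ring
      have hnz : v - s • b ≠ 0 := by
        intro h5
        rw [h5, inner_zero_right] at hbin
        linarith
      have hnp : 0 < ‖v - s • b‖ := norm_pos_iff.2 hnz
      refine lower_half_first K hK hc h0 b hb hB m hm hball _ ?_ ?_
      · rw [norm_smul, norm_inv, norm_norm, inv_mul_cancel₀ hnp.ne']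
      · rw [real_inner_smul_right, hbin]
        exact mul_neg_of_pos_of_neg (inv_pos.2 hnp) (by linarith)
  · obtain ⟨R, hR⟩ := hK.isBounded.subset_closedBall (0 : E3)
    have hR0 : 0 ≤ R := by
      have := hR (interior_subset h0)
      rw [mem_closedBall_zero_iff, norm_zero] at this
      exact this
    refine ⟨m / (R + 1), by positivity, fun v hv hvb => ?_⟩
    obtain ⟨z, hz, hzv⟩ := exists_supp hK hne v
    have h1 : m ≤ supp K v := le_supp_of_ball hK hm.le hball hv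
    have hzR : ‖z‖ ≤ R := mem_closedBall_zero_iff.1 (hR hz)
    have h2 : ⟪v + b, z⟫_ℝ ≤ ‖v + b‖ * ‖z‖ := real_inner_le_norm _ _
    rw [inner_add_left, hzv] at h2
    have h3 : ‖v + b‖ * ‖z‖ ≤ m / (R + 1) * R :=
      mul_le_mul hvb.le hzR (norm_nonneg _) (by positivity)
    have h4 : m / (R + 1) * R < m := by
      rw [div_mul_eq_mul_div, div_lt_iff₀ (by positivity)]
      nlinarith
    exact level_const K hK hc h0 b hb hB z hz (by linarith) v hv hzv


end N_lower_half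

alias lower_half := N_lower_half.lower_half

end Pool.Agent.Helper524.Mono
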