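import Pool.Agent.Helper524.Mono.Gen

set_option autoImplicit false

open MeasureTheory Set Metric
open scoped InnerProductSpace

namespace Pool.Agent.Helper524.Mono

namespace N_expand_volume


theorem hm_22266 (A : Set E3) : volume A =
    (Measure.addHaarScalarFactor (volume : Measure E3) (Measure.hausdorffMeasure ((3 : ℕ) : ℝ)) :
      ENNReal) * Measure.hausdorffMeasure ((3 : ℕ) : ℝ) A := by
  have h := Measure.isAddLeftInvariant_eq_smul (volume : Measure E3)
    (Measure.hausdorffMeasure ((3 : ℕ) : ℝ))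
  exact congrArg (fun m : Measure E3 => m A) h

theorem enn_22266 (f : E3 → E3) (S B : Set E3)
    (hf : ∀ x ∈ S, ∀ y ∈ S, ‖x - y‖ ≤ 2 * ‖f x - f y‖) (hfS : ∀ x ∈ S, f x ∈ B) :
    volume S ≤ 8 * volume B := by
  have hinj : Set.InjOn f S := by
    intro x hx y hy hxy
    have h1 := hf x hx y hy
    rw [hxy, sub_self, norm_zero, mul_zero] at h1
    exact sub_eq_zero.1 (norm_le_zero_iff.1 h1)
  have hl : Set.LeftInvOn (Function.invFunOn f S) f S := hinj.leftInvOn_invFunOn
  have hlip : LipschitzOnWith 2 (Function.invFunOn f S) (f '' S) := by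
    apply LipschitzOnWith.of_dist_le_mul
    rintro _ ⟨x, hx, rfl⟩ _ ⟨y, hy, rfl⟩
    rw [hl hx, hl hy, dist_eq_norm, dist_eq_norm]
    exact hf x hx y hy
  have h1 := hlip.hausdorffMeasure_image_le (d := ((3 : ℕ) : ℝ)) (by positivity)
  rw [hl.image_image] at h1
  have h2 : ((2 : NNReal) : ENNReal) ^ ((3 : ℕ) : ℝ) = 8 := by
    rw [ENNReal.rpow_natCast]
    norm_num
  rw [h2] at h1
  have h3 : Measure.hausdorffMeasure ((3 : ℕ) : ℝ) (f '' S) ≤
      Measure.hausdorffMeasure ((3 : ℕ) : ℝ) B := by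
    apply measure_mono
    rintro _ ⟨x, hx, rfl⟩
    exact hfS x hx
  rw [hm_22266 S, hm_22266 B, mul_left_comm]
  gcongr
  exact h1.trans (by gcongr)

/-- TARGET -/
theorem expand_volume (f : E3 → E3) (S B : Set E3) (hB : MeasurableSet B)
    (hSb : Bornology.IsBounded S) (hBb : Bornology.IsBounded B)
    (hf : ∀ x ∈ S, ∀ y ∈ S, ‖x - y‖ ≤ 2 * ‖f x - f y‖) (hfS : ∀ x ∈ S, f x ∈ B) :
    volume.real S ≤ 8 * volume.real B := by
  have h1 := enn_22266 f S B hf hfS
  have h2 : volume B ≠ ⊤ := hBb.measure_lt_top.ne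
  have h3 := ENNReal.toReal_mono (ENNReal.mul_ne_top (by norm_num) h2) h1
  rw [ENNReal.toReal_mul] at h3
  exact h3


end N_expand_volume

alias expand_volume := N_expand_volume.expand_volume

end Pool.Agent.Helper524.Mono
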