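import Pool.Agent.Helper524.Mono.Gen
import Pool.Agent.Helper524.Mono.S_expand_volume

set_option autoImplicit false

open MeasureTheory Set Metric
open scoped InnerProductSpace

namespace Pool.Agent.Helper524.Mono

namespace N_raise_moment

theorem raise_aux_near (K : Set E3) (hK : IsCompact K) (hc : Convex ℝ K) (hne : K.Nonempty) :
    ∃ π : E3 → E3, (∀ x, π x ∈ K) ∧ ∀ x, ∀ w ∈ K, ⟪x - π x, w - π x⟫_ℝ ≤ 0 := by
  have h : ∀ x : E3, ∃ p ∈ K, ∀ w ∈ K, ⟪x - p, w - p⟫_ℝ ≤ 0 := by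
    intro x
    obtain ⟨p, hp, hpe⟩ := exists_norm_eq_iInf_of_complete_convex hne hK.isComplete hc x
    exact ⟨p, hp, (norm_eq_iInf_iff_real_inner_le_zero hc hp).1 hpe⟩
  choose π h1 h2 using h
  exact ⟨π, h1, h2⟩

/-- TARGET -/
theorem raise_moment (K : Set E3) (hK : IsCompact K) (hc : Convex ℝ K)
    (h0 : (0 : E3) ∈ interior K) (m s c : ℝ) (hm : 0 < m) (hs : 0 < s) (hc0 : 0 ≤ c)
    (hmin : ∀ v : E3, ‖v‖ = 1 → m ≤ supp K v) (b : E3) (hb : ‖b‖ = 1)
    (hb1 : ∀ x ∈ Raise K (m + s), x ∉ K → 0 ≤ ⟪b, x⟫_ℝ)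
    (hb2 : ∀ u : E3, ‖u‖ = 1 → supp K u < m + s → c ≤ ⟪b, u⟫_ℝ) :
    (m * c / 16) * volume.real (Raise K (m + s) \ K) ≤ ⟪b, ∫ x in Raise K (m + s) \ K, x⟫_ℝ := by
  have hne : K.Nonempty := ⟨0, interior_subset h0⟩
  obtain ⟨R, hR⟩ := hK.isBounded.subset_closedBall (0 : E3)
  set W := Raise K (m + s) with hW
  have hms : 0 < m + s := by linarith
  -- W is closed
  have hWclosed : IsClosed W := by
    have : W = ⋂ v : E3, ⋂ _ : ‖v‖ = 1, {x : E3 | ⟪v, x⟫_ℝ ≤ max (supp K v) (m + s)} := by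
      ext x
      simp only [hW, Raise, mem_setOf_eq, mem_iInter]
    rw [this]
    refine isClosed_iInter fun v => isClosed_iInter fun _ => ?_
    exact isClosed_le (by fun_prop) continuous_const
  have hWbdd : W ⊆ closedBall 0 (max R (m + s)) := by
    intro x hx
    rw [mem_closedBall_zero_iff]
    by_cases hx0 : x = 0
    · rw [hx0, norm_zero]
      exact hms.le.trans (le_max_right _ _)
    · have hxn : 0 < ‖x‖ := norm_pos_iff.2 hx0
      have hu : ‖‖x‖⁻¹ • x‖ = 1 := by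
        rw [norm_smul, norm_inv, norm_norm, inv_mul_cancel₀ hxn.ne']
      have h1 := hx (‖x‖⁻¹ • x) hu
      rw [real_inner_smul_left, real_inner_self_eq_norm_sq] at h1
      have h2 : ‖x‖⁻¹ * ‖x‖ ^ 2 = ‖x‖ := by field_simp
      rw [h2] at h1
      exact h1.trans (max_le_max (supp_le_of_subset_ball hne hR hu) le_rfl)
  have hWcomp : IsCompact W :=
    (isCompact_closedBall (0 : E3) _).of_isClosed_subset hWclosed hWbdd
  set A := W \ K with hA
  have hAm : MeasurableSet A := hWclosed.measurableSet.diff hK.isClosed.measurableSet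
  have hAb : Bornology.IsBounded A := hWcomp.isBounded.subset diff_subset
  obtain ⟨π, hπK, hπ⟩ := raise_aux_near K hK hc hne
  set n : E3 → E3 := fun x => ‖x - π x‖⁻¹ • (x - π x) with hn
  have hd : ∀ x, x ∉ K → 0 < ‖x - π x‖ := by
    intro x hx
    rw [norm_pos_iff, sub_ne_zero]
    intro h
    exact hx (h ▸ hπK x)
  have hn1 : ∀ x, x ∉ K → ‖n x‖ = 1 := by
    intro x hx
    simp only [hn]
    rw [norm_smul, norm_inv, norm_norm, inv_mul_cancel₀ (hd x hx).ne']
  have hnK : ∀ x, x ∉ K → ∀ y ∈ K, ⟪n x, y⟫_ℝ ≤ ⟪n x, π x⟫_ℝ := by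
    intro x hx y hy
    have h := hπ x y hy
    simp only [hn, real_inner_smul_left]
    refine mul_le_mul_of_nonneg_left ?_ (inv_nonneg.2 (hd x hx).le)
    rw [inner_sub_right] at h
    linarith
  have hsupp : ∀ x, x ∉ K → supp K (n x) = ⟪n x, π x⟫_ℝ := by
    intro x hx
    exact le_antisymm (supp_le hne (hnK x hx)) (inner_le_supp hK (hπK x) _)
  have hnx : ∀ x, x ∉ K → ⟪n x, x⟫_ℝ = supp K (n x) + ‖x - π x‖ := by
    intro x hx
    rw [hsupp x hx]
    have h1 : ⟪n x, x⟫_ℝ = ⟪n x, π x⟫_ℝ + ⟪n x, x - π x⟫_ℝ := by rw [inner_sub_right]; ring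
    rw [h1]
    congr 1
    simp only [hn]
    rw [real_inner_smul_left, real_inner_self_eq_norm_sq]
    have := (hd x hx).ne'
    field_simp
  have hAx : ∀ x ∈ A, supp K (n x) < m + s ∧ ⟪n x, x⟫_ℝ ≤ m + s := by
    intro x hx
    have h1 := hx.1 (n x) (hn1 x hx.2)
    have h2 := hnx x hx.2
    have h3 := hd x hx.2
    rcases le_max_iff.1 h1 with h | h
    · linarith
    · exact ⟨by linarith, h⟩
  set f : E3 → E3 := fun x => (1 / 2 : ℝ) • (x + (m + s) • n x) with hf
  have hfA : ∀ x ∈ A, f x ∈ A := by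
    intro x hx
    obtain ⟨h1, h2⟩ := hAx x hx
    refine ⟨?_, ?_⟩
    · intro v hv
      simp only [hf]
      rw [real_inner_smul_right, inner_add_right, real_inner_smul_right]
      have h3 := hx.1 v hv
      have h4 : ⟪v, n x⟫_ℝ ≤ 1 := by
        have := real_inner_le_norm v (n x)
        rwa [hv, hn1 x hx.2, one_mul] at this
      have h5 : (m + s) * ⟪v, n x⟫_ℝ ≤ m + s := by nlinarith
      have h6 : m + s ≤ max (supp K v) (m + s) := le_max_right _ _
      linarith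
    · intro hfK
      have h3 := inner_le_supp hK hfK (n x)
      simp only [hf] at h3
      rw [real_inner_smul_right, inner_add_right, real_inner_smul_right,
        real_inner_self_eq_norm_sq, hn1 x hx.2] at h3
      have h4 := hnx x hx.2
      have h5 := hd x hx.2
      linarith
  have hfb : ∀ x ∈ A, m * c / 2 ≤ ⟪b, f x⟫_ℝ := by
    intro x hx
    obtain ⟨h1, h2⟩ := hAx x hx
    have h3 := hb1 x hx.1 hx.2
    have h4 := hb2 (n x) (hn1 x hx.2) h1
    simp only [hf]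
    rw [real_inner_smul_right, inner_add_right, real_inner_smul_right]
    have h5 : (m + s) * c ≤ (m + s) * ⟪b, n x⟫_ℝ := mul_le_mul_of_nonneg_left h4 hms.le
    have h6 : 0 ≤ s * c := mul_nonneg hs.le hc0
    nlinarith
  have hmono : ∀ x ∈ A, ∀ y ∈ A, 0 ≤ ⟪n x - n y, x - y⟫_ℝ := by
    have key : ∀ x, x ∉ K → ∀ y, y ∉ K → ‖x - π x‖ - ‖y - π y‖ ≤ ⟪n x, x - y⟫_ℝ := by
      intro x hx y hy
      have h1 : ⟪n x, y⟫_ℝ = ⟪n x, y - π y⟫_ℝ + ⟪n x, π y⟫_ℝ := by rw [inner_sub_right]; ring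
      have h2 : ⟪n x, y - π y⟫_ℝ ≤ ‖y - π y‖ := by
        have := real_inner_le_norm (n x) (y - π y)
        rwa [hn1 x hx, one_mul] at this
      have h3 : ⟪n x, π y⟫_ℝ ≤ supp K (n x) := inner_le_supp hK (hπK y) _
      have h4 := hnx x hx
      rw [inner_sub_right]
      linarith
    intro x hx y hy
    have h1 := key x hx.2 y hy.2
    have h2 := key y hy.2 x hx.2
    have h3 : ⟪n y, y - x⟫_ℝ = - ⟪n y, x - y⟫_ℝ := by
      rw [← inner_neg_right]; congr 1; abel
    rw [inner_sub_left]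
    linarith
  have hexp : ∀ x ∈ A, ∀ y ∈ A, ‖x - y‖ ≤ 2 * ‖f x - f y‖ := by
    intro x hx y hy
    have h1 := hmono x hx y hy
    have h2 : f x - f y = (1 / 2 : ℝ) • ((x - y) + (m + s) • (n x - n y)) := by
      simp only [hf]
      module
    have h3 : ⟪f x - f y, x - y⟫_ℝ = (1 / 2) * (‖x - y‖ ^ 2 + (m + s) * ⟪n x - n y, x - y⟫_ℝ) := by
      rw [h2, real_inner_smul_left, inner_add_left, real_inner_smul_left,
        real_inner_self_eq_norm_sq]
    have h4 : ⟪f x - f y, x - y⟫_ℝ ≤ ‖f x - f y‖ * ‖x - y‖ := real_inner_le_norm _ _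
    have h5 : 0 ≤ (m + s) * ⟪n x - n y, x - y⟫_ℝ := mul_nonneg hms.le h1
    by_cases hxy : ‖x - y‖ = 0
    · rw [hxy]
      positivity
    · have h6 : 0 < ‖x - y‖ := lt_of_le_of_ne (norm_nonneg _) (Ne.symm hxy)
      have h7 : ‖x - y‖ * ‖x - y‖ ≤ (2 * ‖f x - f y‖) * ‖x - y‖ := by nlinarith
      exact le_of_mul_le_mul_right h7 h6
  set B := {x | x ∈ A ∧ m * c / 2 ≤ ⟪b, x⟫_ℝ} with hB
  have hBm : MeasurableSet B := by
    have : B = A ∩ {x | m * c / 2 ≤ ⟪b, x⟫_ℝ} := by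
      ext x; simp [hB]
    rw [this]
    refine hAm.inter ?_
    exact (isClosed_le continuous_const (by fun_prop)).measurableSet
  have hBA : B ⊆ A := fun x hx => hx.1
  have hvol : volume.real A ≤ 8 * volume.real B :=
    expand_volume f A B hBm hAb (hAb.subset hBA) hexp
      (fun x hx => ⟨hfA x hx, hfb x hx⟩)
  have hintid : IntegrableOn (fun x : E3 => x) A volume :=
    (continuous_id.continuousOn.integrableOn_compact hWcomp).mono_set diff_subset
  have hint : IntegrableOn (fun x : E3 => ⟪b, x⟫_ℝ) A volume := by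
    have : ContinuousOn (fun x : E3 => ⟪b, x⟫_ℝ) W := by fun_prop
    exact (this.integrableOn_compact hWcomp).mono_set diff_subset
  have hstep1 : ⟪b, ∫ x in A, x⟫_ℝ = ∫ x in A, ⟪b, x⟫_ℝ := (integral_inner hintid b).symm
  rw [hstep1]
  have hstep2 : ∫ x in B, ⟪b, x⟫_ℝ ≤ ∫ x in A, ⟪b, x⟫_ℝ := by
    refine setIntegral_mono_set hint ?_ (HasSubset.Subset.eventuallyLE hBA)
    rw [Filter.EventuallyLE, ae_restrict_iff' hAm]
    exact Filter.Eventually.of_forall fun x hx => hb1 x hx.1 hx.2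
  have hBfin : volume B ≠ ⊤ :=
    ((hAb.subset hBA).measure_lt_top).ne
  have hstep3 : (m * c / 2) * volume.real B ≤ ∫ x in B, ⟪b, x⟫_ℝ := by
    have h1 : ∫ _ in B, (m * c / 2) = volume.real B • (m * c / 2) := by
      rw [setIntegral_const]
    rw [mul_comm, ← smul_eq_mul, ← h1]
    refine setIntegral_mono_on ?_ (hint.mono_set hBA) hBm fun x hx => hx.2
    exact integrableOn_const hBfin
  have hmc : 0 ≤ m * c := mul_nonneg hm.le hc0
  have h9 : (m * c / 16) * volume.real A ≤ (m * c / 16) * (8 * volume.real B) :=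
    mul_le_mul_of_nonneg_left hvol (by positivity)
  linarith

end N_raise_moment

alias raise_moment := N_raise_moment.raise_moment

end Pool.Agent.Helper524.Mono
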