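import Pool.Agent.Helper524.Mono.Gen
import Pool.Agent.Helper524.Mono.S_raise_moment
import Pool.Agent.Helper524.Mono.S_lower_half
import Pool.Agent.Helper524.Mono.S_level_const
import Pool.Agent.Helper524.Mono.S_chi_props
import Pool.Agent.Helper524.Mono.S_wulff_basic
import Pool.Agent.Helper524.Mono.S_wulff_sandwich
import Pool.Agent.Helper524.Mono.S_wulff_continuous
import Pool.Agent.Helper524.Mono.S_moment_close
import Pool.Agent.Helper524.Mono.S_moment_continuous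
import Pool.Agent.Helper524.Mono.S_wulff_gain
import Pool.Agent.Helper524.Mono.S_wulff_main
import Pool.Agent.Helper524.Mono.S_hausdorff_of_sandwich
import Pool.Agent.Helper524.Mono.S_moment_lt
import Pool.Agent.Helper524.Mono.S_approx_of_spanning

set_option autoImplicit false

open MeasureTheory Set Metric
open scoped InnerProductSpace

namespace Pool.Agent.Helper524.Mono

namespace N_approx_of_raise






























lemma ax_wulff_zero_supp {K : Set E3} (hK : IsCompact K) (hc : Convex ℝ K) (hne : K.Nonempty) (χ : E3 → ℝ) :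
    Wulff (supp K) χ 0 = K := by
  ext x
  constructor
  · intro hx
    refine mem_of_inner_le_supp hK hc hne fun u hu => ?_
    have := hx u hu
    simpa using this
  · intro hx v hv
    have := inner_le_supp hK hx v
    simpa using this

lemma ax_raise_eq (K : Set E3) (χ : E3 → ℝ) (c : ℝ) : Wulff (fun v => max (supp K v) c) χ 0 = Raise K c := by
  ext x
  simp [Wulff, Raise]

lemma ax_K_sub_raise {K : Set E3} (hK : IsCompact K) (c : ℝ) : K ⊆ Raise K c := by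
  intro x hx v _
  exact (inner_le_supp hK hx v).trans (le_max_left _ _)

lemma ax_ball_sub_raise (K : Set E3) (c : ℝ) : closedBall (0 : E3) c ⊆ Raise K c := by
  intro x hx v hv
  have h2 : ⟪v, x⟫_ℝ ≤ ‖v‖ * ‖x‖ := real_inner_le_norm _ _
  rw [hv, one_mul] at h2
  exact (h2.trans (mem_closedBall_zero_iff.1 hx)).trans (le_max_right _ _)

lemma ax_raise_sub_ball {K : Set E3} (hne : K.Nonempty) {R R' c : ℝ} (hR : K ⊆ closedBall 0 R) (hRR : R ≤ R')
    (hc : c ≤ R') (h0 : 0 ≤ R') : Raise K c ⊆ closedBall (0 : E3) R' := by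
  intro x hx
  rw [mem_closedBall_zero_iff]
  by_cases hx0 : x = 0
  · rw [hx0, norm_zero]; exact h0
  have hn : 0 < ‖x‖ := norm_pos_iff.2 hx0
  have hu : ‖(‖x‖⁻¹ • x)‖ = 1 := by
    rw [norm_smul, norm_inv, norm_norm, inv_mul_cancel₀ hn.ne']
  have h1 := hx _ hu
  rw [real_inner_smul_left, real_inner_self_eq_norm_sq, pow_two, ← mul_assoc, inv_mul_cancel₀ hn.ne', one_mul] at h1
  refine h1.trans (max_le ((supp_le_of_subset_ball hne hR hu).trans hRR) hc)

lemma ax_raise_closed (K : Set E3) (c : ℝ) : IsClosed (Raise K c) := by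
  have : Raise K c = ⋂ v : E3, ⋂ _ : ‖v‖ = 1, {x : E3 | ⟪v, x⟫_ℝ ≤ max (supp K v) c} := by
    ext x; simp [Raise]
  rw [this]
  refine isClosed_iInter fun v => isClosed_iInter fun _ => ?_
  exact isClosed_le (by fun_prop) continuous_const

/-- directions of `Bs` -/
def axB (K : Set E3) : Set E3 := {b | ‖b‖ = 1 ∧ ∀ x ∈ XJ K, 0 ≤ ⟪b, x⟫_ℝ}

lemma axB_closed (K : Set E3) : IsClosed (axB K) := by
  have : axB K = {b : E3 | ‖b‖ = 1} ∩ ⋂ x ∈ XJ K, {b : E3 | 0 ≤ ⟪b, x⟫_ℝ} := by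
    ext b; simp [axB]
  rw [this]
  refine (isClosed_eq continuous_norm continuous_const).inter ?_
  refine isClosed_iInter fun x => isClosed_iInter fun _ => ?_
  exact isClosed_le continuous_const (by fun_prop)

lemma ax_unit_closed : IsClosed {b : E3 | ‖b‖ = 1} := isClosed_eq continuous_norm continuous_const

lemma axB_compact (K : Set E3) : IsCompact (axB K) := by
  refine (isCompact_closedBall (0 : E3) 1).of_isClosed_subset (axB_closed K) ?_
  intro b hb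
  rw [mem_closedBall_zero_iff]
  exact hb.1.le

/-- step (i) -/
lemma ax_i {K : Set E3} (hK : IsCompact K) (hc : Convex ℝ K) (h0 : (0 : E3) ∈ interior K) {m mu s : ℝ}
    (hs : s < mu) {b : E3} (hb : b ∈ axB K) (hmu : m + mu ≤ supp K (-b)) :
    ∀ x ∈ Raise K (m + s), x ∉ K → 0 ≤ ⟪b, x⟫_ℝ := by
  intro x hx hxK
  by_contra hneg
  push Not at hneg
  have hnhds : K ∈ nhds (0 : E3) := mem_interior_iff_mem_nhds.1 h0
  have hcl : closure K = K := hK.isClosed.closure_eq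
  have hg : 1 < gauge K x := by
    by_contra h
    push Not at h
    have := (gauge_le_one_iff_mem_closure hc hnhds).1 h
    rw [hcl] at this
    exact hxK this
  set ρ := gauge K x with hρ
  have hρ0 : 0 < ρ := by linarith
  have hg1 : gauge K (ρ⁻¹ • x) = 1 := by
    rw [gauge_smul_of_nonneg (inv_nonneg.2 hρ0.le), smul_eq_mul, ← hρ, inv_mul_cancel₀ hρ0.ne']
  have hx0K : ρ⁻¹ • x ∈ K := by
    have := (gauge_le_one_iff_mem_closure hc hnhds).1 hg1.le
    rwa [hcl] at this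
  have hx0i : ρ⁻¹ • x ∉ interior K := by
    intro h
    have := (gauge_lt_one_iff_mem_interior hc hnhds).2 h
    linarith
  have hneg0 : ⟪b, ρ⁻¹ • x⟫_ℝ < 0 := by
    rw [real_inner_smul_right]
    exact mul_neg_of_pos_of_neg (inv_pos.2 hρ0) hneg
  obtain ⟨u, hu, hu1, hu2⟩ := (lower_half K hK hc h0 b hb.1 hb.2).2.2 _ hx0K hneg0 hx0i
  have h3 := hx u hu
  have h4 : ⟪u, x⟫_ℝ = ρ * supp K u := by
    rw [← hu1, real_inner_smul_right, ← mul_assoc, mul_inv_cancel₀ hρ0.ne', one_mul]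
  rw [h4, hu2] at h3
  have hm0 : 0 < supp K (-b) := by
    have h5 : (0:ℝ) < supp K (-b) := by
      obtain ⟨r, hr, hrs⟩ := Metric.isOpen_iff.1 isOpen_interior 0 h0
      have hball : closedBall (0 : E3) (r / 2) ⊆ K := by
        refine (closedBall_subset_ball (by linarith)).trans (hrs.trans interior_subset)
      have := le_supp_of_ball hK (by linarith : (0:ℝ) ≤ r / 2) hball (u := -b) (by rw [norm_neg]; exact hb.1)
      linarith
    exact h5
  rcases le_max_iff.1 h3 with h | h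
  · nlinarith
  · nlinarith

/-- step (ii) -/
lemma ax_ii {K : Set E3} (hK : IsCompact K) (hc : Convex ℝ K) (h0 : (0 : E3) ∈ interior K) {m mu s : ℝ}
    (hs : s < mu) {b : E3} (hb : b ∈ axB K) (hmu : m + mu ≤ supp K (-b)) :
    ∀ u : E3, ‖u‖ = 1 → supp K u ≤ m + s → 0 < ⟪b, u⟫_ℝ := by
  intro u hu hus
  by_contra h
  push Not at h
  have h1 := (lower_half K hK hc h0 b hb.1 hb.2).1 u hu h
  have h2 := inner_le_supp hK h1 u
  rw [real_inner_smul_right, real_inner_self_eq_norm_sq, hu] at h2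
  linarith

lemma ax_gap {K : Set E3} (hK : IsCompact K) (hne : K.Nonempty) {m : ℝ} (hB : (axB K).Nonempty)
    (h3 : ∀ b ∈ axB K, m < supp K (-b)) : ∃ mu : ℝ, 0 < mu ∧ ∀ b ∈ axB K, m + mu ≤ supp K (-b) := by
  have hcont : Continuous (fun b : E3 => supp K (-b)) := (continuous_supp hK hne).comp continuous_neg
  obtain ⟨b0, hb0, hmin⟩ := (axB_compact K).exists_isMinOn hB hcont.continuousOn
  refine ⟨supp K (-b0) - m, by linarith [h3 b0 hb0], fun b hb => ?_⟩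
  have := hmin hb
  simp only [Set.mem_ofPred_eq] at this
  linarith

lemma ax_c {K : Set E3} (hK : IsCompact K) (hc : Convex ℝ K) (h0 : (0 : E3) ∈ interior K) {m mu s : ℝ}
    (hs : s < mu) (hB : (axB K).Nonempty) (hmu : ∀ b ∈ axB K, m + mu ≤ supp K (-b)) {v0 : E3} (hv0 : ‖v0‖ = 1)
    (hmv : supp K v0 ≤ m + s) :
    ∃ c : ℝ, 0 < c ∧ ∀ b ∈ axB K, ∀ u : E3, ‖u‖ = 1 → supp K u ≤ m + s → c ≤ ⟪b, u⟫_ℝ := by
  have hne : K.Nonempty := ⟨0, interior_subset h0⟩
  have hU : IsCompact {u : E3 | ‖u‖ = 1 ∧ supp K u ≤ m + s} := by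
    refine (isCompact_closedBall (0 : E3) 1).of_isClosed_subset ?_ ?_
    · exact ax_unit_closed.inter (isClosed_le (continuous_supp hK hne) continuous_const)
    · intro b hb
      rw [mem_closedBall_zero_iff]
      exact hb.1.le
  have hcomp := (axB_compact K).prod hU
  obtain ⟨b0, hb0⟩ := hB
  have hcont : Continuous (fun p : E3 × E3 => ⟪p.1, p.2⟫_ℝ) := by fun_prop
  obtain ⟨p, hp, hmin⟩ := hcomp.exists_isMinOn ⟨(b0, v0), hb0, hv0, hmv⟩ hcont.continuousOn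
  refine ⟨⟪p.1, p.2⟫_ℝ, ax_ii hK hc h0 hs hp.1 (hmu _ hp.1) p.2 hp.2.1 hp.2.2, fun b hb u hu hu2 => ?_⟩
  have := hmin (show (b, u) ∈ axB K ×ˢ {u : E3 | ‖u‖ = 1 ∧ supp K u ≤ m + s} from ⟨hb, hu, hu2⟩)
  exact this

lemma ax_vol_pos {K : Set E3} (hK : IsCompact K) {R : ℝ} (hne : K.Nonempty)
    (hR : K ⊆ closedBall 0 R) {m s : ℝ} (hm : 0 < m) (hs : 0 < s) {v0 : E3} (hv0 : ‖v0‖ = 1)
    (hmv : supp K v0 = m) : 0 < volume.real (Raise K (m + s) \ K) := by
  have hsub : ball ((m + s / 2) • v0) (s / 2) ⊆ Raise K (m + s) \ K := by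
    intro x hx
    rw [mem_ball, dist_eq_norm] at hx
    constructor
    · apply ax_ball_sub_raise
      rw [mem_closedBall_zero_iff]
      have h1 : ‖x‖ ≤ ‖x - (m + s / 2) • v0‖ + ‖(m + s / 2) • v0‖ := by
        have := norm_add_le (x - (m + s / 2) • v0) ((m + s / 2) • v0)
        rwa [sub_add_cancel] at this
      have h2 : ‖(m + s / 2) • v0‖ = m + s / 2 := by
        rw [norm_smul, hv0, mul_one, Real.norm_eq_abs, abs_of_pos (by linarith)]
      linarith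
    · intro hxK
      have h1 := inner_le_supp hK hxK v0
      rw [hmv] at h1
      have h2 : ⟪v0, x⟫_ℝ = ⟪v0, x - (m + s / 2) • v0⟫_ℝ + (m + s / 2) := by
        rw [inner_sub_right, real_inner_smul_right, real_inner_self_eq_norm_sq, hv0]; ring
      have h3 : |⟪v0, x - (m + s / 2) • v0⟫_ℝ| ≤ ‖v0‖ * ‖x - (m + s / 2) • v0‖ := abs_real_inner_le_norm _ _
      rw [hv0, one_mul] at h3
      have h4 := (abs_le.1 h3).1
      linarith
  have hfin : volume (Raise K (m + s) \ K) ≠ ⊤ := by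
    have hb : Bornology.IsBounded (Raise K (m + s) \ K) := by
      refine (Metric.isBounded_closedBall (x := (0 : E3)) (r := max (max R (m + s)) 0)).subset ?_
      refine Set.sdiff_subset.trans (ax_raise_sub_ball hne hR ?_ ?_ ?_)
      · exact (le_max_left _ _).trans (le_max_left _ _)
      · exact (le_max_right _ _).trans (le_max_left _ _)
      · exact le_max_right _ _
    exact hb.measure_lt_top.ne
  rw [measureReal_def]
  refine ENNReal.toReal_pos ?_ hfin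
  have h1 : 0 < volume (ball ((m + s / 2) • v0) (s / 2)) := measure_ball_pos _ _ (by linarith)
  exact (h1.trans_le (measure_mono hsub)).ne'

lemma ax_far {K : Set E3} (hK : IsCompact K) (hc : Convex ℝ K) (h0 : (0 : E3) ∈ interior K)
    (hmom : ∫ x in K, x = 0) {m : ℝ} (hm : 0 < m) {v0 : E3} (hv0 : ‖v0‖ = 1) (hmv : supp K v0 = m)
    (hmin : ∀ v : E3, ‖v‖ = 1 → m ≤ supp K v) (hB : (axB K).Nonempty)
    (h3 : ∀ b ∈ axB K, m < supp K (-b)) :
    ∃ s1 ζ : ℝ, 0 < s1 ∧ s1 ≤ 1 ∧ 0 < ζ ∧ ∀ b' : E3, (∃ b ∈ axB K, ‖b' - b‖ < ζ) → ∀ s, 0 < s → s ≤ s1 →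
      0 < ⟪b', ∫ x in Raise K (m + s), x⟫_ℝ := by
  have hne : K.Nonempty := ⟨0, interior_subset h0⟩
  obtain ⟨R0, hR0⟩ := hK.isBounded.subset_closedBall (0 : E3)
  obtain ⟨mu, hmu0, hmu⟩ := ax_gap hK hne hB h3
  set R := max R0 m with hRdef
  have hR : K ⊆ closedBall (0 : E3) R := hR0.trans (closedBall_subset_closedBall (le_max_left _ _))
  have hRm : m ≤ R := le_max_right _ _
  set s1 := min (mu / 2) 1 with hs1
  have hs1pos : 0 < s1 := lt_min (by linarith) one_pos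
  have hs1mu : s1 < mu := (min_le_left _ _).trans_lt (by linarith)
  obtain ⟨c, hc0, hcb⟩ := ax_c hK hc h0 hs1mu hB hmu hv0 (by rw [hmv]; linarith)
  refine ⟨s1, m * c / (32 * (R + 1)), hs1pos, min_le_right _ _, by positivity, ?_⟩
  rintro b' ⟨b, hb, hbb⟩ s hs hss
  set A := Raise K (m + s) \ K with hA
  have hV : 0 < volume.real A := ax_vol_pos hK hne hR hm hs hv0 hmv
  have hmom1 : (m * c / 16) * volume.real A ≤ ⟪b, ∫ x in A, x⟫_ℝ := by
    refine raise_moment K hK hc h0 m s c hm hs hc0.le hmin b hb.1 ?_ ?_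
    · exact ax_i hK hc h0 (lt_of_le_of_lt hss hs1mu) hb (hmu b hb)
    · intro u hu hus
      exact hcb b hb u hu (by linarith)
  have hs1' : s ≤ 1 := hss.trans (min_le_right _ _)
  have hRsub : Raise K (m + s) ⊆ closedBall (0 : E3) (R + 1) :=
    ax_raise_sub_ball hne hR (by linarith) (by linarith) (by linarith)
  have hAfin : volume A < ⊤ :=
    (Metric.isBounded_closedBall.subset (Set.sdiff_subset.trans hRsub)).measure_lt_top
  have hnorm : ‖∫ x in A, x‖ ≤ (R + 1) * volume.real A := by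
    refine norm_setIntegral_le_of_norm_le_const hAfin fun x hx => ?_
    exact mem_closedBall_zero_iff.1 (hRsub hx.1)
  have hInt : ∫ x in Raise K (m + s), x = ∫ x in A, x := by
    have hI : IntegrableOn (fun x : E3 => x) (Raise K (m + s)) volume := by
      refine (continuous_id.continuousOn.integrableOn_compact (isCompact_closedBall (0 : E3) (R + 1))).mono_set hRsub
    have := setIntegral_sdiff (μ := volume) (f := fun x : E3 => x) hK.measurableSet hI (ax_K_sub_raise hK (m + s))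
    rw [hmom, sub_zero] at this
    exact this.symm
  rw [hInt]
  have h5 : ⟪b', ∫ x in A, x⟫_ℝ = ⟪b, ∫ x in A, x⟫_ℝ + ⟪b' - b, ∫ x in A, x⟫_ℝ := by
    rw [inner_sub_left]; ring
  have h6 : |⟪b' - b, ∫ x in A, x⟫_ℝ| ≤ ‖b' - b‖ * ‖∫ x in A, x‖ := abs_real_inner_le_norm _ _
  have h7 : ‖b' - b‖ * ‖∫ x in A, x‖ ≤ (m * c / (32 * (R + 1))) * ((R + 1) * volume.real A) :=
    mul_le_mul hbb.le hnorm (norm_nonneg _) (by positivity)
  have h8 : (m * c / (32 * (R + 1))) * ((R + 1) * volume.real A) = (m * c / 32) * volume.real A := by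
    have : R + 1 ≠ 0 := by linarith
    field_simp
  have h9 := (abs_le.1 h6).1
  have h10 : 0 < (m * c / 32) * volume.real A := by positivity
  rw [h5]
  have h11 : (m * c / 16) * volume.real A = 2 * ((m * c / 32) * volume.real A) := by ring
  linarith

/-- Lemma 2 -/
lemma ax_delta {K : Set E3} (hK : IsCompact K) (hc : Convex ℝ K) (h0 : (0 : E3) ∈ interior K) {ζ : ℝ} (hζ : 0 < ζ) :
    ∃ δ : ℝ, 0 < δ ∧ ∀ b' : E3, ‖b'‖ = 1 →
      (∀ x ∈ K, ∀ n : E3, ‖n‖ = 1 → ⟪n, x⟫_ℝ = supp K n → 0 < chi K δ n → 0 ≤ ⟪b', x⟫_ℝ) →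
      ∃ b ∈ axB K, ‖b' - b‖ < ζ := by
  by_contra hcon
  push Not at hcon
  have hk : ∀ k : ℕ, ∃ b' : E3, ‖b'‖ = 1 ∧
      (∀ x ∈ K, ∀ n : E3, ‖n‖ = 1 → ⟪n, x⟫_ℝ = supp K n → 0 < chi K (1 / ((k : ℝ) + 1)) n → 0 ≤ ⟪b', x⟫_ℝ) ∧
      ∀ b ∈ axB K, ζ ≤ ‖b' - b‖ := by
    intro k
    obtain ⟨b', h1, h2, h3⟩ := hcon (1 / ((k : ℝ) + 1)) (by positivity)
    exact ⟨b', h1, h2, h3⟩
  choose bb hb1 hb2 hb3 using hk
  have hcs : IsCompact {b : E3 | ‖b‖ = 1} := by
    refine (isCompact_closedBall (0 : E3) 1).of_isClosed_subset ax_unit_closed ?_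
    intro b hb
    rw [mem_closedBall_zero_iff]
    exact le_of_eq hb
  obtain ⟨β, hβ, φ, hφ, hlim⟩ := hcs.tendsto_subseq hb1
  have hβB : β ∈ axB K := by
    refine ⟨hβ, ?_⟩
    rintro x ⟨hxK, n, hn, hnx, hnn⟩
    obtain ⟨δ0, hδ0, r, hr, hchi⟩ := (chi_props K hK hc h0).2.2 n hn hnn
    have hev : ∀ᶠ k in Filter.atTop, 0 ≤ ⟪bb (φ k), x⟫_ℝ := by
      have ht : Filter.Tendsto (fun k => 1 / ((φ k : ℝ) + 1)) Filter.atTop (nhds 0) :=
        tendsto_one_div_add_atTop_nhds_zero_nat.comp hφ.tendsto_atTop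
      filter_upwards [ht.eventually (gt_mem_nhds hδ0)] with k hk
      refine hb2 (φ k) x hxK n hn hnx ?_
      exact hchi _ (by positivity) hk.le n hn (by rw [sub_self, norm_zero]; exact hr)
    have hl : Filter.Tendsto (fun k => ⟪bb (φ k), x⟫_ℝ) Filter.atTop (nhds ⟪β, x⟫_ℝ) :=
      Filter.Tendsto.inner hlim tendsto_const_nhds
    exact ge_of_tendsto hl hev
  have hl2 : Filter.Tendsto (fun k => ‖bb (φ k) - β‖) Filter.atTop (nhds 0) := by
    have := (hlim.sub_const β).norm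
    simpa using this
  obtain ⟨k, hk⟩ := (hl2.eventually (gt_mem_nhds hζ)).exists
  exact absurd (hb3 (φ k) β hβB) (not_le.2 hk)

noncomputable def axg (K : Set E3) (c : ℝ) : E3 → ℝ := fun v => max (supp K v) c

lemma axg_bounds {K : Set E3} (hne : K.Nonempty) {R m s : ℝ} (hR : K ⊆ closedBall (0 : E3) R) (hRm : m ≤ R)
    (hs : 0 ≤ s) (hs1 : s ≤ 1) :
    ∀ v : E3, ‖v‖ = 1 → m ≤ axg K (m + s) v ∧ axg K (m + s) v ≤ R + 1 := by
  intro v hv
  refine ⟨?_, ?_⟩
  · exact (by linarith : m ≤ m + s).trans (le_max_right _ _)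
  · have := supp_le_of_subset_ball hne hR hv
    exact max_le (by linarith) (by linarith)

lemma axg_diff (K : Set E3) (m s s' : ℝ) (v : E3) : |axg K (m + s) v - axg K (m + s') v| ≤ |s - s'| := by
  unfold axg
  refine (abs_max_sub_max_le_max _ _ _ _).trans ?_
  rw [sub_self, abs_zero]
  refine max_le (abs_nonneg _) ?_
  rw [add_sub_add_left_eq_sub]

lemma ax_cont_M {K : Set E3} (hne : K.Nonempty) {R m : ℝ} (hm : 0 < m) (hR : K ⊆ closedBall (0 : E3) R) (hRm : m ≤ R)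
    {χ : E3 → ℝ} (hχ : ∀ v, 0 ≤ χ v ∧ χ v ≤ 1) :
    ContinuousOn (fun p : ℝ × E3 => ∫ x in Wulff (axg K (m + p.1)) χ p.2, x)
      {p : ℝ × E3 | 0 ≤ p.1 ∧ p.1 ≤ 1 ∧ ‖p.2‖ ≤ 1 / 2} := by
  refine moment_continuous (fun p : ℝ × E3 => Wulff (axg K (m + p.1)) χ p.2) _ (2 * (R + 1)) (by linarith) ?_ ?_
  · rintro ⟨s, b⟩ ⟨h1, h2, h3⟩
    obtain ⟨a1, a2, a3, a4⟩ := wulff_basic (axg K (m + s)) χ m (R + 1) hm (axg_bounds hne hR hRm h1 h2) hχ b h3
    refine ⟨a1, a2, a3 ?_, a4⟩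
    rw [mem_closedBall_zero_iff, norm_zero]
    linarith
  · rintro ⟨s, b⟩ ⟨h1, h2, h3⟩ t ht0 ht1
    simp only at h1 h2 h3
    have hpos : 0 < (1 - t) * m / (1 + 2 * (R + 1)) := by
      apply div_pos
      · exact mul_pos (by linarith) hm
      · linarith
    refine ⟨(1 - t) * m / (1 + 2 * (R + 1)), hpos, ?_⟩
    rintro ⟨s', b'⟩ ⟨h1', h2', h3'⟩ hdist
    simp only at h1' h2' h3'
    rw [Prod.dist_eq] at hdist
    have hd1 : |s' - s| ≤ (1 - t) * m / (1 + 2 * (R + 1)) := by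
      have := (le_max_left _ _).trans hdist.le
      simpa [Real.dist_eq] using this
    have hd2 : ‖b' - b‖ ≤ (1 - t) * m / (1 + 2 * (R + 1)) := by
      have := (le_max_right _ _).trans hdist.le
      simpa [dist_eq_norm] using this
    have hε : (1 - t) * m / (1 + 2 * (R + 1)) * (1 + 2 * (R + 1)) ≤ (1 - t) * m := by
      rw [div_mul_cancel₀]
      linarith
    constructor
    · refine wulff_sandwich (axg K (m + s)) (axg K (m + s')) χ m (R + 1) _ t hm (axg_bounds hne hR hRm h1 h2)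
        (axg_bounds hne hR hRm h1' h2') hχ b b' h3 ?_ ?_ ht0 ht1 hε
      · intro v _
        refine (axg_diff K m s s' v).trans ?_
        rw [abs_sub_comm]; exact hd1
      · rw [norm_sub_rev]; exact hd2
    · refine wulff_sandwich (axg K (m + s')) (axg K (m + s)) χ m (R + 1) _ t hm (axg_bounds hne hR hRm h1' h2')
        (axg_bounds hne hR hRm h1 h2) hχ b' b h3' ?_ ?_ ht0 ht1 hε
      · intro v _
        exact (axg_diff K m s' s v).trans hd1
      · exact hd2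

lemma ax_wulff_congr {g g' χ : E3 → ℝ} (h : ∀ v : E3, ‖v‖ = 1 → g v = g' v) (b : E3) : Wulff g χ b = Wulff g' χ b := by
  ext x
  constructor
  · intro hx v hv
    rw [← h v hv]; exact hx v hv
  · intro hx v hv
    rw [h v hv]; exact hx v hv

lemma ax_tendsto_aux (F : ℝ × E3 → E3) (S : Set (ℝ × E3)) (u : ℕ → ℝ × E3) (a : ℝ × E3) (hF : ContinuousOn F S)
    (ha : a ∈ S) (hu : Filter.Tendsto u Filter.atTop (nhdsWithin a S)) :
    Filter.Tendsto (fun k => F (u k)) Filter.atTop (nhds (F a)) :=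
  Filter.Tendsto.comp (hF a ha) hu

lemma ax_claim {K : Set E3} (hK : IsCompact K) (hc : Convex ℝ K) (h0 : (0 : E3) ∈ interior K)
    (hmom : ∫ x in K, x = 0) {R m : ℝ} (hm : 0 < m) (hR : K ⊆ closedBall (0 : E3) R) (hRm : m ≤ R)
    (hmin : ∀ v : E3, ‖v‖ = 1 → m ≤ supp K v) {s1 ζ δ τ0 : ℝ}
    (hs1' : s1 ≤ 1) (hτ : 0 < τ0) (hτ2 : τ0 ≤ 1 / 2)
    (hfar : ∀ b' : E3, (∃ b ∈ axB K, ‖b' - b‖ < ζ) → ∀ s, 0 < s → s ≤ s1 → 0 < ⟪b', ∫ x in Raise K (m + s), x⟫_ℝ)
    (hδ : ∀ b' : E3, ‖b'‖ = 1 →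
      (∀ x ∈ K, ∀ n : E3, ‖n‖ = 1 → ⟪n, x⟫_ℝ = supp K n → 0 < chi K δ n → 0 ≤ ⟪b', x⟫_ℝ) →
      ∃ b ∈ axB K, ‖b' - b‖ < ζ) (s2 : ℝ) (hs2 : 0 < s2) (hs21 : s2 ≤ s1) :
    ∃ s : ℝ, 0 < s ∧ s ≤ s2 ∧ ∀ b : E3, ‖b‖ = τ0 → 0 < ⟪b, ∫ x in Wulff (axg K (m + s)) (chi K δ) b, x⟫_ℝ := by
  have hne : K.Nonempty := ⟨0, interior_subset h0⟩
  have hχ : ∀ v, 0 ≤ chi K δ v ∧ chi K δ v ≤ 1 := ((chi_props K hK hc h0).1 δ).2
  by_contra hcon
  push Not at hcon
  have hk : ∀ k : ℕ, ∃ b : E3, ‖b‖ = τ0 ∧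
      ⟪b, ∫ x in Wulff (axg K (m + s2 / ((k : ℝ) + 1))) (chi K δ) b, x⟫_ℝ ≤ 0 := by
    intro k
    refine hcon (s2 / ((k : ℝ) + 1)) (by positivity) ?_
    exact div_le_self hs2.le (by linarith [(Nat.cast_nonneg k : (0:ℝ) ≤ k)])
  choose bb hb1 hb2 using hk
  have hcs : IsCompact {b : E3 | ‖b‖ = τ0} := by
    refine (isCompact_closedBall (0 : E3) τ0).of_isClosed_subset (isClosed_eq continuous_norm continuous_const) ?_
    intro b hb
    rw [mem_closedBall_zero_iff]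
    exact le_of_eq hb
  obtain ⟨β, hβ, φ, hφ, hlim⟩ := hcs.tendsto_subseq hb1
  have hβ' : ‖β‖ = τ0 := hβ
  have hsk : Filter.Tendsto (fun k => s2 / ((φ k : ℝ) + 1)) Filter.atTop (nhds 0) := by
    have h1 : Filter.Tendsto (fun k => 1 / ((φ k : ℝ) + 1)) Filter.atTop (nhds 0) :=
      tendsto_one_div_add_atTop_nhds_zero_nat.comp hφ.tendsto_atTop
    have h2 := h1.const_mul s2
    rw [mul_zero] at h2
    refine h2.congr fun k => ?_
    rw [mul_one_div]
  have hcM := ax_cont_M (χ := chi K δ) hne hm hR hRm hχ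
  have hmem : ∀ k, ((s2 / ((φ k : ℝ) + 1), bb (φ k)) : ℝ × E3) ∈ {p : ℝ × E3 | 0 ≤ p.1 ∧ p.1 ≤ 1 ∧ ‖p.2‖ ≤ 1 / 2} := by
    intro k
    refine ⟨?_, ?_, ?_⟩
    · show 0 ≤ s2 / ((φ k : ℝ) + 1)
      positivity
    · show s2 / ((φ k : ℝ) + 1) ≤ 1
      refine (div_le_self hs2.le (by linarith [(Nat.cast_nonneg (φ k) : (0:ℝ) ≤ φ k)])).trans (hs21.trans hs1')
    · show ‖bb (φ k)‖ ≤ 1 / 2
      rw [hb1]; exact hτ2
  have hmem0 : ((0, β) : ℝ × E3) ∈ {p : ℝ × E3 | 0 ≤ p.1 ∧ p.1 ≤ 1 ∧ ‖p.2‖ ≤ 1 / 2} :=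
    ⟨le_rfl, zero_le_one, by show ‖β‖ ≤ 1 / 2; rw [hβ']; exact hτ2⟩
  have hlimM : Filter.Tendsto (fun k => ∫ x in Wulff (axg K (m + s2 / ((φ k : ℝ) + 1))) (chi K δ) (bb (φ k)), x)
      Filter.atTop (nhds (∫ x in Wulff (axg K (m + 0)) (chi K δ) β, x)) := by
    have h1 : Filter.Tendsto (fun k => ((s2 / ((φ k : ℝ) + 1), bb (φ k)) : ℝ × E3)) Filter.atTop
        (nhdsWithin (0, β) {p : ℝ × E3 | 0 ≤ p.1 ∧ p.1 ≤ 1 ∧ ‖p.2‖ ≤ 1 / 2}) := by
      refine tendsto_nhdsWithin_iff.2 ⟨?_, Filter.Eventually.of_forall hmem⟩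
      exact hsk.prodMk_nhds hlim
    have h2 := ax_tendsto_aux _ _ _ _ hcM hmem0 h1
    exact h2
  have hle : ⟪β, ∫ x in Wulff (axg K (m + 0)) (chi K δ) β, x⟫_ℝ ≤ 0 := by
    refine le_of_tendsto (Filter.Tendsto.inner hlim hlimM) (Filter.Eventually.of_forall fun k => ?_)
    exact hb2 (φ k)
  have hg0 : Wulff (axg K (m + 0)) (chi K δ) β = Wulff (supp K) (chi K δ) β := by
    refine ax_wulff_congr (fun v hv => ?_) β
    show max (supp K v) (m + 0) = supp K v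
    rw [add_zero]
    exact max_eq_left (hmin v hv)
  rw [hg0] at hle
  have hW0 : Wulff (supp K) (chi K δ) 0 = K := ax_wulff_zero_supp hK hc hne _
  have hsb : ∀ v : E3, ‖v‖ = 1 → m ≤ supp K v ∧ supp K v ≤ R := fun v hv =>
    ⟨hmin v hv, supp_le_of_subset_ball hne hR hv⟩
  have hgain := wulff_gain (supp K) (chi K δ) m R hm hsb hχ β (by rw [hβ']; exact hτ2)
  have hWβ : Wulff (supp K) (chi K δ) β = K := by
    by_contra hneq
    have h1 := hgain.2 (by rw [hW0]; exact fun h => hneq h.symm)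
    rw [hW0, hmom, inner_zero_right] at h1
    linarith
  have hdir : ∀ x ∈ K, ∀ n : E3, ‖n‖ = 1 → ⟪n, x⟫_ℝ = supp K n → 0 < chi K δ n → 0 ≤ ⟪τ0⁻¹ • β, x⟫_ℝ := by
    intro x hx n hn hnx hchi
    have hx' : x ∈ Wulff (supp K) (chi K δ) β := by rw [hWβ]; exact hx
    have h1 := hx' n hn
    rw [inner_sub_left, real_inner_smul_left, hnx] at h1
    have h2 : 0 ≤ chi K δ n * ⟪β, x⟫_ℝ := by linarith
    have h3 : 0 ≤ ⟪β, x⟫_ℝ := nonneg_of_mul_nonneg_right h2 hchi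
    rw [real_inner_smul_left]
    exact mul_nonneg (inv_nonneg.2 hτ.le) h3
  have hun : ‖τ0⁻¹ • β‖ = 1 := by
    rw [norm_smul, hβ', Real.norm_eq_abs, abs_of_pos (inv_pos.2 hτ), inv_mul_cancel₀ hτ.ne']
  obtain ⟨b0, hb0, hb0d⟩ := hδ _ hun hdir
  have hev : ∀ᶠ k in Filter.atTop, ‖τ0⁻¹ • bb (φ k) - b0‖ < ζ := by
    have h1 : Filter.Tendsto (fun k => ‖τ0⁻¹ • bb (φ k) - b0‖) Filter.atTop (nhds ‖τ0⁻¹ • β - b0‖) :=
      ((hlim.const_smul τ0⁻¹).sub_const b0).norm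
    exact h1.eventually (gt_mem_nhds hb0d)
  obtain ⟨k, hk⟩ := hev.exists
  have hskpos : 0 < s2 / ((φ k : ℝ) + 1) := by positivity
  have hskle : s2 / ((φ k : ℝ) + 1) ≤ s1 :=
    (div_le_self hs2.le (by linarith [(Nat.cast_nonneg (φ k) : (0:ℝ) ≤ φ k)])).trans hs21
  have h1 := hfar _ ⟨b0, hb0, hk⟩ _ hskpos hskle
  rw [real_inner_smul_left] at h1
  have h2 : 0 < ⟪bb (φ k), ∫ x in Raise K (m + s2 / ((φ k : ℝ) + 1)), x⟫_ℝ := by
    exact pos_of_mul_pos_right h1 (inv_nonneg.2 hτ.le)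
  have h3 := (wulff_gain (axg K (m + s2 / ((φ k : ℝ) + 1))) (chi K δ) m (R + 1) hm
    (axg_bounds hne hR hRm hskpos.le (hskle.trans hs1')) hχ (bb (φ k)) (by rw [hb1]; exact hτ2)).1
  have h4 : Wulff (axg K (m + s2 / ((φ k : ℝ) + 1))) (chi K δ) 0 = Raise K (m + s2 / ((φ k : ℝ) + 1)) :=
    ax_raise_eq K _ _
  rw [h4] at h3
  linarith [hb2 (φ k)]

/-- TARGET -/
theorem approx_of_raise (K : Set E3) (hK : CB K) (hSB : SB (supp K)) (v0 : E3)
    (hv0 : ‖v0‖ = 1) (hmin : ∀ v : E3, ‖v‖ = 1 → supp K v0 ≤ supp K v)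
    (h3 : ∀ b : E3, ‖b‖ = 1 → (∀ x ∈ XJ K, 0 ≤ ⟪b, x⟫_ℝ) → supp K v0 < supp K (-b)) :
    Approximable K := by
  obtain ⟨hKc, hc, h0, hmom⟩ := hK
  have hne : K.Nonempty := ⟨0, interior_subset h0⟩
  by_cases hB : (axB K).Nonempty
  swap
  · refine approx_of_spanning K ⟨hKc, hc, h0, hmom⟩ hSB fun b hb => ?_
    by_contra hcon
    push Not at hcon
    apply hB
    have hn : 0 < ‖b‖ := norm_pos_iff.2 hb
    refine ⟨‖b‖⁻¹ • b, ?_, ?_⟩
    · rw [norm_smul, norm_inv, norm_norm, inv_mul_cancel₀ hn.ne']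
    · intro x hx
      rw [real_inner_smul_left]
      exact mul_nonneg (inv_nonneg.2 hn.le) (hcon x hx)
  set m := supp K v0 with hm_def
  have hm : 0 < m := by
    obtain ⟨r, hr, hrs⟩ := Metric.isOpen_iff.1 isOpen_interior 0 h0
    have hball : closedBall (0 : E3) (r / 2) ⊆ K :=
      (closedBall_subset_ball (by linarith)).trans (hrs.trans interior_subset)
    have := le_supp_of_ball hKc (by linarith : (0:ℝ) ≤ r / 2) hball hv0
    linarith
  obtain ⟨R0, hR0⟩ := hKc.isBounded.subset_closedBall (0 : E3)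
  set R := max R0 m with hRdef
  have hR : K ⊆ closedBall (0 : E3) R := hR0.trans (closedBall_subset_closedBall (le_max_left _ _))
  have hRm : m ≤ R := le_max_right _ _
  obtain ⟨s1, ζ, hs1, hs1', hζ, hfar⟩ := ax_far hKc hc h0 hmom hm hv0 hm_def.symm hmin hB (fun b hb => h3 b hb.1 hb.2)
  obtain ⟨δ, hδ, hδP⟩ := ax_delta hKc hc h0 hζ
  obtain ⟨hχc, hχ⟩ := (chi_props K hKc hc h0).1 δ
  have hχD := (chi_props K hKc hc h0).2.1 δ
  intro ε hε
  set η := min (1 / 2) (ε / (16 * (R + 1))) with hη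
  have hηpos : 0 < η := lt_min (by norm_num) (by positivity)
  have hη1 : η ≤ 1 / 2 := min_le_left _ _
  have hη2 : η ≤ ε / (16 * (R + 1)) := min_le_right _ _
  have hden : 0 < 1 + 2 * (R + 1) := by linarith
  set κ := η * m / (1 + 2 * (R + 1)) with hκ
  have hκpos : 0 < κ := by positivity
  set τ0 := min (1 / 2) (min (δ / (48 * (R + 2))) κ) with hτ0
  have hτpos : 0 < τ0 := lt_min (by norm_num) (lt_min (by positivity) hκpos)
  have hτ1 : τ0 ≤ 1 / 2 := min_le_left _ _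
  have hτ2 : τ0 ≤ δ / (48 * (R + 2)) := (min_le_right _ _).trans (min_le_left _ _)
  have hτ3 : τ0 ≤ κ := (min_le_right _ _).trans (min_le_right _ _)
  obtain ⟨s, hs, hss, hcl⟩ := ax_claim hKc hc h0 hmom hm hR hRm hmin hs1' hτpos hτ1 hfar hδP (min s1 (min (δ / 2) κ))
    (lt_min hs1 (lt_min (by linarith) hκpos)) (min_le_left _ _)
  have hss1 : s ≤ s1 := hss.trans (min_le_left _ _)
  have hs1'' : s ≤ 1 := hss1.trans hs1'
  have hsδ : s ≤ δ / 2 := hss.trans ((min_le_right _ _).trans (min_le_left _ _))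
  have hsκ : s ≤ κ := hss.trans ((min_le_right _ _).trans (min_le_right _ _))
  have hgb := axg_bounds hne hR hRm hs.le hs1''
  have hgc : Continuous (axg K (m + s)) := (continuous_supp hKc hne).max continuous_const
  have hSBg : SB (axg K (m + s)) := by
    intro r
    by_cases hr : r ≤ m + s
    · have : {u : E3 | ‖u‖ = 1 ∧ axg K (m + s) u < r} = ∅ := by
        ext u
        simp only [Set.mem_ofPred_eq, Set.mem_empty_iff_false, iff_false, not_and, not_lt]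
        intro _
        exact hr.trans (le_max_right _ _)
      rw [this]
      exact isPreconnected_empty
    · have : {u : E3 | ‖u‖ = 1 ∧ axg K (m + s) u < r} = {u : E3 | ‖u‖ = 1 ∧ supp K u < r} := by
        ext u
        simp only [Set.mem_ofPred_eq, axg, max_lt_iff]
        constructor
        · rintro ⟨a, b, _⟩; exact ⟨a, b⟩
        · rintro ⟨a, b⟩; exact ⟨a, b, not_le.1 hr⟩
      rw [this]
      exact hSB r
  have hgD : ∀ v : E3, ‖v‖ = 1 → chi K δ v ≠ 0 → ∃ w : E3, ‖w‖ = 1 ∧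
      axg K (m + s) w + δ / 2 ≤ axg K (m + s) v * ⟪v, w⟫_ℝ := by
    intro v hv hcv
    obtain ⟨w, hw, hw2⟩ := hχD v hv hcv
    refine ⟨w, hw, ?_⟩
    have h1 : m ≤ supp K w := hmin w hw
    have h2 : m ≤ supp K v := hmin v hv
    have h4 : 0 < supp K v * ⟪v, w⟫_ℝ := by linarith
    have h5 : 0 < ⟪v, w⟫_ℝ := by
      by_contra h
      push Not at h
      have : supp K v * ⟪v, w⟫_ℝ ≤ 0 := mul_nonpos_of_nonneg_of_nonpos (by linarith) h
      linarith
    have h6 : axg K (m + s) w ≤ supp K w + s := max_le (by linarith) (by linarith)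
    have h7 : supp K v * ⟪v, w⟫_ℝ ≤ axg K (m + s) v * ⟪v, w⟫_ℝ :=
      mul_le_mul_of_nonneg_right (le_max_left _ _) h5.le
    linarith
  set t := 1 - η with ht
  have ht0 : 0 < t := by linarith
  have ht1 : t < 1 := by linarith
  have hthalf : 1 / 2 ≤ t := by linarith
  have hτδ : τ0 * (24 * ((R + 1) + 1)) ≤ δ / 2 := by
    have h1 : τ0 * (24 * ((R + 1) + 1)) ≤ δ / (48 * (R + 2)) * (24 * ((R + 1) + 1)) :=
      mul_le_mul_of_nonneg_right hτ2 (by linarith)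
    have h2 : δ / (48 * (R + 2)) * (24 * ((R + 1) + 1)) = δ / 2 := by
      have : R + 2 ≠ 0 := by linarith
      have h3 : (R + 1) + 1 = R + 2 := by ring
      rw [h3]
      field_simp
      norm_num
    linarith
  obtain ⟨b, P, hb, hP, hWP, hPW⟩ := wulff_main (axg K (m + s)) (chi K δ) hgc hχc m (R + 1) (δ / 2) τ0 hm hgb hSBg
    (by linarith) hgD hχ hτpos hτ1 hτδ hcl t ht0 ht1
  have hb2 : ‖b‖ ≤ 1 / 2 := hb.trans hτ1
  refine ⟨P, hP, ?_⟩
  have hW0 : Wulff (supp K) (chi K δ) 0 = K := ax_wulff_zero_supp hKc hc hne _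
  have hsb : ∀ v : E3, ‖v‖ = 1 → m ≤ supp K v ∧ supp K v ≤ R + 1 := fun v hv =>
    ⟨hmin v hv, by linarith [supp_le_of_subset_ball hne hR hv]⟩
  have hdiff : ∀ v : E3, ‖v‖ = 1 → |supp K v - axg K (m + s) v| ≤ κ := by
    intro v hv
    have h1 : supp K v ≤ axg K (m + s) v := le_max_left _ _
    have h2 : axg K (m + s) v ≤ supp K v + s := max_le (by linarith) (by linarith [hmin v hv])
    rw [abs_le]
    constructor <;> linarith
  have hκt : κ * (1 + 2 * (R + 1)) ≤ (1 - t) * m := by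
    rw [hκ, div_mul_cancel₀ _ hden.ne', ht]
    linarith
  have hA1 : ∀ x ∈ K, t • x ∈ Wulff (axg K (m + s)) (chi K δ) b := by
    have := wulff_sandwich (supp K) (axg K (m + s)) (chi K δ) m (R + 1) κ t hm hsb hgb hχ 0 b
      (by rw [norm_zero]; norm_num) hdiff (by rw [zero_sub, norm_neg]; exact hb.trans hτ3) ht0 ht1 hκt
    rw [hW0] at this
    exact this
  have hA2 : ∀ x ∈ Wulff (axg K (m + s)) (chi K δ) b, t • x ∈ K := by
    have := wulff_sandwich (axg K (m + s)) (supp K) (chi K δ) m (R + 1) κ t hm hgb hsb hχ b 0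
      hb2 (fun v hv => by rw [abs_sub_comm]; exact hdiff v hv) (by rw [sub_zero]; exact hb.trans hτ3) ht0 ht1 hκt
    rw [hW0] at this
    exact this
  have hWball := (wulff_basic (axg K (m + s)) (chi K δ) m (R + 1) hm hgb hχ b hb2).2.2.2
  have hPball : P ⊆ closedBall (0 : E3) (4 * (R + 1)) := by
    intro x hx
    have h1 := mem_closedBall_zero_iff.1 (hWball (hPW x hx))
    rw [norm_smul, Real.norm_eq_abs, abs_of_pos ht0] at h1
    rw [mem_closedBall_zero_iff]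
    have h2 : 1 / 2 * ‖x‖ ≤ t * ‖x‖ := mul_le_mul_of_nonneg_right hthalf (norm_nonneg _)
    linarith
  have hKball : K ⊆ closedBall (0 : E3) (4 * (R + 1)) :=
    hR.trans (closedBall_subset_closedBall (by linarith))
  have htt : t * t < 1 := by nlinarith
  have hHd := hausdorff_of_sandwich K P (4 * (R + 1)) (t * t) (by linarith) (by positivity) htt hKball hPball
    (fun x hx => by rw [mul_smul]; exact hWP _ (hA1 x hx))
    (fun x hx => by rw [mul_smul]; exact hA2 _ (hPW x hx))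
  refine hHd.trans_lt ?_
  have h1 : (1 - t * t) ≤ 2 * η := by
    rw [ht]; nlinarith
  have h2 : (1 - t * t) * (4 * (R + 1)) ≤ 2 * η * (4 * (R + 1)) := mul_le_mul_of_nonneg_right h1 (by linarith)
  have h3 : η * (16 * (R + 1)) ≤ ε := by
    have h4 : 0 < 16 * (R + 1) := by linarith
    rw [le_div_iff₀ h4] at hη2
    exact hη2
  have h5 : 2 * η * (4 * (R + 1)) = (η * (16 * (R + 1))) / 2 := by ring
  linarith



end N_approx_of_raise

alias approx_of_raise := N_approx_of_raise.approx_of_raise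

end Pool.Agent.Helper524.Mono
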