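import Pool.Agent.Helper524.Mono.Gen

set_option autoImplicit false

open MeasureTheory Set Metric
open scoped InnerProductSpace

namespace Pool.Agent.Helper524.Mono

namespace N_monostable_translate


theorem monostable_translate_com {P : Set E3} (hPc : IsCompact P) (hPi : (interior P).Nonempty)
    (c : E3) : com ((fun x => x + c) '' P) = com P + c := by
  have hpos : 0 < volume.real P := by
    have h1 : 0 < volume P :=
      lt_of_lt_of_le (isOpen_interior.measure_pos volume hPi) (measure_mono interior_subset)
    exact ENNReal.toReal_pos h1.ne' hPc.measure_lt_top.ne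
  have hmp := measurePreserving_add_right (volume : Measure E3) c
  have hme : MeasurableEmbedding (fun x : E3 => x + c) := measurableEmbedding_addRight c
  have h2 : volume.real ((fun x => x + c) '' P) = volume.real P := by
    rw [Set.image_add_right, Measure.real, measure_preimage_add_right]; rfl
  have h3 : ∫ x in (fun x => x + c) '' P, x = ∫ x in P, (x + c) :=
    hmp.setIntegral_image_emb hme (fun x => x) P
  unfold com
  rw [h2, h3, integral_add, setIntegral_const, smul_add, smul_smul, inv_mul_cancel₀ hpos.ne',
    one_smul]
  · exact (continuous_id.continuousOn).integrableOn_compact hPc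
  · exact (continuous_const.continuousOn).integrableOn_compact hPc

theorem monostable_translate_face (P : Set E3) (u c : E3) :
    face ((fun x => x + c) '' P) u = (fun x => x + c) '' face P u := by
  ext x
  constructor
  · rintro ⟨⟨p, hp, rfl⟩, h⟩
    refine ⟨p, ⟨hp, fun y hy => ?_⟩, rfl⟩
    have := h _ ⟨y, hy, rfl⟩
    beta_reduce at this
    rw [inner_add_right, inner_add_right] at this
    linarith
  · rintro ⟨p, ⟨hp, h⟩, rfl⟩
    refine ⟨⟨p, hp, rfl⟩, ?_⟩
    rintro _ ⟨y, hy, rfl⟩
    have := h y hy
    beta_reduce
    rw [inner_add_right, inner_add_right]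
    linarith

theorem monostable_translate_poly {P : Set E3} (hP : IsPolyhedron P) (c : E3) :
    IsPolyhedron ((fun x => x + c) '' P) := by
  classical
  obtain ⟨h1, h2, T, hT⟩ := hP
  refine ⟨h1.image (by fun_prop), ?_, T.image (fun p => (p.1, p.2 + ⟪p.1, c⟫_ℝ)), ?_⟩
  · have h := (Homeomorph.addRight c).image_interior P
    have he : ((Homeomorph.addRight c : E3 ≃ₜ E3) : E3 → E3) = fun x => x + c := rfl
    rw [he] at h
    rw [← h]
    exact h2.image _
  · rw [hT]
    ext x
    constructor
    · rintro ⟨y, hy, rfl⟩ p hp
      obtain ⟨q, hq, rfl⟩ := Finset.mem_image.1 hp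
      have := hy q hq
      beta_reduce
      rw [inner_add_right]
      simpa using this
    · intro hx
      refine ⟨x - c, fun q hq => ?_, sub_add_cancel _ _⟩
      have := hx _ (Finset.mem_image.2 ⟨q, hq, rfl⟩)
      beta_reduce at this
      rw [inner_sub_right]
      linarith

open scoped Pointwise in
theorem monostable_translate_stable {P F : Set E3} (hPc : IsCompact P)
    (hPi : (interior P).Nonempty) (c : E3) (h : IsStable P F) :
    IsStable ((fun x => x + c) '' P) ((fun x => x + c) '' F) := by
  obtain ⟨⟨u, hu, hF, hr⟩, p, hp, hx⟩ := h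
  have hv : vectorSpan ℝ ((fun x => x + c) '' F) = vectorSpan ℝ F := by
    have h1 : (fun x => x + c) '' F = c +ᵥ F := by
      ext x
      simp only [Set.mem_image, Set.mem_vadd_set, vadd_eq_add, add_comm]
    rw [h1, vectorSpan_vadd]
  have hi : intrinsicInterior ℝ ((fun x => x + c) '' F) =
      (fun x => x + c) '' intrinsicInterior ℝ F := by
    have h1 := AffineIsometry.intrinsicInterior_image
      (AffineIsometryEquiv.constVAdd ℝ E3 c).toAffineIsometry F
    have h2 : ((AffineIsometryEquiv.constVAdd ℝ E3 c).toAffineIsometry : E3 → E3) =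
        fun x => x + c := by
      funext x
      show c +ᵥ x = x + c
      rw [vadd_eq_add, add_comm]
    rw [h2] at h1
    exact h1
  refine ⟨⟨u, hu, ?_, ?_⟩, p + c, ?_, ?_⟩
  · rw [monostable_translate_face, hF]
  · rw [hv]; exact hr
  · rw [hi]; exact ⟨p, hp, rfl⟩
  · rintro _ ⟨x, hxF, rfl⟩
    rw [monostable_translate_com hPc hPi]
    have := hx x hxF
    beta_reduce
    rw [add_sub_add_right_eq_sub, add_sub_add_right_eq_sub]
    exact this

/-- TARGET -/
theorem monostable_translate (P : Set E3) (hP : IsMonostable P) (c : E3) :
    IsMonostable ((fun x => x + c) '' P) := by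
  obtain ⟨hPoly, F, hF, huniq⟩ := hP
  have hPoly' := monostable_translate_poly hPoly c
  refine ⟨hPoly', (fun x => x + c) '' F,
    monostable_translate_stable hPoly.1 hPoly.2.1 c hF, fun F' hF' => ?_⟩
  have h1 := monostable_translate_stable hPoly'.1 hPoly'.2.1 (-c) hF'
  have h2 : (fun x : E3 => x + -c) '' ((fun x => x + c) '' P) = P := by
    rw [Set.image_image]; simp
  rw [h2] at h1
  have h3 := huniq _ h1
  rw [← h3, Set.image_image]
  simp


end N_monostable_translate

alias monostable_translate := N_monostable_translate.monostable_translate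

end Pool.Agent.Helper524.Mono
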