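import Pool.Agent.Helper524.Mono.Gen
import Pool.Agent.Helper524.Mono.S_monostable_translate

set_option autoImplicit false

open MeasureTheory Set Metric
open scoped InnerProductSpace

namespace Pool.Agent.Helper524.Mono

namespace N_approx_translate




/-- TARGET -/
theorem approx_translate (K : Set E3) (c : E3) (hK : IsBody K)
    (h : Approximable ((fun x => x + c) '' K)) : Approximable K := by
  intro ε hε
  obtain ⟨P, hP, hd⟩ := h ε hε
  refine ⟨(fun x => x + (-c)) '' P, monostable_translate P hP (-c), ?_⟩
  have hiso : Isometry (fun x : E3 => x + c) := isometry_add_right c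
  have e : (fun x : E3 => x + c) '' ((fun x => x + (-c)) '' P) = P := by
    rw [Set.image_image]
    simp
  have h2 := Metric.hausdorffDist_image (s := K) (t := (fun x => x + (-c)) '' P) hiso
  rw [e] at h2
  rw [← h2]
  exact hd


end N_approx_translate

alias approx_translate := N_approx_translate.approx_translate

end Pool.Agent.Helper524.Mono
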