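import Pool.Agent.Helper524.Mono.Gen

set_option autoImplicit false

open MeasureTheory Set Metric
open scoped InnerProductSpace

namespace Pool.Agent.Helper524.Mono

namespace N_bump_basic


/-- TARGET -/
theorem bump_basic (K : Set E3) (hK : IsCompact K) (hc : Convex ℝ K) (hne : K.Nonempty) (b : E3)
    (hb : ‖b‖ = 1) (m s : ℝ) (hm : 0 < m) (hs : 0 < s)
    (hmin : ∀ v : E3, ‖v‖ = 1 → m ≤ supp K v) :
    IsCompact (Bump K b (m + s)) ∧ Convex ℝ (Bump K b (m + s)) ∧ K ⊆ Bump K b (m + s) ∧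
      (m + s) • b ∈ Bump K b (m + s) ∧ (-(m + s)) • b ∈ Bump K b (m + s) ∧
      (∀ v : E3, ‖v‖ = 1 → supp (Bump K b (m + s)) v = max (supp K v) ((m + s) * |⟪b, v⟫_ℝ|)) ∧
      (∀ x ∈ Bump K b (m + s), (m / (m + s)) • x ∈ K) := by
  have hc0 : 0 < m + s := by linarith
  have hKB : K ⊆ Bump K b (m + s) := by
    intro x hx v hv
    exact (inner_le_supp hK hx v).trans (le_max_left _ _)
  have hp : (m + s) • b ∈ Bump K b (m + s) := by
    intro v hv
    rw [real_inner_smul_right, real_inner_comm]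
    exact (mul_le_mul_of_nonneg_left (le_abs_self _) hc0.le).trans (le_max_right _ _)
  have hq : (-(m + s)) • b ∈ Bump K b (m + s) := by
    intro v hv
    rw [real_inner_smul_right, real_inner_comm]
    have h1 : -(m + s) * ⟪b, v⟫_ℝ ≤ (m + s) * |⟪b, v⟫_ℝ| := by
      have := neg_abs_le (⟪b, v⟫_ℝ)
      nlinarith
    exact h1.trans (le_max_right _ _)
  have hconv : Convex ℝ (Bump K b (m + s)) := by
    intro x hx y hy a c ha hc' hac v hv
    rw [inner_add_right, real_inner_smul_right, real_inner_smul_right]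
    have h1 := hx v hv
    have h2 := hy v hv
    calc a * ⟪v, x⟫_ℝ + c * ⟪v, y⟫_ℝ ≤ a * max (supp K v) ((m + s) * |⟪b, v⟫_ℝ|) + c * max (supp K v) ((m + s) * |⟪b, v⟫_ℝ|) :=
          add_le_add (mul_le_mul_of_nonneg_left h1 ha) (mul_le_mul_of_nonneg_left h2 hc')
      _ = _ := by rw [← add_mul, hac, one_mul]
  have hscale : ∀ x ∈ Bump K b (m + s), (m / (m + s)) • x ∈ K := by
    intro x hx
    refine mem_of_inner_le_supp hK hc hne (fun v hv => ?_)
    rw [real_inner_smul_right, real_inner_comm]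
    have h1 := hx v hv
    have h2 := hmin v hv
    have h3 : |⟪b, v⟫_ℝ| ≤ 1 := by
      have := abs_real_inner_le_norm b v
      rw [hb, hv, one_mul] at this
      exact this
    have h4 : m / (m + s) * max (supp K v) ((m + s) * |⟪b, v⟫_ℝ|) ≤ supp K v := by
      rw [div_mul_eq_mul_div, div_le_iff₀ hc0]
      rcases max_cases (supp K v) ((m + s) * |⟪b, v⟫_ℝ|) with ⟨h, -⟩ | ⟨h, -⟩
      · rw [h]; nlinarith
      · rw [h]
        have h5 : m * |⟪b, v⟫_ℝ| ≤ supp K v := by
          have := abs_nonneg (⟪b, v⟫_ℝ)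
          nlinarith
        nlinarith
    rw [real_inner_comm] at h1
    exact (mul_le_mul_of_nonneg_left h1 (by positivity)).trans h4
  have hclosed : IsClosed (Bump K b (m + s)) := by
    have : Bump K b (m + s) = ⋂ v : E3, ⋂ (_ : ‖v‖ = 1), {x : E3 | ⟪v, x⟫_ℝ ≤ max (supp K v) ((m + s) * |⟪b, v⟫_ℝ|)} := by
      ext x
      simp only [Bump, Set.mem_iInter]
      rfl
    rw [this]
    refine isClosed_iInter (fun v => isClosed_iInter (fun _ => ?_))
    exact isClosed_le (by fun_prop) continuous_const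
  have hcomp : IsCompact (Bump K b (m + s)) := by
    refine Metric.isCompact_of_isClosed_isBounded hclosed ?_
    obtain ⟨R, hR⟩ := hK.isBounded.subset_closedBall (0 : E3)
    refine (Metric.isBounded_closedBall (x := (0 : E3)) (r := R * ((m + s) / m))).subset ?_
    intro x hx
    have h1 := hR (hscale x hx)
    rw [mem_closedBall_zero_iff] at h1 ⊢
    rw [norm_smul, Real.norm_eq_abs, abs_of_pos (by positivity)] at h1
    have h2 : ‖x‖ = (m / (m + s) * ‖x‖) * ((m + s) / m) := by
      field_simp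
    rw [h2]
    exact mul_le_mul_of_nonneg_right h1 (by positivity)
  refine ⟨hcomp, hconv, hKB, hp, hq, ?_, hscale⟩
  intro v hv
  refine le_antisymm (supp_le ⟨_, hp⟩ (fun x hx => hx v hv)) (max_le ?_ ?_)
  · exact supp_le hne (fun x hx => inner_le_supp hcomp (hKB hx) v)
  · have h1 := inner_le_supp hcomp hp v
    have h2 := inner_le_supp hcomp hq v
    rw [real_inner_smul_right, real_inner_comm] at h1 h2
    rcases abs_cases (⟪b, v⟫_ℝ) with ⟨h, -⟩ | ⟨h, -⟩
    · rw [h]; exact h1
    · rw [h]; linarith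

end N_bump_basic

alias bump_basic := N_bump_basic.bump_basic

end Pool.Agent.Helper524.Mono
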