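import Pool.Agent.Helper524.Mono.Gen

set_option autoImplicit false

open MeasureTheory Set Metric
open scoped InnerProductSpace

namespace Pool.Agent.Helper524.Mono

namespace N_cap_removal



theorem cap_removal_Z (e : E3) (he : ‖e‖ = 1) (c c' : ℝ) (hc : -1 < c) (hcc : c < c')
    (hc1 : c' ≤ 1) : IsPreconnected {u : E3 | ‖u‖ = 1 ∧ c < ⟪e, u⟫_ℝ ∧ ⟪e, u⟫_ℝ < c'} ∧
      {u : E3 | ‖u‖ = 1 ∧ c < ⟪e, u⟫_ℝ ∧ ⟪e, u⟫_ℝ < c'}.Nonempty := by
  have he0 : e ≠ 0 := by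
    intro h; rw [h, norm_zero] at he; exact zero_ne_one he
  have : Fact (Module.finrank ℝ E3 = 2 + 1) := ⟨by simp⟩
  have hfin : Module.finrank ℝ (ℝ ∙ e)ᗮ = 2 := Submodule.finrank_orthogonal_span_singleton he0
  have hrank : (1 : Cardinal) < Module.rank ℝ (ℝ ∙ e)ᗮ := by
    have := Module.lt_rank_of_lt_finrank (R := ℝ) (M := (ℝ ∙ e)ᗮ) (n := 1) (by rw [hfin]; norm_num)
    exact_mod_cast this
  have hS : IsPreconnected (Metric.sphere (0 : (ℝ ∙ e)ᗮ) 1) := isPreconnected_sphere hrank 0 1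
  have hnt : Nontrivial (ℝ ∙ e)ᗮ := by
    apply Module.nontrivial_of_finrank_pos (R := ℝ)
    rw [hfin]; norm_num
  have hSne : (Metric.sphere (0 : (ℝ ∙ e)ᗮ) 1).Nonempty := NormedSpace.sphere_nonempty.mpr zero_le_one
  have hI : IsPreconnected (Ioo c c') := isPreconnected_Ioo
  have hperp : ∀ w : (ℝ ∙ e)ᗮ, ⟪e, (w : E3)⟫_ℝ = 0 := fun w =>
    Submodule.mem_orthogonal_singleton_iff_inner_right.mp w.2
  set φ : ℝ × (ℝ ∙ e)ᗮ → E3 := fun q => q.1 • e + √(1 - q.1 ^ 2) • (q.2 : E3) with hφ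
  have hcont : Continuous φ := by
    rw [hφ]; fun_prop
  have himg : φ '' (Ioo c c' ×ˢ Metric.sphere (0 : (ℝ ∙ e)ᗮ) 1) =
      {u : E3 | ‖u‖ = 1 ∧ c < ⟪e, u⟫_ℝ ∧ ⟪e, u⟫_ℝ < c'} := by
    ext u
    simp only [mem_image, mem_prod, mem_Ioo, mem_sphere_zero_iff_norm, Prod.exists]
    constructor
    · rintro ⟨z, w, ⟨⟨hz1, hz2⟩, hw⟩, rfl⟩
      have hz : 0 ≤ 1 - z ^ 2 := by nlinarith
      have hinn : ⟪e, φ (z, w)⟫_ℝ = z := by
        simp only [hφ]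
        rw [inner_add_right, real_inner_smul_right, real_inner_smul_right, hperp,
          real_inner_self_eq_norm_sq, he]
        ring
      refine ⟨?_, ?_, ?_⟩
      · have h1 : ‖φ (z, w)‖ ^ 2 = 1 := by
          simp only [hφ]
          rw [norm_add_sq_real, real_inner_smul_left, real_inner_smul_right, hperp, norm_smul,
            norm_smul, he, Real.norm_eq_abs, Real.norm_eq_abs, mul_one, sq_abs]
          have hw' : ‖(w : E3)‖ = 1 := hw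
          rw [hw', mul_one, sq_abs, Real.sq_sqrt hz]
          ring
        have h2 : 0 ≤ ‖φ (z, w)‖ := norm_nonneg _
        nlinarith
      · rw [hinn]; exact hz1
      · rw [hinn]; exact hz2
    · rintro ⟨hu, h1, h2⟩
      set z : ℝ := ⟪e, u⟫_ℝ with hzdef
      have hz : 0 < 1 - z ^ 2 := by nlinarith
      have hs : 0 < √(1 - z ^ 2) := Real.sqrt_pos.mpr hz
      have hmem : (√(1 - z ^ 2))⁻¹ • (u - z • e) ∈ (ℝ ∙ e)ᗮ := by
        rw [Submodule.mem_orthogonal_singleton_iff_inner_right, real_inner_smul_right,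
          inner_sub_right, real_inner_smul_right, real_inner_self_eq_norm_sq, he]
        rw [← hzdef]; ring
      refine ⟨z, ⟨_, hmem⟩, ⟨⟨h1, h2⟩, ?_⟩, ?_⟩
      · show ‖(√(1 - z ^ 2))⁻¹ • (u - z • e)‖ = 1
        have h3 : ‖u - z • e‖ ^ 2 = 1 - z ^ 2 := by
          rw [norm_sub_sq_real, hu, real_inner_smul_right, norm_smul, he, Real.norm_eq_abs,
            mul_one, sq_abs, real_inner_comm e u, ← hzdef]
          ring
        have h4 : ‖u - z • e‖ = √(1 - z ^ 2) := by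
          rw [← h3, Real.sqrt_sq (norm_nonneg _)]
        rw [norm_smul, norm_inv, Real.norm_eq_abs, abs_of_pos hs, h4, inv_mul_cancel₀ hs.ne']
      · simp only [hφ]
        rw [smul_smul, mul_inv_cancel₀ hs.ne', one_smul]
        abel
  rw [← himg]
  refine ⟨(hI.prod hS).image φ hcont.continuousOn, ?_⟩
  refine Set.Nonempty.image φ ?_
  exact (Set.nonempty_Ioo.mpr hcc).prod hSne

theorem cap_removal_key (U : Set E3) (hU : IsPreconnected U) (e : E3) (c c' : ℝ) (hcc : c < c')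
    (A B : Set E3) (hA : IsOpen A) (hB : IsOpen B) (hsub : {u ∈ U | ⟪e, u⟫_ℝ < c'} ⊆ A ∪ B)
    (hUA : ({u ∈ U | ⟪e, u⟫_ℝ < c'} ∩ A).Nonempty) (hUB : ({u ∈ U | ⟪e, u⟫_ℝ < c'} ∩ B).Nonempty)
    (hZ : ∀ u ∈ U, c < ⟪e, u⟫_ℝ → ⟪e, u⟫_ℝ < c' → u ∈ A) :
    ({u ∈ U | ⟪e, u⟫_ℝ < c'} ∩ (A ∩ B)).Nonempty := by
  have hc1 : Continuous (fun u : E3 => ⟪e, u⟫_ℝ) := continuous_const.inner continuous_id
  have hA' : IsOpen (A ∪ {u : E3 | c < ⟪e, u⟫_ℝ}) := hA.union (isOpen_lt continuous_const hc1)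
  have hB' : IsOpen (B ∩ {u : E3 | ⟪e, u⟫_ℝ < c'}) := hB.inter (isOpen_lt hc1 continuous_const)
  obtain ⟨u, huU, huA', huB'⟩ := hU _ _ hA' hB' (by
      intro u hu
      by_cases h : c < ⟪e, u⟫_ℝ
      · exact Or.inl (Or.inr h)
      · push Not at h
        have h2 : ⟪e, u⟫_ℝ < c' := lt_of_le_of_lt h hcc
        rcases hsub ⟨hu, h2⟩ with h3 | h3
        · exact Or.inl (Or.inl h3)
        · exact Or.inr ⟨h3, h2⟩)
    (by
      obtain ⟨u, hu, huA⟩ := hUA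
      exact ⟨u, hu.1, Or.inl huA⟩)
    (by
      obtain ⟨u, hu, huB⟩ := hUB
      exact ⟨u, hu.1, huB, hu.2⟩)
  refine ⟨u, ⟨huU, huB'.2⟩, ?_, huB'.1⟩
  rcases huA' with h | h
  · exact h
  · exact hZ u huU h huB'.2

/-- TARGET -/
theorem cap_removal (U : Set E3) (hU : IsPreconnected U) (hU1 : ∀ u ∈ U, ‖u‖ = 1) (e : E3)
    (he : ‖e‖ = 1) (c c' : ℝ) (hc : -1 < c) (hcc : c < c') (hc1 : c' ≤ 1)
    (hcap : ∀ u : E3, ‖u‖ = 1 → c < ⟪e, u⟫_ℝ → u ∈ U) :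
    IsPreconnected {u ∈ U | ⟪e, u⟫_ℝ < c'} := by
  obtain ⟨hZ, hZne⟩ := cap_removal_Z e he c c' hc hcc hc1
  set Z : Set E3 := {u : E3 | ‖u‖ = 1 ∧ c < ⟪e, u⟫_ℝ ∧ ⟪e, u⟫_ℝ < c'} with hZdef
  have hZU : Z ⊆ {u ∈ U | ⟪e, u⟫_ℝ < c'} := fun u hu => ⟨hcap u hu.1 hu.2.1, hu.2.2⟩
  intro A B hA hB hsub hUA hUB
  by_cases hZA : (Z ∩ A).Nonempty
  · by_cases hZB : (Z ∩ B).Nonempty
    · obtain ⟨u, hu, huAB⟩ := hZ A B hA hB (hZU.trans hsub) hZA hZB
      exact ⟨u, hZU hu, huAB⟩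
    · refine cap_removal_key U hU e c c' hcc A B hA hB hsub hUA hUB ?_
      intro u hu h1 h2
      have huZ : u ∈ Z := ⟨hU1 u hu, h1, h2⟩
      rcases hsub (hZU huZ) with h | h
      · exact h
      · exact absurd ⟨u, huZ, h⟩ hZB
  · have := cap_removal_key U hU e c c' hcc B A hB hA (by rw [union_comm]; exact hsub) hUB hUA (by
      intro u hu h1 h2
      have huZ : u ∈ Z := ⟨hU1 u hu, h1, h2⟩
      rcases hsub (hZU huZ) with h | h
      · exact absurd ⟨u, huZ, h⟩ hZA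
      · exact h)
    rw [inter_comm A B]
    exact this


end N_cap_removal

alias cap_removal := N_cap_removal.cap_removal

end Pool.Agent.Helper524.Mono
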