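import Pool.Agent.Helper524.Mono.Gen
import Pool.Agent.Helper524.Mono.S_cap_removal
import Pool.Agent.Helper524.Mono.S_bump_basic

set_option autoImplicit false

open MeasureTheory Set Metric
open scoped InnerProductSpace

namespace Pool.Agent.Helper524.Mono

namespace N_bump_SB






/-- TARGET -/
theorem bump_SB (K : Set E3) (hK : CB K) (hSB : SB (supp K)) (b : E3) (hb : ‖b‖ = 1)
    (m s θ : ℝ) (hm : 0 < m) (hs : 0 < s) (hmin : ∀ v : E3, ‖v‖ = 1 → m ≤ supp K v)
    (hflat : ∀ v : E3, ‖v‖ = 1 → (‖v - b‖ < θ ∨ ‖v + b‖ < θ) → supp K v = m)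
    (hsθ : ∀ v : E3, ‖v‖ = 1 → m < (m + s) * |⟪b, v⟫_ℝ| → (‖v - b‖ < θ ∨ ‖v + b‖ < θ)) :
    SB (supp (Bump K b (m + s))) := by
  intro r
  have hne : K.Nonempty := ⟨0, interior_subset hK.2.2.1⟩
  obtain ⟨_, _, _, _, _, hsupp, _⟩ := bump_basic K hK.1 hK.2.1 hne b hb m s hm hs hmin
  have hms : 0 < m + s := by linarith
  have hset : {u : E3 | ‖u‖ = 1 ∧ supp (Bump K b (m + s)) u < r} =
      {u : E3 | ‖u‖ = 1 ∧ supp K u < r ∧ (m + s) * |⟪b, u⟫_ℝ| < r} := by
    ext u
    constructor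
    · rintro ⟨hu, h⟩
      rw [hsupp u hu, max_lt_iff] at h
      exact ⟨hu, h⟩
    · rintro ⟨hu, h⟩
      refine ⟨hu, ?_⟩
      rw [hsupp u hu, max_lt_iff]
      exact h
  rw [hset]
  rcases le_or_gt r m with hr | hr
  · have : {u : E3 | ‖u‖ = 1 ∧ supp K u < r ∧ (m + s) * |⟪b, u⟫_ℝ| < r} = ∅ := by
      rw [Set.eq_empty_iff_forall_notMem]
      rintro u ⟨hu, h1, _⟩
      have := hmin u hu
      linarith
    rw [this]
    exact isPreconnected_empty
  · rcases lt_or_ge (m + s) r with h1 | h1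
    · have : {u : E3 | ‖u‖ = 1 ∧ supp K u < r ∧ (m + s) * |⟪b, u⟫_ℝ| < r} =
          {u : E3 | ‖u‖ = 1 ∧ supp K u < r} := by
        ext u
        constructor
        · rintro ⟨hu, h2, _⟩
          exact ⟨hu, h2⟩
        · rintro ⟨hu, h2⟩
          refine ⟨hu, h2, ?_⟩
          have h3 : |⟪b, u⟫_ℝ| ≤ 1 := by
            have := abs_real_inner_le_norm b u
            rw [hb, hu, one_mul] at this
            exact this
          nlinarith
      rw [this]
      exact hSB r
    · have hc0 : 0 < m / (m + s) := by positivity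
      have hcc : m / (m + s) < r / (m + s) := div_lt_div_of_pos_right hr hms
      have hc1 : r / (m + s) ≤ 1 := by
        rw [div_le_one hms]
        exact h1
      have hU : ∀ u : E3, ‖u‖ = 1 → m / (m + s) < |⟪b, u⟫_ℝ| → supp K u < r := by
        intro u hu h
        rw [div_lt_iff₀ hms] at h
        have h2 : m < (m + s) * |⟪b, u⟫_ℝ| := by linarith
        rw [hflat u hu (hsθ u hu h2)]
        exact hr
      have hP1 : IsPreconnected {u ∈ {u : E3 | ‖u‖ = 1 ∧ supp K u < r} | ⟪b, u⟫_ℝ < r / (m + s)} := by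
        apply cap_removal _ (hSB r) (fun u hu => hu.1) b hb (m / (m + s)) _ (by linarith) hcc hc1
        intro u hu h
        exact ⟨hu, hU u hu (lt_of_lt_of_le h (le_abs_self _))⟩
      have hP2 : IsPreconnected {u ∈ {u ∈ {u : E3 | ‖u‖ = 1 ∧ supp K u < r} |
          ⟪b, u⟫_ℝ < r / (m + s)} | ⟪-b, u⟫_ℝ < r / (m + s)} := by
        apply cap_removal _ hP1 (fun u hu => hu.1.1) (-b) (by rw [norm_neg, hb]) (m / (m + s)) _
          (by linarith) hcc hc1
        intro u hu h
        rw [inner_neg_left] at h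
        refine ⟨⟨hu, hU u hu (lt_of_lt_of_le h (neg_le_abs _))⟩, ?_⟩
        linarith
      have hfin : {u : E3 | ‖u‖ = 1 ∧ supp K u < r ∧ (m + s) * |⟪b, u⟫_ℝ| < r} =
          {u ∈ {u ∈ {u : E3 | ‖u‖ = 1 ∧ supp K u < r} |
          ⟪b, u⟫_ℝ < r / (m + s)} | ⟪-b, u⟫_ℝ < r / (m + s)} := by
        ext u
        constructor
        · rintro ⟨hu, h2, h3⟩
          have h4 : |⟪b, u⟫_ℝ| < r / (m + s) := by
            rw [lt_div_iff₀ hms]
            linarith
          rw [abs_lt] at h4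
          refine ⟨⟨⟨hu, h2⟩, h4.2⟩, ?_⟩
          rw [inner_neg_left]
          linarith [h4.1]
        · rintro ⟨⟨⟨hu, h2⟩, h3⟩, h4⟩
          refine ⟨hu, h2, ?_⟩
          rw [inner_neg_left] at h4
          have h5 : |⟪b, u⟫_ℝ| < r / (m + s) := by
            rw [abs_lt]
            constructor <;> linarith
          rw [lt_div_iff₀ hms] at h5
          linarith
      rw [hfin]
      exact hP2


end N_bump_SB

alias bump_SB := N_bump_SB.bump_SB

end Pool.Agent.Helper524.Mono
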