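import Pool.Agent.Helper524.Mono.Gen
import Pool.Agent.Helper524.Mono.S_bump_basic

set_option autoImplicit false

open MeasureTheory Set Metric
open scoped InnerProductSpace

namespace Pool.Agent.Helper524.Mono

namespace N_bump_XJ




lemma bxj_exists_orth (e : E3) (he : ‖e‖ = 1) : ∃ w : E3, ‖w‖ = 1 ∧ ⟪e, w⟫_ℝ = 0 := by
  have he0 : e ≠ 0 := by
    intro h
    rw [h, norm_zero] at he
    exact zero_ne_one he
  have : Fact (Module.finrank ℝ E3 = 2 + 1) := ⟨by simp⟩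
  have h := Submodule.finrank_orthogonal_span_singleton (𝕜 := ℝ) (n := 2) he0
  have h2 : 0 < Module.finrank ℝ (Submodule.span ℝ {e})ᗮ := by rw [h]; norm_num
  obtain ⟨x, hx⟩ := Module.finrank_pos_iff_exists_ne_zero.1 h2
  have hx0 : (x : E3) ≠ 0 := fun h0 => hx (Subtype.ext h0)
  have hxn : 0 < ‖(x : E3)‖ := norm_pos_iff.2 hx0
  have hxo : ⟪e, (x : E3)⟫_ℝ = 0 := Submodule.mem_orthogonal_singleton_iff_inner_right.1 x.2
  refine ⟨‖(x : E3)‖⁻¹ • (x : E3), ?_, ?_⟩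
  · rw [norm_smul, norm_inv, norm_norm, inv_mul_cancel₀ hxn.ne']
  · rw [real_inner_smul_right, hxo, mul_zero]

lemma bxj_one (P : Set E3) (hP : IsCompact P) (e : E3) (he : ‖e‖ = 1) (m c : ℝ) (hm : 0 < m)
    (hc : m < c) (hmem : c • e ∈ P)
    (hs : ∀ v : E3, ‖v‖ = 1 → m < c * |⟪e, v⟫_ℝ| → supp P v = c * |⟪e, v⟫_ℝ|) :
    c • e ∈ XJ P := by
  obtain ⟨w, hw, hew⟩ := bxj_exists_orth e he
  have hc0 : 0 < c := hm.trans hc
  set C : ℝ := Real.sqrt ((3 * c + m) / (4 * c)) with hC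
  have hC2 : C ^ 2 = (3 * c + m) / (4 * c) := by
    rw [hC, Real.sq_sqrt (by positivity)]
  have hCm : c * (2 * C ^ 2 - 1) = (c + m) / 2 := by
    rw [hC2]; field_simp; ring
  have hClt : C ^ 2 < 1 := by
    rw [hC2, div_lt_one (by positivity)]; linarith
  have hCpos : 0 < C := Real.sqrt_pos.2 (by positivity)
  have hC1 : C < 1 := by nlinarith
  set S : ℝ := Real.sqrt (1 - C ^ 2) with hS
  have hS2 : S ^ 2 = 1 - C ^ 2 := by rw [hS, Real.sq_sqrt (by linarith)]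
  have hee : ⟪e, e⟫_ℝ = 1 := by rw [real_inner_self_eq_norm_sq, he, one_pow]
  have hww : ⟪w, w⟫_ℝ = 1 := by rw [real_inner_self_eq_norm_sq, hw, one_pow]
  have hwe : ⟪w, e⟫_ℝ = 0 := by rw [real_inner_comm, hew]
  have hin : ∀ p q p' q' : ℝ, ⟪p • e + q • w, p' • e + q' • w⟫_ℝ = p * p' + q * q' := by
    intro p q p' q'
    simp only [inner_add_left, inner_add_right, real_inner_smul_left, real_inner_smul_right,
      hee, hww, hew, hwe]
    ring
  have hine : ∀ p q : ℝ, ⟪e, p • e + q • w⟫_ℝ = p := by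
    intro p q
    simp only [inner_add_right, real_inner_smul_right, hee, hew]
    ring
  have hnorm : ∀ p q : ℝ, p ^ 2 + q ^ 2 = 1 → ‖p • e + q • w‖ = 1 := by
    intro p q h
    have h1 : ‖p • e + q • w‖ ^ 2 = 1 := by
      rw [← real_inner_self_eq_norm_sq, hin]; nlinarith
    have h2 := norm_nonneg (p • e + q • w)
    nlinarith
  have hn := hnorm C S (by rw [hS2]; ring)
  have hv := hnorm (2 * C ^ 2 - 1) (2 * S * C) (by
    have : (2 * S * C) ^ 2 = 4 * S ^ 2 * C ^ 2 := by ring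
    rw [this, hS2]; ring)
  have hsn : supp P (C • e + S • w) = c * C := by
    have h1 := hs _ hn
    rw [hine, abs_of_pos hCpos] at h1
    apply h1
    nlinarith
  have hpos2 : 0 < 2 * C ^ 2 - 1 := by
    have : 0 < c * (2 * C ^ 2 - 1) := by rw [hCm]; positivity
    exact (mul_pos_iff_of_pos_left hc0).1 this
  have hsv : supp P ((2 * C ^ 2 - 1) • e + (2 * S * C) • w) = c * (2 * C ^ 2 - 1) := by
    have h1 := hs _ hv
    rw [hine, abs_of_pos hpos2] at h1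
    apply h1
    rw [hCm]; linarith
  refine ⟨hmem, C • e + S • w, hn, ?_, ?_⟩
  · rw [hsn, real_inner_smul_right, real_inner_comm, hine]
  · intro hmemf
    rw [hsn] at hmemf
    have h1 := inner_le_supp hP hmemf ((2 * C ^ 2 - 1) • e + (2 * S * C) • w)
    rw [hsv, real_inner_smul_right, hin] at h1
    have h2 : (2 * C ^ 2 - 1) * C + 2 * S * C * S = C := by
      have : 2 * S * C * S = 2 * C * S ^ 2 := by ring
      rw [this, hS2]; ring
    rw [h2] at h1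
    have h3 : c * C * C ≤ c * (2 * C ^ 2 - 1) := h1
    have h4 : c * C ^ 2 < c := by nlinarith
    nlinarith

/-- TARGET -/
theorem bump_XJ (K : Set E3) (hK : CB K) (b : E3) (hb : ‖b‖ = 1) (m s θ : ℝ) (hm : 0 < m)
    (hs : 0 < s) (hθ : 0 < θ) (hmin : ∀ v : E3, ‖v‖ = 1 → m ≤ supp K v)
    (hflat : ∀ v : E3, ‖v‖ = 1 → (‖v - b‖ < θ ∨ ‖v + b‖ < θ) → supp K v = m)
    (hsθ : ∀ v : E3, ‖v‖ = 1 → m < (m + s) * |⟪b, v⟫_ℝ| → (‖v - b‖ < θ ∨ ‖v + b‖ < θ)) :
    (m + s) • b ∈ XJ (Bump K b (m + s)) ∧ (-(m + s)) • b ∈ XJ (Bump K b (m + s)) := by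
  have hne : K.Nonempty := ⟨0, interior_subset hK.2.2.1⟩
  obtain ⟨h1, -, -, h4, h5, h6, -⟩ := bump_basic K hK.1 hK.2.1 hne b hb m s hm hs hmin
  have hsup : ∀ v : E3, ‖v‖ = 1 → m < (m + s) * |⟪b, v⟫_ℝ| →
      supp (Bump K b (m + s)) v = (m + s) * |⟪b, v⟫_ℝ| := by
    intro v hv hlt
    rw [h6 v hv, hflat v hv (hsθ v hv hlt)]
    exact max_eq_right hlt.le
  refine ⟨bxj_one _ h1 b hb m (m + s) hm (by linarith) h4 hsup, ?_⟩
  have h7 : (-(m + s)) • b = (m + s) • (-b) := by rw [neg_smul, smul_neg]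
  rw [h7]
  refine bxj_one _ h1 (-b) (by rw [norm_neg]; exact hb) m (m + s) hm (by linarith)
    (by rw [← h7]; exact h5) ?_
  intro v hv hlt
  rw [inner_neg_left, abs_neg] at hlt ⊢
  exact hsup v hv hlt


end N_bump_XJ

alias bump_XJ := N_bump_XJ.bump_XJ

end Pool.Agent.Helper524.Mono
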