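import Pool.Agent.Helper524.Mono.Gen
import Pool.Agent.Helper524.Mono.S_bump_basic

set_option autoImplicit false

open MeasureTheory Set Metric
open scoped InnerProductSpace

namespace Pool.Agent.Helper524.Mono

namespace N_bump_moment




theorem bump_moment_claim (K : Set E3) (hK : IsCompact K) (hc : Convex ℝ K) (hne : K.Nonempty) (b : E3)
    (m s θ : ℝ) (hm : 0 < m) (hs : 0 < s) (hmin : ∀ v : E3, ‖v‖ = 1 → m ≤ supp K v)
    (hflat : ∀ v : E3, ‖v‖ = 1 → (‖v - b‖ < θ ∨ ‖v + b‖ < θ) → supp K v = m)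
    (hsθ : ∀ v : E3, ‖v‖ = 1 → m < (m + s) * |⟪b, v⟫_ℝ| → (‖v - b‖ < θ ∨ ‖v + b‖ < θ))
    (x : E3) (hx : x ∈ Bump K b (m + s)) (hxK : x ∉ K) (v : E3) (hv : ‖v‖ = 1) :
    ⟪v, x⟫_ℝ ≤ max m ((m + s) * |⟪b, v⟫_ℝ|) := by
  obtain ⟨u, hu, hlt⟩ := exists_sep hK hc hne hxK
  have h1 := hmin u hu
  have h2 := hx u hu
  have h3 : ⟪u, x⟫_ℝ ≤ (m + s) * |⟪b, u⟫_ℝ| := by
    rcases le_max_iff.mp h2 with h | h
    · linarith
    · exact h
  have hcpos : 0 < m + s := by linarith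
  -- sign
  obtain ⟨b', hb', hb'u⟩ : ∃ b' : E3, (∀ w : E3, |⟪b', w⟫_ℝ| = |⟪b, w⟫_ℝ|) ∧
      |⟪b, u⟫_ℝ| = ⟪b', u⟫_ℝ := by
    rcases le_total 0 ⟪b, u⟫_ℝ with h | h
    · exact ⟨b, fun w => rfl, abs_of_nonneg h⟩
    · exact ⟨-b, fun w => by rw [inner_neg_left, abs_neg], by rw [inner_neg_left, abs_of_nonpos h]⟩
  by_contra hcon
  rw [not_le, max_lt_iff] at hcon
  obtain ⟨hv1, hv2⟩ := hcon
  have hv3 : (m + s) * ⟪b', v⟫_ℝ < ⟪v, x⟫_ℝ := by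
    have : ⟪b', v⟫_ℝ ≤ |⟪b, v⟫_ℝ| := by rw [← hb']; exact le_abs_self _
    nlinarith
  rw [hb'u] at h3
  obtain ⟨A, hA⟩ : ∃ A, A = ⟪u, x⟫_ℝ - (m + s) * ⟪b', u⟫_ℝ := ⟨_, rfl⟩
  obtain ⟨B, hB⟩ : ∃ B, B = ⟪v, x⟫_ℝ - (m + s) * ⟪b', v⟫_ℝ := ⟨_, rfl⟩
  have hA0 : A ≤ 0 := by rw [hA]; linarith
  have hB0 : 0 < B := by rw [hB]; linarith
  obtain ⟨μ, hμ⟩ : ∃ μ, μ = min ⟪u, x⟫_ℝ ⟪v, x⟫_ℝ := ⟨_, rfl⟩
  have hμm : m < μ := by rw [hμ]; exact lt_min (by linarith) hv1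
  have hμu : μ ≤ ⟪u, x⟫_ℝ := by rw [hμ]; exact min_le_left _ _
  have hμv : μ ≤ ⟪v, x⟫_ℝ := by rw [hμ]; exact min_le_right _ _
  obtain ⟨l, hl⟩ : ∃ l, l = min B ((μ - m) / 2) := ⟨_, rfl⟩
  have hl0 : 0 < l := by rw [hl]; exact lt_min hB0 (by linarith)
  have hlB : l ≤ B := by rw [hl]; exact min_le_left _ _
  have hlm : l ≤ (μ - m) / 2 := by rw [hl]; exact min_le_right _ _
  have hBA : 0 < B - A := by linarith
  obtain ⟨t, ht⟩ : ∃ t, t = (l - A) / (B - A) := ⟨_, rfl⟩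
  have ht0 : 0 ≤ t := by rw [ht]; exact div_nonneg (by linarith) hBA.le
  have ht1 : t ≤ 1 := by rw [ht, div_le_one hBA]; linarith
  have htBA : t * (B - A) = l - A := by
    have := div_mul_cancel₀ (l - A) hBA.ne'
    rw [← ht] at this
    exact this
  obtain ⟨w, hw⟩ : ∃ w : E3, w = (1 - t) • u + t • v := ⟨_, rfl⟩
  have hwx : ⟪w, x⟫_ℝ = (1 - t) * ⟪u, x⟫_ℝ + t * ⟪v, x⟫_ℝ := by
    rw [hw, inner_add_left, real_inner_smul_left, real_inner_smul_left]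
  have hbw : ⟪b', w⟫_ℝ = (1 - t) * ⟪b', u⟫_ℝ + t * ⟪b', v⟫_ℝ := by
    rw [hw, inner_add_right, real_inner_smul_right, real_inner_smul_right]
  have hlw : ⟪w, x⟫_ℝ - (m + s) * ⟪b', w⟫_ℝ = l := by
    rw [hwx, hbw]
    have : (1 - t) * ⟪u, x⟫_ℝ + t * ⟪v, x⟫_ℝ - (m + s) * ((1 - t) * ⟪b', u⟫_ℝ + t * ⟪b', v⟫_ℝ)
        = A + t * (B - A) := by rw [hA, hB]; ring
    rw [this, htBA]
    ring
  have hwμ : μ ≤ ⟪w, x⟫_ℝ := by
    rw [hwx]
    nlinarith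
  have hwn : ‖w‖ ≤ 1 := by
    rw [hw]
    calc ‖(1 - t) • u + t • v‖ ≤ ‖(1 - t) • u‖ + ‖t • v‖ := norm_add_le _ _
      _ = 1 := by
        rw [norm_smul, norm_smul, hu, hv, Real.norm_eq_abs, Real.norm_eq_abs,
          abs_of_nonneg (by linarith), abs_of_nonneg ht0]
        ring
  have hw0 : w ≠ 0 := by
    intro h
    rw [h, inner_zero_left] at hwμ
    linarith
  have hwpos : 0 < ‖w‖ := norm_pos_iff.mpr hw0
  obtain ⟨N, hN⟩ : ∃ N : E3, N = ‖w‖⁻¹ • w := ⟨_, rfl⟩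
  have hN1 : ‖N‖ = 1 := by
    rw [hN, norm_smul, norm_inv, norm_norm, inv_mul_cancel₀ hwpos.ne']
  have hinv1 : 1 ≤ ‖w‖⁻¹ := (one_le_inv₀ hwpos).mpr hwn
  have hbN : ⟪b', N⟫_ℝ = ‖w‖⁻¹ * ⟪b', w⟫_ℝ := by rw [hN, real_inner_smul_right]
  have hNx : ⟪N, x⟫_ℝ = ‖w‖⁻¹ * ⟪w, x⟫_ℝ := by rw [hN, real_inner_smul_left]
  have hcbw : m < (m + s) * ⟪b', w⟫_ℝ := by linarith
  have hbwpos : 0 < ⟪b', w⟫_ℝ := by
    by_contra h
    push Not at h
    nlinarith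
  have hcbN : m < (m + s) * ⟪b', N⟫_ℝ := by
    rw [hbN]
    have : (m + s) * ⟪b', w⟫_ℝ ≤ (m + s) * (‖w‖⁻¹ * ⟪b', w⟫_ℝ) := by
      apply mul_le_mul_of_nonneg_left _ hcpos.le
      nlinarith
    linarith
  have hbNpos : 0 ≤ ⟪b', N⟫_ℝ := by
    rw [hbN]; positivity
  have habs : |⟪b, N⟫_ℝ| = ⟪b', N⟫_ℝ := by rw [← hb', abs_of_nonneg hbNpos]
  have hNs : supp K N = m := hflat N hN1 (hsθ N hN1 (by rw [habs]; exact hcbN))
  have hxN := hx N hN1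
  rw [hNs, habs, max_eq_right hcbN.le, hNx, hbN] at hxN
  have h7 : ‖w‖⁻¹ * l = ‖w‖⁻¹ * ⟪w, x⟫_ℝ - (m + s) * (‖w‖⁻¹ * ⟪b', w⟫_ℝ) := by
    rw [← hlw]; ring
  have h8 : ‖w‖⁻¹ * l ≤ 0 := by linarith
  have h9 : 0 < ‖w‖⁻¹ * l := by positivity
  linarith

/-- TARGET -/
theorem bump_moment (K : Set E3) (hK : CB K) (b : E3) (hb : ‖b‖ = 1) (m s θ : ℝ) (hm : 0 < m)
    (hs : 0 < s) (hmin : ∀ v : E3, ‖v‖ = 1 → m ≤ supp K v)
    (hflat : ∀ v : E3, ‖v‖ = 1 → (‖v - b‖ < θ ∨ ‖v + b‖ < θ) → supp K v = m)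
    (hsθ : ∀ v : E3, ‖v‖ = 1 → m < (m + s) * |⟪b, v⟫_ℝ| → (‖v - b‖ < θ ∨ ‖v + b‖ < θ)) :
    ∫ x in Bump K b (m + s), x = 0 := by
  obtain ⟨hKc, hKv, hK0, hKint⟩ := hK
  have hne : K.Nonempty := ⟨0, interior_subset hK0⟩
  obtain ⟨hPc, hPv, hKP, -, -, -, -⟩ := bump_basic K hKc hKv hne b hb m s hm hs hmin
  have hclaim := bump_moment_claim K hKc hKv hne b m s θ hm hs hmin hflat hsθ
  have hint : ∫ x in Bump K b (m + s) \ K, x = ∫ x in Bump K b (m + s), x := by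
    have hi : IntegrableOn (fun x : E3 => x) (Bump K b (m + s)) volume :=
      continuous_id.continuousOn.integrableOn_compact hPc
    rw [setIntegral_sdiff hKc.measurableSet hi hKP, hKint, sub_zero]
  rw [← hint]
  set D := Bump K b (m + s) \ K with hD
  have hsym : ∀ x ∈ D, -x ∈ D := by
    rintro x ⟨hxP, hxK⟩
    have hcl := hclaim x hxP hxK
    refine ⟨?_, ?_⟩
    · intro v hv
      have h1 := hcl (-v) (by rw [norm_neg, hv])
      rw [inner_neg_left, inner_neg_right, abs_neg] at h1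
      rw [inner_neg_right]
      exact h1.trans (max_le_max (hmin v hv) le_rfl)
    · intro hmem
      obtain ⟨u, hu, hlt⟩ := exists_sep hKc hKv hne hxK
      have h1 := hmin u hu
      have h2 := hcl u hu
      have h3 : m < (m + s) * |⟪b, u⟫_ℝ| := by
        rcases le_max_iff.mp h2 with h | h
        · linarith
        · linarith
      have hnu : ‖-u‖ = 1 := by rw [norm_neg, hu]
      have h4 : supp K (-u) = m := hflat (-u) hnu (hsθ (-u) hnu (by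
        rw [inner_neg_right, abs_neg]; exact h3))
      have h5 := inner_le_supp hKc hmem (-u)
      rw [inner_neg_neg, h4] at h5
      linarith
  have hiff : ∀ x, -x ∈ D ↔ x ∈ D := by
    intro x
    constructor
    · intro h
      have := hsym _ h
      rwa [neg_neg] at this
    · exact hsym x
  have hDm : MeasurableSet D := hPc.measurableSet.diff hKc.measurableSet
  have h1 : ∫ x in D, x = ∫ x, D.indicator (fun y => y) x := (integral_indicator hDm).symm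
  have h2 : ∫ x, D.indicator (fun y : E3 => y) (-x) = ∫ x, D.indicator (fun y => y) x :=
    integral_neg_eq_self _ _
  have h3 : ∀ x : E3, D.indicator (fun y : E3 => y) (-x) = -(D.indicator (fun y : E3 => y) x) := by
    intro x
    by_cases hx : x ∈ D
    · rw [indicator_of_mem hx, indicator_of_mem ((hiff x).mpr hx)]
    · rw [indicator_of_notMem hx, indicator_of_notMem (fun h => hx ((hiff x).mp h)), neg_zero]
  simp only [h3] at h2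
  rw [integral_neg] at h2
  rw [h1]
  have h4 : (2 : ℝ) • (∫ x : E3, D.indicator (fun y => y) x) = 0 := by
    rw [two_smul]
    nth_rewrite 1 [← h2]
    exact neg_add_cancel _
  rcases smul_eq_zero.mp h4 with h | h
  · norm_num at h
  · exact h


end N_bump_moment

alias bump_moment := N_bump_moment.bump_moment

end Pool.Agent.Helper524.Mono
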