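import Pool.Agent.Helper524.Mono.Gen
import Pool.Agent.Helper524.Mono.S_bump_basic
import Pool.Agent.Helper524.Mono.S_bump_moment
import Pool.Agent.Helper524.Mono.S_bump_SB
import Pool.Agent.Helper524.Mono.S_bump_XJ

set_option autoImplicit false

open MeasureTheory Set Metric
open scoped InnerProductSpace

namespace Pool.Agent.Helper524.Mono

namespace N_bump










/-- TARGET -/
theorem bump (K : Set E3) (hK : CB K) (hSB : SB (supp K)) (b : E3) (hb : ‖b‖ = 1) (θ : ℝ)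
    (hθ : 0 < θ) (hmin : ∀ v : E3, ‖v‖ = 1 → supp K b ≤ supp K v)
    (hflat : ∀ v : E3, ‖v‖ = 1 → (‖v - b‖ < θ ∨ ‖v + b‖ < θ) → supp K v = supp K b) :
    ∃ s0 : ℝ, 0 < s0 ∧ ∀ s : ℝ, 0 < s → s < s0 →
      CB (Bump K b (supp K b + s)) ∧ SB (supp (Bump K b (supp K b + s))) ∧
      (supp K b + s) • b ∈ XJ (Bump K b (supp K b + s)) ∧
      (-(supp K b + s)) • b ∈ XJ (Bump K b (supp K b + s)) ∧
      (∀ v : E3, ‖v‖ = 1 → supp (Bump K b (supp K b + s)) v =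
        max (supp K v) ((supp K b + s) * |⟪b, v⟫_ℝ|)) := by
  have hm : 0 < supp K b := by
    obtain ⟨r, hr, hball⟩ := Metric.nhds_basis_closedBall.mem_iff.mp
      (mem_interior_iff_mem_nhds.mp hK.2.2.1)
    exact lt_of_lt_of_le hr (le_supp_of_ball hK.1 hr.le hball hb)
  have hne : K.Nonempty := ⟨0, interior_subset hK.2.2.1⟩
  refine ⟨supp K b * θ ^ 2 / 4, by positivity, fun s hs hs0 => ?_⟩
  have hsθ : ∀ v : E3, ‖v‖ = 1 → supp K b < (supp K b + s) * |⟪b, v⟫_ℝ| →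
      (‖v - b‖ < θ ∨ ‖v + b‖ < θ) := by
    intro v hv hlt
    have hvb : ⟪v, b⟫_ℝ = ⟪b, v⟫_ℝ := real_inner_comm _ _
    rcases le_total 0 ⟪b, v⟫_ℝ with h0 | h0
    · left
      rw [abs_of_nonneg h0] at hlt
      have h1 : ‖v - b‖ ^ 2 = 2 - 2 * ⟪b, v⟫_ℝ := by
        rw [norm_sub_sq_real, hv, hb, hvb]; ring
      have h2 : ‖v - b‖ ^ 2 < θ ^ 2 := by
        rw [h1]
        have h3 : (supp K b + s) * (2 - 2 * ⟪b, v⟫_ℝ) < (supp K b + s) * θ ^ 2 := by
          nlinarith [mul_pos hs (pow_pos hθ 2), mul_pos hm (pow_pos hθ 2)]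
        exact lt_of_mul_lt_mul_left h3 (by positivity)
      exact lt_of_pow_lt_pow_left₀ 2 hθ.le h2
    · right
      rw [abs_of_nonpos h0] at hlt
      have h1 : ‖v + b‖ ^ 2 = 2 + 2 * ⟪b, v⟫_ℝ := by
        rw [norm_add_sq_real, hv, hb, hvb]; ring
      have h2 : ‖v + b‖ ^ 2 < θ ^ 2 := by
        rw [h1]
        have h3 : (supp K b + s) * (2 + 2 * ⟪b, v⟫_ℝ) < (supp K b + s) * θ ^ 2 := by
          nlinarith [mul_pos hs (pow_pos hθ 2), mul_pos hm (pow_pos hθ 2)]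
        exact lt_of_mul_lt_mul_left h3 (by positivity)
      exact lt_of_pow_lt_pow_left₀ 2 hθ.le h2
  obtain ⟨b1, b2, b3, b4, b5, b6, b7⟩ := bump_basic K hK.1 hK.2.1 hne b hb (supp K b) s hm hs hmin
  refine ⟨⟨b1, b2, interior_mono b3 hK.2.2.1,
    bump_moment K hK b hb (supp K b) s θ hm hs hmin hflat hsθ⟩,
    bump_SB K hK hSB b hb (supp K b) s θ hm hs hmin hflat hsθ, ?_, ?_, b6⟩
  · exact (bump_XJ K hK b hb (supp K b) s θ hm hs hθ hmin hflat hsθ).1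
  · exact (bump_XJ K hK b hb (supp K b) s θ hm hs hθ hmin hflat hsθ).2


end N_bump

alias bump := N_bump.bump

end Pool.Agent.Helper524.Mono
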