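import Pool.Agent.Helper524.Mono.Gen

set_option autoImplicit false

open MeasureTheory Set Metric
open scoped InnerProductSpace

namespace Pool.Agent.Helper524.Mono

namespace N_bump_persist


/-- TARGET -/
theorem bump_persist (K : Set E3) (hK : CB K) (b : E3) (hb : ‖b‖ = 1)
    (hmin : ∀ v : E3, ‖v‖ = 1 → supp K b ≤ supp K v) (x : E3) (hx : x ∈ XJ K) :
    ∃ s0 : ℝ, 0 < s0 ∧ ∀ s : ℝ, 0 < s → s < s0 →
      (∀ v : E3, ‖v‖ = 1 → supp (Bump K b (supp K b + s)) v =
        max (supp K v) ((supp K b + s) * |⟪b, v⟫_ℝ|)) → x ∈ XJ (Bump K b (supp K b + s)) := by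
  obtain ⟨hKc, hKv, h0, -⟩ := hK
  have hne : K.Nonempty := ⟨0, interior_subset h0⟩
  obtain ⟨hxK, n, hn, hnx, hnf⟩ := hx
  have hm : 0 < supp K b := by
    obtain ⟨ε, hε, hball⟩ := Metric.isOpen_iff.1 isOpen_interior 0 h0
    have h1 : closedBall (0 : E3) (ε / 2) ⊆ K := by
      refine Subset.trans ?_ (hball.trans interior_subset)
      exact closedBall_subset_ball (by linarith)
    have h2 := le_supp_of_ball hKc (by linarith) h1 hb
    linarith
  have habs : ∀ v w : E3, ‖v‖ = 1 → ‖w‖ = 1 → |⟪v, w⟫_ℝ| ≤ 1 := by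
    intro v w hv hw
    have h1 := abs_real_inner_le_norm v w
    rwa [hv, hw, one_mul] at h1
  have hnm : supp K b < supp K n := by
    by_contra hc
    push Not at hc
    apply hnf
    apply mem_of_inner_le_supp hKc hKv hne
    intro v hv
    rw [real_inner_smul_right]
    have h1 := hmin v hv
    have h2 := hmin n hn
    have h3 := (abs_le.1 (habs v n hv hn)).2
    have h4 : supp K n * ⟪v, n⟫_ℝ ≤ supp K n * 1 :=
      mul_le_mul_of_nonneg_left h3 (by linarith)
    linarith
  obtain ⟨w, hw, hwf⟩ := exists_sep hKc hKv hne hnf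
  refine ⟨min (supp K n - supp K b) (⟪w, supp K n • n⟫_ℝ - supp K w),
    lt_min (by linarith) (by linarith), fun s hs hs0 hsupp => ?_⟩
  have hs1 : s < supp K n - supp K b := lt_of_lt_of_le hs0 (min_le_left _ _)
  have hs2 : s < ⟪w, supp K n • n⟫_ℝ - supp K w := lt_of_lt_of_le hs0 (min_le_right _ _)
  have hle : ∀ v : E3, ‖v‖ = 1 → (supp K b + s) * |⟪b, v⟫_ℝ| ≤ supp K b + s := by
    intro v hv
    have h1 := habs b v hb hv
    have h2 : (supp K b + s) * |⟪b, v⟫_ℝ| ≤ (supp K b + s) * 1 :=
      mul_le_mul_of_nonneg_left h1 (by linarith)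
    linarith
  have hBn : supp (Bump K b (supp K b + s)) n = supp K n := by
    rw [hsupp n hn]
    apply max_eq_left
    have := hle n hn
    linarith
  refine ⟨?_, n, hn, ?_, ?_⟩
  · intro v _
    exact (inner_le_supp hKc hxK v).trans (le_max_left _ _)
  · rw [hBn]; exact hnx
  · rw [hBn]
    intro hf
    have h1 := hf w hw
    have h2 : max (supp K w) ((supp K b + s) * |⟪b, w⟫_ℝ|) ≤ supp K w + s := by
      apply max_le
      · linarith
      · have h3 := hle w hw
        have h4 := hmin w hw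
        linarith
    linarith


end N_bump_persist

alias bump_persist := N_bump_persist.bump_persist

end Pool.Agent.Helper524.Mono
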