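import Pool.Agent.Helper524.Mono.Gen

set_option autoImplicit false

open MeasureTheory Set Metric
open scoped InnerProductSpace

namespace Pool.Agent.Helper524.Mono

namespace N_com_mem_interior


/-- TARGET -/
theorem com_mem_interior (K : Set E3) (hK : IsBody K) : com K ∈ interior K := by
  obtain ⟨hc, hcv, hne⟩ := hK
  by_contra hcom
  obtain ⟨f, hf⟩ := geometric_hahn_banach_open_point hcv.interior isOpen_interior hcom
  have hcl : ∀ x ∈ K, f x ≤ f (com K) := by
    intro x hx
    have h1 : x ∈ closure (interior K) := by
      rw [hcv.closure_interior_eq_closure_of_nonempty_interior hne]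
      exact subset_closure hx
    exact le_on_closure (fun y hy => (hf y hy).le) f.continuous.continuousOn
      continuousOn_const h1
  have hvol : 0 < volume K :=
    lt_of_lt_of_le (isOpen_interior.measure_pos volume hne) (measure_mono interior_subset)
  have hfin : volume K ≠ ⊤ := hc.measure_lt_top.ne
  have hreal : 0 < volume.real K := ENNReal.toReal_pos hvol.ne' hfin
  have hint : IntegrableOn (fun x : E3 => x) K := continuousOn_id.integrableOn_compact hc
  have hintf : IntegrableOn (fun x => f x) K :=
    f.continuous.continuousOn.integrableOn_compact hc
  have hconst : IntegrableOn (fun _ : E3 => f (com K)) K :=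
    continuousOn_const.integrableOn_compact hc
  have h1 : ∫ x in K, f x = volume.real K * f (com K) := by
    rw [com, map_smul, smul_eq_mul, ← mul_assoc, mul_inv_cancel₀ hreal.ne', one_mul]
    exact f.integral_comp_comm hint
  have h2 : ∫ x in K, (f (com K) - f x) = 0 := by
    rw [integral_sub hconst hintf, h1, setIntegral_const, smul_eq_mul, sub_self]
  have h3 : 0 < ∫ x in K, (f (com K) - f x) := by
    rw [setIntegral_pos_iff_support_of_nonneg_ae]
    · refine lt_of_lt_of_le (isOpen_interior.measure_pos volume hne) (measure_mono ?_)
      intro x hx
      refine ⟨?_, interior_subset hx⟩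
      rw [Function.mem_support]
      have := hf x hx
      linarith
    · rw [Filter.EventuallyLE, ae_restrict_iff' hc.measurableSet]
      refine Filter.Eventually.of_forall fun x hx => ?_
      have := hcl x hx
      show (0 : ℝ) ≤ f (com K) - f x
      linarith
    · exact hconst.sub hintf
  exact h3.ne' h2


end N_com_mem_interior

alias com_mem_interior := N_com_mem_interior.com_mem_interior

end Pool.Agent.Helper524.Mono
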