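import Pool.Agent.Helper524.Mono.Gen
import Pool.Agent.Helper524.Mono.S_com_mem_interior

set_option autoImplicit false

open MeasureTheory Set Metric
open scoped InnerProductSpace

namespace Pool.Agent.Helper524.Mono

namespace N_centered




/-- TARGET -/
theorem centered (K : Set E3) (hK : IsBody K) :
    CB ((fun x => x - com K) '' K) ∧
      ∀ u : E3, supp ((fun x => x - com K) '' K) u = height K u := by
  have hne : K.Nonempty := hK.2.2.mono interior_subset
  have hcomp : IsCompact ((fun x => x - com K) '' K) := hK.1.image (by fun_prop)
  have hne' : ((fun x => x - com K) '' K).Nonempty := hne.image _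
  refine ⟨⟨hcomp, ?_, ?_, ?_⟩, ?_⟩
  · have h1 : (fun x => x - com K) '' K = (fun x => -com K + x) '' K := by
      congr 1
      funext x
      abel
    rw [h1]
    exact hK.2.1.translate _
  · have h1 := (Homeomorph.subRight (com K)).image_interior K
    have h2 : (0 : E3) ∈ (Homeomorph.subRight (com K)) '' interior K :=
      ⟨com K, com_mem_interior K hK, by simp⟩
    rw [h1] at h2
    exact h2
  · have hvol : 0 < volume.real K := by
      refine ENNReal.toReal_pos ?_ hK.1.measure_lt_top.ne
      exact (Measure.measure_pos_of_nonempty_interior volume hK.2.2).ne'
    have h1 : ∫ x in (fun x => x - com K) '' K, x = ∫ x in K, (x - com K) :=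
      (measurePreserving_sub_right volume (com K)).setIntegral_image_emb
        (MeasurableEquiv.subRight (com K)).measurableEmbedding (fun x => x) K
    have hint : IntegrableOn (fun x : E3 => x) K volume :=
      continuousOn_id.integrableOn_compact hK.1
    have hint2 : IntegrableOn (fun _ : E3 => com K) K volume :=
      continuousOn_const.integrableOn_compact hK.1
    rw [h1, integral_sub hint hint2, setIntegral_const]
    have h3 : volume.real K • com K = ∫ x in K, x := by
      rw [com, smul_smul, mul_inv_cancel₀ hvol.ne', one_smul]
    rw [h3, sub_self]
  · intro u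
    rw [height]
    refine le_antisymm (supp_le hne' ?_) ?_
    · rintro _ ⟨x, hx, rfl⟩
      simp only
      rw [inner_sub_right]
      have := inner_le_supp hK.1 hx u
      linarith
    · obtain ⟨x, hx, hxe⟩ := exists_supp hK.1 hne u
      have h1 := inner_le_supp hcomp (⟨x, hx, rfl⟩ : x - com K ∈ (fun x => x - com K) '' K) u
      rw [inner_sub_right, hxe] at h1
      exact h1


end N_centered

alias centered := N_centered.centered

end Pool.Agent.Helper524.Mono
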