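import Pool.Agent.Helper524.Mono.S_moment_close

set_option autoImplicit false

open MeasureTheory Set Metric
open scoped InnerProductSpace

namespace Pool.Agent.Helper524.Mono

namespace N_com_close




/-- the translated set -/
def tr (c : E3) (K : Set E3) : Set E3 := (fun x => x - c) '' K

lemma tr_compact {K : Set E3} (hK : IsCompact K) (c : E3) : IsCompact (tr c K) :=
  hK.image (by fun_prop)

lemma tr_convex {K : Set E3} (hK : Convex ℝ K) (c : E3) : Convex ℝ (tr c K) := by
  have h := hK.translate (-c)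
  have h2 : tr c K = (fun z => -c + z) '' K := by
    unfold tr
    congr 1
    funext x
    abel
  rw [h2]
  exact h

lemma tr_integral (K : Set E3) (c : E3) : ∫ x in tr c K, x = ∫ x in K, (x - c) :=
  (measurePreserving_sub_right (volume : Measure E3) c).setIntegral_image_emb
    (MeasurableEquiv.subRight c).measurableEmbedding (fun x => x) K

lemma tr_volume (K : Set E3) (c : E3) : volume (tr c K) = volume K := by
  have h := (measurePreserving_sub_right (volume : Measure E3) c).measure_preimage_emb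
    (MeasurableEquiv.subRight c).measurableEmbedding (tr c K)
  rw [← h]
  congr 1
  unfold tr
  exact preimage_image_eq K (sub_left_injective)

lemma com_tr {K : Set E3} (hK : IsCompact K) (hp : 0 < volume.real K) (c : E3) :
    com K = c + (volume.real (tr c K))⁻¹ • ∫ x in tr c K, x := by
  have h0 : volume.real (tr c K) = volume.real K := by
    unfold Measure.real
    rw [tr_volume]
  have h1 : IntegrableOn (fun x : E3 => x) K volume :=
    continuous_id.continuousOn.integrableOn_compact hK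
  have h2 : IntegrableOn (fun _ : E3 => c) K volume :=
    continuousOn_const.integrableOn_compact hK
  rw [tr_integral, h0, integral_sub h1 h2, setIntegral_const, smul_sub, smul_smul,
    inv_mul_cancel₀ hp.ne', one_smul]
  unfold com
  abel

lemma supp_near {K P : Set E3} (_hK : IsCompact K) (hKn : K.Nonempty) (hP : IsCompact P)
    {δ : ℝ} (h : ∀ x ∈ K, ∃ y ∈ P, dist x y < δ) {u : E3} (hu : ‖u‖ = 1) :
    supp K u ≤ supp P u + δ := by
  refine supp_le hKn fun x hx => ?_
  obtain ⟨y, hy, hxy⟩ := h x hx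
  have h1 := inner_le_supp hP hy u
  have h2 : ⟪u, x⟫_ℝ = ⟪u, y⟫_ℝ + ⟪u, x - y⟫_ℝ := by rw [inner_sub_right]; ring
  have h3 : ⟪u, x - y⟫_ℝ ≤ ‖u‖ * ‖x - y‖ := real_inner_le_norm _ _
  rw [hu, one_mul, ← dist_eq_norm] at h3
  linarith

/-- TARGET -/
theorem com_close (K : Set E3) (hK : IsBody K) (ε : ℝ) (hε : 0 < ε) :
    ∃ δ : ℝ, 0 < δ ∧ ∀ P : Set E3, IsBody P → hausdorffDist K P < δ → ‖com K - com P‖ < ε := by
  obtain ⟨hKc, hKv, c, hc⟩ := hK
  have hKne : K.Nonempty := ⟨c, interior_subset hc⟩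
  obtain ⟨ρ, hρ, hball⟩ := Metric.nhds_basis_closedBall.mem_iff.1 (mem_interior_iff_mem_nhds.1 hc)
  obtain ⟨R0, hR0⟩ := hKc.isBounded.subset_closedBall c
  set R : ℝ := max R0 1 with hRdef
  have hR : 0 < R := lt_of_lt_of_le one_pos (le_max_right _ _)
  have hKR : K ⊆ closedBall c R := hR0.trans (closedBall_subset_closedBall (le_max_left _ _))
  have hvol : ∀ P : Set E3, IsBody P → 0 < volume.real P := by
    intro P hP
    have h1 : 0 < volume P := Measure.measure_pos_of_nonempty_interior _ hP.2.2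
    exact ENNReal.toReal_pos h1.ne' hP.1.measure_lt_top.ne
  have hVK := hvol K ⟨hKc, hKv, c, hc⟩
  have hVK' : volume.real (tr c K) = volume.real K := by
    unfold Measure.real
    rw [tr_volume]
  have hcont : ContinuousAt (fun p : ℝ × E3 => p.1⁻¹ • p.2)
      (volume.real (tr c K), ∫ x in tr c K, x) := by
    refine ContinuousAt.smul (ContinuousAt.inv₀ continuousAt_fst ?_) continuousAt_snd
    simp only [hVK']
    exact hVK.ne'
  obtain ⟨η, hη, hηc⟩ := Metric.continuousAt_iff.1 hcont ε hε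
  obtain ⟨t0, ht0, ht1, hmom⟩ := moment_close R η hR hη
  set δ : ℝ := min (ρ / 4) (ρ * (1 - t0) / 2) with hδ
  have hδ0 : 0 < δ := lt_min (by positivity) (by
    have : 0 < 1 - t0 := by linarith
    positivity)
  have hδ1 : δ ≤ ρ / 4 := min_le_left _ _
  have hδ2 : δ ≤ ρ * (1 - t0) / 2 := min_le_right _ _
  refine ⟨δ, hδ0, fun P hP hd => ?_⟩
  obtain ⟨hPc, hPv, hPi⟩ := hP
  have hPne : P.Nonempty := hPi.mono interior_subset
  have hfin : hausdorffEDist K P ≠ ⊤ :=
    hausdorffEDist_ne_top_of_nonempty_of_bounded hKne hPne hKc.isBounded hPc.isBounded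
  have hKP : ∀ x ∈ tr c K, ∃ y ∈ tr c P, dist x y < δ := by
    rintro _ ⟨x, hx, rfl⟩
    obtain ⟨y, hy, hxy⟩ := exists_dist_lt_of_hausdorffDist_lt hx hd hfin
    refine ⟨y - c, ⟨y, hy, rfl⟩, ?_⟩
    simpa [dist_eq_norm] using hxy
  have hPK : ∀ x ∈ tr c P, ∃ y ∈ tr c K, dist x y < δ := by
    rintro _ ⟨x, hx, rfl⟩
    obtain ⟨y, hy, hxy⟩ := exists_dist_lt_of_hausdorffDist_lt' hx hd hfin
    refine ⟨y - c, ⟨y, hy, rfl⟩, ?_⟩
    rw [dist_comm] at hxy
    simpa [dist_eq_norm] using hxy
  have hKt := tr_compact hKc c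
  have hPt := tr_compact hPc c
  have hKtn : (tr c K).Nonempty := hKne.image _
  have hPtn : (tr c P).Nonempty := hPne.image _
  have hKtv := tr_convex hKv c
  have hPtv := tr_convex hPv c
  have hballt : closedBall (0 : E3) ρ ⊆ tr c K := by
    intro x hx
    refine ⟨x + c, hball ?_, by simp⟩
    rw [mem_closedBall, dist_eq_norm]
    rw [mem_closedBall_zero_iff] at hx
    simpa using hx
  have hs1 : ∀ u : E3, ‖u‖ = 1 → ρ ≤ supp (tr c K) u := fun u hu =>
    le_supp_of_ball hKt hρ.le hballt hu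
  have hs2 : ∀ u : E3, ‖u‖ = 1 → supp (tr c K) u ≤ supp (tr c P) u + δ := fun u hu =>
    supp_near hKt hKtn hPt hKP hu
  have hs3 : ∀ u : E3, ‖u‖ = 1 → supp (tr c P) u ≤ supp (tr c K) u + δ := fun u hu =>
    supp_near hPt hPtn hKt hPK hu
  set t : ℝ := 1 - 2 * δ / ρ with ht
  have htρ : (1 - t) * ρ = 2 * δ := by
    rw [ht]; field_simp; ring
  have ht_lt : t < 1 := by
    rw [ht]
    have : 0 < 2 * δ / ρ := by positivity
    linarith
  have ht_ge : t0 ≤ t := by
    by_contra hcon
    rw [not_le] at hcon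
    have : (1 - t0) * ρ < (1 - t) * ρ := mul_lt_mul_of_pos_right (by linarith) hρ
    nlinarith
  have htpos : 0 ≤ t := by linarith
  have h0K : (0 : E3) ∈ tr c K := ⟨c, interior_subset hc, by simp⟩
  have h0P : (0 : E3) ∈ tr c P := by
    refine mem_of_inner_le_supp hPt hPtv hPtn fun u hu => ?_
    rw [inner_zero_right]
    have := hs1 u hu
    have := hs2 u hu
    linarith
  have hKR' : tr c K ⊆ closedBall 0 R := by
    rintro _ ⟨x, hx, rfl⟩
    have := hKR hx
    rw [mem_closedBall, dist_eq_norm] at this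
    rw [mem_closedBall_zero_iff]
    exact this
  have hA : ∀ x ∈ tr c K, t • x ∈ tr c P := by
    intro x hx
    refine mem_of_inner_le_supp hPt hPtv hPtn fun u hu => ?_
    rw [real_inner_smul_right]
    have h1 := inner_le_supp hKt hx u
    have h2 := hs1 u hu
    have h3 := hs2 u hu
    have h4 := mul_le_mul_of_nonneg_left h1 htpos
    have h5 := mul_le_mul_of_nonneg_left h2 (by linarith : 0 ≤ 1 - t)
    nlinarith
  have hB : ∀ x ∈ tr c P, t • x ∈ tr c K := by
    intro x hx
    refine mem_of_inner_le_supp hKt hKtv hKtn fun u hu => ?_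
    rw [real_inner_smul_right]
    have h1 := inner_le_supp hPt hx u
    have h2 := hs1 u hu
    have h3 := hs2 u hu
    have h3' := hs3 u hu
    have h4 := mul_le_mul_of_nonneg_left h1 htpos
    have h6 : ρ / 2 ≤ supp (tr c P) u := by linarith
    have h5 := mul_le_mul_of_nonneg_left h6 (by linarith : 0 ≤ 1 - t)
    nlinarith
  obtain ⟨hm1, hm2⟩ := hmom t ht_ge ht_lt (tr c K) (tr c P) hKt hKtv hPt h0K h0P hKR' hA hB
  have hfinal := hηc (x := (volume.real (tr c P), ∫ x in tr c P, x)) (by
    rw [Prod.dist_eq]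
    refine max_lt ?_ ?_
    · rw [Real.dist_eq, abs_sub_comm]; exact hm2
    · rw [dist_comm, dist_eq_norm]; exact hm1)
  rw [com_tr hKc hVK c, com_tr hPc (hvol P ⟨hPc, hPv, hPi⟩) c, add_sub_add_left_eq_sub,
    ← dist_eq_norm, dist_comm]
  exact hfinal


end N_com_close

alias com_close := N_com_close.com_close

end Pool.Agent.Helper524.Mono
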