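import Pool.Agent.Helper524.Mono.Gen

set_option autoImplicit false

open MeasureTheory Set Metric
open scoped InnerProductSpace

namespace Pool.Agent.Helper524.Mono

namespace N_face_inj


/-- TARGET 1 -/
theorem face_inj (P : Set E3) (hP : (interior P).Nonempty) (u v : E3) (hu : ‖u‖ = 1)
    (hv : ‖v‖ = 1) (hdim : Module.finrank ℝ (vectorSpan ℝ (face P u)) = 2)
    (h : face P u = face P v) : u = v := by
  have horth : ∀ w : E3, face P w = face P u → w ∈ (vectorSpan ℝ (face P u))ᗮ := by
    intro w hw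
    rw [Submodule.mem_orthogonal]
    have h1 : vectorSpan ℝ (face P u) ≤ (Submodule.span ℝ {w})ᗮ := by
      rw [vectorSpan_def, Submodule.span_le]
      rintro _ ⟨a, ha, b, hb, rfl⟩
      rw [← hw] at ha hb
      rw [SetLike.mem_coe, Submodule.mem_orthogonal_singleton_iff_inner_right]
      show ⟪w, a - b⟫_ℝ = 0
      rw [inner_sub_right]
      have e1 := ha.2 b hb.1
      have e2 := hb.2 a ha.1
      linarith
    intro z hz
    have h2 := h1 hz
    rw [Submodule.mem_orthogonal_singleton_iff_inner_left] at h2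
    exact h2
  have hdim2 : Module.finrank ℝ ((vectorSpan ℝ (face P u))ᗮ : Submodule ℝ E3) = 1 := by
    have h1 := Submodule.finrank_add_finrank_orthogonal (vectorSpan ℝ (face P u))
    have h2 : Module.finrank ℝ E3 = 3 := by simp
    omega
  have hu1 := horth u rfl
  have hv1 := horth v h.symm
  have hu0 : (⟨u, hu1⟩ : ((vectorSpan ℝ (face P u))ᗮ : Submodule ℝ E3)) ≠ 0 := by
    intro h0
    have h1 := congrArg Subtype.val h0
    simp only [ZeroMemClass.coe_zero] at h1
    rw [h1, norm_zero] at hu
    exact zero_ne_one hu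
  obtain ⟨c, hc⟩ := (finrank_eq_one_iff_of_nonzero' _ hu0).1 hdim2 ⟨v, hv1⟩
  have hcv : c • u = v := congrArg Subtype.val hc
  have hcn : |c| = 1 := by
    have := congrArg norm hcv
    rw [norm_smul, hu, hv, mul_one, Real.norm_eq_abs] at this
    exact this
  rcases eq_or_eq_neg_of_abs_eq hcn with h1 | h1
  · rw [h1, one_smul] at hcv
    exact hcv
  · exfalso
    rw [h1, neg_one_smul] at hcv
    have hne : (face P u).Nonempty := by
      by_contra h2
      rw [Set.not_nonempty_iff_eq_empty] at h2
      rw [h2, vectorSpan_empty, finrank_bot] at hdim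
      omega
    obtain ⟨x, hx⟩ := hne
    have hx2 := hx
    rw [h, ← hcv] at hx2
    have hconst : ∀ y ∈ P, ⟪u, y⟫_ℝ = ⟪u, x⟫_ℝ := by
      intro y hy
      have e1 := hx.2 y hy
      have e2 := hx2.2 y hy
      rw [inner_neg_left, inner_neg_left] at e2
      linarith
    obtain ⟨y, hy⟩ := hP
    obtain ⟨r, hr, hball⟩ := Metric.isOpen_iff.1 isOpen_interior y hy
    have h3 : y + (r / 2) • u ∈ P := by
      apply interior_subset
      apply hball
      rw [Metric.mem_ball, dist_eq_norm, add_sub_cancel_left, norm_smul, hu, mul_one,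
        Real.norm_eq_abs, abs_of_pos (by linarith)]
      linarith
    have h4 := hconst _ h3
    have h5 := hconst _ (interior_subset hy)
    rw [inner_add_right, inner_smul_right, real_inner_self_eq_norm_sq, hu] at h4
    linarith

theorem supp_aux_le (K P : Set E3) (hK : IsCompact K) (hP : IsCompact P)
    (hKn : K.Nonempty) (hPn : P.Nonempty) (u : E3) (hu : ‖u‖ = 1) :
    supp K u - supp P u ≤ hausdorffDist K P := by
  obtain ⟨x, hx, hxe⟩ := exists_supp hK hKn u
  refine le_of_forall_pos_le_add fun ε hε => ?_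
  have hfin : Metric.hausdorffEDist K P ≠ ⊤ :=
    Metric.hausdorffEDist_ne_top_of_nonempty_of_bounded hKn hPn hK.isBounded hP.isBounded
  obtain ⟨y, hy, hxy⟩ := Metric.exists_dist_lt_of_hausdorffDist_lt hx
    (show hausdorffDist K P < hausdorffDist K P + ε by linarith) hfin
  have h1 := inner_le_supp hP hy u
  have h2 : ⟪u, x⟫_ℝ - ⟪u, y⟫_ℝ ≤ ‖u‖ * ‖x - y‖ := by
    rw [← inner_sub_right]
    exact real_inner_le_norm _ _
  rw [hu, one_mul, ← dist_eq_norm] at h2
  linarith

/-- TARGET 2 -/
theorem supp_sub_supp_le (K P : Set E3) (hK : IsCompact K) (hP : IsCompact P)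
    (hKn : K.Nonempty) (hPn : P.Nonempty) (u : E3) (hu : ‖u‖ = 1) :
    |supp K u - supp P u| ≤ hausdorffDist K P := by
  rw [abs_sub_le_iff]
  refine ⟨supp_aux_le K P hK hP hKn hPn u hu, ?_⟩
  rw [Metric.hausdorffDist_comm]
  exact supp_aux_le P K hP hK hPn hKn u hu


end N_face_inj

alias face_inj := N_face_inj.face_inj
alias supp_sub_supp_le := N_face_inj.supp_sub_supp_le

end Pool.Agent.Helper524.Mono
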