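import Pool.Agent.Helper524.Mono.S_stable_of_active
import Pool.Agent.Helper524.Mono.S_com_mem_interior

set_option autoImplicit false

open MeasureTheory Set Metric
open scoped InnerProductSpace

namespace Pool.Agent.Helper524.Mono

namespace N_stable_of_localMin






lemma convex_poly' (T : Finset (E3 × ℝ)) : Convex ℝ (poly T) := by
  intro x hx y hy a b ha hb hab p hp
  rw [inner_add_right, real_inner_smul_right, real_inner_smul_right]
  have h1 := hx p hp
  have h2 := hy p hp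
  calc a * ⟪p.1, x⟫_ℝ + b * ⟪p.1, y⟫_ℝ ≤ a * p.2 + b * p.2 :=
        add_le_add (mul_le_mul_of_nonneg_left h1 ha) (mul_le_mul_of_nonneg_left h2 hb)
    _ = p.2 := by rw [← add_mul, hab, one_mul]

lemma poly_filter' (T : Finset (E3 × ℝ)) (hne : (poly T).Nonempty) :
    ∃ T' : Finset (E3 × ℝ), poly T = poly T' ∧ ∀ p ∈ T', p.1 ≠ 0 := by
  classical
  refine ⟨T.filter (fun p => p.1 ≠ 0), ?_, fun p hp => (Finset.mem_filter.mp hp).2⟩
  obtain ⟨y, hy⟩ := hne
  ext x
  constructor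
  · intro hx p hp
    exact hx p (Finset.mem_filter.mp hp).1
  · intro hx p hp
    by_cases h0 : p.1 = 0
    · have := hy p hp
      rw [h0, inner_zero_left] at this ⊢
      exact this
    · exact hx p (Finset.mem_filter.mpr ⟨hp, h0⟩)

/-- the local minimum property contradicts a uniform decrease in some direction -/
lemma no_descent' (P : Set E3) (hP : IsCompact P) (hne : P.Nonempty) (c : E3) (hc : c = com P)
    (u1 : E3) (hu1 : ‖u1‖ = 1)
    (δ : ℝ) (hδ : 0 < δ)
    (hmin : ∀ u : E3, ‖u‖ = 1 → ‖u - u1‖ < δ → height P u1 ≤ height P u)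
    (v : E3) (hv : ‖v‖ = 1)
    (hlt : ∀ s : ℝ, 0 < s → s < 1 →
      supp P (u1 + s • v) - ⟪u1 + s • v, c⟫_ℝ < height P u1 * ‖u1 + s • v‖) : False := by
  obtain ⟨s, hs⟩ : ∃ s, s = min (δ / 4) (1 / 2) := ⟨_, rfl⟩
  have hs0 : 0 < s := by rw [hs]; exact lt_min (by positivity) (by norm_num)
  have hs1 : s ≤ 1 / 2 := by rw [hs]; exact min_le_right _ _
  have hs2 : s ≤ δ / 4 := by rw [hs]; exact min_le_left _ _
  obtain ⟨w, hw⟩ : ∃ w, w = u1 + s • v := ⟨_, rfl⟩
  have h1 := hlt s hs0 (by linarith)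
  rw [← hw] at h1
  have hsv : ‖w - u1‖ = s := by
    rw [hw, add_sub_cancel_left, norm_smul, hv, mul_one, Real.norm_eq_abs, abs_of_pos hs0]
  have hw1 : |1 - ‖w‖| ≤ s := by
    have := abs_norm_sub_norm_le w u1
    rw [hsv, hu1, abs_sub_comm] at this
    exact this
  have hwpos : 0 < ‖w‖ := by
    have := (abs_le.mp hw1).2
    linarith
  obtain ⟨u, hu⟩ : ∃ u, u = ‖w‖⁻¹ • w := ⟨_, rfl⟩
  have hun : ‖u‖ = 1 := by
    rw [hu, norm_smul, norm_inv, norm_norm, inv_mul_cancel₀ hwpos.ne']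
  have hwu : w = ‖w‖ • u := by
    rw [hu, smul_smul, mul_inv_cancel₀ hwpos.ne', one_smul]
  have hclose : ‖u - u1‖ < δ := by
    have e1 : u - u1 = (1 - ‖w‖) • u + (w - u1) := by
      rw [sub_smul, one_smul, ← hwu]; abel
    have e2 : ‖u - u1‖ ≤ |1 - ‖w‖| + s := by
      rw [e1]
      refine (norm_add_le _ _).trans ?_
      rw [norm_smul, hun, mul_one, hsv, Real.norm_eq_abs]
    linarith
  have h2 := hmin u hun hclose
  have h3 : supp P w - ⟪w, c⟫_ℝ = ‖w‖ * height P u := by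
    unfold height
    rw [← hc]
    have e3 : supp P w = ‖w‖ * supp P u := by
      conv_lhs => rw [hwu]
      exact supp_smul_right hP hne hwpos.le u
    have e4 : ⟪w, c⟫_ℝ = ‖w‖ * ⟪u, c⟫_ℝ := by
      conv_lhs => rw [hwu]
      rw [real_inner_smul_left]
    rw [e3, e4]; ring
  rw [h3] at h1
  have h4 := mul_le_mul_of_nonneg_left h2 hwpos.le
  linarith

/-- TARGET -/
theorem stable_of_localMin (P : Set E3) (hP : IsPolyhedron P) (u1 : E3) (hu1 : ‖u1‖ = 1)
    (δ : ℝ) (hδ : 0 < δ)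
    (hmin : ∀ u : E3, ‖u‖ = 1 → ‖u - u1‖ < δ → height P u1 ≤ height P u) :
    IsStable P (face P u1) := by
  obtain ⟨hcomp, hint, T₀, hPT₀⟩ := hP
  have hneP : P.Nonempty := hint.mono interior_subset
  obtain ⟨T, hTT, hT⟩ := poly_filter' T₀ (by rw [← hPT₀]; exact hneP)
  have hPT : P = poly T := hPT₀.trans hTT
  have hconv : Convex ℝ P := by rw [hPT]; exact convex_poly' T
  have hcint : com P ∈ interior P := com_mem_interior P ⟨hcomp, hconv, hint⟩
  obtain ⟨c, hc⟩ : ∃ c, c = com P := ⟨_, rfl⟩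
  rw [← hc] at hcint
  obtain ⟨ε, hε, hball⟩ := Metric.isOpen_iff.mp isOpen_interior c hcint
  have hpos : ∀ v : E3, ‖v‖ = 1 → 0 < supp P v - ⟪v, c⟫_ℝ := by
    intro v hv
    have h1 : c + (ε / 2) • v ∈ P := by
      apply interior_subset
      apply hball
      rw [Metric.mem_ball, dist_eq_norm, add_sub_cancel_left, norm_smul, hv, mul_one,
        Real.norm_eq_abs, abs_of_pos (by positivity)]
      linarith
    have h2 := inner_le_supp hcomp h1 v
    rw [inner_add_right, real_inner_smul_right, real_inner_self_eq_norm_sq, hv] at h2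
    nlinarith
  obtain ⟨h, hh⟩ : ∃ h, h = height P u1 := ⟨_, rfl⟩
  have hhdef : h = supp P u1 - ⟪u1, c⟫_ℝ := by rw [hh, hc]; rfl
  have hh0 : 0 < h := by rw [hhdef]; exact hpos u1 hu1
  obtain ⟨z, hz⟩ : ∃ z, z = c + h • u1 := ⟨_, rfl⟩
  have hzc : z - c = h • u1 := by rw [hz, add_sub_cancel_left]
  have hinz : ∀ v : E3, ⟪v, z⟫_ℝ = ⟪v, c⟫_ℝ + h * ⟪v, u1⟫_ℝ := by
    intro v
    rw [hz, inner_add_right, real_inner_smul_right]
  have hu11 : ⟪u1, u1⟫_ℝ = 1 := by rw [real_inner_self_eq_norm_sq, hu1]; norm_num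
  -- upper bound of the height function along a segment
  have hup : ∀ v : E3, ∀ s : ℝ, 0 < s →
      supp P (u1 + s • v) - ⟪u1 + s • v, c⟫_ℝ ≤ h + s * (supp P v - ⟪v, c⟫_ℝ) := by
    intro v s hs
    have h1 := supp_add_le hcomp hneP u1 (s • v)
    rw [supp_smul_right hcomp hneP hs.le] at h1
    rw [inner_add_left, real_inner_smul_left, hhdef]
    nlinarith
  have hCS : ∀ w : E3, ⟪w, u1⟫_ℝ ≤ ‖w‖ := by
    intro w
    have := real_inner_le_norm w u1
    rwa [hu1, mul_one] at this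
  -- claim 1
  have hzP : z ∈ P := by
    by_contra hzn
    obtain ⟨v, hv, hvlt⟩ := exists_sep hcomp hconv hneP hzn
    rw [hinz] at hvlt
    apply no_descent' P hcomp hneP c hc u1 hu1 δ hδ hmin v hv
    intro s hs _
    rw [← hh]
    have h1 := hup v s hs
    have h2 : s * (supp P v - ⟪v, c⟫_ℝ) < s * (h * ⟪v, u1⟫_ℝ) :=
      mul_lt_mul_of_pos_left (by linarith) hs
    have h3 : ⟪u1 + s • v, u1⟫_ℝ = 1 + s * ⟪v, u1⟫_ℝ := by
      rw [inner_add_left, real_inner_smul_left, hu11]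
    have h4 := mul_le_mul_of_nonneg_left (hCS (u1 + s • v)) hh0.le
    rw [h3] at h4
    nlinarith
  have hzsupp : ⟪u1, z⟫_ℝ = supp P u1 := by
    rw [hinz, hu11, hhdef]; ring
  -- claim 2
  have hact : ∃ p ∈ T, ⟪p.1, z⟫_ℝ = p.2 := by
    by_contra hno
    push Not at hno
    have hstrict : ∀ p ∈ T, ⟪p.1, z⟫_ℝ < p.2 := by
      intro p hp
      rw [hPT] at hzP
      exact lt_of_le_of_ne (hzP p hp) (hno p hp)
    have hopen : IsOpen (⋂ p ∈ T, {x : E3 | ⟪p.1, x⟫_ℝ < p.2}) :=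
      isOpen_biInter_finset fun p _ => isOpen_lt (by fun_prop) continuous_const
    have hzmem : z ∈ ⋂ p ∈ T, {x : E3 | ⟪p.1, x⟫_ℝ < p.2} := by
      simp only [Set.mem_iInter]
      exact hstrict
    obtain ⟨e, he, heb⟩ := Metric.isOpen_iff.mp hopen z hzmem
    have h1 : z + (e / 2) • u1 ∈ ⋂ p ∈ T, {x : E3 | ⟪p.1, x⟫_ℝ < p.2} := by
      apply heb
      rw [Metric.mem_ball, dist_eq_norm, add_sub_cancel_left, norm_smul, hu1, mul_one,
        Real.norm_eq_abs, abs_of_pos (by positivity)]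
      linarith
    have h2 : z + (e / 2) • u1 ∈ P := by
      rw [hPT]
      intro p hp
      simp only [Set.mem_iInter] at h1
      exact (h1 p hp).le
    have h3 := inner_le_supp hcomp h2 u1
    rw [inner_add_right, real_inner_smul_right, hu11, hzsupp] at h3
    linarith
  -- claim 3
  have hall : ∀ p ∈ T, ⟪p.1, z⟫_ℝ = p.2 → ∃ t : ℝ, 0 < t ∧ p.1 = t • (z - c) := by
    intro p hp hpz
    have hp0 : 0 < ‖p.1‖ := norm_pos_iff.mpr (hT p hp)
    obtain ⟨v, hv⟩ : ∃ v, v = ‖p.1‖⁻¹ • p.1 := ⟨_, rfl⟩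
    have hvn : ‖v‖ = 1 := by
      rw [hv, norm_smul, norm_inv, norm_norm, inv_mul_cancel₀ hp0.ne']
    have hsv : supp P v ≤ ⟪v, z⟫_ℝ := by
      apply supp_le hneP
      intro y hy
      rw [hPT] at hy
      have h1 := hy p hp
      rw [hv, real_inner_smul_left, real_inner_smul_left, hpz]
      exact mul_le_mul_of_nonneg_left h1 (inv_nonneg.mpr hp0.le)
    rw [hinz] at hsv
    have hpv : p.1 = ‖p.1‖ • v := by
      rw [hv, smul_smul, mul_inv_cancel₀ hp0.ne', one_smul]
    have hvu : v = u1 := by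
      by_contra hvne
      have hlt1 : ⟪v, u1⟫_ℝ < 1 := (inner_lt_one_iff_real_of_norm_eq_one hvn hu1).mpr hvne
      have hgt0 : 0 < ⟪v, u1⟫_ℝ := by
        have h1 := hpos v hvn
        by_contra hle
        push Not at hle
        nlinarith
      apply no_descent' P hcomp hneP c hc u1 hu1 δ hδ hmin v hvn
      intro s hs _
      rw [← hh]
      have h1 := hup v s hs
      have h2 : s * (supp P v - ⟪v, c⟫_ℝ) ≤ s * (h * ⟪v, u1⟫_ℝ) :=
        mul_le_mul_of_nonneg_left (by linarith) hs.le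
      have h3 : ‖u1 + s • v‖ ^ 2 = 1 + 2 * (s * ⟪v, u1⟫_ℝ) + s ^ 2 := by
        rw [norm_add_sq_real, real_inner_smul_right, hu1, norm_smul, hvn, mul_one,
          Real.norm_eq_abs, sq_abs, real_inner_comm]
        ring
      have h4 : 1 + s * ⟪v, u1⟫_ℝ < ‖u1 + s • v‖ := by
        apply lt_of_pow_lt_pow_left₀ 2 (norm_nonneg _)
        rw [h3]
        have h5 : ⟪v, u1⟫_ℝ ^ 2 < 1 := by nlinarith
        have h6 : 0 < s ^ 2 := by positivity
        nlinarith
      have h5 := mul_lt_mul_of_pos_left h4 hh0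
      nlinarith
    refine ⟨‖p.1‖ / h, div_pos hp0 hh0, ?_⟩
    rw [hzc, smul_smul, div_mul_cancel₀ _ hh0.ne', ← hvu]
    exact hpv
  have hzne : z ≠ c := by
    intro h0
    rw [h0, sub_self] at hzc
    have : u1 = 0 := by
      rcases smul_eq_zero.mp hzc.symm with h1 | h1
      · exact absurd h1 hh0.ne'
      · exact h1
    rw [this, norm_zero] at hu1
    exact zero_ne_one hu1
  have hfin := stable_of_active T hT z (by rw [← hPT]; exact hzP) (by rw [← hPT, ← hc]; exact hzne)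
    hact (by rw [← hPT, ← hc]; exact hall)
  rw [← hPT, ← hc, hzc] at hfin
  have hface : face P (h • u1) = face P u1 := by
    ext x
    constructor
    · rintro ⟨hx, hy⟩
      refine ⟨hx, fun y hyP => ?_⟩
      have := hy y hyP
      rw [real_inner_smul_left, real_inner_smul_left] at this
      exact le_of_mul_le_mul_left this hh0
    · rintro ⟨hx, hy⟩
      refine ⟨hx, fun y hyP => ?_⟩
      rw [real_inner_smul_left, real_inner_smul_left]
      exact mul_le_mul_of_nonneg_left (hy y hyP) hh0.le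
  rw [hface] at hfin
  exact hfin


end N_stable_of_localMin

alias stable_of_localMin := N_stable_of_localMin.stable_of_localMin

end Pool.Agent.Helper524.Mono
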