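import Pool.Agent.Helper524.Mono.Gen
import Pool.Agent.Helper524.Mono.S_com_close
import Pool.Agent.Helper524.Mono.S_com_mem_interior
import Pool.Agent.Helper524.Mono.S_stable_of_localMin
import Pool.Agent.Helper524.Mono.S_face_inj

set_option autoImplicit false

open MeasureTheory Set Metric
open scoped InnerProductSpace

namespace Pool.Agent.Helper524.Mono

namespace N_necessity












lemma necessity_convex_poly (T : Finset (E3 × ℝ)) : Convex ℝ (poly T) := by
  intro x hx y hy s t hs ht hst p hp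
  have h1 := hx p hp
  have h2 := hy p hp
  rw [inner_add_right, real_inner_smul_right, real_inner_smul_right]
  have h3 : s * ⟪p.1, x⟫_ℝ ≤ s * p.2 := mul_le_mul_of_nonneg_left h1 hs
  have h4 : t * ⟪p.1, y⟫_ℝ ≤ t * p.2 := mul_le_mul_of_nonneg_left h2 ht
  have h5 : s * p.2 + t * p.2 = p.2 := by rw [← add_mul, hst, one_mul]
  linarith

lemma necessity_cont {K : Set E3} (hK : IsCompact K) (hne : K.Nonempty) :
    Continuous (height K) := by
  unfold height
  exact (continuous_supp hK hne).sub (by fun_prop)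

lemma necessity_key (K P : Set E3) (hK : IsBody K) (hP : IsPolyhedron P) (r e : ℝ) (he : 0 < e)
    (hclose : ∀ u : E3, ‖u‖ = 1 → |height P u - height K u| < e)
    (A B : Set E3) (hA : IsOpen A) (hB : IsOpen B)
    (hcov : {u : E3 | ‖u‖ = 1 ∧ height K u < r} ⊆ A ∪ B)
    (hne : ¬ ({u : E3 | ‖u‖ = 1 ∧ height K u < r} ∩ (A ∩ B)).Nonempty)
    (a : E3) (ha1 : ‖a‖ = 1) (haA : a ∈ A) (har : height K a ≤ r - 5 * e) :
    ∃ v : E3, ‖v‖ = 1 ∧ height K v < r ∧ v ∈ A ∧ IsStable P (face P v) := by
  have hKne : K.Nonempty := hK.2.2.mono interior_subset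
  have hPne : P.Nonempty := hP.2.1.mono interior_subset
  have hcK := necessity_cont hK.1 hKne
  have hcP := necessity_cont hP.1 hPne
  set C : Set E3 := (sphere (0 : E3) 1 ∩ {u | height K u ≤ r - 2 * e}) ∩ Bᶜ with hC
  have hCc : IsCompact C :=
    ((isCompact_sphere (0 : E3) 1).inter_right (isClosed_le hcK continuous_const)).inter_right
      hB.isClosed_compl
  have hAB : ∀ u : E3, ‖u‖ = 1 → height K u < r → u ∈ A → u ∉ B := fun u h1 h2 h3 h4 =>
    hne ⟨u, ⟨h1, h2⟩, h3, h4⟩
  have haC : a ∈ C := by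
    refine ⟨⟨by simpa using ha1, ?_⟩, hAB a ha1 (by linarith) haA⟩
    show height K a ≤ r - 2 * e
    linarith
  obtain ⟨v, hv, hmin⟩ := hCc.exists_isMinOn ⟨a, haC⟩ hcP.continuousOn
  have hv1 : ‖v‖ = 1 := by simpa using hv.1.1
  have hvr : height K v ≤ r - 2 * e := hv.1.2
  have hvB : v ∉ B := hv.2
  have hvA : v ∈ A := by
    rcases hcov ⟨hv1, by linarith⟩ with h | h
    · exact h
    · exact absurd h hvB
  have hva : height P v ≤ height P a := hmin haC
  have h1 := abs_lt.1 (hclose a ha1)
  have h2 := abs_lt.1 (hclose v hv1)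
  have hvlt : height K v < r - 2 * e := by linarith
  have hopen : IsOpen (A ∩ {u : E3 | height K u < r - 2 * e}) :=
    hA.inter (isOpen_lt hcK continuous_const)
  obtain ⟨δ, hδ, hball⟩ := Metric.isOpen_iff.1 hopen v ⟨hvA, hvlt⟩
  refine ⟨v, hv1, by linarith, hvA, stable_of_localMin P hP v hv1 δ hδ ?_⟩
  intro u hu1 hud
  have hu : u ∈ A ∩ {u : E3 | height K u < r - 2 * e} := hball (by
    rw [mem_ball, dist_eq_norm]; exact hud)
  have hur : height K u < r - 2 * e := hu.2
  refine hmin ⟨⟨by simpa using hu1, hur.le⟩, hAB u hu1 (by linarith) hu.1⟩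

/-- TARGET -/
theorem necessity (K : Set E3) (hK : IsBody K) (hA : Approximable K) : SingleBasin K := by
  intro r A B hAo hBo hcov hAne hBne
  obtain ⟨a, ⟨ha1, har⟩, haA⟩ := hAne
  obtain ⟨b, ⟨hb1, hbr⟩, hbB⟩ := hBne
  by_contra hne
  have hKne : K.Nonempty := hK.2.2.mono interior_subset
  set e : ℝ := min (r - height K a) (r - height K b) / 5 with he
  have he0 : 0 < e := by
    have : 0 < min (r - height K a) (r - height K b) := lt_min (by linarith) (by linarith)
    positivity
  have hea : height K a ≤ r - 5 * e := by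
    have := min_le_left (r - height K a) (r - height K b)
    rw [he]; linarith
  have heb : height K b ≤ r - 5 * e := by
    have := min_le_right (r - height K a) (r - height K b)
    rw [he]; linarith
  obtain ⟨δ, hδ, hcom⟩ := com_close K hK (e / 2) (by positivity)
  obtain ⟨P, ⟨hPp, hPu⟩, hPd⟩ := hA (min δ (e / 2)) (lt_min hδ (by positivity))
  have hPne : P.Nonempty := hPp.2.1.mono interior_subset
  have hPb : IsBody P := by
    refine ⟨hPp.1, ?_, hPp.2.1⟩
    obtain ⟨T, hT⟩ := hPp.2.2
    rw [hT]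
    exact necessity_convex_poly T
  have hclose : ∀ u : E3, ‖u‖ = 1 → |height P u - height K u| < e := by
    intro u hu
    have h1 : |supp K u - supp P u| ≤ hausdorffDist K P :=
      supp_sub_supp_le K P hK.1 hPp.1 hKne hPne u hu
    have h2 : ‖com K - com P‖ < e / 2 := hcom P hPb (hPd.trans_le (min_le_left _ _))
    have h3 : hausdorffDist K P < e / 2 := hPd.trans_le (min_le_right _ _)
    have h4 : height P u - height K u = -(supp K u - supp P u) + ⟪u, com K - com P⟫_ℝ := by
      unfold height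
      rw [inner_sub_right]; ring
    have h5 : |⟪u, com K - com P⟫_ℝ| ≤ ‖com K - com P‖ := by
      have := abs_real_inner_le_norm u (com K - com P)
      rwa [hu, one_mul] at this
    rw [h4]
    calc |-(supp K u - supp P u) + ⟪u, com K - com P⟫_ℝ|
        ≤ |-(supp K u - supp P u)| + |⟪u, com K - com P⟫_ℝ| := abs_add_le _ _
      _ < e := by rw [abs_neg]; linarith
  obtain ⟨v, hv1, hvr, hvA, hvs⟩ := necessity_key K P hK hPp r e he0 hclose A B hAo hBo hcov hne
    a ha1 haA hea
  obtain ⟨w, hw1, hwr, hwB, hws⟩ := necessity_key K P hK hPp r e he0 hclose B A hBo hAo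
    (by rwa [union_comm]) (by rwa [inter_comm B A]) b hb1 hbB heb
  have hface : face P v = face P w := hPu.unique hvs hws
  have hdim : Module.finrank ℝ (vectorSpan ℝ (face P v)) = 2 := by
    obtain ⟨u, _, _, h⟩ := hvs.1
    exact h
  have hvw : v = w := face_inj P hPp.2.1 v w hv1 hw1 hdim hface
  exact hne ⟨v, ⟨hv1, hvr⟩, hvA, hvw ▸ hwB⟩


end N_necessity

alias necessity := N_necessity.necessity

end Pool.Agent.Helper524.Mono
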