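import Pool.Agent.Helper524.Mono.Gen

set_option autoImplicit false

open MeasureTheory Set Metric
open scoped InnerProductSpace

namespace Pool.Agent.Helper524.Mono

namespace N_radial_backward


lemma rb_normal {K : Set E3} (hK : IsCompact K) (hc : Convex ℝ K) (h0 : (0 : E3) ∈ interior K)
    {x : E3} (hx : x ∈ frontier K) : ∃ n : E3, ‖n‖ = 1 ∧ ⟪n, x⟫_ℝ = supp K n := by
  have hxK : x ∈ K := hK.isClosed.frontier_subset hx
  have hxi : x ∉ interior K := hx.2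
  obtain ⟨f, hf0, hf⟩ := geometric_hahn_banach_of_nonempty_interior_point hc hxi ⟨0, h0⟩
  set w : E3 := (InnerProductSpace.toDual ℝ E3).symm f with hw
  have hfw : ∀ y, f y = ⟪w, y⟫_ℝ := fun y => by
    rw [hw, InnerProductSpace.toDual_symm_apply]
  have hw0 : w ≠ 0 := by
    intro h1
    apply hf0
    ext y
    rw [hfw, h1, inner_zero_left]
    rfl
  have hwn : 0 < ‖w‖ := norm_pos_iff.2 hw0
  have hsup : ⟪w, x⟫_ℝ = supp K w := by
    refine le_antisymm (inner_le_supp hK hxK w) (supp_le ⟨x, hxK⟩ fun y hy => ?_)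
    rw [← hfw, ← hfw]
    exact hf y hy
  refine ⟨‖w‖⁻¹ • w, by rw [norm_smul, norm_inv, norm_norm, inv_mul_cancel₀ hwn.ne'], ?_⟩
  rw [supp_smul_right hK ⟨x, hxK⟩ (inv_nonneg.2 hwn.le), real_inner_smul_left, hsup]

lemma rb_arc {S : Set E3} {a b : E3} (ha : ‖a‖ = 1) (hb : ‖b‖ = 1)
    (h : ∀ t : ℝ, 0 ≤ t → t ≤ 1 → (1 - t) • a + t • b ≠ 0 ∧
      ‖(1 - t) • a + t • b‖⁻¹ • ((1 - t) • a + t • b) ∈ S) :
    ∃ A : Set E3, A ⊆ S ∧ a ∈ A ∧ b ∈ A ∧ IsPreconnected A := by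
  refine ⟨(fun t : ℝ => ‖(1 - t) • a + t • b‖⁻¹ • ((1 - t) • a + t • b)) '' Icc 0 1,
    ?_, ?_, ?_, ?_⟩
  · rintro _ ⟨t, ht, rfl⟩
    exact (h t ht.1 ht.2).2
  · exact ⟨0, ⟨le_rfl, zero_le_one⟩, by simp [ha]⟩
  · exact ⟨1, ⟨zero_le_one, le_rfl⟩, by simp [hb]⟩
  · apply isPreconnected_Icc.image
    intro t ht
    have h1 : ContinuousAt (fun t : ℝ => (1 - t) • a + t • b) t := by fun_prop
    have h2 : ‖(1 - t) • a + t • b‖ ≠ 0 := norm_ne_zero_iff.2 (h t ht.1 ht.2).1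
    exact ((h1.norm.inv₀ h2).smul h1).continuousWithinAt

lemma rb_norm_smul {w : E3} (hw : w ≠ 0) : ‖(‖w‖⁻¹ • w : E3)‖ = 1 := by
  rw [norm_smul, norm_inv, norm_norm, inv_mul_cancel₀ (norm_ne_zero_iff.2 hw)]

/-- the normal cone at a point of the boundary is preconnected -/
lemma rb_preconn {K : Set E3} (hK : IsCompact K) (h0 : (0 : E3) ∈ interior K)
    {x : E3} (hx : x ∈ K) : IsPreconnected {u : E3 | ‖u‖ = 1 ∧ ⟪u, x⟫_ℝ = supp K u} := by
  obtain ⟨m, hm, hball⟩ : ∃ m : ℝ, 0 < m ∧ closedBall (0 : E3) m ⊆ K := by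
    obtain ⟨m, hm, hb⟩ := Metric.isOpen_iff.1 isOpen_interior 0 h0
    exact ⟨m / 2, by linarith, (closedBall_subset_ball (by linarith)).trans
      (hb.trans interior_subset)⟩
  have hne : K.Nonempty := ⟨x, hx⟩
  apply isPreconnected_of_forall_pair
  rintro a ⟨ha, hax⟩ b ⟨hb, hbx⟩
  apply rb_arc ha hb
  intro t ht0 ht1
  have hsa : m ≤ supp K a := le_supp_of_ball hK hm.le hball ha
  have hsb : m ≤ supp K b := le_supp_of_ball hK hm.le hball hb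
  set w : E3 := (1 - t) • a + t • b with hw
  have hwx : ⟪w, x⟫_ℝ = (1 - t) * supp K a + t * supp K b := by
    rw [hw, inner_add_left, real_inner_smul_left, real_inner_smul_left, hax, hbx]
  have hpos : 0 < ⟪w, x⟫_ℝ := by
    rw [hwx]
    nlinarith
  have hw0 : w ≠ 0 := by
    intro h1
    rw [h1, inner_zero_left] at hpos
    exact lt_irrefl _ hpos
  refine ⟨hw0, rb_norm_smul hw0, ?_⟩
  have hle : supp K w ≤ ⟪w, x⟫_ℝ := by
    rw [hwx, hw]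
    refine (supp_add_le hK hne _ _).trans ?_
    rw [supp_smul_right hK hne (by linarith), supp_smul_right hK hne ht0]
  have heq : ⟪w, x⟫_ℝ = supp K w := le_antisymm (inner_le_supp hK hx w) hle
  rw [supp_smul_right hK hne (inv_nonneg.2 (norm_nonneg _)), real_inner_smul_left, heq]

/-- every direction is connected, within the sublevel set, to a normal at a boundary point -/
lemma rb_link {K : Set E3} (hK : IsCompact K) (hc : Convex ℝ K) (h0 : (0 : E3) ∈ interior K)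
    {r : ℝ} {u : E3} (hu : ‖u‖ = 1) (hur : supp K u < r) :
    ∃ x n : E3, x ∈ frontier K ∧ ‖x‖ < r ∧ ‖n‖ = 1 ∧ ⟪n, x⟫_ℝ = supp K n ∧
      ∃ A : Set E3, A ⊆ {u : E3 | ‖u‖ = 1 ∧ supp K u < r} ∧ u ∈ A ∧ n ∈ A ∧ IsPreconnected A := by
  obtain ⟨m, hm, hball⟩ : ∃ m : ℝ, 0 < m ∧ closedBall (0 : E3) m ⊆ K := by
    obtain ⟨m, hm, hb⟩ := Metric.isOpen_iff.1 isOpen_interior 0 h0
    exact ⟨m / 2, by linarith, (closedBall_subset_ball (by linarith)).trans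
      (hb.trans interior_subset)⟩
  have hnhds : K ∈ nhds (0 : E3) := mem_interior_iff_mem_nhds.1 h0
  have hne : K.Nonempty := ⟨0, interior_subset h0⟩
  have hu0 : u ≠ 0 := by
    intro h1
    rw [h1, norm_zero] at hu
    exact zero_ne_one hu
  have hg : 0 < gauge K u := (gauge_pos (absorbent_nhds_zero hnhds)
    ((NormedSpace.isVonNBounded_iff ℝ).2 hK.isBounded)).2 hu0
  set c : ℝ := (gauge K u)⁻¹ with hcdef
  have hc0 : 0 < c := inv_pos.2 hg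
  set x : E3 := c • u with hxdef
  have hgx : gauge K x = 1 := by
    rw [hxdef, gauge_smul_of_nonneg hc0.le, smul_eq_mul, hcdef, inv_mul_cancel₀ hg.ne']
  have hxf : x ∈ frontier K := (gauge_eq_one_iff_mem_frontier hc hnhds).1 hgx
  have hxK : x ∈ K := hK.isClosed.frontier_subset hxf
  have hux : ⟪u, x⟫_ℝ = c := by
    rw [hxdef, real_inner_smul_right, real_inner_self_eq_norm_sq, hu]
    ring
  have hcs : c ≤ supp K u := by
    rw [← hux]
    exact inner_le_supp hK hxK u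
  have hxn : ‖x‖ = c := by
    rw [hxdef, norm_smul, hu, mul_one, Real.norm_eq_abs, abs_of_pos hc0]
  obtain ⟨n, hn, hnx⟩ := rb_normal hK hc h0 hxf
  refine ⟨x, n, hxf, by rw [hxn]; exact hcs.trans_lt hur, hn, hnx, ?_⟩
  apply rb_arc hu hn
  intro t ht0 ht1
  have hsn : m ≤ supp K n := le_supp_of_ball hK hm.le hball hn
  have hsu : m ≤ supp K u := le_supp_of_ball hK hm.le hball hu
  have hnu : supp K n = c * ⟪n, u⟫_ℝ := by
    rw [← hnx, hxdef, real_inner_smul_right]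
  have hnupos : 0 < ⟪n, u⟫_ℝ := by
    by_contra hcon
    push Not at hcon
    have := mul_nonpos_of_nonneg_of_nonpos hc0.le hcon
    rw [← hnu] at this
    linarith
  set w : E3 := (1 - t) • u + t • n with hw
  have hwu : ⟪w, u⟫_ℝ = (1 - t) + t * ⟪n, u⟫_ℝ := by
    rw [hw, inner_add_left, real_inner_smul_left, real_inner_smul_left,
      real_inner_self_eq_norm_sq, hu]
    ring
  have hpos : 0 < ⟪w, u⟫_ℝ := by
    rw [hwu]
    rcases eq_or_lt_of_le ht0 with h1 | h1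
    · rw [← h1]; norm_num
    · have := mul_pos h1 hnupos
      linarith
  have hw0 : w ≠ 0 := by
    intro h1
    rw [h1, inner_zero_left] at hpos
    exact lt_irrefl _ hpos
  refine ⟨hw0, rb_norm_smul hw0, ?_⟩
  have h1 : supp K w ≤ supp K u * ⟪w, u⟫_ℝ := by
    calc supp K w ≤ (1 - t) * supp K u + t * supp K n := by
          rw [hw]
          refine (supp_add_le hK hne _ _).trans ?_
          rw [supp_smul_right hK hne (by linarith), supp_smul_right hK hne ht0]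
      _ ≤ supp K u * ⟪w, u⟫_ℝ := by
          rw [hwu, hnu]
          have h2 : t * (c * ⟪n, u⟫_ℝ) ≤ t * (supp K u * ⟪n, u⟫_ℝ) :=
            mul_le_mul_of_nonneg_left (mul_le_mul_of_nonneg_right hcs hnupos.le) ht0
          nlinarith
  have h2 : ⟪w, u⟫_ℝ ≤ ‖w‖ := by
    have := real_inner_le_norm w u
    rwa [hu, mul_one] at this
  have hwn : 0 < ‖w‖ := norm_pos_iff.2 hw0
  rw [supp_smul_right hK hne (inv_nonneg.2 hwn.le)]
  have h3 : supp K w ≤ supp K u * ‖w‖ :=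
    h1.trans (mul_le_mul_of_nonneg_left h2 (hm.le.trans hsu))
  have h4 : ‖w‖⁻¹ * supp K w ≤ supp K u := by
    rw [inv_mul_le_iff₀ hwn]
    linarith
  linarith

/-- the set of points with a normal outside an open set is closed -/
lemma rb_closed {K : Set E3} (hK : IsCompact K) (hne : K.Nonempty) {O : Set E3} (hO : IsOpen O) :
    IsClosed {x : E3 | ∃ u : E3, ‖u‖ = 1 ∧ ⟪u, x⟫_ℝ = supp K u ∧ u ∉ O} := by
  have h1 : {x : E3 | ∃ u : E3, ‖u‖ = 1 ∧ ⟪u, x⟫_ℝ = supp K u ∧ u ∉ O} =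
      (Prod.snd : (sphere (0 : E3) 1) × E3 → E3) ''
        {p | ⟪(p.1 : E3), p.2⟫_ℝ = supp K (p.1 : E3) ∧ (p.1 : E3) ∉ O} := by
    ext x
    constructor
    · rintro ⟨u, hu, hux, huO⟩
      exact ⟨(⟨u, mem_sphere_zero_iff_norm.2 hu⟩, x), ⟨hux, huO⟩, rfl⟩
    · rintro ⟨⟨⟨u, hu⟩, y⟩, ⟨h1, h2⟩, rfl⟩
      exact ⟨u, mem_sphere_zero_iff_norm.1 hu, h1, h2⟩
  rw [h1]
  apply isClosedMap_snd_of_compactSpace
  have hcs := continuous_supp hK hne
  apply IsClosed.inter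
  · exact isClosed_eq (by fun_prop) (hcs.comp (continuous_subtype_val.comp continuous_fst))
  · exact hO.isClosed_compl.preimage (continuous_subtype_val.comp continuous_fst)

/-- TARGET -/
theorem radial_backward (K : Set E3) (hK : IsCompact K) (hc : Convex ℝ K)
    (h0 : (0 : E3) ∈ interior K) (r : ℝ)
    (h : IsPreconnected {x : E3 | x ∈ frontier K ∧ ‖x‖ < r}) :
    IsPreconnected {u : E3 | ‖u‖ = 1 ∧ supp K u < r} := by
  have hne : K.Nonempty := ⟨0, interior_subset h0⟩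
  rintro O₁ O₂ hO₁ hO₂ hcov ⟨u₁, hu₁, hu₁O⟩ ⟨u₂, hu₂, hu₂O⟩
  by_contra hcon
  have hdis : ∀ u : E3, ‖u‖ = 1 → supp K u < r → u ∈ O₁ → u ∉ O₂ := by
    intro u h1 h2 h3 h4
    exact hcon ⟨u, ⟨h1, h2⟩, h3, h4⟩
  have hcov' : ∀ u : E3, ‖u‖ = 1 → supp K u < r → u ∈ O₁ ∨ u ∈ O₂ := fun u h1 h2 =>
    hcov ⟨h1, h2⟩
  have hconn : ∀ A : Set E3, A ⊆ {u : E3 | ‖u‖ = 1 ∧ supp K u < r} → IsPreconnected A →
      ∀ a ∈ A, ∀ b ∈ A, a ∈ O₁ → b ∉ O₂ := by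
    intro A hA hAc a ha b hb haO hbO
    obtain ⟨y, hyA, hy1, hy2⟩ := hAc O₁ O₂ hO₁ hO₂ (hA.trans hcov) ⟨a, ha, haO⟩ ⟨b, hb, hbO⟩
    exact hcon ⟨y, hA hyA, hy1, hy2⟩
  have hNsub : ∀ x : E3, ‖x‖ < r → {u : E3 | ‖u‖ = 1 ∧ ⟪u, x⟫_ℝ = supp K u} ⊆
      {u : E3 | ‖u‖ = 1 ∧ supp K u < r} := by
    rintro x hx u ⟨hu, hux⟩
    refine ⟨hu, ?_⟩
    rw [← hux]
    have := real_inner_le_norm u x
    rw [hu, one_mul] at this
    linarith
  have hres := (isPreconnected_closed_iff.1 h)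
    {x : E3 | ∃ u : E3, ‖u‖ = 1 ∧ ⟪u, x⟫_ℝ = supp K u ∧ u ∉ O₂}
    {x : E3 | ∃ u : E3, ‖u‖ = 1 ∧ ⟪u, x⟫_ℝ = supp K u ∧ u ∉ O₁}
    (rb_closed hK hne hO₂) (rb_closed hK hne hO₁) ?_ ?_ ?_
  · obtain ⟨x, ⟨hxf, hxr⟩, ⟨u, hu, hux, huO⟩, ⟨v, hv, hvx, hvO⟩⟩ := hres
    have hs := hNsub x hxr
    have hu1 : u ∈ O₁ := (hcov' u hu (hs ⟨hu, hux⟩).2).resolve_right huO
    have hv2 : v ∈ O₂ := (hcov' v hv (hs ⟨hv, hvx⟩).2).resolve_left hvO
    exact hconn _ hs (rb_preconn hK h0 (hK.isClosed.frontier_subset hxf)) u ⟨hu, hux⟩ v ⟨hv, hvx⟩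
      hu1 hv2
  · rintro x ⟨hxf, hxr⟩
    obtain ⟨n, hn, hnx⟩ := rb_normal hK hc h0 hxf
    by_cases hnO : n ∈ O₂
    · right
      exact ⟨n, hn, hnx, fun h1 => hdis n hn (hNsub x hxr ⟨hn, hnx⟩).2 h1 hnO⟩
    · left
      exact ⟨n, hn, hnx, hnO⟩
  · obtain ⟨x, n, hxf, hxr, hn, hnx, A, hA, huA, hnA, hAc⟩ := rb_link hK hc h0 hu₁.1 hu₁.2
    exact ⟨x, ⟨hxf, hxr⟩, n, hn, hnx, hconn A hA hAc u₁ huA n hnA hu₁O⟩
  · obtain ⟨x, n, hxf, hxr, hn, hnx, A, hA, huA, hnA, hAc⟩ := rb_link hK hc h0 hu₂.1 hu₂.2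
    refine ⟨x, ⟨hxf, hxr⟩, n, hn, hnx, fun hnO => ?_⟩
    exact hconn A hA hAc n hnA u₂ huA hnO hu₂O


end N_radial_backward

alias radial_backward := N_radial_backward.radial_backward

end Pool.Agent.Helper524.Mono
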