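import Pool.Agent.Helper524.Mono.Gen

set_option autoImplicit false

open MeasureTheory Set Metric
open scoped InnerProductSpace

namespace Pool.Agent.Helper524.Mono

namespace N_radial_forward


lemma rf_normal (K : Set E3) (hK : IsCompact K) (hc : Convex ℝ K)
    (h0 : (0 : E3) ∈ interior K) (x : E3) (hx : x ∈ frontier K) :
    ∃ u : E3, ‖u‖ = 1 ∧ ⟪u, x⟫_ℝ = supp K u ∧ 0 < supp K u ∧
      ∀ y ∈ interior K, ⟪u, y⟫_ℝ < supp K u := by
  have hxi : x ∉ interior K := by
    have := hx.2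
    exact this
  obtain ⟨f, hf⟩ := geometric_hahn_banach_open_point hc.interior isOpen_interior hxi
  set w : E3 := (InnerProductSpace.toDual ℝ E3).symm f with hw
  have hwf : ∀ y : E3, ⟪w, y⟫_ℝ = f y := fun y => by
    rw [hw, InnerProductSpace.toDual_symm_apply]
  have hfx : 0 < f x := by
    have := hf 0 h0
    rwa [map_zero] at this
  have hw0 : w ≠ 0 := by
    intro h
    rw [← hwf x, h, inner_zero_left] at hfx
    exact lt_irrefl _ hfx
  have hwn : 0 < ‖w‖ := norm_pos_iff.2 hw0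
  have hKcl : K = closure (interior K) := by
    rw [hc.closure_interior_eq_closure_of_nonempty_interior ⟨0, h0⟩, hK.isClosed.closure_eq]
  have hfK : ∀ y ∈ K, f y ≤ f x := by
    intro y hy
    rw [hKcl] at hy
    have hcl : IsClosed {z : E3 | f z ≤ f x} := isClosed_le f.continuous continuous_const
    have hsub : interior K ⊆ {z : E3 | f z ≤ f x} := fun z hz => (hf z hz).le
    exact closure_minimal hsub hcl hy
  have hxK : x ∈ K := by
    have := hx.1
    rwa [hK.isClosed.closure_eq] at this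
  have hne : K.Nonempty := ⟨x, hxK⟩
  set u : E3 := ‖w‖⁻¹ • w with hu
  have huy : ∀ y : E3, ⟪u, y⟫_ℝ = ‖w‖⁻¹ * f y := fun y => by
    rw [hu, real_inner_smul_left, hwf]
  have hun : ‖u‖ = 1 := by
    rw [hu, norm_smul, norm_inv, norm_norm, inv_mul_cancel₀ hwn.ne']
  have hsupp : ⟪u, x⟫_ℝ = supp K u := by
    refine le_antisymm (inner_le_supp hK hxK u) (supp_le hne fun y hy => ?_)
    rw [huy, huy]
    exact mul_le_mul_of_nonneg_left (hfK y hy) (inv_nonneg.2 hwn.le)
  refine ⟨u, hun, hsupp, ?_, ?_⟩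
  · rw [← hsupp, huy]
    exact mul_pos (inv_pos.2 hwn) hfx
  · intro y hy
    rw [← hsupp, huy, huy]
    exact mul_lt_mul_of_pos_left (hf y hy) (inv_pos.2 hwn)

/-- TARGET -/
theorem radial_forward (K : Set E3) (hK : IsCompact K) (hc : Convex ℝ K)
    (h0 : (0 : E3) ∈ interior K) (r : ℝ)
    (h : IsPreconnected {u : E3 | ‖u‖ = 1 ∧ supp K u < r}) :
    IsPreconnected {x : E3 | x ∈ frontier K ∧ ‖x‖ < r} := by
  have hnhds : K ∈ nhds (0 : E3) := mem_interior_iff_mem_nhds.1 h0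
  have habs : Absorbent ℝ K := absorbent_nhds_zero hnhds
  have hvb : Bornology.IsVonNBounded ℝ K := NormedSpace.isVonNBounded_of_isBounded ℝ hK.isBounded
  have hgc : Continuous (gauge K) := continuous_gauge hc hnhds
  have hgpos : ∀ w : E3, w ≠ 0 → 0 < gauge K w := fun w hw => (gauge_pos habs hvb).2 hw
  set ρ : E3 → E3 := fun w => (gauge K w)⁻¹ • w with hρ
  have hρc : ContinuousOn ρ {w | w ≠ 0} := by
    intro w hw
    apply ContinuousAt.continuousWithinAt
    exact (hgc.continuousAt.inv₀ (hgpos w hw).ne').smul continuousAt_id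
  have hρf : ∀ w : E3, w ≠ 0 → ρ w ∈ frontier K := by
    intro w hw
    rw [← gauge_eq_one_iff_mem_frontier hc hnhds, hρ]
    show gauge K ((gauge K w)⁻¹ • w) = 1
    rw [gauge_smul_of_nonneg (inv_nonneg.2 (hgpos w hw).le), smul_eq_mul,
      inv_mul_cancel₀ (hgpos w hw).ne']
  have hρs : ∀ (c : ℝ) (w : E3), 0 < c → ρ (c • w) = ρ w := by
    intro c w hcpos
    show (gauge K (c • w))⁻¹ • (c • w) = (gauge K w)⁻¹ • w
    rw [gauge_smul_of_nonneg hcpos.le, smul_eq_mul, smul_smul, mul_inv, mul_comm c⁻¹,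
      mul_assoc, inv_mul_cancel₀ hcpos.ne', mul_one]
  have hfK : ∀ x ∈ frontier K, x ∈ K := fun x hx => by
    have := hx.1
    rwa [hK.isClosed.closure_eq] at this
  set H : Set E3 := {u : E3 | ‖u‖ = 1 ∧ supp K u < r} with hH
  set B : Set E3 := {x : E3 | x ∈ frontier K ∧ ‖x‖ < r} with hB
  have hH0 : ∀ u ∈ H, u ≠ 0 := by
    intro u hu h0
    have := hu.1
    rw [h0, norm_zero] at this
    exact zero_ne_one this
  have hHimg : IsPreconnected (ρ '' H) :=
    h.image ρ (hρc.mono fun u hu => hH0 u hu)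
  have hHB : ρ '' H ⊆ B := by
    rintro _ ⟨u, hu, rfl⟩
    have hu0 := hH0 u hu
    refine ⟨hρf u hu0, ?_⟩
    have hg := hgpos u hu0
    have h1 : ‖ρ u‖ = (gauge K u)⁻¹ := by
      show ‖(gauge K u)⁻¹ • u‖ = _
      rw [norm_smul, hu.1, mul_one, Real.norm_of_nonneg (inv_nonneg.2 hg.le)]
    have h2 : ⟪u, ρ u⟫_ℝ = (gauge K u)⁻¹ := by
      show ⟪u, (gauge K u)⁻¹ • u⟫_ℝ = _
      rw [real_inner_smul_right, real_inner_self_eq_norm_sq, hu.1]
      ring
    have h3 := inner_le_supp hK (hfK _ (hρf u hu0)) u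
    rw [h1, ← h2]
    exact lt_of_le_of_lt h3 hu.2
  -- the path
  have hpath : ∀ x ∈ B, ∃ (t : Set E3) (u : E3), u ∈ H ∧ t ⊆ B ∧ x ∈ t ∧ ρ u ∈ t ∧
      IsPreconnected t := by
    intro x hx
    obtain ⟨u, hun, hsx, hs0, hint⟩ := rf_normal K hK hc h0 x hx.1
    set s : ℝ := supp K u with hs
    have hsn : s ≤ ‖x‖ := by
      rw [← hsx]
      calc ⟪u, x⟫_ℝ ≤ ‖u‖ * ‖x‖ := real_inner_le_norm _ _
        _ = ‖x‖ := by rw [hun, one_mul]
    let p : ℝ → E3 := fun t => (1 - t) • x + t • (s • u)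
    have hpc : Continuous p := by
      show Continuous fun t : ℝ => (1 - t) • x + t • (s • u)
      fun_prop
    have hpu : ∀ t, ⟪u, p t⟫_ℝ = s := by
      intro t
      show ⟪u, (1 - t) • x + t • (s • u)⟫_ℝ = s
      rw [inner_add_right, real_inner_smul_right, real_inner_smul_right, real_inner_smul_right,
        hsx, real_inner_self_eq_norm_sq, hun]
      ring
    have hp0 : ∀ t, p t ≠ 0 := by
      intro t ht
      have := hpu t
      rw [ht, inner_zero_right] at this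
      linarith
    have hpg : ∀ t, 1 ≤ gauge K (p t) := by
      intro t
      by_contra hlt
      rw [not_le, gauge_lt_one_iff_mem_interior hc hnhds] at hlt
      have := hint _ hlt
      rw [hpu t] at this
      exact lt_irrefl _ this
    have hpn : ∀ t ∈ Icc (0 : ℝ) 1, ‖p t‖ ≤ ‖x‖ := by
      intro t ht
      calc ‖p t‖ ≤ ‖(1 - t) • x‖ + ‖t • (s • u)‖ := norm_add_le _ _
        _ = (1 - t) * ‖x‖ + t * s := by
          rw [norm_smul, norm_smul, norm_smul, hun, Real.norm_of_nonneg (by linarith [ht.2]),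
            Real.norm_of_nonneg ht.1, Real.norm_of_nonneg hs0.le, mul_one]
        _ ≤ (1 - t) * ‖x‖ + t * ‖x‖ := by
          have := mul_le_mul_of_nonneg_left hsn ht.1
          linarith
        _ = ‖x‖ := by ring
    refine ⟨(fun t => ρ (p t)) '' Icc (0 : ℝ) 1, u, ⟨hun, lt_of_le_of_lt hsn hx.2⟩, ?_, ?_, ?_, ?_⟩
    · rintro _ ⟨t, ht, rfl⟩
      refine ⟨hρf _ (hp0 t), ?_⟩
      have hg := hpg t
      have h1 : ‖ρ (p t)‖ ≤ ‖p t‖ := by
        show ‖(gauge K (p t))⁻¹ • p t‖ ≤ _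
        rw [norm_smul, Real.norm_of_nonneg (inv_nonneg.2 (by linarith))]
        have h2 : (gauge K (p t))⁻¹ ≤ 1 := inv_le_one_of_one_le₀ hg
        calc (gauge K (p t))⁻¹ * ‖p t‖ ≤ 1 * ‖p t‖ :=
              mul_le_mul_of_nonneg_right h2 (norm_nonneg _)
          _ = ‖p t‖ := one_mul _
      exact lt_of_le_of_lt (h1.trans (hpn t ht)) hx.2
    · refine ⟨0, ⟨le_rfl, zero_le_one⟩, ?_⟩
      show ρ ((1 - (0 : ℝ)) • x + (0 : ℝ) • (s • u)) = x
      rw [sub_zero, one_smul, zero_smul, add_zero]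
      show (gauge K x)⁻¹ • x = x
      rw [(gauge_eq_one_iff_mem_frontier hc hnhds).2 hx.1, inv_one, one_smul]
    · refine ⟨1, ⟨zero_le_one, le_rfl⟩, ?_⟩
      show ρ ((1 - (1 : ℝ)) • x + (1 : ℝ) • (s • u)) = ρ u
      rw [sub_self, zero_smul, zero_add, one_smul, hρs s u hs0]
    · exact isPreconnected_Icc.image _ (hρc.comp hpc.continuousOn fun t _ => hp0 t)
  rcases B.eq_empty_or_nonempty with hBe | ⟨x₀, hx₀⟩
  · rw [hBe]
    exact isPreconnected_empty
  · obtain ⟨t₀, u₀, hu₀, _⟩ := hpath x₀ hx₀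
    apply isPreconnected_of_forall (ρ u₀)
    intro y hy
    obtain ⟨t, u, hu, htB, hyt, hut, htc⟩ := hpath y hy
    refine ⟨ρ '' H ∪ t, union_subset hHB htB, Or.inl ⟨u₀, hu₀, rfl⟩, Or.inr hyt, ?_⟩
    exact IsPreconnected.union (ρ u) ⟨u, hu, rfl⟩ hut hHimg htc


end N_radial_forward

alias radial_forward := N_radial_forward.radial_forward

end Pool.Agent.Helper524.Mono
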