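import Pool.Agent.Helper524.Mono.Gen
import Pool.Agent.Helper524.Mono.S_centered
import Pool.Agent.Helper524.Mono.S_radial_forward
import Pool.Agent.Helper524.Mono.S_radial_backward

set_option autoImplicit false

open MeasureTheory Set Metric
open scoped InnerProductSpace

namespace Pool.Agent.Helper524.Mono

namespace N_radial_iff








/-- TARGET -/
theorem radial_iff (K : Set E3) (hK : IsBody K) : SingleBasin K ↔
    ∀ r : ℝ, IsPreconnected {x : E3 | x ∈ frontier K ∧ ‖x - com K‖ < r} := by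
  obtain ⟨⟨h1, h2, h3, -⟩, hs⟩ := centered K hK
  have hset : ∀ r : ℝ, {u : E3 | ‖u‖ = 1 ∧ height K u < r} =
      {u : E3 | ‖u‖ = 1 ∧ supp ((fun x => x - com K) '' K) u < r} := by
    intro r
    ext u
    simp only [Set.mem_setOf_eq, hs u]
  have himg : (fun x => x - com K) '' K = (Homeomorph.subRight (com K)) '' K := rfl
  have hfr : ∀ r : ℝ, {x : E3 | x ∈ frontier ((fun x => x - com K) '' K) ∧ ‖x‖ < r} =
      (Homeomorph.subRight (com K)) '' {x : E3 | x ∈ frontier K ∧ ‖x - com K‖ < r} := by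
    intro r
    rw [himg, ← Homeomorph.image_frontier]
    ext x
    constructor
    · rintro ⟨⟨y, hy, rfl⟩, hx⟩
      exact ⟨y, ⟨hy, hx⟩, rfl⟩
    · rintro ⟨y, ⟨hy, hy2⟩, rfl⟩
      exact ⟨⟨y, hy, rfl⟩, hy2⟩
  have hkey : ∀ r : ℝ, IsPreconnected {u : E3 | ‖u‖ = 1 ∧ height K u < r} ↔
      IsPreconnected {x : E3 | x ∈ frontier K ∧ ‖x - com K‖ < r} := by
    intro r
    rw [hset r, ← (Homeomorph.subRight (com K)).isPreconnected_image
      (s := {x : E3 | x ∈ frontier K ∧ ‖x - com K‖ < r}), ← hfr r]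
    exact ⟨radial_forward _ h1 h2 h3 r, radial_backward _ h1 h2 h3 r⟩
  unfold SingleBasin
  exact forall_congr' hkey



end N_radial_iff

alias radial_iff := N_radial_iff.radial_iff

end Pool.Agent.Helper524.Mono
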