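import Pool.Agent.Helper524.Mono.Gen
import Pool.Agent.Helper524.Mono.S_lower_half
import Pool.Agent.Helper524.Mono.S_level_const

set_option autoImplicit false

open MeasureTheory Set Metric
open scoped InnerProductSpace

namespace Pool.Agent.Helper524.Mono

namespace N_rigid






/-- the reflection in the plane orthogonal to the unit vector `b` -/
lemma rigid_aux_refl (b : E3) (hb : ‖b‖ = 1) (x : E3) :
    (ℝ ∙ b)ᗮ.reflection x = x - (2 * ⟪b, x⟫_ℝ) • b := by
  rw [Submodule.reflection_orthogonal_apply, Submodule.reflection_apply,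
    Submodule.starProjection_unit_singleton ℝ hb]
  rw [two_smul, two_mul, add_smul]
  abel

lemma rigid_aux_inner (b : E3) (hb : ‖b‖ = 1) (x : E3) :
    ⟪b, x - (2 * ⟪b, x⟫_ℝ) • b⟫_ℝ = - ⟪b, x⟫_ℝ := by
  rw [inner_sub_right, real_inner_smul_right, real_inner_self_eq_norm_sq, hb]
  ring

/-- TARGET -/
theorem rigid (K : Set E3) (hK : CB K) (b : E3) (hb : ‖b‖ = 1)
    (hB : ∀ x ∈ XJ K, 0 ≤ ⟪b, x⟫_ℝ) (hmin : ∀ v : E3, ‖v‖ = 1 → supp K (-b) ≤ supp K v) :
    ∀ x ∈ K, x - (2 * ⟪b, x⟫_ℝ) • b ∈ K := by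
  obtain ⟨hcomp, hconv, h0int, hint⟩ := hK
  have h0K : (0 : E3) ∈ K := interior_subset h0int
  have hne : K.Nonempty := ⟨0, h0K⟩
  set m : ℝ := supp K (-b) with hm
  set σ : E3 ≃ₗᵢ[ℝ] E3 := (ℝ ∙ b)ᗮ.reflection with hσ
  have hσe : ∀ x, σ x = x - (2 * ⟪b, x⟫_ℝ) • b := rigid_aux_refl b hb
  have hσσ : ∀ x, σ (σ x) = x := fun x => Submodule.reflection_reflection _ x
  have hbσ : ∀ x, ⟪b, σ x⟫_ℝ = - ⟪b, x⟫_ℝ := fun x => by
    rw [hσe]; exact rigid_aux_inner b hb x
  have hσin : ∀ x y, ⟪σ x, y⟫_ℝ = ⟪x, σ y⟫_ℝ := fun x y => by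
    have := σ.inner_map_map x (σ y)
    rw [hσσ] at this
    exact this
  set K0 : Set E3 := {y | y ∈ K ∧ ⟪b, y⟫_ℝ = 0} with hK0
  have hK0c : IsCompact K0 := by
    have : K0 = K ∩ {y | ⟪b, y⟫_ℝ = 0} := rfl
    rw [this]
    exact hcomp.inter_right (isClosed_eq (by fun_prop) continuous_const)
  have hK0ne : K0.Nonempty := ⟨0, h0K, by simp⟩
  have hσfix : ∀ y ∈ K0, σ y = y := by
    intro y hy
    rw [hσe, hy.2]
    simp
  have hK0σ : ∀ v, supp K0 (σ v) ≤ supp K0 v := by
    intro v
    refine supp_le hK0ne fun z hz => ?_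
    rw [hσin, hσfix z hz]
    exact inner_le_supp hK0c hz v
  -- step 1
  have step1 : ∀ x ∈ K, ⟪b, x⟫_ℝ ≤ 0 → σ x ∈ K := by
    intro x hx hbx
    have hxC : ∀ v : E3, ‖v‖ = 1 → ⟪v, x⟫_ℝ ≤ max m (supp K0 v) := by
      intro v hv
      by_contra hcon
      rw [not_le, max_lt_iff] at hcon
      obtain ⟨hc1, hc2⟩ := hcon
      obtain ⟨z, hz, hze⟩ := exists_supp hcomp hne v
      have hxz : ⟪v, x⟫_ℝ ≤ supp K v := inner_le_supp hcomp hx v
      rcases lt_or_ge ⟪b, z⟫_ℝ 0 with hbz | hbz
      · have h := level_const K hcomp hconv h0int b hb hB z hz hbz v hv hze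
        rw [← hm] at h
        linarith
      · -- a point of the segment in the plane
        obtain ⟨t, ht0, ht1, hty⟩ : ∃ t : ℝ, 0 ≤ t ∧ t ≤ 1 ∧
            (1 - t) * ⟪b, x⟫_ℝ + t * ⟪b, z⟫_ℝ = 0 := by
          rcases eq_or_lt_of_le hbx with h | h
          · exact ⟨0, le_rfl, zero_le_one, by rw [h]; ring⟩
          · have hpos : 0 < ⟪b, z⟫_ℝ - ⟪b, x⟫_ℝ := by linarith
            refine ⟨-⟪b, x⟫_ℝ / (⟪b, z⟫_ℝ - ⟪b, x⟫_ℝ), by
              apply div_nonneg <;> linarith, by
              rw [div_le_one hpos]; linarith, ?_⟩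
            field_simp
            ring
        have hyK : (1 - t) • x + t • z ∈ K := hconv hx hz (by linarith) ht0 (by ring)
        have hy0 : (1 - t) • x + t • z ∈ K0 := by
          refine ⟨hyK, ?_⟩
          rw [inner_add_right, real_inner_smul_right, real_inner_smul_right]
          exact hty
        have h1 := inner_le_supp hK0c hy0 v
        rw [inner_add_right, real_inner_smul_right, real_inner_smul_right, hze] at h1
        nlinarith
    refine mem_of_inner_le_supp hcomp hconv hne fun v hv => ?_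
    rw [← hσin]
    have hσv : ‖σ v‖ = 1 := by rw [σ.norm_map, hv]
    refine (hxC _ hσv).trans (max_le (hmin v hv) ?_)
    refine (hK0σ v).trans ?_
    exact supp_le hK0ne fun z hz => inner_le_supp hcomp hz.1 v
  -- step 2
  intro x hx
  rw [← hσe]
  by_contra hσx
  have hbx : 0 < ⟪b, x⟫_ℝ := by
    by_contra h
    exact hσx (step1 x hx (not_lt.1 h))
  set S : Set E3 := {y | y ∈ interior K ∧ 0 < ⟪b, y⟫_ℝ ∧ σ y ∉ K} with hS
  have hSo : IsOpen S := by
    have hl : IsOpen {y : E3 | 0 < ⟪b, y⟫_ℝ} := isOpen_lt continuous_const (by fun_prop)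
    exact isOpen_interior.inter (hl.inter (hcomp.isClosed.preimage σ.continuous).isOpen_compl)
  have hSne : S.Nonempty := by
    have hcont : Filter.Tendsto (fun t : ℝ => t • σ x) (nhdsWithin 1 (Set.Iio 1)) (nhds (σ x)) := by
      have : Continuous (fun t : ℝ => t • σ x) := by fun_prop
      have h := this.tendsto 1
      rw [one_smul] at h
      exact h.mono_left nhdsWithin_le_nhds
    have h1 : ∀ᶠ t : ℝ in nhdsWithin 1 (Set.Iio 1), t • σ x ∈ Kᶜ :=
      hcont.eventually (hcomp.isClosed.isOpen_compl.mem_nhds hσx)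
    have h2 : ∀ᶠ t : ℝ in nhdsWithin 1 (Set.Iio 1), t ∈ Set.Iio (1:ℝ) :=
      eventually_mem_nhdsWithin
    have h3 : ∀ᶠ t : ℝ in nhdsWithin 1 (Set.Iio 1), t ∈ Set.Ioi (0:ℝ) :=
      Filter.Eventually.filter_mono nhdsWithin_le_nhds (Ioi_mem_nhds one_pos)
    obtain ⟨t, ht1, ht2, ht3⟩ := (h1.and (h2.and h3)).exists
    rw [Set.mem_Iio] at ht2
    rw [Set.mem_Ioi] at ht3
    refine ⟨t • x, ?_, ?_, ?_⟩
    · have := hconv.combo_interior_self_mem_interior h0int hx (a := 1 - t) (b := t)
        (by linarith) ht3.le (by ring)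
      rwa [smul_zero, zero_add] at this
    · rw [real_inner_smul_right]
      exact mul_pos ht3 hbx
    · rw [map_smul]
      exact ht1
  set F : E3 → ℝ := K.indicator (fun y => ⟪b, y⟫_ℝ) with hF
  have hKm : MeasurableSet K := hcomp.isClosed.measurableSet
  have hFi : Integrable F := by
    rw [hF, integrable_indicator_iff hKm]
    exact ContinuousOn.integrableOn_compact hcomp (by fun_prop)
  have hFint : ∫ y, F y = 0 := by
    rw [hF, integral_indicator hKm]
    have h1 : IntegrableOn (fun y : E3 => y) K :=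
      ContinuousOn.integrableOn_compact hcomp (by fun_prop)
    rw [integral_inner h1 b]
    rw [hint, inner_zero_right]
  have hmp : MeasurePreserving σ volume volume := σ.measurePreserving
  have hFσi : Integrable (fun y => F (σ y)) := hmp.integrable_comp_of_integrable hFi
  have hFσint : ∫ y, F (σ y) = 0 := by
    rw [hmp.integral_comp σ.toHomeomorph.measurableEmbedding F, hFint]
  have hnonneg : ∀ y, 0 ≤ F y + F (σ y) := by
    intro y
    by_cases hy : y ∈ K <;> by_cases hy' : σ y ∈ K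
    · rw [hF, Set.indicator_of_mem hy, Set.indicator_of_mem hy', hbσ]
      simp
    · rw [hF, Set.indicator_of_mem hy, Set.indicator_of_notMem hy', add_zero]
      by_contra h
      exact hy' (step1 y hy (not_le.1 h).le)
    · rw [hF, Set.indicator_of_notMem hy, Set.indicator_of_mem hy', zero_add]
      by_contra h
      have := step1 _ hy' (not_le.1 h).le
      rw [hσσ] at this
      exact hy this
    · rw [hF, Set.indicator_of_notMem hy, Set.indicator_of_notMem hy', add_zero]
  have hsupp : S ⊆ Function.support (fun y => F y + F (σ y)) := by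
    rintro y ⟨hy1, hy2, hy3⟩
    rw [Function.mem_support, hF, Set.indicator_of_mem (interior_subset hy1),
      Set.indicator_of_notMem hy3, add_zero]
    exact hy2.ne'
  have hpos : 0 < ∫ y, (F y + F (σ y)) := by
    rw [integral_pos_iff_support_of_nonneg hnonneg (hFi.add hFσi)]
    exact (hSo.measure_pos volume hSne).trans_le (measure_mono hsupp)
  rw [integral_add hFi hFσi, hFint, hFσint] at hpos
  simp at hpos



end N_rigid

alias rigid := N_rigid.rigid

end Pool.Agent.Helper524.Mono
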