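import Pool.Agent.Helper524.Mono.Gen

set_option autoImplicit false

open MeasureTheory Set Metric
open scoped InnerProductSpace

namespace Pool.Agent.Helper524.Mono

namespace N_singleBasin_iff_path



lemma continuous_height {K : Set E3} (hK : IsCompact K) (hne : K.Nonempty) :
    Continuous (height K) := by
  unfold height
  exact (continuous_supp hK hne).sub (by fun_prop)

/-- TARGET -/
theorem singleBasin_iff_path (K : Set E3) (hK : IsBody K) : SingleBasin K ↔
    ∀ u v : E3, ‖u‖ = 1 → ‖v‖ = 1 → ∀ ε : ℝ, 0 < ε →
    ∃ γ : ℝ → E3, ContinuousOn γ (Icc 0 1) ∧ γ 0 = u ∧ γ 1 = v ∧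
      ∀ t ∈ Icc (0 : ℝ) 1, ‖γ t‖ = 1 ∧ height K (γ t) < max (height K u) (height K v) + ε := by
  have hne : K.Nonempty := hK.2.2.mono interior_subset
  have hcont := continuous_height hK.1 hne
  constructor
  · intro h u v hu hv ε hε
    set r := max (height K u) (height K v) + ε with hr
    have hur : height K u < r := by
      have := le_max_left (height K u) (height K v)
      linarith
    have hvr : height K v < r := by
      have := le_max_right (height K u) (height K v)
      linarith
    have hfact : Fact (Module.finrank ℝ E3 = 2 + 1) := ⟨by simp⟩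
    have : LocallyPathConnectedSpace (sphere (0 : E3) 1) :=
      ChartedSpace.locallyPathConnectedSpace (EuclideanSpace ℝ (Fin 2)) (sphere (0 : E3) 1)
    set U : Set (sphere (0 : E3) 1) := {s | height K s < r} with hU
    have hUo : IsOpen U := isOpen_lt (hcont.comp continuous_subtype_val) continuous_const
    have himg : (Subtype.val '' U) = {u : E3 | ‖u‖ = 1 ∧ height K u < r} := by
      ext x
      simp [hU]
      tauto
    have hUpre : IsPreconnected U := by
      rw [← Topology.IsInducing.subtypeVal.isPreconnected_image, himg]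
      exact h r
    set u' : sphere (0 : E3) 1 := ⟨u, by simpa using hu⟩ with hu'
    set v' : sphere (0 : E3) 1 := ⟨v, by simpa using hv⟩ with hv'
    have huU : u' ∈ U := hur
    have hvU : v' ∈ U := hvr
    have hUp : IsPathConnected U := (hUo.isConnected_iff_isPathConnected).1 ⟨⟨u', huU⟩, hUpre⟩
    have hj := hUp.joinedIn u' huU v' hvU
    refine ⟨fun t => (hj.somePath.extend t : E3), ?_, ?_, ?_, ?_⟩
    · exact (continuous_subtype_val.comp hj.somePath.continuous_extend).continuousOn
    · simp [hu']
    · simp [hv']
    · intro t ht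
      refine ⟨by simp, ?_⟩
      have := hj.somePath_mem ⟨t, ht⟩
      simp only [Path.extend_apply _ ht]
      exact this
  · intro h r
    refine isPreconnected_of_forall_pair fun u hu v hv => ?_
    have hm : max (height K u) (height K v) < r := max_lt hu.2 hv.2
    obtain ⟨γ, hγc, hγ0, hγ1, hγ⟩ := h u v hu.1 hv.1 (r - max (height K u) (height K v))
      (by linarith)
    refine ⟨γ '' Icc 0 1, ?_, ⟨0, by simp, hγ0⟩, ⟨1, by simp, hγ1⟩,
      isPreconnected_Icc.image _ hγc⟩
    rintro _ ⟨t, ht, rfl⟩
    refine ⟨(hγ t ht).1, ?_⟩
    have := (hγ t ht).2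
    linarith


end N_singleBasin_iff_path

alias singleBasin_iff_path := N_singleBasin_iff_path.singleBasin_iff_path

end Pool.Agent.Helper524.Mono
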