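import Pool.Agent.Helper524.Mono.Gen

set_option autoImplicit false

open MeasureTheory Set Metric
open scoped InnerProductSpace

namespace Pool.Agent.Helper524.Mono

namespace N_stable_of_active


/-- TARGET -/
theorem stable_of_active (T : Finset (E3 × ℝ)) (hT : ∀ p ∈ T, p.1 ≠ 0) (z : E3)
    (hz : z ∈ poly T) (hne : z ≠ com (poly T)) (hex : ∃ p ∈ T, ⟪p.1, z⟫_ℝ = p.2)
    (hall : ∀ p ∈ T, ⟪p.1, z⟫_ℝ = p.2 → ∃ t : ℝ, 0 < t ∧ p.1 = t • (z - com (poly T))) :
    IsStable (poly T) (face (poly T) (z - com (poly T))) := by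
  obtain ⟨n, hn⟩ : ∃ n, n = z - com (poly T) := ⟨_, rfl⟩
  rw [← hn] at hall ⊢
  have hn0 : n ≠ 0 := by rw [hn]; exact sub_ne_zero.2 hne
  -- a neighbourhood
  have hev : ∀ᶠ y in nhds z, ∀ p ∈ T, ⟪p.1, z⟫_ℝ < p.2 → ⟪p.1, y⟫_ℝ < p.2 := by
    rw [Filter.eventually_all_finset]
    intro p hp
    by_cases h : ⟪p.1, z⟫_ℝ < p.2
    · have hc : Continuous fun y : E3 => ⟪p.1, y⟫_ℝ := by fun_prop
      filter_upwards [hc.continuousAt.eventually_lt continuousAt_const h] with y hy _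
      exact hy
    · exact Filter.Eventually.of_forall fun y h' => absurd h' h
  obtain ⟨ρ, hρ, hball⟩ := Metric.eventually_nhds_iff.1 hev
  have hin : ∀ y, dist y z < ρ → ⟪n, y⟫_ℝ = ⟪n, z⟫_ℝ → y ∈ poly T := by
    intro y hy hyn p hp
    rcases lt_or_eq_of_le (hz p hp) with h | h
    · exact (hball hy p hp h).le
    · obtain ⟨t, ht, hpt⟩ := hall p hp h
      rw [← h, hpt, real_inner_smul_left, real_inner_smul_left, hyn]
  have hle : ∀ y ∈ poly T, ⟪n, y⟫_ℝ ≤ ⟪n, z⟫_ℝ := by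
    intro y hy
    obtain ⟨p, hp, hpe⟩ := hex
    obtain ⟨t, ht, hpt⟩ := hall p hp hpe
    have h1 := hy p hp
    rw [← hpe, hpt, real_inner_smul_left, real_inner_smul_left] at h1
    exact le_of_mul_le_mul_left h1 ht
  have hF : ∀ y, y ∈ face (poly T) n ↔ y ∈ poly T ∧ ⟪n, y⟫_ℝ = ⟪n, z⟫_ℝ := by
    intro y
    constructor
    · rintro ⟨h1, h2⟩
      exact ⟨h1, le_antisymm (hle y h1) (h2 z hz)⟩
    · rintro ⟨h1, h2⟩
      exact ⟨h1, fun w hw => by rw [h2]; exact hle w hw⟩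
  have hzF : z ∈ face (poly T) n := (hF z).2 ⟨hz, rfl⟩
  have hspan : vectorSpan ℝ (face (poly T) n) = (ℝ ∙ n)ᗮ := by
    apply le_antisymm
    · rw [vectorSpan_def, Submodule.span_le]
      rintro _ ⟨a, ha, b, hb, rfl⟩
      rw [SetLike.mem_coe, Submodule.mem_orthogonal_singleton_iff_inner_right]
      have h1 := ((hF a).1 ha).2
      have h2 := ((hF b).1 hb).2
      simp only [vsub_eq_sub, inner_sub_right, h1, h2, sub_self]
    · intro v hv
      rw [Submodule.mem_orthogonal_singleton_iff_inner_right] at hv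
      by_cases hv0 : v = 0
      · rw [hv0]; exact Submodule.zero_mem _
      have hvn : 0 < ‖v‖ := norm_pos_iff.2 hv0
      have hs : 0 < ρ / (2 * ‖v‖) := by positivity
      have hzs : z + (ρ / (2 * ‖v‖)) • v ∈ face (poly T) n := by
        have hin2 : ⟪n, z + (ρ / (2 * ‖v‖)) • v⟫_ℝ = ⟪n, z⟫_ℝ := by
          rw [inner_add_right, real_inner_smul_right, hv, mul_zero, add_zero]
        refine (hF _).2 ⟨hin _ ?_ hin2, hin2⟩
        rw [dist_eq_norm, add_sub_cancel_left, norm_smul, Real.norm_eq_abs, abs_of_pos hs]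
        have : ρ / (2 * ‖v‖) * ‖v‖ = ρ / 2 := by field_simp
        rw [this]; linarith
      have h1 := vsub_mem_vectorSpan ℝ hzs hzF
      rw [vsub_eq_sub, add_sub_cancel_left] at h1
      have h2 := Submodule.smul_mem _ (ρ / (2 * ‖v‖))⁻¹ h1
      rwa [smul_smul, inv_mul_cancel₀ hs.ne', one_smul] at h2
  have hfin : Module.finrank ℝ (vectorSpan ℝ (face (poly T) n)) = 2 := by
    rw [hspan]
    have : Fact (Module.finrank ℝ E3 = 2 + 1) := ⟨by simp⟩
    exact Submodule.finrank_orthogonal_span_singleton hn0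
  refine ⟨⟨n, hn0, rfl, hfin⟩, z, ?_, ?_⟩
  · rw [mem_intrinsicInterior]
    refine ⟨⟨z, subset_affineSpan ℝ _ hzF⟩, ?_, rfl⟩
    rw [mem_interior_iff_mem_nhds, Metric.mem_nhds_iff]
    refine ⟨ρ, hρ, fun w hw => ?_⟩
    have hw1 : dist (w : E3) z < ρ := hw
    have hw2 : (w : E3) -ᵥ z ∈ (affineSpan ℝ (face (poly T) n)).direction :=
      AffineSubspace.vsub_mem_direction w.2 (subset_affineSpan ℝ _ hzF)
    rw [direction_affineSpan, hspan, Submodule.mem_orthogonal_singleton_iff_inner_right,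
      vsub_eq_sub, inner_sub_right, sub_eq_zero] at hw2
    exact (hF _).2 ⟨hin _ hw1 hw2, hw2⟩
  · intro x hx
    have h1 := ((hF x).1 hx).2
    have h2 : com (poly T) - z = -n := by rw [hn]; abel
    rw [h2, inner_neg_left, inner_sub_right, h1, sub_self, neg_zero]


end N_stable_of_active

alias stable_of_active := N_stable_of_active.stable_of_active

end Pool.Agent.Helper524.Mono
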