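import Pool.Agent.Helper524.Mono.Gen
import Pool.Agent.Helper524.Mono.S_approx_of_spanning
import Pool.Agent.Helper524.Mono.S_approx_of_raise
import Pool.Agent.Helper524.Mono.S_rigid
import Pool.Agent.Helper524.Mono.S_lower_half
import Pool.Agent.Helper524.Mono.S_bump_basic
import Pool.Agent.Helper524.Mono.S_bump
import Pool.Agent.Helper524.Mono.S_bump_persist
import Pool.Agent.Helper524.Mono.S_hausdorff_of_sandwich
import Pool.Agent.Helper524.Mono.S_approx_closed

set_option autoImplicit false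

open MeasureTheory Set Metric
open scoped InnerProductSpace

namespace Pool.Agent.Helper524.Mono

namespace N_suff_centered




















/-- an orthonormal family with points of `XJ K` on both sides -/
def Fam (K : Set E3) (j : ℕ) : Prop :=
  ∃ c : Fin j → E3, Orthonormal ℝ c ∧ ∃ t : Fin j → ℝ, (∀ i, 0 < t i) ∧
    ∀ i, (t i) • c i ∈ XJ K ∧ (-(t i)) • c i ∈ XJ K

lemma orthonormal_cons {j : ℕ} {c : Fin j → E3} (hc : Orthonormal ℝ c) {b : E3} (hb : ‖b‖ = 1)
    (hbc : ∀ i, ⟪b, c i⟫_ℝ = 0) : Orthonormal ℝ (Fin.cons b c : Fin (j + 1) → E3) := by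
  constructor
  · intro i
    refine Fin.cases ?_ (fun i => ?_) i
    · simpa using hb
    · simpa using hc.1 i
  · intro i k
    refine Fin.cases ?_ (fun i => ?_) i <;> refine Fin.cases ?_ (fun k => ?_) k
    · intro h; exact absurd rfl h
    · intro _; simpa using hbc k
    · intro _; simpa [real_inner_comm] using hbc i
    · intro h
      have h' : i ≠ k := fun h' => h (by rw [h'])
      simpa using hc.2 h'

lemma fam_step (K : Set E3) (hK : CB K) (hSB : SB (supp K)) (j : ℕ) (hF : Fam K j)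
    (hnext : ∀ K' : Set E3, CB K' → SB (supp K') → Fam K' (j + 1) → Approximable K') :
    Approximable K := by
  have hKc := hK.1
  have hKv := hK.2.1
  have h0i := hK.2.2.1
  have h0 : (0 : E3) ∈ K := interior_subset h0i
  have hne : K.Nonempty := ⟨0, h0⟩
  -- minimiser
  have hsph : IsCompact (sphere (0 : E3) 1) := isCompact_sphere _ _
  have hsne : (sphere (0 : E3) 1).Nonempty := NormedSpace.sphere_nonempty.2 zero_le_one
  obtain ⟨v0, hv0, hv0m⟩ := hsph.exists_isMinOn hsne (continuous_supp hKc hne).continuousOn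
  have hv0n : ‖v0‖ = 1 := by simpa using hv0
  have hmin0 : ∀ v : E3, ‖v‖ = 1 → supp K v0 ≤ supp K v := by
    intro v hv
    exact hv0m (by simpa using hv)
  by_cases h3 : ∀ b : E3, ‖b‖ = 1 → (∀ x ∈ XJ K, 0 ≤ ⟪b, x⟫_ℝ) → supp K v0 < supp K (-b)
  · exact approx_of_raise K hK hSB v0 hv0n hmin0 h3
  push Not at h3
  obtain ⟨b, hb, hB, hbm⟩ := h3
  have hmin1 : ∀ v : E3, ‖v‖ = 1 → supp K (-b) ≤ supp K v := fun v hv =>
    hbm.trans (hmin0 v hv)
  have hrig := rigid K hK b hb hB hmin1
  have hbb : ⟪b, b⟫_ℝ = 1 := by rw [real_inner_self_eq_norm_sq, hb]; norm_num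
  -- the reflection
  have hσin : ∀ v x : E3, ⟪v - (2 * ⟪b, v⟫_ℝ) • b, x⟫_ℝ = ⟪v, x - (2 * ⟪b, x⟫_ℝ) • b⟫_ℝ := by
    intro v x
    rw [inner_sub_left, inner_sub_right, real_inner_smul_left, real_inner_smul_right,
      real_inner_comm v b]
    ring
  have hσσ : ∀ v : E3, (v - (2 * ⟪b, v⟫_ℝ) • b) -
      (2 * ⟪b, v - (2 * ⟪b, v⟫_ℝ) • b⟫_ℝ) • b = v := by
    intro v
    have : ⟪b, v - (2 * ⟪b, v⟫_ℝ) • b⟫_ℝ = - ⟪b, v⟫_ℝ := by
      rw [inner_sub_right, real_inner_smul_right, hbb]; ring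
    rw [this]
    module
  have hσle : ∀ v : E3, supp K (v - (2 * ⟪b, v⟫_ℝ) • b) ≤ supp K v := by
    intro v
    refine supp_le hne fun x hx => ?_
    rw [hσin]
    exact inner_le_supp hKc (hrig x hx) v
  have hσeq : ∀ v : E3, supp K (v - (2 * ⟪b, v⟫_ℝ) • b) = supp K v := by
    intro v
    refine le_antisymm (hσle v) ?_
    have := hσle (v - (2 * ⟪b, v⟫_ℝ) • b)
    rwa [hσσ] at this
  have hσn : ∀ v : E3, ‖v - (2 * ⟪b, v⟫_ℝ) • b‖ = ‖v‖ := by
    intro v
    have h1 : ‖v - (2 * ⟪b, v⟫_ℝ) • b‖ ^ 2 = ‖v‖ ^ 2 := by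
      rw [← real_inner_self_eq_norm_sq, ← real_inner_self_eq_norm_sq, hσin, hσσ]
    exact (pow_left_inj₀ (norm_nonneg _) (norm_nonneg _) two_ne_zero).1 h1
  have hsb : supp K b = supp K (-b) := by
    have h1 := hσeq (-b)
    rw [inner_neg_right, hbb] at h1
    rw [← h1]
    congr 1
    module
  obtain ⟨-, ⟨θ, hθ, hflat0⟩, -⟩ := lower_half K hKc hKv h0i b hb hB
  have hflat : ∀ v : E3, ‖v‖ = 1 → (‖v - b‖ < θ ∨ ‖v + b‖ < θ) → supp K v = supp K b := by
    intro v hv h
    rcases h with h | h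
    · rw [hsb, ← hσeq v]
      refine hflat0 _ ((hσn v).trans hv) ?_
      have h1 := hσn (v - b)
      have h2 : v - (2 * ⟪b, v⟫_ℝ) • b + b = (v - b) - (2 * ⟪b, v - b⟫_ℝ) • b := by
        rw [inner_sub_right, hbb]
        module
      rw [h2, h1]
      exact h
    · rw [hsb]
      exact hflat0 v hv h
  have hmin : ∀ v : E3, ‖v‖ = 1 → supp K b ≤ supp K v := fun v hv => by
    rw [hsb]; exact hmin1 v hv
  -- positivity of m
  have hm : 0 < supp K b := by
    obtain ⟨r, hr, hrb⟩ := Metric.isOpen_iff.1 isOpen_interior 0 h0i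
    have h1 : closedBall (0 : E3) (r / 2) ⊆ K :=
      (closedBall_subset_ball (by linarith)).trans (hrb.trans interior_subset)
    have h2 := le_supp_of_ball hKc (by linarith) h1 hb
    linarith
  obtain ⟨s0, hs0, hbump⟩ := bump K hK hSB b hb θ hθ hmin hflat
  obtain ⟨c, hc, t, ht, hct⟩ := hF
  have hbc : ∀ i, ⟪b, c i⟫_ℝ = 0 := by
    intro i
    have h1 := hB _ (hct i).1
    have h2 := hB _ (hct i).2
    rw [real_inner_smul_right] at h1 h2
    have h3 : 0 ≤ ⟪b, c i⟫_ℝ := nonneg_of_mul_nonneg_right h1 (ht i)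
    have h4 : ⟪b, c i⟫_ℝ ≤ 0 := by
      by_contra h5
      push Not at h5
      nlinarith [ht i, mul_pos (ht i) h5]
    exact le_antisymm h4 h3
  obtain ⟨R, hR⟩ := hKc.isBounded.subset_closedBall (0 : E3)
  have hR0 : 0 ≤ R := by
    have := hR h0
    simpa using this
  refine approx_closed K ⟨hKc, hKv, ⟨0, h0i⟩⟩ fun ε hε => ?_
  have hev : ∀ x ∈ XJ K, ∀ᶠ s in nhdsWithin (0 : ℝ) (Ioi 0),
      ((∀ v : E3, ‖v‖ = 1 → supp (Bump K b (supp K b + s)) v =
        max (supp K v) ((supp K b + s) * |⟪b, v⟫_ℝ|)) → x ∈ XJ (Bump K b (supp K b + s))) := by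
    intro x hx
    obtain ⟨s1, hs1, h1⟩ := bump_persist K hK b hb hmin x hx
    filter_upwards [Ioo_mem_nhdsGT hs1] with s hs
    exact h1 s hs.1 hs.2
  have hε' : 0 < ε * supp K b / (2 * R + 1) := by positivity
  have hall : ∀ᶠ s in nhdsWithin (0 : ℝ) (Ioi 0), (0 < s ∧ s < s0 ∧ s < supp K b ∧
      s < ε * supp K b / (2 * R + 1)) ∧
      (∀ i : Fin j, ((∀ v : E3, ‖v‖ = 1 → supp (Bump K b (supp K b + s)) v =
        max (supp K v) ((supp K b + s) * |⟪b, v⟫_ℝ|)) →
          (t i) • c i ∈ XJ (Bump K b (supp K b + s)))) ∧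
      (∀ i : Fin j, ((∀ v : E3, ‖v‖ = 1 → supp (Bump K b (supp K b + s)) v =
        max (supp K v) ((supp K b + s) * |⟪b, v⟫_ℝ|)) →
          (-(t i)) • c i ∈ XJ (Bump K b (supp K b + s)))) := by
    refine Filter.Eventually.and ?_ (Filter.Eventually.and ?_ ?_)
    · filter_upwards [Ioo_mem_nhdsGT hs0, Ioo_mem_nhdsGT hm, Ioo_mem_nhdsGT hε'] with s h1 h2 h3
      exact ⟨h1.1, h1.2, h2.2, h3.2⟩
    · exact Filter.eventually_all.2 fun i => hev _ (hct i).1
    · exact Filter.eventually_all.2 fun i => hev _ (hct i).2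
  obtain ⟨s, ⟨hs, hss0, hsm, hsε⟩, hp1, hp2⟩ := hall.exists
  obtain ⟨hCB, hSB', hx1, hx2, hform⟩ := hbump s hs hss0
  obtain ⟨-, -, hsub, -, -, -, hshr⟩ := bump_basic K hKc hKv hne b hb (supp K b) s hm hs hmin
  have hm' : 0 < supp K b + s := by linarith
  refine ⟨Bump K b (supp K b + s), ⟨hCB.1, hCB.2.1, ⟨0, hCB.2.2.1⟩⟩, ?_, ?_⟩
  · refine hnext _ hCB hSB' ⟨Fin.cons b c, orthonormal_cons hc hb hbc,
      Fin.cons (supp K b + s) t, ?_, ?_⟩
    · intro i
      refine Fin.cases ?_ (fun i => ?_) i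
      · simpa using hm'
      · simpa using ht i
    · intro i
      refine Fin.cases ?_ (fun i => ?_) i
      · simp only [Fin.cons_zero]
        exact ⟨hx1, hx2⟩
      · simp only [Fin.cons_succ]
        exact ⟨hp1 i hform, hp2 i hform⟩
  · have ht0 : 0 < supp K b / (supp K b + s) := by positivity
    have ht1 : supp K b / (supp K b + s) < 1 := by
      rw [div_lt_one hm']; linarith
    have hle : hausdorffDist K (Bump K b (supp K b + s)) ≤
        (1 - supp K b / (supp K b + s)) * (2 * R) := by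
      refine hausdorff_of_sandwich K (Bump K b (supp K b + s)) (2 * R)
        (supp K b / (supp K b + s)) (by linarith) ht0 ht1 ?_ ?_ ?_ hshr
      · exact hR.trans (closedBall_subset_closedBall (by linarith))
      · intro x hx
        have h1 := hR (hshr x hx)
        rw [mem_closedBall_zero_iff, norm_smul, Real.norm_eq_abs, abs_of_pos ht0] at h1
        rw [mem_closedBall_zero_iff]
        have h2 : (1 / 2 : ℝ) ≤ supp K b / (supp K b + s) := by
          rw [div_le_div_iff₀ (by norm_num) hm']; linarith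
        nlinarith [norm_nonneg x]
      · intro x hx
        refine hsub ?_
        have := hKv h0 hx (a := 1 - supp K b / (supp K b + s)) (b := supp K b / (supp K b + s))
          (by linarith) ht0.le (by ring)
        simpa using this
    refine lt_of_le_of_lt hle ?_
    have h1 : 1 - supp K b / (supp K b + s) ≤ s / supp K b := by
      rw [one_sub_div hm'.ne', add_sub_cancel_left]
      exact div_le_div_of_nonneg_left hs.le hm (by linarith)
    have h2 : s * (2 * R + 1) < ε * supp K b := (lt_div_iff₀ (by linarith)).1 hsε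
    calc (1 - supp K b / (supp K b + s)) * (2 * R) ≤ (s / supp K b) * (2 * R) :=
          mul_le_mul_of_nonneg_right h1 (by linarith)
      _ = (s * (2 * R)) / supp K b := by ring
      _ < ε := by
        rw [div_lt_iff₀ hm]
        nlinarith

/-- TARGET -/
theorem suff_centered (K : Set E3) (hK : CB K) (hSB : SB (supp K)) : Approximable K := by
  have key : ∀ n : ℕ, n ≤ 4 → ∀ K : Set E3, CB K → SB (supp K) → Fam K (4 - n) →
      Approximable K := by
    intro n
    induction n with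
    | zero =>
      intro _ K _ _ hF
      exfalso
      obtain ⟨c, hc, -⟩ := hF
      have h1 := hc.linearIndependent.fintype_card_le_finrank
      simp at h1
    | succ n ih =>
      intro hn K hK hSB hF
      refine fam_step K hK hSB (4 - (n + 1)) hF ?_
      intro K' h1 h2 h3
      have h4 : 4 - (n + 1) + 1 = 4 - n := by omega
      rw [h4] at h3
      exact ih (by omega) K' h1 h2 h3
  refine key 4 le_rfl K hK hSB ?_
  exact ⟨fun i => i.elim0, ⟨fun i => i.elim0, fun i => i.elim0⟩, fun i => i.elim0,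
    fun i => i.elim0, fun i => i.elim0⟩


end N_suff_centered

alias suff_centered := N_suff_centered.suff_centered

end Pool.Agent.Helper524.Mono
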