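import Pool.Agent.Helper524.Mono.S_suff_centered
import Pool.Agent.Helper524.Mono.S_centered
import Pool.Agent.Helper524.Mono.S_approx_translate

set_option autoImplicit false

open MeasureTheory Set Metric
open scoped InnerProductSpace

namespace Pool.Agent.Helper524.Mono

theorem sufficiency (K : Set E3) (hK : IsBody K) (hS : SingleBasin K) : Approximable K := by
  obtain ⟨hC, hsupp⟩ := centered K hK
  have hSB : SB (supp ((fun x => x - com K) '' K)) := by
    intro r
    have h := hS r
    have e : {u : E3 | ‖u‖ = 1 ∧ supp ((fun x => x - com K) '' K) u < r} =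
        {u : E3 | ‖u‖ = 1 ∧ height K u < r} := by
      ext u
      simp only [mem_setOf_eq, hsupp]
    rw [e]
    exact h
  have hA := suff_centered _ hC hSB
  refine approx_translate K (-com K) hK ?_
  have e2 : (fun x : E3 => x + -com K) = fun x => x - com K := by
    funext x
    rw [sub_eq_add_neg]
  rw [e2]
  exact hA

end Pool.Agent.Helper524.Mono
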